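import Pool.Agent.H15.RV.Defs

/-!
# Row A2: elementary bounds in the medium range

Proofs. `ℓ = log n → ∞`, `ℓ/8 ≤ n p ≤ ℓ^2`. `p ≥ ℓ/(8n) > 0`; `p ≤ ℓ^2/n → 0`; `n p ≥ ℓ/8 ≥ K`; `1/p ≥ n/ℓ^2 ≥ K ℓ` for large `n`
(`ℓ^3/n → 0`); `K ℓ ≤ n`. (`Real.isLittleO_pow_log_id_atTop` or `Real.isLittleO_log_id_atTop`, or `exp ℓ = n` and
`Real.tendsto_pow_mul_exp_neg_atTop_nhds_zero`.)
`an_root2`: `log ℓ/p = n log ℓ/(n p) ≤ 8 n (log ℓ)/ℓ`, and `K (ℓ + 8 n (log ℓ)/ℓ) ≤ n` for large `n` (for `K ≤ 0` the left hand side is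
`≤ 0`). `one_sub_low2`: `-log (1-p) ≤ p/(1-p) ≤ p + 2 p^2` for `0 ≤ p ≤ 1/2`; so `(1-p)^k ≥ exp (-(k (p + 2 p^2)))`.
-/

set_option autoImplicit false

open Finset Pool.Agent.H15.RU

namespace Pool.Agent.H15.RV

theorem A2_cube (K : ℝ) : ∃ N : ℕ, ∀ n : ℕ, n ≥ N → K * Real.log n ^ 3 ≤ n := by
  have h1 := Real.isLittleO_pow_log_id_atTop (n := 3)
  have h2 : (0 : ℝ) < 1 / (|K| + 1) := by positivity
  have h3 := (h1.def h2)
  have h4 := tendsto_natCast_atTop_atTop (R := ℝ) |>.eventually h3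
  obtain ⟨N, hN⟩ := Filter.eventually_atTop.1 h4
  refine ⟨N, fun n hn => ?_⟩
  have h5 := hN n hn
  simp only [id, Real.norm_eq_abs, Nat.abs_cast] at h5
  have h6 : (|K| + 1) * |Real.log n ^ 3| ≤ n := by
    have h7 : (0 : ℝ) < |K| + 1 := by positivity
    calc (|K| + 1) * |Real.log n ^ 3| ≤ (|K| + 1) * (1 / (|K| + 1) * n) := by gcongr
      _ = n := by field_simp
  calc K * Real.log n ^ 3 ≤ |K * Real.log n ^ 3| := le_abs_self _
    _ = |K| * |Real.log n ^ 3| := abs_mul _ _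
    _ ≤ (|K| + 1) * |Real.log n ^ 3| := by
        have := abs_nonneg (Real.log n ^ 3)
        nlinarith
    _ ≤ n := h6

theorem A2_log (K : ℝ) : ∃ N : ℕ, ∀ n : ℕ, n ≥ N → K ≤ Real.log n := by
  have h1 : Filter.Tendsto (fun n : ℕ => Real.log n) Filter.atTop Filter.atTop :=
    Real.tendsto_log_atTop.comp tendsto_natCast_atTop_atTop
  exact Filter.eventually_atTop.1 (h1.eventually_ge_atTop K)

theorem A2_loglog (K : ℝ) : ∃ N : ℕ, ∀ n : ℕ, n ≥ N →
    K * Real.log (Real.log n) ≤ Real.log n := by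
  have h0 : Filter.Tendsto (fun n : ℕ => Real.log n) Filter.atTop Filter.atTop :=
    Real.tendsto_log_atTop.comp tendsto_natCast_atTop_atTop
  have h1 := Real.isLittleO_log_id_atTop
  have h2 : (0 : ℝ) < 1 / (|K| + 1) := by positivity
  have h3 := (h1.def h2)
  have h4 := h0.eventually (h3.and (Filter.eventually_ge_atTop 0))
  obtain ⟨N, hN⟩ := Filter.eventually_atTop.1 h4
  refine ⟨N, fun n hn => ?_⟩
  obtain ⟨h5, h8⟩ := hN n hn
  simp only [id, Real.norm_eq_abs] at h5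
  rw [abs_of_nonneg h8] at h5
  have h6 : (|K| + 1) * |Real.log (Real.log n)| ≤ Real.log n := by
    have h7 : (0 : ℝ) < |K| + 1 := by positivity
    calc (|K| + 1) * |Real.log (Real.log n)| ≤ (|K| + 1) * (1 / (|K| + 1) * Real.log n) := by gcongr
      _ = Real.log n := by field_simp
  calc K * Real.log (Real.log n) ≤ |K * Real.log (Real.log n)| := le_abs_self _
    _ = |K| * |Real.log (Real.log n)| := abs_mul _ _
    _ ≤ (|K| + 1) * |Real.log (Real.log n)| := by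
        have := abs_nonneg (Real.log (Real.log n))
        nlinarith
    _ ≤ Real.log n := h6

theorem med_all (K : ℝ) : ∃ N : ℕ, ∀ n ≥ N, ∀ p : ℝ, Med n p →
    0 < p ∧ p ≤ 1 / 16 ∧ K ≤ n * p ∧ K * Real.log n ≤ 1 / p ∧ K * Real.log n ≤ n := by
  obtain ⟨N1, h1⟩ := A2_cube (16 + |K|)
  obtain ⟨N2, h2⟩ := A2_log (max 1 (8 * K))
  refine ⟨max N1 N2, fun n hn p hp => ?_⟩
  have e1 := h1 n (le_trans (le_max_left _ _) hn)
  have e2 := h2 n (le_trans (le_max_right _ _) hn)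
  have e3 : 1 ≤ Real.log n := le_trans (le_max_left _ _) e2
  have e4 : 8 * K ≤ Real.log n := le_trans (le_max_right _ _) e2
  obtain ⟨m1, m2⟩ := hp
  set l := Real.log n with hl
  have hK := abs_nonneg K
  have hK' := le_abs_self K
  have l2 : 1 ≤ l ^ 2 := one_le_pow₀ e3
  have l3 : l ^ 2 ≤ l ^ 3 := pow_le_pow_right₀ e3 (by norm_num)
  have l4 : l ≤ l ^ 3 := le_self_pow₀ e3 (by norm_num)
  have hn0 : (0 : ℝ) < n := by nlinarith
  have hp0 : 0 < p := by
    by_contra hcon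
    push Not at hcon
    nlinarith
  refine ⟨hp0, ?_, ?_, ?_, ?_⟩
  · have h3 : (n : ℝ) * p ≤ n * (1 / 16) := by nlinarith
    exact le_of_mul_le_mul_left h3 hn0
  · linarith
  · rw [le_div_iff₀ hp0]
    have h3 : (n : ℝ) * (K * l * p) ≤ n * 1 := by
      calc (n : ℝ) * (K * l * p) = K * l * (n * p) := by ring
        _ ≤ |K| * l * (n * p) := by
          have : 0 ≤ l * (n * p) := by positivity
          nlinarith
        _ ≤ |K| * l * l ^ 2 := by gcongr
        _ = |K| * l ^ 3 := by ring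
        _ ≤ n * 1 := by nlinarith
    exact le_of_mul_le_mul_left h3 hn0
  · calc K * l ≤ |K| * l := by nlinarith
      _ ≤ |K| * l ^ 3 := by gcongr
      _ ≤ n := by nlinarith

theorem an_root2 (K : ℝ) : ∃ N : ℕ, ∀ n ≥ N, ∀ p : ℝ, Med n p →
    K * (Real.log n + Real.log (Real.log n) / p) ≤ n := by
  obtain ⟨N1, h1⟩ := A2_cube (2 * |K|)
  obtain ⟨N2, h2⟩ := A2_log 1
  obtain ⟨N3, h3⟩ := A2_loglog (16 * |K|)
  obtain ⟨N4, h4⟩ := med_all 1
  refine ⟨max (max N1 N2) (max N3 N4), fun n hn p hp => ?_⟩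
  have e1 := h1 n (le_trans (le_trans (le_max_left _ _) (le_max_left _ _)) hn)
  have e2 := h2 n (le_trans (le_trans (le_max_right _ _) (le_max_left _ _)) hn)
  have e3 := h3 n (le_trans (le_trans (le_max_left _ _) (le_max_right _ _)) hn)
  obtain ⟨hp0, -, -, -, hn1⟩ := h4 n (le_trans (le_trans (le_max_right _ _) (le_max_right _ _)) hn) p hp
  have m1 := hp.1
  set l := Real.log n with hl
  have hK := abs_nonneg K
  have l4 : l ≤ l ^ 3 := le_self_pow₀ e2 (by norm_num)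
  have hl0 : 0 < l := by linarith
  have hn0 : (0 : ℝ) < n := by linarith
  have hll : 0 ≤ Real.log l := Real.log_nonneg e2
  have h5 : 1 / p ≤ 8 * n / l := by
    rw [div_le_div_iff₀ hp0 hl0]
    linarith
  have h6 : Real.log l / p ≤ Real.log l * (8 * n / l) := by
    rw [div_eq_mul_one_div]
    gcongr
  have h7 : 0 ≤ l + Real.log l / p := by positivity
  have h8 : 16 * |K| * Real.log l * n ≤ l * n := by gcongr
  have h9 : |K| * (Real.log l * (8 * n / l)) ≤ n / 2 := by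
    have h10 : |K| * (Real.log l * (8 * n / l)) = (16 * |K| * Real.log l * n) / l / 2 := by
      field_simp
      ring
    rw [h10]
    have h11 : (16 * |K| * Real.log l * n) / l ≤ n := by
      rw [div_le_iff₀ hl0]
      linarith
    linarith
  have h12 : |K| * l ≤ n / 2 := by
    have : |K| * l ≤ |K| * l ^ 3 := by gcongr
    linarith
  calc K * (l + Real.log l / p) ≤ |K| * (l + Real.log l / p) := by
        have := le_abs_self K
        gcongr
    _ = |K| * l + |K| * (Real.log l / p) := by ring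
    _ ≤ |K| * l + |K| * (Real.log l * (8 * n / l)) := by gcongr
    _ ≤ n := by linarith

theorem one_sub_low2 {p : ℝ} (h0 : 0 ≤ p) (h1 : p ≤ 1 / 2) (k : ℕ) :
    Real.exp (-(k * (p + 2 * p ^ 2))) ≤ (1 - p) ^ k := by
  have h2 : 0 < 1 - p := by linarith
  have h3 := Real.one_sub_inv_le_log_of_pos h2
  have h4 : -(p + 2 * p ^ 2) ≤ Real.log (1 - p) := by
    have h5 : (1 - p)⁻¹ ≤ 1 + (p + 2 * p ^ 2) := by
      rw [inv_le_comm₀ h2 (by positivity), inv_le_iff_one_le_mul₀ (by positivity)]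
      nlinarith [mul_nonneg (sq_nonneg p) (by linarith : (0 : ℝ) ≤ 1 - 2 * p)]
    linarith
  have h6 : Real.exp (-(p + 2 * p ^ 2)) ≤ 1 - p := by
    calc Real.exp (-(p + 2 * p ^ 2)) ≤ Real.exp (Real.log (1 - p)) := Real.exp_le_exp.mpr h4
      _ = 1 - p := Real.exp_log h2
  calc Real.exp (-(k * (p + 2 * p ^ 2))) = Real.exp (-(p + 2 * p ^ 2)) ^ k := by
        rw [← Real.exp_nat_mul]
        congr 1
        ring
    _ ≤ (1 - p) ^ k := by gcongr

end Pool.Agent.H15.RV
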