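import Pool.Agent.H15.RV.Defs

/-!
# Row Ch: the number of singleton rows (second moment)

Notation `α = al n p`, `u = (1 - α)^m`, `Y = #(points not in sg M)`. Proofs. For a point `y` the indicator of `y ∉ sg M` is
`∏ i, [M i ≠ {y}]`, with expectation `(1 - α)^m = u` (`Ex_prod`, `sum_wr` minus `wr p {y} = α`), and for `y ≠ z` the indicator of
`y, z ∉ sg M` has expectation `(1 - 2 α)^m`. So `Ex Y = n u`, `Ex Y^2 = n u + n (n-1) (1 - 2α)^m`.
Since `0 ≤ 1 - 2 α ≤ (1 - α)^2` (`α ≤ 1/3`): `(1 - 2α)^m ≤ u^2`, so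
`Ex (Y - n u)^2 ≤ n u + n (n-1) u^2 - n^2 u^2 = n u (1 - u)` .
`ch_Y`: `2 Y < n u` implies `(n u / 2)^2 ≤ (Y - n u)^2`; `markov` gives `n u (1-u) * 4 / (n u)^2 ≤ 4 / (n u)`.
`ch_Z`: `(sg M).card = n - Y`; `2 (n - Y) < n (1 - u)` implies `(n (1-u) / 2)^2 ≤ (Y - n u)^2`; similarly.
`ch_ZY`: `(sg M).card * Y = ∑ over y ≠ z of [y ∉ sg M] - [y ∉ sg M ∧ z ∉ sg M]` (`z ∈ sg M`), with expectation
`n (n-1) (u - (1 - 2α)^m) ≤ n^2 (u - (1-2α)^m)`. Here `(1 - α)^3 ≤ 1 - 2 α` for `0 ≤ α ≤ 1/3`, so `(1 - 2α)^m ≥ u^3` and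
`u - u^3 = u (1 - u) (1 + u) ≤ 2 u (1 - u)`.
-/

set_option autoImplicit false

open Finset Pool.Agent.H15.RU

namespace Pool.Agent.H15.RV

theorem Ch_al_nonneg {n : ℕ} {p : ℝ} (h0 : 0 ≤ p) (h1 : p ≤ 1) : 0 ≤ al n p :=
  mul_nonneg h0 (pow_nonneg (by linarith) _)

theorem Ch_wr_single {n : ℕ} (p : ℝ) (y : Fin n) : wr p {y} = al n p := by
  unfold wr al
  rw [Finset.card_singleton, pow_one]

theorem Ch_sum1 {n : ℕ} (p : ℝ) (y : Fin n) :
    ∑ E : Finset (Fin n), wr p E * (if E = {y} then (0 : ℝ) else 1) = 1 - al n p := by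
  have h : ∀ E : Finset (Fin n), wr p E * (if E = {y} then (0 : ℝ) else 1) =
      wr p E - (if E = {y} then al n p else 0) := by
    intro E
    by_cases hE : E = {y}
    · rw [if_pos hE, if_pos hE, hE, Ch_wr_single]
      ring
    · rw [if_neg hE, if_neg hE]
      ring
  rw [Finset.sum_congr rfl fun E _ => h E, Finset.sum_sub_distrib, sum_wr,
    Finset.sum_ite_eq' univ ({y} : Finset (Fin n)), if_pos (Finset.mem_univ _)]

theorem Ch_sum2 {n : ℕ} (p : ℝ) {y z : Fin n} (hyz : y ≠ z) :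
    ∑ E : Finset (Fin n), wr p E * (if E = {y} ∨ E = {z} then (0 : ℝ) else 1) =
      1 - 2 * al n p := by
  have hne : ({y} : Finset (Fin n)) ≠ {z} := fun h => hyz (Finset.singleton_injective h)
  have h : ∀ E : Finset (Fin n), wr p E * (if E = {y} ∨ E = {z} then (0 : ℝ) else 1) =
      wr p E - (if E = {y} then al n p else 0) - (if E = {z} then al n p else 0) := by
    intro E
    by_cases hE : E = {y}
    · have hE' : E ≠ {z} := fun h => hne (hE.symm.trans h)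
      rw [if_pos (Or.inl hE), if_pos hE, if_neg hE', hE, Ch_wr_single]
      ring
    · by_cases hE' : E = {z}
      · rw [if_pos (Or.inr hE'), if_neg hE, if_pos hE', hE', Ch_wr_single]
        ring
      · rw [if_neg (not_or.2 ⟨hE, hE'⟩), if_neg hE, if_neg hE']
        ring
  rw [Finset.sum_congr rfl fun E _ => h E, Finset.sum_sub_distrib, Finset.sum_sub_distrib, sum_wr,
    Finset.sum_ite_eq' univ ({y} : Finset (Fin n)), if_pos (Finset.mem_univ _),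
    Finset.sum_ite_eq' univ ({z} : Finset (Fin n)), if_pos (Finset.mem_univ _)]
  ring

/-- the indicator of `y` not being a singleton row -/
noncomputable def Ch_I {m n : ℕ} (M : Mat m n) (y : Fin n) : ℝ :=
  open Classical in if y ∈ sg M then 0 else 1

theorem Ch_mem_sg {m n : ℕ} (M : Mat m n) (y : Fin n) : y ∈ sg M ↔ ∃ i, M i = {y} := by
  unfold sg
  rw [Finset.mem_filter]
  exact ⟨fun h => h.2, fun h => ⟨Finset.mem_univ _, h⟩⟩

theorem Ch_I_prod {m n : ℕ} (M : Mat m n) (y : Fin n) :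
    Ch_I M y = ∏ i, (if M i = {y} then (0 : ℝ) else 1) := by
  unfold Ch_I
  by_cases h : y ∈ sg M
  · rw [if_pos h]
    obtain ⟨i, hi⟩ := (Ch_mem_sg M y).1 h
    refine (Finset.prod_eq_zero (f := fun i => if M i = {y} then (0 : ℝ) else 1)
      (Finset.mem_univ i) ?_).symm
    exact if_pos hi
  · rw [if_neg h]
    refine (Finset.prod_eq_one fun i _ => ?_).symm
    rw [if_neg]
    exact fun hi => h ((Ch_mem_sg M y).2 ⟨i, hi⟩)

theorem Ch_II_prod {m n : ℕ} (M : Mat m n) (y z : Fin n) :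
    Ch_I M y * Ch_I M z = ∏ i, (if M i = {y} ∨ M i = {z} then (0 : ℝ) else 1) := by
  rw [Ch_I_prod, Ch_I_prod, ← Finset.prod_mul_distrib]
  refine Finset.prod_congr rfl fun i _ => ?_
  by_cases h1 : M i = {y}
  · rw [if_pos h1, if_pos (Or.inl h1), zero_mul]
  · by_cases h2 : M i = {z}
    · rw [if_pos h2, if_pos (Or.inr h2), mul_zero]
    · rw [if_neg h1, if_neg h2, if_neg (not_or.2 ⟨h1, h2⟩), one_mul]

theorem Ch_Ex_I {m n : ℕ} (p : ℝ) (y : Fin n) :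
    Ex p (fun M : Mat m n => Ch_I M y) = (1 - al n p) ^ m := by
  have e : (fun M : Mat m n => Ch_I M y) =
      fun M => ∏ i, (if M i = {y} then (0 : ℝ) else 1) :=
    funext fun M => Ch_I_prod M y
  rw [e]
  refine (Ex_prod (p := p) (fun (_ : Fin m) (E : Finset (Fin n)) =>
    if E = {y} then (0 : ℝ) else 1)).trans ?_
  simp only [Ch_sum1]
  rw [Finset.prod_const, Finset.card_univ, Fintype.card_fin]

theorem Ch_Ex_II {m n : ℕ} (p : ℝ) {y z : Fin n} (hyz : y ≠ z) :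
    Ex p (fun M : Mat m n => Ch_I M y * Ch_I M z) = (1 - 2 * al n p) ^ m := by
  have e : (fun M : Mat m n => Ch_I M y * Ch_I M z) =
      fun M => ∏ i, (if M i = {y} ∨ M i = {z} then (0 : ℝ) else 1) :=
    funext fun M => Ch_II_prod M y z
  rw [e]
  refine (Ex_prod (p := p) (fun (_ : Fin m) (E : Finset (Fin n)) =>
    if E = {y} ∨ E = {z} then (0 : ℝ) else 1)).trans ?_
  simp only [Ch_sum2 p hyz]
  rw [Finset.prod_const, Finset.card_univ, Fintype.card_fin]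

theorem Ch_I_sq {m n : ℕ} (M : Mat m n) (y : Fin n) : Ch_I M y * Ch_I M y = Ch_I M y := by
  unfold Ch_I
  split_ifs <;> norm_num

theorem Ch_Y_eq {m n : ℕ} (M : Mat m n) : (((sg M)ᶜ.card : ℕ) : ℝ) = ∑ y, Ch_I M y := by
  classical
  unfold Ch_I
  rw [Finset.sum_ite, Finset.sum_const_zero, zero_add, Finset.sum_const, nsmul_eq_mul, mul_one]
  congr 2
  ext y
  simp

theorem Ch_Z_eq {m n : ℕ} (M : Mat m n) :
    (((sg M).card : ℕ) : ℝ) = n - (((sg M)ᶜ.card : ℕ) : ℝ) := by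
  have h := Finset.card_add_card_compl (sg M)
  rw [Fintype.card_fin] at h
  have h' : (((sg M).card : ℕ) : ℝ) + (((sg M)ᶜ.card : ℕ) : ℝ) = n := by exact_mod_cast h
  linarith

theorem Ch_Ex_Y {m n : ℕ} (p : ℝ) :
    Ex p (fun M : Mat m n => (((sg M)ᶜ.card : ℕ) : ℝ)) = n * (1 - al n p) ^ m := by
  have e : (fun M : Mat m n => (((sg M)ᶜ.card : ℕ) : ℝ)) =
      fun M => ∑ y ∈ (univ : Finset (Fin n)), (fun y M => Ch_I M y) y M :=
    funext fun M => Ch_Y_eq M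
  rw [e, Ex_sum]
  simp only [Ch_Ex_I]
  rw [Finset.sum_const, Finset.card_univ, Fintype.card_fin, nsmul_eq_mul]

theorem Ch_Ex_YY {m n : ℕ} (p : ℝ) :
    Ex p (fun M : Mat m n => (((sg M)ᶜ.card : ℕ) : ℝ) ^ 2) =
      n * (1 - al n p) ^ m + n * (n - 1) * (1 - 2 * al n p) ^ m := by
  have e : (fun M : Mat m n => (((sg M)ᶜ.card : ℕ) : ℝ) ^ 2) =
      fun M => ∑ y ∈ (univ : Finset (Fin n)),
        (fun y M => ∑ z ∈ (univ : Finset (Fin n)), (fun z M => Ch_I M y * Ch_I M z) z M) y M := by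
    funext M
    rw [Ch_Y_eq M, sq, Finset.sum_mul_sum]
  rw [e, Ex_sum]
  have h : ∀ y ∈ (univ : Finset (Fin n)),
      Ex p ((fun y (M : Mat m n) => ∑ z ∈ (univ : Finset (Fin n)),
        (fun z M => Ch_I M y * Ch_I M z) z M) y) =
      (1 - al n p) ^ m + (n - 1) * (1 - 2 * al n p) ^ m := by
    intro y _
    have e2 : ((fun y (M : Mat m n) => ∑ z ∈ (univ : Finset (Fin n)),
        (fun z M => Ch_I M y * Ch_I M z) z M) y) =
        (fun M : Mat m n => ∑ z ∈ (univ : Finset (Fin n)), (fun z M => Ch_I M y * Ch_I M z) z M) := rfl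
    rw [e2, Ex_sum, ← Finset.add_sum_erase _ _ (Finset.mem_univ y)]
    congr 1
    · simp only [Ch_I_sq]
      exact Ch_Ex_I p y
    · rw [Finset.sum_congr rfl (fun z hz => Ch_Ex_II (m := m) p (Finset.ne_of_mem_erase hz).symm),
        Finset.sum_const, Finset.card_erase_of_mem (Finset.mem_univ y), Finset.card_univ,
        Fintype.card_fin, nsmul_eq_mul]
      congr 1
      have : 1 ≤ n := by
        have := y.2
        omega
      push_cast [Nat.cast_sub this]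
      ring
  rw [Finset.sum_congr rfl h, Finset.sum_const, Finset.card_univ, Fintype.card_fin, nsmul_eq_mul]
  ring

theorem Ch_u_pos {n m : ℕ} {p u : ℝ} (ha : al n p ≤ 1 / 3) (hu : u = (1 - al n p) ^ m) :
    0 < u := by
  rw [hu]
  exact pow_pos (by linarith) _

theorem Ch_u_le {n m : ℕ} {p u : ℝ} (h0 : 0 ≤ p) (h1 : p ≤ 1) (ha : al n p ≤ 1 / 3)
    (hu : u = (1 - al n p) ^ m) : u ≤ 1 := by
  rw [hu]
  have := Ch_al_nonneg (n := n) h0 h1
  exact pow_le_one₀ (by linarith) (by linarith)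

theorem Ch_v_le {n m : ℕ} {p u : ℝ} (ha : al n p ≤ 1 / 3) (hu : u = (1 - al n p) ^ m) :
    (1 - 2 * al n p) ^ m ≤ u ^ 2 := by
  rw [hu, ← pow_mul, mul_comm m 2, pow_mul]
  refine pow_le_pow_left₀ (by linarith) ?_ _
  nlinarith [sq_nonneg (al n p)]

theorem Ch_v_ge {n m : ℕ} {p u : ℝ} (h0 : 0 ≤ p) (h1 : p ≤ 1) (ha : al n p ≤ 1 / 3)
    (hu : u = (1 - al n p) ^ m) : u ^ 3 ≤ (1 - 2 * al n p) ^ m := by
  have h := Ch_al_nonneg (n := n) h0 h1
  rw [hu, ← pow_mul, mul_comm m 3, pow_mul]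
  refine pow_le_pow_left₀ (pow_nonneg (by linarith) _) ?_ _
  nlinarith [mul_nonneg h (by linarith : 0 ≤ 1 - 3 * al n p), mul_nonneg (mul_nonneg h h) h]

theorem Ch_var {m n : ℕ} {p u : ℝ} (ha : al n p ≤ 1 / 3) (hn : 1 ≤ n)
    (hu : u = (1 - al n p) ^ m) :
    Ex p (fun M : Mat m n => ((((sg M)ᶜ.card : ℕ) : ℝ) - n * u) ^ 2) ≤ n * u * (1 - u) := by
  have e : (fun M : Mat m n => ((((sg M)ᶜ.card : ℕ) : ℝ) - n * u) ^ 2) =
      fun M => (fun M : Mat m n => (((sg M)ᶜ.card : ℕ) : ℝ) ^ 2) M +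
        (fun M : Mat m n => (-2 * n * u) * (((sg M)ᶜ.card : ℕ) : ℝ) + (n * u) ^ 2 * 1) M := by
    funext M
    ring
  have e2 : Ex p (fun M : Mat m n => (-2 * n * u) * (((sg M)ᶜ.card : ℕ) : ℝ) + (n * u) ^ 2 * 1) =
      (-2 * n * u) * (n * (1 - al n p) ^ m) + (n * u) ^ 2 * 1 := by
    rw [Ex_add (fun M : Mat m n => (-2 * n * u) * (((sg M)ᶜ.card : ℕ) : ℝ))
      (fun _ => (n * u) ^ 2 * 1), Ex_const_mul, Ex_const_mul, Ch_Ex_Y, Ex_one]
  rw [e, Ex_add, e2, Ch_Ex_YY, ← hu]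
  have hv := Ch_v_le (m := m) ha hu
  have hn' : (1 : ℝ) ≤ n := by exact_mod_cast hn
  have h3 : (n : ℝ) * (n - 1) * (1 - 2 * al n p) ^ m ≤ n * (n - 1) * u ^ 2 :=
    mul_le_mul_of_nonneg_left hv (mul_nonneg (by linarith) (by linarith))
  nlinarith

theorem ch_Y {m n : ℕ} {p u : ℝ} (h0 : 0 ≤ p) (h1 : p ≤ 1) (ha : al n p ≤ 1 / 3) (hn : 1 ≤ n)
    (hu : u = (1 - al n p) ^ m) :
    Pr p (fun M : Mat m n => 2 * (((sg M)ᶜ.card : ℕ) : ℝ) < n * u) ≤ 4 / (n * u) := by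
  have hu0 : 0 < u := Ch_u_pos ha hu
  have hn' : (1 : ℝ) ≤ n := by exact_mod_cast hn
  have hnu : 0 < (n : ℝ) * u := mul_pos (by linarith) hu0
  have hc : 0 < ((n : ℝ) * u / 2) ^ 2 := by positivity
  refine (Pr_mono h0 h1 (Q := fun M : Mat m n =>
    ((n : ℝ) * u / 2) ^ 2 ≤ ((((sg M)ᶜ.card : ℕ) : ℝ) - n * u) ^ 2) ?_).trans
    ((markov h0 h1 (fun M => sq_nonneg _) hc).trans ?_)
  · intro M hM
    have h2 : (n : ℝ) * u / 2 ≤ n * u - (((sg M)ᶜ.card : ℕ) : ℝ) := by linarith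
    have h3 := pow_le_pow_left₀ (by linarith : (0 : ℝ) ≤ n * u / 2) h2 2
    calc ((n : ℝ) * u / 2) ^ 2 ≤ (n * u - (((sg M)ᶜ.card : ℕ) : ℝ)) ^ 2 := h3
      _ = ((((sg M)ᶜ.card : ℕ) : ℝ) - n * u) ^ 2 := by ring
  · rw [div_le_div_iff₀ hc hnu]
    have hV := Ch_var ha hn hu
    calc Ex p (fun M : Mat m n => ((((sg M)ᶜ.card : ℕ) : ℝ) - n * u) ^ 2) * (n * u)
        ≤ (n * u * (1 - u)) * (n * u) := mul_le_mul_of_nonneg_right hV hnu.le
      _ ≤ (n * u * 1) * (n * u) := by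
          refine mul_le_mul_of_nonneg_right (mul_le_mul_of_nonneg_left ?_ hnu.le) hnu.le
          linarith
      _ = 4 * ((n : ℝ) * u / 2) ^ 2 := by ring

theorem ch_Z {m n : ℕ} {p u : ℝ} (h0 : 0 ≤ p) (h1 : p ≤ 1) (ha : al n p ≤ 1 / 3) (hn : 1 ≤ n)
    (hu : u = (1 - al n p) ^ m) (hu1 : u < 1) :
    Pr p (fun M : Mat m n => 2 * (((sg M).card : ℕ) : ℝ) < n * (1 - u)) ≤ 4 / (n * (1 - u)) := by
  have hu0 : 0 < u := Ch_u_pos ha hu
  have hn' : (1 : ℝ) ≤ n := by exact_mod_cast hn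
  have hnu : 0 < (n : ℝ) * (1 - u) := mul_pos (by linarith) (by linarith)
  have hc : 0 < ((n : ℝ) * (1 - u) / 2) ^ 2 := by positivity
  refine (Pr_mono h0 h1 (Q := fun M : Mat m n =>
    ((n : ℝ) * (1 - u) / 2) ^ 2 ≤ ((((sg M)ᶜ.card : ℕ) : ℝ) - n * u) ^ 2) ?_).trans
    ((markov h0 h1 (fun M => sq_nonneg _) hc).trans ?_)
  · intro M hM
    rw [Ch_Z_eq] at hM
    have h2 : (n : ℝ) * (1 - u) / 2 ≤ (((sg M)ᶜ.card : ℕ) : ℝ) - n * u := by linarith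
    exact pow_le_pow_left₀ (by linarith : (0 : ℝ) ≤ n * (1 - u) / 2) h2 2
  · rw [div_le_div_iff₀ hc hnu]
    have hV := Ch_var ha hn hu
    calc Ex p (fun M : Mat m n => ((((sg M)ᶜ.card : ℕ) : ℝ) - n * u) ^ 2) * (n * (1 - u))
        ≤ (n * u * (1 - u)) * (n * (1 - u)) := mul_le_mul_of_nonneg_right hV hnu.le
      _ = u * ((n * (1 - u)) * (n * (1 - u))) := by ring
      _ ≤ 1 * ((n * (1 - u)) * (n * (1 - u))) :=
          mul_le_mul_of_nonneg_right hu1.le (mul_nonneg hnu.le hnu.le)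
      _ = 4 * ((n : ℝ) * (1 - u) / 2) ^ 2 := by ring

theorem ch_ZY {m n : ℕ} {p u : ℝ} (h0 : 0 ≤ p) (h1 : p ≤ 1) (ha : al n p ≤ 1 / 3)
    (hu : u = (1 - al n p) ^ m) :
    Ex p (fun M : Mat m n => (((sg M).card : ℕ) : ℝ) * (((sg M)ᶜ.card : ℕ) : ℝ)) ≤
      2 * (n : ℝ) ^ 2 * (u * (1 - u)) := by
  have hu0 : 0 < u := Ch_u_pos ha hu
  have hu1 : u ≤ 1 := Ch_u_le h0 h1 ha hu
  have e : (fun M : Mat m n => (((sg M).card : ℕ) : ℝ) * (((sg M)ᶜ.card : ℕ) : ℝ)) =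
      fun M => (fun M : Mat m n => (n : ℝ) * (((sg M)ᶜ.card : ℕ) : ℝ)) M +
        (fun M : Mat m n => (-1) * (((sg M)ᶜ.card : ℕ) : ℝ) ^ 2) M := by
    funext M
    rw [Ch_Z_eq M]
    ring
  rw [e, Ex_add, Ex_const_mul, Ex_const_mul, Ch_Ex_Y, Ch_Ex_YY, ← hu]
  have hv1 := Ch_v_le (m := m) ha hu
  have hv2 := Ch_v_ge (m := m) h0 h1 ha hu
  set v := (1 - 2 * al n p) ^ m with hv
  have hn : (0 : ℝ) ≤ n := Nat.cast_nonneg n
  have h2 : u ^ 2 ≤ u := by nlinarith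
  have huv : 0 ≤ u - v := by linarith
  have h4 : u - v ≤ 2 * (u * (1 - u)) := by nlinarith [mul_nonneg hu0.le (sub_nonneg.2 hu1)]
  calc (n : ℝ) * (n * u) + -1 * (n * u + n * (n - 1) * v)
      = (n : ℝ) ^ 2 * (u - v) - n * (u - v) := by ring
    _ ≤ (n : ℝ) ^ 2 * (u - v) := by
        have := mul_nonneg hn huv
        linarith
    _ ≤ (n : ℝ) ^ 2 * (2 * (u * (1 - u))) := mul_le_mul_of_nonneg_left h4 (sq_nonneg _)
    _ = 2 * (n : ℝ) ^ 2 * (u * (1 - u)) := by ring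

end Pool.Agent.H15.RV
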