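import Pool.Agent.H15.RV.Defs

/-!
# Row Da: a private point and an intersecting row (deterministic)

Proof. `A = fam M`. Let `A0`, `A1` be the members without / with `y`. `hy`: `y` lies in row `i` only. The map `U ↦ U ∪ M i` from `A0` to `A1` is
injective: let `U, U' ∈ A0`, `U ∪ M i = U' ∪ M i`. For a row `k ≠ i` that meets `M i` let `z` be its private point; `z ∉ M i`. Such a row `k` is inside
`U` iff `z ∈ U` (if `z ∈ U` then by `mem_fam` a row `l` with `z ∈ M l ⊆ U`, and `l = k`) iff `z ∈ U ∪ M i`; so the same rows of this kind are inside `U`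
and `U'`. A point `w ∈ U ∩ M i` lies in a row `k` with `w ∈ M k ⊆ U` (`mem_fam`), `k ≠ i` because `y ∉ U`, and `M k` meets `M i`; so `M k ⊆ U'`, `w ∈ U'`.
Hence `U ∩ M i = U' ∩ M i` (symmetric) and `U = U'`. So `#A0 ≤ #A1`.
Let `x ∈ M i ∩ M j`. A member with `y` contains `M i` (`mem_fam`: the row containing `y` is `i`), hence `x`; and the member `M j` contains `x` but not `y`
(`j ≠ i`). So `freq A x ≥ #A1 + 1`, `A.card = #A0 + #A1 ≤ 2 #A1 < 2 freq A x`.
-/

set_option autoImplicit false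

open Finset Pool.Agent.H15.RU

namespace Pool.Agent.H15.RV

theorem Da_sub {m n : ℕ} {M : Mat m n} {i : Fin m} {y : Fin n}
    (hy : ∀ k, y ∈ M k ↔ k = i)
    (hpr : ∀ k, k ≠ i → ¬ Disjoint (M k) (M i) → prv M k) {U V : Finset (Fin n)}
    (hU : U ∈ fam M) (hyU : y ∉ U) (hV : V ∈ fam M) (h : U ∪ M i = V ∪ M i) : U ⊆ V := by
  intro w hw
  by_cases hwi : w ∈ M i
  · obtain ⟨k, hwk, hkU⟩ := mem_fam.1 hU w hw
    have hki : k ≠ i := by
      rintro rfl
      exact hyU (hkU ((hy k).2 rfl))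
    have hnd : ¬ Disjoint (M k) (M i) := fun hd =>
      (Finset.disjoint_left.1 hd hwk) hwi
    obtain ⟨z, hz⟩ := hpr k hki hnd
    have hzk : z ∈ M k := (hz k).2 rfl
    have hzi : z ∉ M i := fun hzi => hki ((hz i).1 hzi).symm
    have hzV : z ∈ V := by
      have h1 : z ∈ V ∪ M i := h ▸ Finset.mem_union_left _ (hkU hzk)
      exact (Finset.mem_union.1 h1).resolve_right hzi
    obtain ⟨l, hzl, hlV⟩ := mem_fam.1 hV z hzV
    have hlk : l = k := (hz l).1 hzl
    subst hlk
    exact hlV hwk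
  · have h1 : w ∈ V ∪ M i := h ▸ Finset.mem_union_left _ hw
    exact (Finset.mem_union.1 h1).resolve_right hwi

theorem good_of_priv {m n : ℕ} {M : Mat m n} {i j : Fin m} {y : Fin n} (hij : j ≠ i)
    (hy : ∀ k, y ∈ M k ↔ k = i) (hint : ¬ Disjoint (M i) (M j))
    (hpr : ∀ k, k ≠ i → ¬ Disjoint (M k) (M i) → prv M k) :
    ∃ x, (fam M).card < 2 * freq (fam M) x := by
  obtain ⟨x, hxi, hxj⟩ := Finset.not_disjoint_iff.1 hint
  refine ⟨x, ?_⟩
  have hyi : y ∈ M i := (hy i).2 rfl
  have hyj : y ∉ M j := fun h => hij ((hy j).1 h)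
  have h01 : ((fam M).filter fun U => ¬ y ∈ U).card ≤ ((fam M).filter fun U => y ∈ U).card := by
    refine Finset.card_le_card_of_injOn (fun U => U ∪ M i) ?_ ?_
    · intro U hU
      have hU' := Finset.mem_filter.1 (Finset.mem_coe.1 hU)
      exact Finset.mem_coe.2 (Finset.mem_filter.2
        ⟨union_mem hU'.1 (row_mem M i), Finset.mem_union_right _ hyi⟩)
    · intro U hU V hV h
      have hU' := Finset.mem_filter.1 (Finset.mem_coe.1 hU)
      have hV' := Finset.mem_filter.1 (Finset.mem_coe.1 hV)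
      have h' : U ∪ M i = V ∪ M i := h
      exact Finset.Subset.antisymm (Da_sub hy hpr hU'.1 hU'.2 hV'.1 h')
        (Da_sub hy hpr hV'.1 hV'.2 hU'.1 h'.symm)
  have hsplit := Finset.card_filter_add_card_filter_not (s := fam M) (fun U => y ∈ U)
  have hf : ((fam M).filter fun U => y ∈ U).card + 1 ≤ freq (fam M) x := by
    have hnot : M j ∉ (fam M).filter fun U => y ∈ U := fun h =>
      hyj (Finset.mem_filter.1 h).2
    rw [← Finset.card_insert_of_notMem hnot]
    unfold freq
    refine Finset.card_le_card ?_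
    intro U hU
    rcases Finset.mem_insert.1 hU with rfl | hU
    · exact Finset.mem_filter.2 ⟨row_mem M j, hxj⟩
    · obtain ⟨hUf, hyU⟩ := Finset.mem_filter.1 hU
      obtain ⟨k, hyk, hkU⟩ := mem_fam.1 hUf y hyU
      have hki : k = i := (hy k).1 hyk
      subst hki
      exact Finset.mem_filter.2 ⟨hUf, hkU hxi⟩
  omega

end Pool.Agent.H15.RV
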