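import Pool.Agent.H15.RV.Defs

/-!
# Row Db: bad pairs, first moment

Let `π = (1 - p (1-p)^(m-1))^(n-2)`. Columns: `tr M x = {i | x ∈ M i}` are independent (`Ex_col` in `RU/Tr.lean`):
`Ex p (fun M => ∏ x, g x (tr M x)) = ∏ x, ∑ T, wr p T * g x T`. Row `k` has no private point iff `tr M x ≠ {k}` for all `x`;
`wr p {k} = p (1-p)^(m-1)`, and `∑ T, wr p T * [S ⊆ T] = p ^ S.card` (`sum_wr_prod`).
`bad2 M i j` implies one of the events (`z`, `w` points, `k` a row different from `i, j`):
(a) some `z` has `i, j ∈ tr M z` and all `x ≠ z` have `tr M x ≠ {i}`;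
(b) some `z` has `i, j ∈ tr M z` and all `x ≠ z` have `tr M x ≠ {j}` (the row without private point is `k = j`);
(c) some `k ≠ i, j` and `z` have `i, j, k ∈ tr M z` and all `x ≠ z` have `tr M x ≠ {k}`;
(d) some `k ≠ i, j` and `z ≠ w` have `i, j ∈ tr M z`, `i, k ∈ tr M w` and all `x ≠ z, w` have `tr M x ≠ {k}`.
For fixed `z` (`w`, `k`) the indicator is a product over the columns, with expectation `p^2 (1-..)^(n-1)`, the same, `p^3 (1-..)^(n-1)`,
`p^4 (1-..)^(n-2)`; all at most `p^2 π`, `p^2 π`, `p^3 π`, `p^4 π` (`0 ≤ 1 - p (1-p)^(m-1) ≤ 1`). `Pr_exists`: the sum is at most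
`n p^2 π + n p^2 π + m n p^3 π + m n^2 p^4 π = n p^2 π (2 + m p + m p (n p))`.
-/

set_option autoImplicit false

open Finset Pool.Agent.H15.RU

namespace Pool.Agent.H15.RV

theorem Db_sub {m : ℕ} {p : ℝ} (S : Finset (Fin m)) :
    ∑ T : Finset (Fin m), wr p T * (if S ⊆ T then (1 : ℝ) else 0) = p ^ S.card := by
  have h := sum_wr_prod (p := p) (fun _ : Fin m => (1 : ℝ)) (fun y => if y ∈ S then (0 : ℝ) else 1)
  have e : ∀ T : Finset (Fin m), (∏ y, (if y ∈ T then (1 : ℝ) else (if y ∈ S then (0 : ℝ) else 1))) =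
      if S ⊆ T then (1 : ℝ) else 0 := by
    intro T
    by_cases hd : S ⊆ T
    · rw [if_pos hd]
      refine Finset.prod_eq_one fun y _ => ?_
      by_cases hy : y ∈ T
      · rw [if_pos hy]
      · rw [if_neg hy, if_neg fun hS => hy (hd hS)]
    · rw [if_neg hd]
      obtain ⟨y, hyS, hyT⟩ := Finset.not_subset.1 hd
      refine Finset.prod_eq_zero (Finset.mem_univ y) ?_
      rw [if_neg hyT, if_pos hyS]
  simp only [e] at h
  rw [h, ← Tr_prod_pow S p]
  refine Finset.prod_congr rfl fun y _ => ?_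
  by_cases hy : y ∈ S
  · rw [if_pos hy, if_pos hy]
    ring
  · rw [if_neg hy, if_neg hy]
    ring

theorem Db_ne {m : ℕ} {p : ℝ} (k : Fin m) :
    ∑ T : Finset (Fin m), wr p T * (if T = {k} then (0 : ℝ) else 1) =
      1 - p * (1 - p) ^ (m - 1) := by
  have h1 := sum_wr (p := p) (n := m)
  have e : ∀ T ∈ (univ : Finset (Finset (Fin m))), wr p T * (if T = {k} then (0 : ℝ) else 1) =
      wr p T - (if T = {k} then wr p T else 0) := by
    intro T _
    by_cases h : T = {k}
    · rw [if_pos h, if_pos h]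
      ring
    · rw [if_neg h, if_neg h]
      ring
  rw [Finset.sum_congr rfl e, Finset.sum_sub_distrib, h1, Finset.sum_ite_eq',
    if_pos (Finset.mem_univ _)]
  unfold wr
  rw [Finset.card_singleton, pow_one]

/-- The event: every point `x ∈ Z` is in all rows in `R x`, the others are not private for `k`. -/
def Db_ev {m n : ℕ} (Z : Finset (Fin n)) (R : Fin n → Finset (Fin m)) (k : Fin m)
    (M : Mat m n) : Prop :=
  (∀ x ∈ Z, R x ⊆ tr M x) ∧ ∀ x, x ∉ Z → tr M x ≠ {k}

theorem Db_Pr {m n : ℕ} {p : ℝ} (Z : Finset (Fin n)) (R : Fin n → Finset (Fin m)) (k : Fin m) :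
    Pr p (Db_ev Z R k) =
      (∏ x ∈ Z, p ^ (R x).card) * (1 - p * (1 - p) ^ (m - 1)) ^ (n - Z.card) := by
  classical
  set g : Fin n → Finset (Fin m) → ℝ := fun x T =>
    if x ∈ Z then (if R x ⊆ T then (1 : ℝ) else 0) else (if T = {k} then (0 : ℝ) else 1) with hg
  have hind : (fun M : Mat m n => if Db_ev Z R k M then (1 : ℝ) else 0) =
      fun M => ∏ x, g x (tr M x) := by
    funext M
    by_cases h : Db_ev Z R k M
    · rw [if_pos h]
      symm
      refine Finset.prod_eq_one fun x _ => ?_
      simp only [hg]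
      by_cases hx : x ∈ Z
      · rw [if_pos hx, if_pos (h.1 x hx)]
      · rw [if_neg hx, if_neg (h.2 x hx)]
    · rw [if_neg h]
      symm
      unfold Db_ev at h
      rw [not_and_or] at h
      rcases h with h | h
      · rw [not_forall] at h
        obtain ⟨x, hx⟩ := h
        rw [Classical.not_imp] at hx
        refine Finset.prod_eq_zero (Finset.mem_univ x) ?_
        simp only [hg]
        rw [if_pos hx.1, if_neg hx.2]
      · rw [not_forall] at h
        obtain ⟨x, hx⟩ := h
        rw [Classical.not_imp, not_not] at hx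
        refine Finset.prod_eq_zero (Finset.mem_univ x) ?_
        simp only [hg]
        rw [if_neg hx.1, if_pos hx.2]
  rw [Pr_eq, hind, Ex_col]
  have e : ∀ x ∈ (univ : Finset (Fin n)), ∑ T : Finset (Fin m), wr p T * g x T =
      if x ∈ Z then p ^ (R x).card else (1 - p * (1 - p) ^ (m - 1)) := by
    intro x _
    by_cases hx : x ∈ Z
    · simp only [hg, if_pos hx]
      exact Db_sub (R x)
    · simp only [hg, if_neg hx]
      exact Db_ne k
  rw [Finset.prod_congr rfl e, Finset.prod_ite, Finset.prod_const]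
  have h1 : (univ : Finset (Fin n)).filter (fun x => x ∈ Z) = Z := by
    ext x; simp
  have h2 : ((univ : Finset (Fin n)).filter (fun x => x ∉ Z)).card = n - Z.card := by
    have : (univ : Finset (Fin n)).filter (fun x => x ∉ Z) = Zᶜ := by
      ext x; simp
    rw [this, Finset.card_compl, Fintype.card_fin]
  rw [h1, h2]

theorem Db_np {m n : ℕ} {M : Mat m n} {k : Fin m} (h : ¬ prv M k) (x : Fin n) : tr M x ≠ {k} := by
  intro hx
  apply h
  refine ⟨x, fun l => ?_⟩
  rw [← mem_tr, hx, Finset.mem_singleton]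

theorem Pr_bad2 {m n : ℕ} {p : ℝ} (h0 : 0 ≤ p) (h1 : p ≤ 1) (hn : 2 ≤ n) (i j : Fin m) :
    Pr p (fun M : Mat m n => bad2 M i j) ≤
      n * p ^ 2 * (1 - p * (1 - p) ^ (m - 1)) ^ (n - 2) * (2 + m * p + m * p * (n * p)) := by
  classical
  set ρ : ℝ := 1 - p * (1 - p) ^ (m - 1) with hρ
  have hq0 : (0 : ℝ) ≤ (1 - p) ^ (m - 1) := pow_nonneg (by linarith) _
  have hq1 : (1 - p) ^ (m - 1) ≤ 1 := pow_le_one₀ (by linarith) (by linarith)
  have hpq : p * (1 - p) ^ (m - 1) ≤ 1 := by nlinarith
  have hρ0 : 0 ≤ ρ := by rw [hρ]; linarith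
  have hρ1 : ρ ≤ 1 := by
    have : 0 ≤ p * (1 - p) ^ (m - 1) := mul_nonneg h0 hq0
    rw [hρ]; linarith
  set π : ℝ := ρ ^ (n - 2) with hπ
  have hπ0 : 0 ≤ π := pow_nonneg hρ0 _
  have hπ1 : ρ ^ (n - 1) ≤ π := pow_le_pow_of_le_one hρ0 hρ1 (by omega)
  by_cases hij : i = j
  · have hz : Pr p (fun M : Mat m n => bad2 M i j) = 0 := by
      rw [Pr_eq]
      unfold Ex
      refine Finset.sum_eq_zero fun M _ => ?_
      change wt p M * (if bad2 M i j then (1 : ℝ) else 0) = 0
      rw [if_neg (fun h : bad2 M i j => h.1 hij), mul_zero]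
    rw [hz]
    positivity
  -- the events
  set s2 : Finset (Fin m × Fin n) := univ.filter fun kz => kz.1 ≠ i ∧ kz.1 ≠ j with hs2
  set s3 : Finset (Fin m × Fin n × Fin n) :=
    univ.filter fun kzw => (kzw.1 ≠ i ∧ kzw.1 ≠ j) ∧ kzw.2.1 ≠ kzw.2.2 with hs3
  set A : Fin n → Mat m n → Prop := fun z => Db_ev {z} (fun _ => {i, j}) i with hA
  set B : Fin n → Mat m n → Prop := fun z => Db_ev {z} (fun _ => {i, j}) j with hB
  set C : Fin m × Fin n → Mat m n → Prop := fun kz =>
    Db_ev {kz.2} (fun _ => {i, j, kz.1}) kz.1 with hC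
  set D : Fin m × Fin n × Fin n → Mat m n → Prop := fun kzw =>
    Db_ev {kzw.2.1, kzw.2.2} (fun x => if x = kzw.2.1 then {i, j} else {i, kzw.1}) kzw.1 with hD
  have hcov : ∀ M : Mat m n, bad2 M i j →
      (((∃ z ∈ (univ : Finset (Fin n)), A z M) ∨ (∃ z ∈ (univ : Finset (Fin n)), B z M)) ∨
        (∃ kz ∈ s2, C kz M)) ∨ (∃ kzw ∈ s3, D kzw M) := by
    intro M hM
    obtain ⟨-, hint, hM3⟩ := hM
    obtain ⟨z, hzi, hzj⟩ := Finset.not_disjoint_iff.1 hint
    have hsubij : ({i, j} : Finset (Fin m)) ⊆ tr M z := by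
      intro l hl
      rw [Finset.mem_insert, Finset.mem_singleton] at hl
      rw [mem_tr]
      rcases hl with rfl | rfl
      · exact hzi
      · exact hzj
    rcases hM3 with hi | ⟨k, hki, hkint, hkp⟩
    · left; left; left
      refine ⟨z, Finset.mem_univ _, ?_, fun x _ => Db_np hi x⟩
      intro x hx
      rw [Finset.mem_singleton] at hx
      rw [hx]
      exact hsubij
    · by_cases hkj : k = j
      · left; left; right
        refine ⟨z, Finset.mem_univ _, ?_, fun x _ => Db_np (hkj ▸ hkp) x⟩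
        intro x hx
        rw [Finset.mem_singleton] at hx
        rw [hx]
        exact hsubij
      · obtain ⟨w, hwk, hwi⟩ := Finset.not_disjoint_iff.1 hkint
        by_cases hwz : z = w
        · left; right
          refine ⟨(k, z), ?_, ?_, fun x _ => Db_np hkp x⟩
          · rw [hs2, Finset.mem_filter]
            exact ⟨Finset.mem_univ _, hki, hkj⟩
          · intro x hx
            rw [Finset.mem_singleton] at hx
            rw [hx]
            intro l hl
            rw [Finset.mem_insert, Finset.mem_insert, Finset.mem_singleton] at hl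
            rw [mem_tr]
            rcases hl with rfl | rfl | hl
            · exact hzi
            · exact hzj
            · rw [hl]
              change z ∈ M k
              rw [hwz]
              exact hwk
        · right
          refine ⟨(k, z, w), ?_, ?_, fun x _ => Db_np hkp x⟩
          · rw [hs3, Finset.mem_filter]
            exact ⟨Finset.mem_univ _, ⟨hki, hkj⟩, hwz⟩
          · intro x hx
            rw [Finset.mem_insert, Finset.mem_singleton] at hx
            rcases hx with hx | hx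
            · change x = z at hx
              rw [hx]
              change (if z = z then ({i, j} : Finset (Fin m)) else {i, k}) ⊆ tr M z
              rw [if_pos rfl]
              exact hsubij
            · change x = w at hx
              rw [hx]
              change (if w = z then ({i, j} : Finset (Fin m)) else {i, k}) ⊆ tr M w
              rw [if_neg (Ne.symm hwz)]
              intro l hl
              rw [Finset.mem_insert, Finset.mem_singleton] at hl
              rw [mem_tr]
              rcases hl with rfl | rfl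
              · exact hwi
              · exact hwk
  have c2 : ({i, j} : Finset (Fin m)).card = 2 := Finset.card_pair hij
  have pA : ∀ z, Pr p (A z) ≤ p ^ 2 * π := by
    intro z
    rw [hA]
    change Pr p (Db_ev {z} (fun _ => {i, j}) i) ≤ _
    rw [Db_Pr, Finset.prod_singleton, c2, Finset.card_singleton]
    exact mul_le_mul_of_nonneg_left hπ1 (by positivity)
  have pB : ∀ z, Pr p (B z) ≤ p ^ 2 * π := by
    intro z
    rw [hB]
    change Pr p (Db_ev {z} (fun _ => {i, j}) j) ≤ _
    rw [Db_Pr, Finset.prod_singleton, c2, Finset.card_singleton]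
    exact mul_le_mul_of_nonneg_left hπ1 (by positivity)
  have pC : ∀ kz ∈ s2, Pr p (C kz) ≤ p ^ 3 * π := by
    intro kz hkz
    rw [hs2, Finset.mem_filter] at hkz
    have c3 : ({i, j, kz.1} : Finset (Fin m)).card = 3 := by
      rw [Finset.card_eq_three]
      exact ⟨i, j, kz.1, hij, Ne.symm hkz.2.1, Ne.symm hkz.2.2, rfl⟩
    rw [hC]
    change Pr p (Db_ev {kz.2} (fun _ => {i, j, kz.1}) kz.1) ≤ _
    rw [Db_Pr, Finset.prod_singleton, c3, Finset.card_singleton]
    exact mul_le_mul_of_nonneg_left hπ1 (by positivity)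
  have pD : ∀ kzw ∈ s3, Pr p (D kzw) ≤ p ^ 4 * π := by
    intro kzw hk
    rw [hs3, Finset.mem_filter] at hk
    obtain ⟨-, ⟨hki, hkj⟩, hzw⟩ := hk
    rw [hD]
    change Pr p (Db_ev {kzw.2.1, kzw.2.2}
      (fun x => if x = kzw.2.1 then {i, j} else {i, kzw.1}) kzw.1) ≤ _
    have c3 : ({i, kzw.1} : Finset (Fin m)).card = 2 := Finset.card_pair (Ne.symm hki)
    rw [Db_Pr, Finset.prod_pair hzw, if_pos rfl, if_neg (Ne.symm hzw), c2, c3,
      Finset.card_pair hzw]
    apply le_of_eq
    rw [hπ]
    ring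
  have k2 : (s2.card : ℝ) ≤ m * n := by
    have : s2.card ≤ m * n := by
      refine (Finset.card_filter_le _ _).trans ?_
      rw [Finset.card_univ, Fintype.card_prod, Fintype.card_fin, Fintype.card_fin]
    exact_mod_cast this
  have k3 : (s3.card : ℝ) ≤ m * (n * n) := by
    have : s3.card ≤ m * (n * n) := by
      refine (Finset.card_filter_le _ _).trans ?_
      rw [Finset.card_univ, Fintype.card_prod, Fintype.card_prod, Fintype.card_fin,
        Fintype.card_fin]
    exact_mod_cast this
  have tA : Pr p (fun M : Mat m n => ∃ z ∈ (univ : Finset (Fin n)), A z M) ≤ n * (p ^ 2 * π) := by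
    refine (Pr_exists h0 h1 _ _).trans ?_
    refine (Finset.sum_le_sum fun z _ => pA z).trans ?_
    rw [Finset.sum_const, Finset.card_univ, Fintype.card_fin, nsmul_eq_mul]
  have tB : Pr p (fun M : Mat m n => ∃ z ∈ (univ : Finset (Fin n)), B z M) ≤ n * (p ^ 2 * π) := by
    refine (Pr_exists h0 h1 _ _).trans ?_
    refine (Finset.sum_le_sum fun z _ => pB z).trans ?_
    rw [Finset.sum_const, Finset.card_univ, Fintype.card_fin, nsmul_eq_mul]
  have tC : Pr p (fun M : Mat m n => ∃ kz ∈ s2, C kz M) ≤ m * n * (p ^ 3 * π) := by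
    refine (Pr_exists h0 h1 _ _).trans ?_
    refine (Finset.sum_le_sum fun z hz => pC z hz).trans ?_
    rw [Finset.sum_const, nsmul_eq_mul]
    exact mul_le_mul_of_nonneg_right k2 (by positivity)
  have tD : Pr p (fun M : Mat m n => ∃ kzw ∈ s3, D kzw M) ≤ m * (n * n) * (p ^ 4 * π) := by
    refine (Pr_exists h0 h1 _ _).trans ?_
    refine (Finset.sum_le_sum fun z hz => pD z hz).trans ?_
    rw [Finset.sum_const, nsmul_eq_mul]
    exact mul_le_mul_of_nonneg_right k3 (by positivity)
  have tot := (Pr_mono (p := p) h0 h1 hcov).trans ((Pr_or h0 h1 _ _).trans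
    (add_le_add ((Pr_or h0 h1 _ _).trans (add_le_add ((Pr_or h0 h1 _ _).trans
      (add_le_add tA tB)) tC)) tD))
  refine tot.trans (le_of_eq ?_)
  ring

end Pool.Agent.H15.RV
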