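import Pool.Agent.H15.RV.Defs

/-!
# Row Dc: no intersecting pair among the first 2 m1 rows

Proof. Let `I1 = {i | i < m1}`, `I2 = {i | m1 ≤ i < 2 m1}` in `Fin m` (disjoint, `m1` elements each, as `2 m1 ≤ m`). If the rows with index `< 2 m1` are
pairwise disjoint then every column `tr M x` misses `I1` or misses `I2`. So the indicator is at most
`∏ x, (1 - (1 - [Disjoint (tr M x) I1]) (1 - [Disjoint (tr M x) I2]))`, and with `q = 1 - p` the expectation of the factor is
`1 - (1 - q^m1 - q^m1 + q^(2 m1)) = 1 - (1 - q^m1)^2` by `sum_wr` and `sum_dis` (`RU/Tr.lean`) for `I1`, `I2`, `I1 ∪ I2`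
(`[Disjoint T I1] [Disjoint T I2] = [Disjoint T (I1 ∪ I2)]`). Use `Ex_col`, `Pr_eq`, `Ex_mono`.
-/

set_option autoImplicit false

open Finset Pool.Agent.H15.RU

namespace Pool.Agent.H15.RV

theorem Dc_card (m a b : ℕ) (hb : b ≤ m) :
    ((univ : Finset (Fin m)).filter fun i : Fin m => a ≤ (i : ℕ) ∧ (i : ℕ) < b).card = b - a := by
  have h : ((univ : Finset (Fin m)).filter fun i : Fin m => a ≤ (i : ℕ) ∧ (i : ℕ) < b).image
      (fun i : Fin m => (i : ℕ)) = Finset.Ico a b := by
    ext k
    simp only [mem_image, mem_filter, mem_univ, true_and, mem_Ico]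
    constructor
    · rintro ⟨i, hi, rfl⟩
      exact hi
    · intro hk
      exact ⟨⟨k, by omega⟩, hk, rfl⟩
  rw [← Finset.card_image_of_injective _ Fin.val_injective, h, Nat.card_Ico]

theorem Pr_nopair {m m1 n : ℕ} {p : ℝ} (h0 : 0 ≤ p) (h1 : p ≤ 1) (h2 : 2 * m1 ≤ m) :
    Pr p (fun M : Mat m n => ∀ i j : Fin m, (i : ℕ) < 2 * m1 → (j : ℕ) < 2 * m1 → i ≠ j →
      Disjoint (M i) (M j)) ≤ (1 - (1 - (1 - p) ^ m1) ^ 2) ^ n := by
  classical
  set I1 : Finset (Fin m) := univ.filter fun i : Fin m => 0 ≤ (i : ℕ) ∧ (i : ℕ) < m1 with hI1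
  set I2 : Finset (Fin m) := univ.filter fun i : Fin m => m1 ≤ (i : ℕ) ∧ (i : ℕ) < 2 * m1 with hI2
  have c1 : I1.card = m1 := by
    rw [hI1, Dc_card m 0 m1 (by omega)]
    omega
  have c2 : I2.card = m1 := by
    rw [hI2, Dc_card m m1 (2 * m1) h2]
    omega
  have hd : Disjoint I1 I2 := by
    rw [Finset.disjoint_left]
    intro i hi hi'
    simp only [hI1, hI2, mem_filter, mem_univ, true_and] at hi hi'
    omega
  have c3 : (I1 ∪ I2).card = m1 + m1 := by
    rw [Finset.card_union_of_disjoint hd, c1, c2]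
  set d : Finset (Fin m) → Finset (Fin m) → ℝ := fun S T => if Disjoint T S then (1 : ℝ) else 0
    with hdd
  set g : Finset (Fin m) → ℝ := fun T => 1 - (1 - d I1 T) * (1 - d I2 T) with hg
  have hd01 : ∀ S T, d S T = 0 ∨ d S T = 1 := by
    intro S T
    simp only [hdd]
    by_cases h : Disjoint T S
    · right
      rw [if_pos h]
    · left
      rw [if_neg h]
  have hg0 : ∀ T, 0 ≤ g T := by
    intro T
    simp only [hg]
    rcases hd01 I1 T with a | a <;> rcases hd01 I2 T with b | b <;> rw [a, b] <;> norm_num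
  have hgE : ∀ T, g T = d I1 T + d I2 T - d (I1 ∪ I2) T := by
    intro T
    have e : d (I1 ∪ I2) T = d I1 T * d I2 T := by
      simp only [hdd, Finset.disjoint_union_right]
      by_cases a : Disjoint T I1 <;> by_cases b : Disjoint T I2 <;> simp [a, b]
    rw [e]
    simp only [hg]
    ring
  have hsum : ∑ T : Finset (Fin m), wr p T * g T = 1 - (1 - (1 - p) ^ m1) ^ 2 := by
    have e : ∀ T ∈ (univ : Finset (Finset (Fin m))), wr p T * g T =
        wr p T * d I1 T + wr p T * d I2 T - wr p T * d (I1 ∪ I2) T := by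
      intro T _
      rw [hgE]
      ring
    rw [Finset.sum_congr rfl e, Finset.sum_sub_distrib, Finset.sum_add_distrib]
    have s1 := sum_dis (p := p) I1
    have s2 := sum_dis (p := p) I2
    have s3 := sum_dis (p := p) (I1 ∪ I2)
    simp only [hdd]
    rw [s1, s2, s3, c1, c2, c3, pow_add]
    ring
  have hprod : Ex p (fun M : Mat m n => ∏ x, g (tr M x)) = (1 - (1 - (1 - p) ^ m1) ^ 2) ^ n := by
    rw [Ex_col (fun _ => g), Finset.prod_congr rfl (fun x _ => hsum), Finset.prod_const,
      Finset.card_univ, Fintype.card_fin]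
  rw [← hprod, Pr_eq]
  refine Ex_mono h0 h1 fun M => ?_
  by_cases hP : ∀ i j : Fin m, (i : ℕ) < 2 * m1 → (j : ℕ) < 2 * m1 → i ≠ j → Disjoint (M i) (M j)
  · rw [if_pos hP]
    have hone : ∀ x ∈ (univ : Finset (Fin n)), g (tr M x) = 1 := by
      intro x _
      have key : d I1 (tr M x) = 1 ∨ d I2 (tr M x) = 1 := by
        by_cases a : Disjoint (tr M x) I1
        · left
          simp only [hdd]
          rw [if_pos a]
        · right
          simp only [hdd]
          rw [if_pos]
          rw [Finset.not_disjoint_iff] at a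
          obtain ⟨i, hi, hi1⟩ := a
          rw [Finset.disjoint_left]
          intro j hj hj2
          rw [mem_tr] at hi hj
          simp only [hI1, hI2, mem_filter, mem_univ, true_and] at hi1 hj2
          have hij : i ≠ j := by
            intro h
            rw [h] at hi1
            omega
          exact Finset.disjoint_left.1 (hP i j (by omega) (by omega) hij) hi hj
      simp only [hg]
      rcases key with a | a <;> rw [a] <;> ring
    rw [Finset.prod_congr rfl hone, Finset.prod_const_one]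
  · rw [if_neg hP]
    exact Finset.prod_nonneg fun x _ => hg0 _

end Pool.Agent.H15.RV
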