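import Pool.Agent.H15.RV.Da
import Pool.Agent.H15.RV.Db
import Pool.Agent.H15.RV.Dc

/-!
# Row Dd: bounded m p, probabilistic part

Proofs. If `(i, j)` is an intersecting pair (`i ≠ j`, `¬ Disjoint (M i) (M j)`) and not `bad2 M i j`, then `prv M i` and all rows `k ≠ i` that meet `M i` have a
private point, so `good_of_priv` gives `Good (fam M)`. If there is no intersecting pair at all then `PowerLike` (`Pv_pow` in `RU/Pv.lean`).
`prob1`: `¬ Good` implies `∃ i j, bad2 M i j`; `Pr_exists` over `Fin m × Fin m`, `Pr_bad2`.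
`prob2`: `¬ Good` implies: no intersecting pair with indices `< 2 m1`, or `bad2 M i j` for some `i, j < 2 m1` (`(2 m1)^2` pairs; the number of
`i : Fin m` with `i < 2 m1` is at most `2 m1`); `Pr_nopair`, `Pr_or`, `Pr_exists`.
-/

set_option autoImplicit false

open Finset Pool.Agent.H15.RU

namespace Pool.Agent.H15.RV

theorem Dd_bad {m n : ℕ} {M : Mat m n} (hg : ¬ Good (fam M)) {i j : Fin m} (hij : i ≠ j)
    (hd : ¬ Disjoint (M i) (M j)) : bad2 M i j := by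
  refine ⟨hij, hd, ?_⟩
  by_contra hcon
  push Not at hcon
  obtain ⟨h1, h2⟩ := hcon
  obtain ⟨z, hz⟩ := h1
  exact hg (Or.inl (good_of_priv hij.symm hz hd h2))

theorem Dd_pair {m n : ℕ} {M : Mat m n} (hg : ¬ Good (fam M)) : ∃ i j : Fin m, bad2 M i j := by
  by_contra hcon
  push Not at hcon
  refine hg (Or.inr (Pv_pow fun i j hij => ?_))
  by_contra hd
  exact hcon i j (Dd_bad hg hij hd)

theorem Dd_B {m n : ℕ} {p : ℝ} (h0 : 0 ≤ p) (h1 : p ≤ 1) :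
    0 ≤ n * p ^ 2 * (1 - p * (1 - p) ^ (m - 1)) ^ (n - 2) * (2 + m * p + m * p * (n * p)) := by
  have h2 : p * (1 - p) ^ (m - 1) ≤ 1 :=
    mul_le_one₀ h1 (pow_nonneg (by linarith) _) (pow_le_one₀ (by linarith) (by linarith))
  have h3 : 0 ≤ 1 - p * (1 - p) ^ (m - 1) := by linarith
  positivity

theorem zoneP_prob1 {m n : ℕ} {p : ℝ} (h0 : 0 ≤ p) (h1 : p ≤ 1) (hn : 2 ≤ n) :
    Pr p (fun M : Mat m n => ¬ Good (fam M)) ≤
      (m : ℝ) ^ 2 * (n * p ^ 2 * (1 - p * (1 - p) ^ (m - 1)) ^ (n - 2) *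
        (2 + m * p + m * p * (n * p))) := by
  classical
  have h2 : Pr p (fun M : Mat m n => ¬ Good (fam M)) ≤
      Pr p (fun M : Mat m n => ∃ x ∈ (univ : Finset (Fin m × Fin m)), bad2 M x.1 x.2) := by
    refine Pr_mono h0 h1 fun M hM => ?_
    obtain ⟨i, j, hij⟩ := Dd_pair hM
    exact ⟨(i, j), mem_univ _, hij⟩
  refine h2.trans ((Pr_exists h0 h1 univ fun (x : Fin m × Fin m) (M : Mat m n) =>
    bad2 M x.1 x.2).trans ?_)
  refine (sum_le_card_nsmul _ _ _ fun x _ => Pr_bad2 h0 h1 hn x.1 x.2).trans (le_of_eq ?_)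
  rw [card_univ, Fintype.card_prod, Fintype.card_fin, nsmul_eq_mul]
  push_cast
  ring

theorem zoneP_prob2 {m m1 n : ℕ} {p : ℝ} (h0 : 0 ≤ p) (h1 : p ≤ 1) (hn : 2 ≤ n)
    (h2 : 2 * m1 ≤ m) :
    Pr p (fun M : Mat m n => ¬ Good (fam M)) ≤
      (2 * (m1 : ℝ)) ^ 2 * (n * p ^ 2 * (1 - p * (1 - p) ^ (m - 1)) ^ (n - 2) *
        (2 + m * p + m * p * (n * p))) + (1 - (1 - (1 - p) ^ m1) ^ 2) ^ n := by
  classical
  obtain ⟨S, hS⟩ : ∃ S : Finset (Fin m), S = univ.filter fun i : Fin m => (i : ℕ) < 2 * m1 :=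
    ⟨_, rfl⟩
  have hSc : S.card ≤ 2 * m1 := by
    rw [← card_range (2 * m1)]
    refine card_le_card_of_injOn (fun i : Fin m => (i : ℕ)) ?_ ?_
    · intro i hi
      rw [hS] at hi
      have h3 := (mem_filter.1 (mem_coe.1 hi)).2
      exact mem_coe.2 (mem_range.2 h3)
    · intro i _ j _ hij
      exact Fin.ext hij
  have h3 : Pr p (fun M : Mat m n => ¬ Good (fam M)) ≤
      Pr p (fun M : Mat m n => (∃ x ∈ S ×ˢ S, bad2 M x.1 x.2) ∨
        ∀ i j : Fin m, (i : ℕ) < 2 * m1 → (j : ℕ) < 2 * m1 → i ≠ j → Disjoint (M i) (M j)) := by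
    refine Pr_mono h0 h1 fun M hM => ?_
    by_cases hc : ∀ i j : Fin m, (i : ℕ) < 2 * m1 → (j : ℕ) < 2 * m1 → i ≠ j →
        Disjoint (M i) (M j)
    · exact Or.inr hc
    · push Not at hc
      obtain ⟨i, j, hi, hj, hij, hd⟩ := hc
      refine Or.inl ⟨(i, j), ?_, Dd_bad hM hij hd⟩
      rw [mem_product, hS]
      exact ⟨mem_filter.2 ⟨mem_univ _, hi⟩, mem_filter.2 ⟨mem_univ _, hj⟩⟩
  refine h3.trans ((Pr_or h0 h1 _ _).trans ?_)
  refine add_le_add ?_ (Pr_nopair h0 h1 h2)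
  refine (Pr_exists h0 h1 (S ×ˢ S) fun (x : Fin m × Fin m) (M : Mat m n) =>
    bad2 M x.1 x.2).trans ?_
  refine (sum_le_card_nsmul _ _ _ fun x _ => Pr_bad2 h0 h1 hn x.1 x.2).trans ?_
  rw [card_product, nsmul_eq_mul]
  refine mul_le_mul_of_nonneg_right ?_ (Dd_B h0 h1)
  have h4 : (S.card : ℝ) ≤ 2 * m1 := by exact_mod_cast hSc
  push_cast
  rw [sq]
  exact mul_le_mul h4 h4 (Nat.cast_nonneg _) (by positivity)

end Pool.Agent.H15.RV
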