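import Pool.Agent.H15.RV.Dd
import Pool.Agent.H15.RV.A2

/-!
# Row De: bounded m p, numbers

Notation `ℓ = log n`, `λ = n p`, `ℓ/8 ≤ λ ≤ ℓ^2`, `d = m p ≤ 48`, `c = exp (-96)/16`. Proof.
`(1-p)^(m-1) ≥ (1-p)^m ≥ exp (-m (p + 2p^2)) ≥ exp (-96)` (one_sub_low2, `p ≤ 1/16`), so
`π = (1 - p (1-p)^(m-1))^(n-2) ≤ exp (-((n-2) p exp (-96))) ≤ exp (-(λ exp (-96)/2)) ≤ exp (-c ℓ)` (`n - 2 ≥ n/2`).
`2 + d + d λ ≤ 50 + 48 ℓ^2`.
Case 1: `m^2 n p^2 ≤ exp (c ℓ/2)`: prob1 gives `≤ exp (c ℓ/2) exp (-c ℓ) (50 + 48 ℓ^2) → 0`.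
Case 2: `m^2 n p^2 > exp (c ℓ/2)`. Let `y = exp (c ℓ/4)/(2 p sqrt n)` and `m1 = ⌊y⌋₊`. Then `m > exp (c ℓ/4)/(p sqrt n) = 2 y`, so `2 m1 ≤ m`; `(2 m1)^2 n p^2 ≤ exp (c ℓ/2)`,
and the first term of prob2 tends to 0 as in case 1. `y ≥ 2` for large `n` (`p ≤ ℓ^2/n`), so `m1 ≥ y/2`. `p m1 ≤ p y = exp (c ℓ/4)/(2 sqrt n) ≤ 1`
(`c ≤ 1`), so `1 - (1-p)^m1 ≥ 1 - exp (-p m1) ≥ p m1/2 ≥ p y/4` (`1 - exp (-t) ≥ t/2` for `0 ≤ t ≤ 1`), and
`(1 - (..)^2)^n ≤ exp (-n (p y/4)^2) = exp (-(exp (c ℓ/2)/64))`, which tends to 0.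
-/

set_option autoImplicit false

open Finset Pool.Agent.H15.RU

namespace Pool.Agent.H15.RV

open Filter Topology

theorem De_tend1 {c : ℝ} (hc : 0 < c) :
    Tendsto (fun l : ℝ => Real.exp (-(c * l / 2)) * (50 + 48 * l ^ 2)) atTop (𝓝 0) := by
  have h0 : Tendsto (fun l : ℝ => c * l / 2) atTop atTop := by
    have : (fun l : ℝ => c * l / 2) = fun l => (c / 2) * l := by
      funext l; ring
    rw [this]
    exact Tendsto.const_mul_atTop (by positivity) tendsto_id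
  have h1 := (Real.tendsto_pow_mul_exp_neg_atTop_nhds_zero 0).comp h0
  have h2 := (Real.tendsto_pow_mul_exp_neg_atTop_nhds_zero 2).comp h0
  have h3 := (h1.const_mul 50).add (h2.const_mul (48 * (4 / c ^ 2)))
  simp only [mul_zero, add_zero] at h3
  refine h3.congr fun l => ?_
  simp only [Function.comp_apply]
  field_simp
  ring

theorem De_tend2 {c : ℝ} (hc : 0 < c) :
    Tendsto (fun l : ℝ => Real.exp (-(Real.exp (c * l / 2) / 64))) atTop (𝓝 0) := by
  have h0 : Tendsto (fun l : ℝ => c * l / 2) atTop atTop := by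
    have : (fun l : ℝ => c * l / 2) = fun l => (c / 2) * l := by
      funext l; ring
    rw [this]
    exact Tendsto.const_mul_atTop (by positivity) tendsto_id
  have h1 : Tendsto (fun l : ℝ => Real.exp (c * l / 2) / 64) atTop atTop :=
    (Real.tendsto_exp_atTop.comp h0).atTop_div_const (by norm_num)
  exact Real.tendsto_exp_neg_atTop_nhds_zero.comp h1

theorem De_log4 : ∃ N : ℕ, ∀ n ≥ N, 16 * Real.log (n : ℝ) ^ 4 ≤ n := by
  have h := (Real.isLittleO_pow_log_id_atTop (n := 4)).def (show (0 : ℝ) < 1 / 16 by norm_num)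
  have h2 := tendsto_natCast_atTop_atTop (R := ℝ) |>.eventually h
  obtain ⟨N, hN⟩ := eventually_atTop.1 h2
  refine ⟨N, fun n hn => ?_⟩
  have h3 := hN n hn
  rw [Real.norm_eq_abs, Real.norm_eq_abs, id, abs_of_nonneg (by positivity),
    abs_of_nonneg (by positivity)] at h3
  linarith

theorem De_one_sub {t : ℝ} (h0 : 0 ≤ t) (h1 : t ≤ 1) : t / 2 ≤ 1 - Real.exp (-t) := by
  have h2 : Real.exp (-t) ≤ 1 / (1 + t) := by
    rw [Real.exp_neg, inv_eq_one_div]
    exact one_div_le_one_div_of_le (by linarith) (by linarith [Real.add_one_le_exp t])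
  have h3 : 1 / (1 + t) ≤ 1 - t / 2 := by
    rw [div_le_iff₀ (by linarith)]
    nlinarith
  linarith

/-- the factor `π` and the last factor -/
theorem De_core {n m : ℕ} {p l : ℝ} (hn : 4 ≤ n) (h0 : 0 < p) (h1 : p ≤ 1 / 16)
    (hl : l / 8 ≤ n * p) (hl2 : n * p ≤ l ^ 2) (hd : p * m ≤ 48) {a : ℝ}
    (hA : a ^ 2 * (n * p ^ 2) ≤ Real.exp (Real.exp (-96) / 16 * l / 2)) :
    a ^ 2 * (n * p ^ 2 * (1 - p * (1 - p) ^ (m - 1)) ^ (n - 2) *
        (2 + m * p + m * p * (n * p))) ≤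
      Real.exp (-(Real.exp (-96) / 16 * l / 2)) * (50 + 48 * l ^ 2) := by
  set c := Real.exp (-96) / 16 with hc
  have hq1 : (1 - p) ^ (m - 1) ≤ 1 := pow_le_one₀ (by linarith) (by linarith)
  have hq0 : Real.exp (-96) ≤ (1 - p) ^ (m - 1) := by
    refine le_trans ?_ (one_sub_low2 h0.le (by linarith) (m - 1))
    rw [Real.exp_le_exp]
    have h2 : ((m - 1 : ℕ) : ℝ) ≤ m := by exact_mod_cast Nat.sub_le m 1
    have h3 : ((m - 1 : ℕ) : ℝ) * (p + 2 * p ^ 2) ≤ m * (p + 2 * p ^ 2) :=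
      mul_le_mul_of_nonneg_right h2 (by positivity)
    have h4 : (m : ℝ) * (p + 2 * p ^ 2) = p * m * (1 + 2 * p) := by ring
    have h5 : p * m * (1 + 2 * p) ≤ 48 * (1 + 2 * p) :=
      mul_le_mul_of_nonneg_right hd (by linarith)
    linarith
  have hq2 : 0 ≤ (1 - p) ^ (m - 1) := (Real.exp_pos _).le.trans hq0
  have hpi0 : 0 ≤ (1 - p * (1 - p) ^ (m - 1)) ^ (n - 2) := by
    apply pow_nonneg
    nlinarith
  have hpi : (1 - p * (1 - p) ^ (m - 1)) ^ (n - 2) ≤ Real.exp (-(c * l)) := by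
    refine (pow_le_exp (by nlinarith) (n - 2)).trans ?_
    rw [Real.exp_le_exp, neg_le_neg_iff]
    have h2 : (n : ℝ) / 2 ≤ ((n - 2 : ℕ) : ℝ) := by
      rw [Nat.cast_sub (by omega)]
      have : (4 : ℝ) ≤ n := by exact_mod_cast hn
      push_cast
      linarith
    have h3 : p * Real.exp (-96) ≤ p * (1 - p) ^ (m - 1) :=
      mul_le_mul_of_nonneg_left hq0 h0.le
    have h4 : p * Real.exp (-96) * (n / 2) ≤ p * (1 - p) ^ (m - 1) * ((n - 2 : ℕ) : ℝ) :=
      mul_le_mul h3 h2 (by positivity) (by positivity)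
    refine le_trans ?_ h4
    rw [hc]
    have h5 : Real.exp (-96) * (l / 8) ≤ Real.exp (-96) * (n * p) :=
      mul_le_mul_of_nonneg_left hl (Real.exp_pos _).le
    linarith
  have hlast : 2 + m * p + m * p * (n * p) ≤ 50 + 48 * l ^ 2 := by
    have h2 : (m : ℝ) * p ≤ 48 := by linarith
    have h3 : (m : ℝ) * p * (n * p) ≤ 48 * l ^ 2 :=
      mul_le_mul h2 hl2 (by positivity) (by norm_num)
    linarith
  have h6 : a ^ 2 * (n * p ^ 2 * (1 - p * (1 - p) ^ (m - 1)) ^ (n - 2) *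
        (2 + m * p + m * p * (n * p))) =
      (a ^ 2 * (n * p ^ 2)) * (1 - p * (1 - p) ^ (m - 1)) ^ (n - 2) *
        (2 + m * p + m * p * (n * p)) := by ring
  rw [h6]
  have h7 : (a ^ 2 * (n * p ^ 2)) * (1 - p * (1 - p) ^ (m - 1)) ^ (n - 2) ≤
      Real.exp (c * l / 2) * Real.exp (-(c * l)) :=
    mul_le_mul hA hpi hpi0 (Real.exp_pos _).le
  have h8 : Real.exp (c * l / 2) * Real.exp (-(c * l)) = Real.exp (-(c * l / 2)) := by
    rw [← Real.exp_add]
    congr 1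
    ring
  rw [h8] at h7
  exact mul_le_mul h7 hlast (by positivity) (Real.exp_pos _).le

theorem zoneP {ε : ℝ} (hε : 0 < ε) :
    ∃ N : ℕ, ∀ n ≥ N, ∀ (m : ℕ) (p : ℝ), Med n p → p * m ≤ 48 →
      Pr p (fun M : Mat m n => ¬ Good (fam M)) ≤ ε := by
  set c := Real.exp (-96) / 16 with hc
  have hc0 : 0 < c := by positivity
  have hc1 : c ≤ 1 := by
    have : Real.exp (-96) ≤ 1 := Real.exp_le_one_iff.2 (by norm_num)
    rw [hc]; linarith
  obtain ⟨K1, hK1⟩ := eventually_atTop.1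
    ((De_tend1 hc0).eventually (ge_mem_nhds (show (0 : ℝ) < ε / 2 by linarith)))
  obtain ⟨K2, hK2⟩ := eventually_atTop.1
    ((De_tend2 hc0).eventually (ge_mem_nhds (show (0 : ℝ) < ε / 2 by linarith)))
  obtain ⟨N1, hN1⟩ := med_all 0
  obtain ⟨N2, hN2⟩ := log_large (max (max K1 K2) 0)
  obtain ⟨N3, hN3⟩ := De_log4
  refine ⟨max (max N1 N2) (max N3 4), fun n hn m p hmed hd => ?_⟩
  have hnN1 : N1 ≤ n := by omega
  have hnN2 : N2 ≤ n := by omega
  have hnN3 : N3 ≤ n := by omega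
  have hn4 : 4 ≤ n := by omega
  obtain ⟨hp0, hp1, -, -, -⟩ := hN1 n hnN1 p hmed
  have hl := hN2 n hnN2
  have h4 := hN3 n hnN3
  obtain ⟨hm1, hm2⟩ := hmed
  set l := Real.log n with hldef
  have hlK1 : K1 ≤ l := (le_max_left _ _).trans ((le_max_left _ _).trans hl)
  have hlK2 : K2 ≤ l := (le_max_right _ _).trans ((le_max_left _ _).trans hl)
  have hl0 : 0 ≤ l := (le_max_right _ _).trans hl
  have hA := hK1 l hlK1
  have hB := hK2 l hlK2
  have hn0 : (0 : ℝ) < n := by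
    have : (4 : ℝ) ≤ n := by exact_mod_cast hn4
    linarith
  by_cases hcase : (m : ℝ) ^ 2 * (n * p ^ 2) ≤ Real.exp (c * l / 2)
  · refine (zoneP_prob1 hp0.le (by linarith) (by omega)).trans ?_
    refine (De_core hn4 hp0 hp1 hm1 hm2 hd hcase).trans ?_
    linarith
  · push Not at hcase
    set s := Real.sqrt n with hs
    have hs0 : 0 < s := Real.sqrt_pos.2 hn0
    have hs2 : s ^ 2 = n := Real.sq_sqrt hn0.le
    set y := Real.exp (c * l / 4) / (2 * p * s) with hy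
    have hy0 : 0 < y := by positivity
    have hexp2 : Real.exp (c * l / 4) ^ 2 = Real.exp (c * l / 2) := by
      rw [← Real.exp_nat_mul]
      congr 1
      push_cast
      ring
    have hyy : (2 * y) ^ 2 * (n * p ^ 2) = Real.exp (c * l / 2) := by
      rw [hy, ← hexp2, ← hs2]
      field_simp
    have hym : 2 * y < m := by
      have h5 : (2 * y) ^ 2 * (n * p ^ 2) < (m : ℝ) ^ 2 * (n * p ^ 2) := by
        rw [hyy]; exact hcase
      have h6 : (2 * y) ^ 2 < (m : ℝ) ^ 2 := lt_of_mul_lt_mul_right h5 (by positivity)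
      exact lt_of_pow_lt_pow_left₀ 2 (by positivity) h6
    set m1 := ⌊y⌋₊ with hm1'
    have hm1y : (m1 : ℝ) ≤ y := Nat.floor_le hy0.le
    have h2m1 : 2 * m1 ≤ m := by
      have : (2 : ℝ) * m1 ≤ m := by linarith
      exact_mod_cast this
    refine (zoneP_prob2 hp0.le (by linarith) (by omega) h2m1).trans ?_
    have hfirst : (2 * (m1 : ℝ)) ^ 2 * (n * p ^ 2 * (1 - p * (1 - p) ^ (m - 1)) ^ (n - 2) *
        (2 + m * p + m * p * (n * p))) ≤ ε / 2 := by
      refine (De_core hn4 hp0 hp1 hm1 hm2 hd ?_).trans hA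
      refine le_trans ?_ hyy.le
      apply mul_le_mul_of_nonneg_right _ (by positivity)
      exact pow_le_pow_left₀ (by positivity) (by linarith) 2
    have hy2 : 2 ≤ y := by
      rw [hy, le_div_iff₀ (by positivity)]
      have h5 : 1 ≤ Real.exp (c * l / 4) := Real.one_le_exp (by positivity)
      have h6 : (4 * l ^ 2) ≤ s := by
        apply Real.le_sqrt_of_sq_le
        have h9 : (4 * l ^ 2) ^ 2 = 16 * l ^ 4 := by ring
        rw [h9]
        exact h4
      have h7 : 4 * p * s * s ≤ s := by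
        calc 4 * p * s * s = 4 * (s ^ 2 * p) := by ring
          _ = 4 * (n * p) := by rw [hs2]
          _ ≤ 4 * l ^ 2 := by linarith
          _ ≤ s := h6
      have h8 : 4 * p * s ≤ 1 := by
        by_contra h9
        push Not at h9
        nlinarith
      linarith
    have hm1low : y / 2 ≤ m1 := by
      have := Nat.lt_floor_add_one y
      rw [← hm1'] at this
      linarith
    have hpy : p * y ≤ 1 := by
      have h5 : Real.exp (c * l / 4) ≤ s := by
        apply Real.le_sqrt_of_sq_le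
        rw [hexp2]
        have h9 : Real.exp (c * l / 2) ≤ Real.exp l := by
          rw [Real.exp_le_exp]
          nlinarith
        rwa [hldef, Real.exp_log hn0] at h9
      rw [hy]
      have h6 : p * (Real.exp (c * l / 4) / (2 * p * s)) = Real.exp (c * l / 4) / (2 * s) := by
        field_simp
      rw [h6, div_le_one (by positivity)]
      linarith
    have hg : p * y / 4 ≤ 1 - (1 - p) ^ m1 := by
      have h5 : (1 - p) ^ m1 ≤ Real.exp (-(p * m1)) := pow_le_exp (by linarith) m1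
      have h6 : p * m1 ≤ p * y := mul_le_mul_of_nonneg_left hm1y hp0.le
      have h7 := De_one_sub (t := p * m1) (by positivity) (by linarith)
      have h8 : p * (y / 2) ≤ p * m1 := mul_le_mul_of_nonneg_left hm1low hp0.le
      linarith
    have hg1 : 1 - (1 - p) ^ m1 ≤ 1 := by
      have : 0 ≤ (1 - p) ^ m1 := pow_nonneg (by linarith) _
      linarith
    have hg0 : 0 ≤ 1 - (1 - p) ^ m1 := le_trans (by positivity) hg
    have hsecond : (1 - (1 - (1 - p) ^ m1) ^ 2) ^ n ≤ ε / 2 := by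
      refine (pow_le_exp (pow_le_one₀ hg0 hg1) n).trans (le_trans ?_ hB)
      rw [Real.exp_le_exp, neg_le_neg_iff]
      have h5 : (p * y / 4) ^ 2 ≤ (1 - (1 - p) ^ m1) ^ 2 :=
        pow_le_pow_left₀ (by positivity) hg 2
      have h6 : (p * y / 4) ^ 2 * n ≤ (1 - (1 - p) ^ m1) ^ 2 * n :=
        mul_le_mul_of_nonneg_right h5 hn0.le
      have h7 : (p * y / 4) ^ 2 * n = Real.exp (c * l / 2) / 64 := by
        rw [← hyy]; ring
      linarith
    linarith

end Pool.Agent.H15.RV
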