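import Pool.Agent.H15.RU.Fin

/-!
# MP_75f39d_RV: random union-closed families, all p and m. Definitions.

`Mat m n`: `m` rows (subsets of `Fin n`); `wr`, `wt`, `Pr p`, `Ex p`: every point is in every row with
probability `p`, independently; `un M S` the union of the rows in `S`; `fam M` all unions (the empty union
included); `freq A x` the number of members containing `x`; `Good A`: `∃ x, A.card < 2 * freq A x`, or
`PowerLike A` (see `Pool/Agent/H15/RU/Defs.lean`).
-/

set_option autoImplicit false

open Finset Pool.Agent.H15.RU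

namespace Pool.Agent.H15.RV

/-- The medium range of `p`. -/
def Med (n : ℕ) (p : ℝ) : Prop := Real.log n / 8 ≤ n * p ∧ n * p ≤ Real.log n ^ 2

/-- The deficit of the small members. -/
def lowS {m n : ℕ} (M : Mat m n) : ℕ :=
  ∑ X ∈ (fam M).filter (fun X => X.Nonempty ∧ 2 * X.card < n), (n - 2 * X.card)

/-- The points `z` such that `{z}` is a row. -/
def sg {m n : ℕ} (M : Mat m n) : Finset (Fin n) := univ.filter fun z => ∃ i, M i = {z}

/-- Row `i` has a private point. -/
def prv {m n : ℕ} (M : Mat m n) (i : Fin m) : Prop := ∃ z, ∀ l, z ∈ M l ↔ l = i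

/-- `(i, j)` is an intersecting pair of rows, but row `i` or a row that meets row `i` has no private
point. -/
def bad2 {m n : ℕ} (M : Mat m n) (i j : Fin m) : Prop :=
  i ≠ j ∧ ¬ Disjoint (M i) (M j) ∧
    (¬ prv M i ∨ ∃ k, k ≠ i ∧ ¬ Disjoint (M k) (M i) ∧ ¬ prv M k)

/-- The probability that a row is a given singleton. -/
noncomputable def al (n : ℕ) (p : ℝ) : ℝ := p * (1 - p) ^ (n - 1)

/-- The probability that a row is a given set with two elements. -/
noncomputable def be (n : ℕ) (p : ℝ) : ℝ := p ^ 2 * (1 - p) ^ (n - 2)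

end Pool.Agent.H15.RV
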