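import Pool.Agent.H15.RV.Defs

/-!
# Row Ea: collections of rows that are nearly closed (deterministic)

`ncl M j` (`RU/Ub.lean`): the pairs `(S, i)` with `S.card = j`, `i ∉ S`, `M i ⊆ un M S`. Proof. For `S` with `S.card = K` let
`T(S) = {i | M i ⊆ un M S} ⊇ S`. Call `S` fine if `T(S).card ≤ K + R`. Every fine `S` is a `K`-subset of `T = {i | M i ⊆ X}`, `X = un M S ∈ fam M`,
`T.card ≤ K + R`, and for fixed `X` there are at most `(K + R).choose K` of them (`card_powersetCard`, `Nat.choose_le_choose`), so the number of fine `S` is at
most `(fam M).card * (K + R).choose K` (`Finset.card_le_mul_card_image` or a `biUnion`). If `S` is not fine, at least `R + 1` pairs `(S, i)` are in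
`ncl M K`; so `(R + 1) * #(not fine) ≤ (ncl M K).card`. And `#fine + #(not fine) = m.choose K`.
-/

set_option autoImplicit false

open Finset Pool.Agent.H15.RU

namespace Pool.Agent.H15.RV

theorem choose_le_R {m n : ℕ} (M : Mat m n) (K R : ℕ) :
    (R + 1) * m.choose K ≤ (R + 1) * ((fam M).card * (K + R).choose K) + (ncl M K).card := by
  classical
  set T : Finset (Fin m) → Finset (Fin m) := fun S => univ.filter fun i => M i ⊆ un M S with hT
  set P := powersetCard K (univ : Finset (Fin m)) with hP
  have h0 : P.card = m.choose K := by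
    rw [hP, card_powersetCard, card_univ, Fintype.card_fin]
  have hsub : ∀ S, S ⊆ T S := by
    intro S i hi
    rw [hT, mem_filter]
    exact ⟨mem_univ _, subset_biUnion_of_mem M hi⟩
  rw [← h0, ← card_filter_add_card_filter_not (s := P) (fun S => (T S).card ≤ K + R), mul_add]
  refine Nat.add_le_add (Nat.mul_le_mul_left _ ?_) ?_
  · -- fine sets
    have h1 := card_le_mul_card_image (f := un M)
      (P.filter fun S => (T S).card ≤ K + R) ((K + R).choose K) (by
        intro X hX
        obtain ⟨S, hS, rfl⟩ := mem_image.1 hX
        have hS2 := (mem_filter.1 hS).2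
        calc ((P.filter fun S => (T S).card ≤ K + R).filter fun S' => un M S' = un M S).card
            ≤ (powersetCard K (T S)).card := by
              refine card_le_card fun S' hS' => ?_
              obtain ⟨h1, h2⟩ := mem_filter.1 hS'
              obtain ⟨h3, h4⟩ := mem_filter.1 h1
              rw [mem_powersetCard]
              refine ⟨?_, (mem_powersetCard.1 h3).2⟩
              have h5 := hsub S'
              have h6 : T S' = T S := by
                simp only [hT]
                rw [h2]
              rwa [h6] at h5
          _ = (T S).card.choose K := card_powersetCard _ _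
          _ ≤ (K + R).choose K := Nat.choose_le_choose _ hS2)
    refine h1.trans ?_
    rw [mul_comm]
    refine Nat.mul_le_mul_right _ (card_le_card fun X hX => ?_)
    obtain ⟨S, _, rfl⟩ := mem_image.1 hX
    exact un_mem M S
  · -- the others
    set N := P.filter (fun S => ¬ (T S).card ≤ K + R) with hN
    have h1 : (N.sigma fun S => T S \ S).card ≤ (ncl M K).card := by
      refine card_le_card_of_injOn (fun q => (q.1, q.2)) ?_ ?_
      · rintro ⟨S, i⟩ hq
        have hq' := mem_sigma.1 (mem_coe.1 hq)
        have h2 := (mem_filter.1 hq'.1).1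
        obtain ⟨h3, h4⟩ := mem_sdiff.1 hq'.2
        rw [mem_coe, ncl, mem_filter]
        exact ⟨mem_univ _, (mem_powersetCard.1 h2).2, h4, (mem_filter.1 h3).2⟩
      · rintro ⟨S, i⟩ _ ⟨S', i'⟩ _ h
        simp only [Prod.mk.injEq] at h
        obtain ⟨rfl, rfl⟩ := h
        rfl
    refine le_trans ?_ h1
    rw [card_sigma, mul_comm, ← smul_eq_mul]
    refine card_nsmul_le_sum _ _ _ fun S hS => ?_
    obtain ⟨h2, h3⟩ := mem_filter.1 hS
    rw [card_sdiff_of_subset (hsub S), (mem_powersetCard.1 h2).2]
    omega

end Pool.Agent.H15.RV
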