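import Pool.Agent.H15.RV.Defs

/-!
# Row Eb: binomial coefficients (Mathlib only)

Proofs. `choose_3k`: for `k ≤ j < 3 k`: `C(m, j+1) (j+1) = C(m, j) (m - j)` (`Nat.choose_succ_right_eq`) and `m - j ≥ 4 (j + 1)` (`m ≥ 16 k`, `j + 1 ≤ 3 k`,
`m - j ≥ 13 k`), so `C(m, j+1) ≥ 4 C(m, j)`; `2 k` steps give `4^(2k) = 16^k`.
`choose_R`: `C(3k+R, 3k) = C(3k+R, R)`, and `C(N, R) (1/32)^R ≤ (1 + 1/32)^N` (binomial theorem, one term), so
`C(3k+R, R) ≤ 32^R (33/32)^(3k+R) ≤ 2^(5R) ((33/32)^4)^k ≤ 2^k 2^k` (`5 R ≤ k`, `3 k + R ≤ 4 k`, `(33/32)^4 ≤ 2`). Work in ℝ or ℚ and cast back.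
-/

set_option autoImplicit false

open Finset Pool.Agent.H15.RU

namespace Pool.Agent.H15.RV

theorem choose_3k {m k : ℕ} (h : 16 * k ≤ m) : 16 ^ k * m.choose k ≤ m.choose (3 * k) := by
  have key : ∀ t, t ≤ 2 * k → 4 ^ t * m.choose k ≤ m.choose (k + t) := by
    intro t
    induction t with
    | zero => intro _; simp
    | succ t ih =>
      intro ht
      have h1 := ih (by omega)
      have h2 := Nat.choose_succ_right_eq m (k + t)
      have h3 : 4 * (k + t + 1) ≤ m - (k + t) := by omega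
      have h4 : 4 * m.choose (k + t) ≤ m.choose (k + t + 1) := by
        have h5 : (4 * m.choose (k + t)) * (k + t + 1) ≤ m.choose (k + t + 1) * (k + t + 1) := by
          rw [h2]
          calc (4 * m.choose (k + t)) * (k + t + 1) = m.choose (k + t) * (4 * (k + t + 1)) := by ring
            _ ≤ m.choose (k + t) * (m - (k + t)) := Nat.mul_le_mul_left _ h3
        exact Nat.le_of_mul_le_mul_right h5 (Nat.succ_pos _)
      calc 4 ^ (t + 1) * m.choose k = 4 * (4 ^ t * m.choose k) := by ring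
        _ ≤ 4 * m.choose (k + t) := Nat.mul_le_mul_left _ h1
        _ ≤ m.choose (k + (t + 1)) := h4
  have h1 := key (2 * k) le_rfl
  have h2 : k + 2 * k = 3 * k := by ring
  rw [h2, pow_mul] at h1
  exact h1

theorem choose_R {k R : ℕ} (h : 16 * R ≤ k) : (3 * k + R).choose (3 * k) ≤ 4 ^ k := by
  have h1 : 32 ^ (3 * k) * (3 * k + R).choose (3 * k) ≤ 33 ^ (3 * k + R) := by
    have h2 := add_pow 32 1 (3 * k + R)
    have h3 : (32 + 1) = 33 := rfl
    rw [h3] at h2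
    rw [h2]
    have h4 := single_le_sum (s := range (3 * k + R + 1))
      (f := fun j => 32 ^ j * 1 ^ (3 * k + R - j) * (3 * k + R).choose j)
      (fun _ _ => Nat.zero_le _) (mem_range.2 (show 3 * k < 3 * k + R + 1 by omega))
    simpa using h4
  have h2 : 33 ^ (3 * k + R) ≤ 32 ^ (3 * k) * 4 ^ k := by
    calc 33 ^ (3 * k + R) = (33 ^ 3) ^ k * 33 ^ R := by rw [pow_add, pow_mul]
      _ ≤ (2 * 32 ^ 3) ^ k * (2 ^ 16) ^ R :=
          Nat.mul_le_mul (Nat.pow_le_pow_left (by norm_num) k) (Nat.pow_le_pow_left (by norm_num) R)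
      _ = 32 ^ (3 * k) * 2 ^ k * 2 ^ (16 * R) := by
          rw [mul_pow, ← pow_mul, ← pow_mul]
          ring
      _ ≤ 32 ^ (3 * k) * 2 ^ k * 2 ^ k :=
          Nat.mul_le_mul_left _ (Nat.pow_le_pow_right (by norm_num) h)
      _ = 32 ^ (3 * k) * 4 ^ k := by
          rw [mul_assoc, ← mul_pow, show 2 * 2 = 4 from rfl]
  exact Nat.le_of_mul_le_mul_left (h1.trans h2) (by positivity)

end Pool.Agent.H15.RV
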