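import Pool.Agent.H15.RV.Ea
import Pool.Agent.H15.RV.Eb

/-!
# Row Ec: moderate number of rows, probabilistic part

Model: `zoneA_prob`, `zoneB_prob` in `RU/Pa.lean`. Proof. `R = k / 16`. Events: (1) `(R+1) C(m,3k)/2 ≤ (ncl M (3k)).card`, probability at most
`2 m (1 - p (1-p)^(3k))^n/(R+1)` (`markov`, `Ex_ncl`); (2) `n C(m,k) ≤ (insd M k (n/2)).card`, probability at most
`2^n C(m,k) (1-p)^(k (n - n/2))/(n C(m,k)) ≤ 1/n` (`Ex_insd`; `((1-p)^k)^(n-n/2) ≤ (1/4)^(n - n/2) ≤ (1/2)^n`).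
Outside both: by `choose_le_R` with `K = 3k`: `C(m,3k)/2 < (fam M).card (3k+R).choose (3k) ≤ (fam M).card 4^k`, so with `choose_3k`:
`4^k C(m,k) < 2 (fam M).card`. By `small_le` and `sum_choose_ratio` (`RU/Bn.lean`) the number of members with at most `n/2` elements is less than
`C(m,k) + n C(m,k) = (n+1) C(m,k)`, so `(n+1) #small < (n+1)^2 C(m,k) ≤ 4^k C(m,k)/2 < (fam M).card`, and `good_of_12` applies.
-/

set_option autoImplicit false

open Finset Pool.Agent.H15.RU

namespace Pool.Agent.H15.RV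

theorem zoneE_prob {m n k : ℕ} {p : ℝ} (h0 : 0 ≤ p) (h1 : p ≤ 1) (hn : 1 ≤ n)
    (hkm : 16 * k ≤ m) (hq : (1 - p) ^ k ≤ 1 / 4) (h4 : 2 * ((n : ℝ) + 1) ^ 2 ≤ 4 ^ k) :
    Pr p (fun M : Mat m n => ¬ Good (fam M)) ≤
      2 * (m : ℝ) * (1 - p * (1 - p) ^ (3 * k)) ^ n / ((k / 16 : ℕ) + 1) + 1 / n := by
  have hC : 0 < m.choose k := Nat.choose_pos (by omega)
  have hC' : (0 : ℝ) < m.choose k := by exact_mod_cast hC
  have hC3 : 0 < m.choose (3 * k) := Nat.choose_pos (by omega)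
  have hC3' : (0 : ℝ) < m.choose (3 * k) := by exact_mod_cast hC3
  have hn' : (0 : ℝ) < n := by exact_mod_cast hn
  set R : ℕ := k / 16 with hR
  have hR1 : (0 : ℝ) < (R : ℝ) + 1 := by positivity
  have key : ∀ M : Mat m n, ¬ Good (fam M) →
      ((R : ℝ) + 1) * m.choose (3 * k) / 2 ≤ ((ncl M (3 * k)).card : ℝ) ∨
        (n : ℝ) * m.choose k ≤ ((insd M k (n / 2)).card : ℝ) := by
    intro M hM
    by_contra hcon
    rw [not_or, not_le, not_le] at hcon
    obtain ⟨c1, c2⟩ := hcon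
    have a1 : ((R : ℝ) + 1) * m.choose (3 * k) ≤
        ((R : ℝ) + 1) * (((fam M).card : ℝ) * ((3 * k + R).choose (3 * k) : ℕ)) +
          ((ncl M (3 * k)).card : ℝ) := by
      exact_mod_cast choose_le_R M (3 * k) R
    have a2 : (((3 * k + R).choose (3 * k) : ℕ) : ℝ) ≤ 4 ^ k := by
      exact_mod_cast choose_R (k := k) (R := R) (by omega)
    have a3 : (16 : ℝ) ^ k * m.choose k ≤ m.choose (3 * k) := by
      exact_mod_cast choose_3k hkm
    have a4 : ((fam M).card : ℝ) * ((3 * k + R).choose (3 * k) : ℕ) ≤ ((fam M).card : ℝ) * 4 ^ k :=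
      mul_le_mul_of_nonneg_left a2 (Nat.cast_nonneg _)
    have a5 : ((R : ℝ) + 1) * (m.choose (3 * k) / 2) < ((R : ℝ) + 1) * (((fam M).card : ℝ) * 4 ^ k) := by
      have := mul_le_mul_of_nonneg_left a4 hR1.le
      linarith
    have a6 : (m.choose (3 * k) : ℝ) / 2 < ((fam M).card : ℝ) * 4 ^ k :=
      lt_of_mul_lt_mul_left a5 hR1.le
    have a7 : (16 : ℝ) ^ k = 4 ^ k * 4 ^ k := by
      rw [← mul_pow]
      norm_num
    have h4k : (0 : ℝ) < 4 ^ k := by positivity
    have a8 : (4 : ℝ) ^ k * m.choose k < 2 * ((fam M).card : ℝ) := by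
      have h5 : ((4 : ℝ) ^ k * m.choose k) * 4 ^ k < (2 * ((fam M).card : ℝ)) * 4 ^ k := by
        have : ((4 : ℝ) ^ k * m.choose k) * 4 ^ k = (16 : ℝ) ^ k * m.choose k := by
          rw [a7]
          ring
        rw [this]
        linarith
      exact lt_of_mul_lt_mul_right h5 h4k.le
    have b1 : (14 : ℝ) * ∑ i ∈ range k, (m.choose i : ℝ) < m.choose k := by
      exact_mod_cast sum_choose_ratio hkm
    have b2 : ((((fam M).filter fun X => X.card ≤ n / 2).card : ℕ) : ℝ) ≤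
        ∑ i ∈ range k, (m.choose i : ℝ) + ((insd M k (n / 2)).card : ℝ) := by
      exact_mod_cast small_le M k (n / 2)
    have b3 : ((((fam M).filter fun X => X.card ≤ n / 2).card : ℕ) : ℝ) <
        ((n : ℝ) + 1) * m.choose k := by
      linarith
    have b4 : ((n : ℝ) + 1) * ((((fam M).filter fun X => X.card ≤ n / 2).card : ℕ) : ℝ) <
        ((fam M).card : ℝ) := by
      have h6 := mul_lt_mul_of_pos_left b3 (show (0 : ℝ) < (n : ℝ) + 1 by positivity)
      have h7 := mul_le_mul_of_nonneg_right h4 hC'.le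
      nlinarith
    refine hM (Or.inl (good_of_12 ?_))
    exact_mod_cast b4
  refine (Pr_mono h0 h1 key).trans ((Pr_or h0 h1 _ _).trans ?_)
  have b1 := markov (m := m) (n := n) h0 h1 (f := fun M => ((ncl M (3 * k)).card : ℝ))
    (fun M => Nat.cast_nonneg _) (c := ((R : ℝ) + 1) * m.choose (3 * k) / 2) (by positivity)
  have b2 := markov (m := m) (n := n) h0 h1 (f := fun M => ((insd M k (n / 2)).card : ℝ))
    (fun M => Nat.cast_nonneg _) (c := (n : ℝ) * m.choose k) (by positivity)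
  have b3 := Ex_insd (m := m) (n := n) h0 h1 k (n / 2)
  have b4 := Ex_ncl (m := m) (n := n) h0 h1 (3 * k)
  refine add_le_add (b1.trans ?_) (b2.trans ?_)
  · rw [div_le_iff₀ (by positivity)]
    refine b4.trans (le_of_eq ?_)
    field_simp
  · rw [div_le_div_iff₀ (by positivity) hn', one_mul]
    have hq0 : 0 ≤ (1 - p) ^ k := pow_nonneg (by linarith) k
    have c1 : (2 : ℝ) ^ n * (1 - p) ^ (k * (n - n / 2)) ≤ 1 := by
      have c2 : (1 - p) ^ (k * (n - n / 2)) ≤ (1 / 2 : ℝ) ^ n := by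
        rw [pow_mul]
        calc ((1 - p) ^ k) ^ (n - n / 2) ≤ (1 / 4 : ℝ) ^ (n - n / 2) :=
              pow_le_pow_left₀ hq0 hq _
          _ = (1 / 2 : ℝ) ^ (2 * (n - n / 2)) := by
              rw [pow_mul]
              norm_num
          _ ≤ (1 / 2 : ℝ) ^ n := pow_le_pow_of_le_one (by norm_num) (by norm_num) (by omega)
      calc (2 : ℝ) ^ n * (1 - p) ^ (k * (n - n / 2)) ≤ 2 ^ n * (1 / 2 : ℝ) ^ n :=
            mul_le_mul_of_nonneg_left c2 (by positivity)
        _ = 1 := by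
            rw [← mul_pow]
            norm_num
    calc Ex p (fun M : Mat m n => ((insd M k (n / 2)).card : ℝ)) * n ≤
          (2 ^ n * m.choose k * (1 - p) ^ (k * (n - n / 2))) * n :=
          mul_le_mul_of_nonneg_right b3 hn'.le
      _ = (2 ^ n * (1 - p) ^ (k * (n - n / 2))) * (n * m.choose k) := by ring
      _ ≤ 1 * (n * m.choose k) := mul_le_mul_of_nonneg_right c1 (by positivity)
      _ = n * m.choose k := one_mul _

end Pool.Agent.H15.RV
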