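import Pool.Agent.H15.RV.Ec
import Pool.Agent.H15.RV.A2

/-!
# Row Ed: moderate number of rows, numbers

Notation `ℓ = log n`, `λ = n p`. Proof. `p ≤ 1/16`, `0 < p` for large `n` (med_all). `exists_k` (`RU/Xb.lean`) with `δ = 1/2`: `k ≥ 1`, `(1-p)^k ≤ 1/4 < (1-p)^(k-1)`,
`1/2 ≤ p k ≤ 3`. `16 k ≤ m` since `16 p k ≤ 48 ≤ p m`. `2 (n+1)^2 ≤ 4^k`: `k ≥ 1/(2p) ≥ 4 ℓ` (med_all), so `4^k ≥ exp (4 ℓ) = n^4 ≥ 2 (n+1)^2`.
`zoneE_prob`: first term: `(k/16 : ℕ) + 1 ≥ k/16` (real), so it is at most `32 (m/k) (1 - p (1-p)^(3k))^n ≤ 32 (m/k) exp (-(λ (1-p)^(3k)))`;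
`m/k = p m/(p k) ≤ 2 p m ≤ 2 exp (λ/256)`; `(1-p)^k ≥ (1-p)/4`, so `(1-p)^(3k) ≥ (1-p)^3/64 ≥ 1/128` (`p ≤ 1/16`). Total `≤ 64 exp (λ/256 - λ/128)
= 64 exp (-(λ/256)) ≤ 64 exp (-(ℓ/2048)) ≤ ε/2` for large `n`; `1/n ≤ ε/2`.
-/

set_option autoImplicit false

open Finset Pool.Agent.H15.RU

namespace Pool.Agent.H15.RV

theorem Ed_four {n k : ℕ} (hn : 3 ≤ n) (hk : 4 * Real.log n ≤ k) :
    2 * ((n : ℝ) + 1) ^ 2 ≤ 4 ^ k := by
  have hn' : (3 : ℝ) ≤ n := by exact_mod_cast hn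
  have h1 : (n : ℝ) ^ 4 ≤ Real.exp k := by
    calc (n : ℝ) ^ 4 = Real.exp (4 * Real.log n) := by
          rw [show (4 : ℝ) * Real.log n = ((4 : ℕ) : ℝ) * Real.log n by norm_num, Real.exp_nat_mul,
            Real.exp_log (by linarith)]
      _ ≤ _ := Real.exp_le_exp.mpr hk
  have h2 : Real.exp k ≤ 4 ^ k := by
    rw [← mul_one (k : ℝ), Real.exp_nat_mul]
    apply pow_le_pow_left₀ (Real.exp_pos _).le
    have := Real.exp_one_lt_d9
    linarith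
  refine le_trans ?_ (h1.trans h2)
  have h3 : (9 : ℝ) ≤ (n : ℝ) ^ 2 := by nlinarith
  have h4 : (9 : ℝ) * (n : ℝ) ^ 2 ≤ (n : ℝ) ^ 4 := by nlinarith
  nlinarith

theorem Ed_num {n m k : ℕ} {p ε : ℝ} (hε : 0 < ε) (hn : 3 ≤ n) (h0 : 0 < p) (h1 : p ≤ 1 / 16)
    (hk : 1 ≤ k) (hk2 : 1 / 4 < (1 - p) ^ (k - 1)) (hk3 : 1 / 2 ≤ p * k)
    (hlam : Real.log n / 8 ≤ n * p) (hm : p * m ≤ Real.exp (n * p / 256))
    (hlog : 2048 * Real.log (128 / ε) ≤ Real.log n) :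
    2 * (m : ℝ) * (1 - p * (1 - p) ^ (3 * k)) ^ n / ((k / 16 : ℕ) + 1) ≤ ε / 2 := by
  have hn0 : (0 : ℝ) < n := by exact_mod_cast (by omega : 0 < n)
  have hk0 : (0 : ℝ) < k := by exact_mod_cast hk
  have hD : (k : ℝ) / 16 ≤ ((k / 16 : ℕ) : ℝ) + 1 := by
    have h2 : k ≤ 16 * (k / 16 + 1) := by omega
    have h3 : (k : ℝ) ≤ 16 * (((k / 16 : ℕ) : ℝ) + 1) := by exact_mod_cast h2
    linarith
  have hD0 : (0 : ℝ) < ((k / 16 : ℕ) : ℝ) + 1 := by positivity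
  have hq1 : (1 - p) ^ (3 * k) ≤ 1 := pow_le_one₀ (by linarith) (by linarith)
  have hq0 : 0 ≤ (1 - p) ^ (3 * k) := pow_nonneg (by linarith) _
  have hqk : (15 : ℝ) / 64 ≤ (1 - p) ^ k := by
    obtain ⟨l, rfl⟩ : ∃ l, k = l + 1 := ⟨k - 1, by omega⟩
    rw [Nat.add_sub_cancel] at hk2
    rw [pow_succ]
    nlinarith
  have hq : (1 : ℝ) / 128 ≤ (1 - p) ^ (3 * k) := by
    rw [mul_comm, pow_mul]
    calc (1 : ℝ) / 128 ≤ (15 / 64) ^ 3 := by norm_num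
      _ ≤ _ := pow_le_pow_left₀ (by norm_num) hqk 3
  have hx1 : p * (1 - p) ^ (3 * k) ≤ 1 := by nlinarith
  have hpow : (1 - p * (1 - p) ^ (3 * k)) ^ n ≤ Real.exp (-(n * p / 128)) := by
    refine (pow_le_exp hx1 n).trans (Real.exp_le_exp.2 ?_)
    have h2 : 0 < n * p := by positivity
    nlinarith
  have hmk : (m : ℝ) ≤ 2 * k * Real.exp (n * p / 256) := by
    have h2 : (0 : ℝ) ≤ m := Nat.cast_nonneg _
    have h3 : (m : ℝ) ≤ 2 * (p * k) * m := by nlinarith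
    have h4 : 2 * (p * k) * m = 2 * k * (p * m) := by ring
    rw [h4] at h3
    refine h3.trans ?_
    apply mul_le_mul_of_nonneg_left hm (by positivity)
  have hee : Real.exp (n * p / 256) * Real.exp (-(n * p / 128)) ≤ ε / 128 := by
    rw [← Real.exp_add, ← Real.exp_log (show 0 < ε / 128 by positivity)]
    apply Real.exp_le_exp.2
    have h5 : Real.log (ε / 128) = -Real.log (128 / ε) := by
      rw [← Real.log_inv, inv_div]
    rw [h5]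
    linarith
  have hnum : 2 * (m : ℝ) * (1 - p * (1 - p) ^ (3 * k)) ^ n ≤ k * (ε / 32) := by
    have h6 : 0 ≤ (1 - p * (1 - p) ^ (3 * k)) ^ n := pow_nonneg (by linarith) _
    calc 2 * (m : ℝ) * (1 - p * (1 - p) ^ (3 * k)) ^ n
        ≤ 2 * (2 * k * Real.exp (n * p / 256)) * Real.exp (-(n * p / 128)) := by
          apply mul_le_mul (by linarith) hpow h6 (by positivity)
      _ = 4 * k * (Real.exp (n * p / 256) * Real.exp (-(n * p / 128))) := by ring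
      _ ≤ 4 * k * (ε / 128) := by
          apply mul_le_mul_of_nonneg_left hee (by positivity)
      _ = k * (ε / 32) := by ring
  rw [div_le_iff₀ hD0]
  refine hnum.trans ?_
  nlinarith [mul_le_mul_of_nonneg_left hD hε.le]

theorem zoneE {ε : ℝ} (hε : 0 < ε) :
    ∃ N : ℕ, ∀ n ≥ N, ∀ (m : ℕ) (p : ℝ), Med n p → 48 ≤ p * m →
      p * m ≤ Real.exp (n * p / 256) → Pr p (fun M : Mat m n => ¬ Good (fam M)) ≤ ε := by
  obtain ⟨N1, hN1⟩ := med_all 8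
  obtain ⟨N2, hN2⟩ := log_large (2048 * Real.log (128 / ε))
  obtain ⟨N3, hN3⟩ := exists_nat_ge (2 / ε)
  refine ⟨N1 + N2 + N3 + 3, fun n hn m p hM h48 hm => ?_⟩
  obtain ⟨h0, h1, h8, hlp, -⟩ := hN1 n (by omega) p hM
  have hlog := hN2 n (by omega)
  have hn3 : (N3 : ℝ) ≤ n := by exact_mod_cast (by omega : N3 ≤ n)
  have hn0 : (0 : ℝ) < n := by exact_mod_cast (by omega : 0 < n)
  obtain ⟨k, hk1, hk2, hk3, hk4, hk5⟩ := exists_k (δ := 1 / 2) (by norm_num) h0 (by linarith)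
  have hkm : 16 * k ≤ m := by
    have h2 : p * (16 * k) ≤ p * m := by linarith
    have h3 := le_of_mul_le_mul_left h2 h0
    exact_mod_cast h3
  have h4 : 4 * Real.log n ≤ k := by
    have h5 : 1 / p ≤ 2 * k := by
      rw [div_le_iff₀ h0]
      linarith
    linarith
  have hmain := zoneE_prob h0.le (by linarith) (by omega) hkm hk2 (Ed_four (by omega) h4)
  have hfirst := Ed_num hε (by omega) h0 h1 hk1 hk3 hk4 hM.1 hm hlog
  have hlast : (1 : ℝ) / n ≤ ε / 2 := by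
    rw [div_le_iff₀ hn0]
    have h5 : 2 / ε ≤ n := hN3.trans hn3
    rw [div_le_iff₀ hε] at h5
    linarith
  linarith

end Pool.Agent.H15.RV
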