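import Pool.Agent.H15.RV.Defs

/-!
# Row Fu: splitting the rows into two groups

Proof. `Mat (m1 + m2) n ≃ Mat m1 n × Mat m2 n` by `M ↦ (fun i => M (castAdd m2 i), fun i => M (natAdd m1 i))` (`Fin.appendEquiv` or
`Fin.append`, `Fin.append_left`, `Fin.append_right`, `Fin.append_castAdd_natAdd`); `wt p M` is the product of the two weights
(`Fin.prod_univ_add`). Sum over the product (`Fintype.sum_equiv`, `Fintype.sum_prod_type`).
-/

set_option autoImplicit false

open Finset Pool.Agent.H15.RU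

namespace Pool.Agent.H15.RV

/-- The first group of rows. -/
def fst {m1 m2 n : ℕ} (M : Mat (m1 + m2) n) : Mat m1 n := fun i => M (Fin.castAdd m2 i)

/-- The second group of rows. -/
def snd {m1 m2 n : ℕ} (M : Mat (m1 + m2) n) : Mat m2 n := fun i => M (Fin.natAdd m1 i)

theorem Ex_split {m1 m2 n : ℕ} {p : ℝ} (F : Mat m1 n → Mat m2 n → ℝ) :
    Ex p (fun M : Mat (m1 + m2) n => F (fst M) (snd M)) =
      Ex p (fun M1 : Mat m1 n => Ex p (fun M2 : Mat m2 n => F M1 M2)) := by
  have h2 : Ex p (fun M1 : Mat m1 n => Ex p (fun M2 : Mat m2 n => F M1 M2)) =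
      ∑ x : Mat m1 n × Mat m2 n, (wt p x.1 * wt p x.2) * F x.1 x.2 := by
    rw [Fintype.sum_prod_type]
    unfold Ex
    refine sum_congr rfl fun M1 _ => ?_
    rw [mul_sum]
    exact sum_congr rfl fun M2 _ => by ring
  rw [h2]
  unfold Ex
  refine Fintype.sum_equiv (Fin.appendEquiv m1 m2).symm _ _ fun M => ?_
  have h3 : wt p M = wt p (fst M) * wt p (snd M) := by
    unfold wt fst snd
    exact Fin.prod_univ_add _
  rw [h3]
  rfl

end Pool.Agent.H15.RV
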