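import Pool.Agent.H15.RV.Defs

/-!
# Row Lw: expected deficit of the small members

Proof. For a nonempty `X` the indicator of `X ∈ fam M` is at most `∑ i, (if M i ⊆ X then 1 else 0)` (take `x ∈ X`
and `mem_fam`), whose expectation is `m (1-p)^(n - X.card)` (`Ex_sum`, `Ex_prod` with one factor or
`Ua_one` in `RU/Ua.lean` with `S = {i}`). So the expectation of `lowS M` is at most the sum over all `X` with
`2 X.card < n` of `(n - 2 X.card) * (m (1-p)^(n - X.card))`; group the `X` by `s = X.card`
(`Finset.sum_fiberwise_of_maps_to`, `card_powersetCard`).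
-/

set_option autoImplicit false

open Finset Pool.Agent.H15.RU

namespace Pool.Agent.H15.RV

private theorem Lw_le {m n : ℕ} (M : Mat m n) :
    (lowS M : ℝ) ≤ ∑ X ∈ (univ : Finset (Finset (Fin n))).filter (fun X => 2 * X.card < n),
      ((n : ℝ) - 2 * X.card) * ∑ i, (if M i ⊆ X then (1 : ℝ) else 0) := by
  unfold lowS
  rw [Nat.cast_sum]
  have hsub : (fam M).filter (fun X => X.Nonempty ∧ 2 * X.card < n) ⊆
      (univ : Finset (Finset (Fin n))).filter (fun X => 2 * X.card < n) := by
    intro X hX
    exact Finset.mem_filter.2 ⟨Finset.mem_univ _, (Finset.mem_filter.1 hX).2.2⟩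
  refine le_trans ?_ (Finset.sum_le_sum_of_subset_of_nonneg hsub ?_)
  · refine Finset.sum_le_sum fun X hX => ?_
    obtain ⟨hXf, ⟨x, hx⟩, hXn⟩ := Finset.mem_filter.1 hX
    obtain ⟨i, _, hi⟩ := mem_fam.1 hXf x hx
    have h1 : ((n - 2 * X.card : ℕ) : ℝ) = (n : ℝ) - 2 * X.card := by
      rw [Nat.cast_sub hXn.le]
      push_cast
      ring
    have h2 : (0 : ℝ) ≤ (n : ℝ) - 2 * X.card := by
      rw [← h1]
      exact Nat.cast_nonneg _
    have h3 : (1 : ℝ) ≤ ∑ i, (if M i ⊆ X then (1 : ℝ) else 0) := by
      have h4 := Finset.single_le_sum (f := fun i => (if M i ⊆ X then (1 : ℝ) else 0))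
        (fun j _ => by split_ifs <;> norm_num) (Finset.mem_univ i)
      rwa [if_pos hi] at h4
    rw [h1]
    exact le_mul_of_one_le_right h2 h3
  · intro X hX _
    have hXn : 2 * X.card < n := (Finset.mem_filter.1 hX).2
    have h2 : (2 : ℝ) * X.card < n := by exact_mod_cast hXn
    refine mul_nonneg (by linarith) (Finset.sum_nonneg fun i _ => ?_)
    split_ifs <;> norm_num

private theorem Lw_grp {n : ℕ} (g : ℕ → ℝ) :
    ∑ X ∈ (univ : Finset (Finset (Fin n))).filter (fun X => 2 * X.card < n), g X.card =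
      ∑ s ∈ (range n).filter (fun s => 2 * s < n), (n.choose s : ℝ) * g s := by
  rw [← Finset.sum_fiberwise_of_maps_to (s := (univ : Finset (Finset (Fin n))).filter
    (fun X => 2 * X.card < n)) (t := (range n).filter (fun s => 2 * s < n))
    (g := fun X => X.card)]
  · refine Finset.sum_congr rfl fun s hs => ?_
    have hs2 : 2 * s < n := (Finset.mem_filter.1 hs).2
    have h1 : ((univ : Finset (Finset (Fin n))).filter (fun X => 2 * X.card < n)).filter
        (fun X => X.card = s) = Finset.powersetCard s univ := by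
      ext X
      simp only [Finset.mem_filter, Finset.mem_univ, true_and, Finset.mem_powersetCard,
        Finset.subset_univ]
      constructor
      · exact fun h => h.2
      · intro h
        exact ⟨by rw [h]; exact hs2, h⟩
    rw [h1]
    have h2 : ∀ X ∈ Finset.powersetCard s (univ : Finset (Fin n)), g X.card = g s := by
      intro X hX
      rw [(Finset.mem_powersetCard.1 hX).2]
    rw [Finset.sum_congr rfl h2, Finset.sum_const, Finset.card_powersetCard, Finset.card_univ,
      Fintype.card_fin, nsmul_eq_mul]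
  · intro X hX
    have h := (Finset.mem_filter.1 hX).2
    refine Finset.mem_filter.2 ⟨Finset.mem_range.2 ?_, h⟩
    omega

theorem Ex_low {m n : ℕ} {p : ℝ} (h0 : 0 ≤ p) (h1 : p ≤ 1) :
    Ex p (fun M : Mat m n => (lowS M : ℝ)) ≤
      ∑ s ∈ (range n).filter (fun s => 2 * s < n),
        ((n : ℝ) - 2 * s) * n.choose s * (m * (1 - p) ^ (n - s)) := by
  refine (Ex_mono h0 h1 Lw_le).trans (le_of_eq ?_)
  rw [Ex_sum]
  have hX : ∀ X ∈ (univ : Finset (Finset (Fin n))).filter (fun X => 2 * X.card < n),
      Ex p (fun M : Mat m n => ((n : ℝ) - 2 * X.card) * ∑ i, (if M i ⊆ X then (1 : ℝ) else 0)) =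
      ((n : ℝ) - 2 * X.card) * (m * (1 - p) ^ (n - X.card)) := by
    intro X _
    rw [Ex_const_mul, Ex_sum]
    have hi : ∀ i ∈ (univ : Finset (Fin m)),
        Ex p (fun M : Mat m n => if M i ⊆ X then (1 : ℝ) else 0) = (1 - p) ^ (n - X.card) := by
      intro i _
      have h := Ua_one (p := p) X ({i} : Finset (Fin m))
      simp only [Finset.mem_singleton, forall_eq, Finset.card_singleton, pow_one] at h
      exact h
    rw [Finset.sum_congr rfl hi, Finset.sum_const, Finset.card_univ, Fintype.card_fin,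
      nsmul_eq_mul]
  rw [Finset.sum_congr rfl hX,
    Lw_grp (fun s => ((n : ℝ) - 2 * s) * (m * (1 - p) ^ (n - s)))]
  refine Finset.sum_congr rfl fun s _ => ?_
  ring

end Pool.Agent.H15.RV
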