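import Pool.Agent.H15.RV.A2

/-!
# Row Xb: the number b

Model: `exists_b` in `RU/Xb.lean`. Notation `ℓ = log n`, `λ = n p`. Proof. `p m > exp (λ/256) ≥ exp (ℓ/2048) ≥ 2 ℓ` for large `n`. As `(1-p)^b → 0` there is a least `b`
with `p m (1-p)^(b+1) < 2 ℓ` (Nat.find), and then `2 ℓ ≤ p m (1-p)^b`. `(1-p)^(b+1) < 2 ℓ/(p m) ≤ 2 ℓ exp (-(λ/256)) ≤ exp (-(λ/512))` for large `n`
(`log (2 ℓ) ≤ ℓ/4096 ≤ λ/512`), and `(1-p)^(b+1) ≥ exp (-((b+1) (p + 2p^2))) ≥ exp (-(2 p (b+1)))` (one_sub_low2, `p ≤ 1/2`). So `2 p (b+1) ≥ λ/512`, i.e.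
`b + 1 ≥ n/1024`, and `b ≥ n/1024 - 1 ≥ n/1100` for large `n`.
-/

set_option autoImplicit false

open Finset Pool.Agent.H15.RU

namespace Pool.Agent.H15.RV

theorem exists_b2 :
    ∃ N : ℕ, ∀ n ≥ N, ∀ (m : ℕ) (p : ℝ), Med n p → Real.exp (n * p / 256) < p * m →
      ∃ b : ℕ, 2 * Real.log n ≤ p * m * (1 - p) ^ b ∧
        p * m * (1 - p) ^ (b + 1) < 2 * Real.log n ∧ 1 / 1100 * (n : ℝ) ≤ b := by
  obtain ⟨N1, hN1⟩ := A2_loglog 8192
  obtain ⟨N2, hN2⟩ := A2_log 8192
  obtain ⟨N3, hN3⟩ := med_all 1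
  refine ⟨N1 + N2 + N3 + 20000, fun n hn m p hM hm => ?_⟩
  have h1 := hN1 n (by omega)
  have h2 := hN2 n (by omega)
  obtain ⟨hp0, hp1, -, -, -⟩ := hN3 n (by omega) p hM
  have hlam := hM.1
  have hn0 : (20000 : ℝ) ≤ n := by exact_mod_cast (by omega : 20000 ≤ n)
  have hl0 : (0 : ℝ) < Real.log n := by linarith
  have hE0 : 0 < Real.exp (n * p / 512) := Real.exp_pos _
  have hEE : Real.exp (n * p / 256) = Real.exp (n * p / 512) * Real.exp (n * p / 512) := by
    rw [← Real.exp_add]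
    congr 1
    ring
  have h3 : 2 * Real.log n ≤ Real.exp (n * p / 512) := by
    have h4 : Real.log (2 * Real.log n) ≤ n * p / 512 := by
      rw [Real.log_mul (by norm_num) hl0.ne']
      have h5 := Real.log_two_lt_d9
      linarith
    calc 2 * Real.log n = Real.exp (Real.log (2 * Real.log n)) := (Real.exp_log (by linarith)).symm
      _ ≤ _ := Real.exp_le_exp.mpr h4
  have hE1 : 1 ≤ Real.exp (n * p / 512) := by linarith
  have hpm : Real.exp (n * p / 512) * Real.exp (n * p / 512) < p * m := by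
    rw [← hEE]
    exact hm
  have hpm0 : 0 < p * m := lt_trans (mul_pos hE0 hE0) hpm
  have h10 : 2 * Real.log n ≤ p * m := by nlinarith
  have hex : ∃ b : ℕ, p * m * (1 - p) ^ (b + 1) < 2 * Real.log n := by
    obtain ⟨k, hk⟩ := exists_pow_lt_of_lt_one (show 0 < 2 * Real.log n / (p * m) by positivity)
      (show 1 - p < 1 by linarith)
    refine ⟨k, ?_⟩
    rw [lt_div_iff₀ hpm0] at hk
    have h11 : (1 - p) ^ (k + 1) ≤ (1 - p) ^ k :=
      pow_le_pow_of_le_one (by linarith) (by linarith) (by omega)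
    nlinarith
  classical
  refine ⟨Nat.find hex, ?_, Nat.find_spec hex, ?_⟩
  · rcases Nat.eq_zero_or_pos (Nat.find hex) with h0 | h0
    · rw [h0]; simpa using h10
    · have h11 := Nat.find_min hex (m := Nat.find hex - 1) (by omega)
      rw [Nat.sub_add_cancel h0] at h11
      exact not_lt.mp h11
  · set b := Nat.find hex with hb
    have hs : p * m * (1 - p) ^ (b + 1) < 2 * Real.log n := Nat.find_spec hex
    have hpos : 0 < (1 - p) ^ (b + 1) := pow_pos (by linarith) _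
    have h11 : (1 - p) ^ (b + 1) < Real.exp (-(n * p / 512)) := by
      rw [Real.exp_neg, ← one_div, lt_div_iff₀ hE0]
      have h12 : Real.exp (n * p / 512) * (Real.exp (n * p / 512) * (1 - p) ^ (b + 1)) <
          Real.exp (n * p / 512) * 1 := by
        have h13 := mul_lt_mul_of_pos_right hpm hpos
        nlinarith
      have h14 := lt_of_mul_lt_mul_left h12 hE0.le
      linarith
    have h13 : Real.exp (-(2 * p * (b + 1))) ≤ (1 - p) ^ (b + 1) := by
      refine le_trans ?_ (one_sub_low2 hp0.le (by linarith) (b + 1))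
      apply Real.exp_le_exp.mpr
      push_cast
      have h14 : (0 : ℝ) ≤ (b : ℝ) + 1 := by positivity
      have h15 : p + 2 * p ^ 2 ≤ 2 * p := by nlinarith
      have h16 := mul_le_mul_of_nonneg_left h15 h14
      linarith
    have h14 := Real.exp_lt_exp.mp (lt_of_le_of_lt h13 h11)
    have h15 : p * (n / 1024) < p * ((b : ℝ) + 1) := by linarith
    have h16 := lt_of_mul_lt_mul_left h15 hp0.le
    linarith

end Pool.Agent.H15.RV
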