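import Pool.Agent.H15.RV.A2

/-!
# Row Zb: many rows, thin family

This is `zoneB` of `RU/Zb.lean` with `δ = 1/2`, `bet δ` replaced by `1/1100`, and `Reg δ n p` (only used for `0 < p < 1`, `p ≤ 1 - δ`) replaced by `0 < p ≤ 1/2`: copy the proof
(`zoneB_sum`, `zoneB_insd` with `δ = 1/2`; `choose_low` with `β = 1/1100`; `zoneB_prob`, `cover_pow`).
-/

set_option autoImplicit false

open Finset Pool.Agent.H15.RU

namespace Pool.Agent.H15.RV

theorem zoneB2 {ε : ℝ} (hε : 0 < ε) :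
    ∃ N : ℕ, ∀ n ≥ N, ∀ (m b k : ℕ) (p : ℝ), 0 < p → p ≤ 1 / 2 →
      2 * Real.log n ≤ p * m * (1 - p) ^ b → p * m * (1 - p) ^ (b + 1) < 2 * Real.log n →
      1 / 1100 * (n : ℝ) ≤ b → 1 ≤ k → (1 - p) ^ k ≤ 1 / 4 → 1 / 4 < (1 - p) ^ (k - 1) →
      1 / 2 ≤ p * k → p * k ≤ 3 → 2 * b ≤ n →
      16 * ((n : ℝ) + 1) ^ 3 * (C1 (1 / 2) * Real.log n) ^ k ≤
        (1 + 1 / 1100 : ℝ) ^ (n - 2 * b) →
      Pr p (fun M : Mat m n => ¬ Good (fam M)) ≤ ε := by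
  obtain ⟨N1, hN1⟩ := log_large 2
  obtain ⟨N2, hN2⟩ := exists_nat_gt (3 / ε)
  refine ⟨max 3 (max N1 N2), ?_⟩
  intro n hn m b k p hp0 hp2 hb1 hb2 hb3 hk1 hk2 hk3 hk4 hk5 hbn hbig
  have hn3 : 3 ≤ n := le_trans (le_max_left _ _) hn
  have hnN1 : N1 ≤ n := le_trans (le_trans (le_max_left _ _) (le_max_right _ _)) hn
  have hnN2 : N2 ≤ n := le_trans (le_trans (le_max_right _ _) (le_max_right _ _)) hn
  have hδ : (0 : ℝ) < 1 / 2 := by norm_num
  have hp1 : p < 1 := by linarith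
  have hpδ : p ≤ 1 - 1 / 2 := by linarith
  have hlog := hN1 n hnN1
  have hn0 : (0 : ℝ) < n := by exact_mod_cast (by omega : 0 < n)
  have hnε : 3 / (n : ℝ) ≤ ε := by
    have h1 : 3 / ε < n := lt_of_lt_of_le hN2 (by exact_mod_cast hnN2)
    rw [div_lt_iff₀ hε] at h1
    rw [div_le_iff₀ hn0]
    linarith
  have hq0 : 0 ≤ 1 - p := by linarith
  have hqb : (1 - p) ^ b ≤ 1 := pow_le_one₀ hq0 (by linarith)
  have hqb0 : 0 ≤ (1 - p) ^ b := by positivity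
  have hkm : k ≤ m := by
    have h1 : p * m * (1 - p) ^ b ≤ p * m := by
      have : 0 ≤ p * m := by positivity
      nlinarith
    have h2 : p * k ≤ p * m := by linarith
    have h3 : (k : ℝ) ≤ m := le_of_mul_le_mul_left h2 hp0
    exact_mod_cast h3
  have hS1 := zoneB_sum (ℓ := Real.log n) hδ hp0 hpδ hk1 hkm hk3 hk4 (by linarith) hb2
  have hS2 := zoneB_insd (ℓ := Real.log n) hδ hp0 hpδ hk1 hkm hk2 hk4 (by linarith) hb2 hbn
  have hbet : (0 : ℝ) ≤ 1 / 1100 := by norm_num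
  have hCl := choose_low hbn hbet hb3
  obtain ⟨S, hS⟩ : ∃ S : ℝ, S = (C1 (1 / 2) * Real.log n) ^ k * 4 ^ b := ⟨_, rfl⟩
  rw [← hS] at hS1 hS2
  have hC0 : (0 : ℝ) < n.choose b := by exact_mod_cast Nat.choose_pos (by omega : b ≤ n)
  have hS0 : 0 ≤ S := by
    refine le_trans ?_ hS1
    positivity
  have hSC : 16 * ((n : ℝ) + 1) ^ 2 * S ≤ n.choose b := by
    have h1 : 16 * ((n : ℝ) + 1) ^ 3 * S ≤ ((n : ℝ) + 1) * n.choose b := by
      calc 16 * ((n : ℝ) + 1) ^ 3 * S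
          = 4 ^ b * (16 * ((n : ℝ) + 1) ^ 3 * (C1 (1 / 2) * Real.log n) ^ k) := by rw [hS]; ring
        _ ≤ 4 ^ b * (1 + 1 / 1100) ^ (n - 2 * b) := mul_le_mul_of_nonneg_left hbig (by positivity)
        _ ≤ (2 * b + 1) * n.choose b := hCl
        _ ≤ ((n : ℝ) + 1) * n.choose b := by
            apply mul_le_mul_of_nonneg_right _ hC0.le
            have : ((2 * b : ℕ) : ℝ) ≤ n := by exact_mod_cast hbn
            push_cast at this
            linarith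
    have h2 : ((n : ℝ) + 1) * (16 * ((n : ℝ) + 1) ^ 2 * S) ≤ ((n : ℝ) + 1) * n.choose b := by
      calc ((n : ℝ) + 1) * (16 * ((n : ℝ) + 1) ^ 2 * S) = 16 * ((n : ℝ) + 1) ^ 3 * S := by ring
        _ ≤ _ := h1
    exact le_of_mul_le_mul_left h2 (by linarith)
  have hSC8 : 8 * ((n : ℝ) + 1) * S ≤ n.choose b := by
    refine le_trans ?_ hSC
    have : 8 * ((n : ℝ) + 1) ≤ 16 * ((n : ℝ) + 1) ^ 2 := by nlinarith
    exact mul_le_mul_of_nonneg_right this hS0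
  have hh : 8 * ((n : ℝ) + 1) * ∑ i ∈ range k, (m.choose i : ℝ) ≤ n.choose b :=
    le_trans (mul_le_mul_of_nonneg_left hS1 (by positivity)) hSC8
  have hpr := zoneB_prob (m := m) (k := k) hp0.le hp1.le (by omega : b ≤ n) hh
  refine hpr.trans ?_
  have t1 : 2 * (n : ℝ) * (1 - p * (1 - p) ^ b) ^ m ≤ 2 / n := by
    have h2 := cover_pow (by omega : 1 ≤ n) hp0.le hp1.le hb1
    calc 2 * (n : ℝ) * (1 - p * (1 - p) ^ b) ^ m ≤ 2 * (n : ℝ) * (1 / (n : ℝ) ^ 2) :=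
          mul_le_mul_of_nonneg_left h2 (by positivity)
      _ = 2 / n := by field_simp
  have t2 : 8 * ((n : ℝ) + 1) * ((2 : ℝ) ^ n * m.choose k * (1 - p) ^ (k * (n - n / 2))) /
      n.choose b ≤ 1 / n := by
    rw [div_le_div_iff₀ hC0 hn0, one_mul]
    calc 8 * ((n : ℝ) + 1) * ((2 : ℝ) ^ n * m.choose k * (1 - p) ^ (k * (n - n / 2))) * n
        ≤ 8 * ((n : ℝ) + 1) * S * n := by
          apply mul_le_mul_of_nonneg_right _ hn0.le
          exact mul_le_mul_of_nonneg_left hS2 (by positivity)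
      _ ≤ 16 * ((n : ℝ) + 1) ^ 2 * S := by nlinarith
      _ ≤ n.choose b := hSC
  have t3 : 2 / (n : ℝ) + 1 / n = 3 / n := by ring
  linarith

end Pool.Agent.H15.RV
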