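import Pool.Agent.H15.RV.A2

/-!
# Row Xa: the critical window, the number a

Model: `zoneD_a` in `RU/Xa.lean` (copy and simplify). Notation `ℓ = log n`, `λ = n p ≥ ℓ/8`, `q = 1 - p`; `p ≤ 1/16`, `λ ≥ 100`, `n ≥ 30` for large `n`. Proof.
From `2 ℓ ≤ p m q^b`, `q^b ≤ exp (-p b)` and `n ≤ 4 b`: `p m ≥ 2 ℓ exp (p b) ≥ 2 ℓ exp (λ/4) ≥ 6 ℓ`. Take `a = 6 ℓ/(p m) ∈ [0, 1]`. Then `(1 - p a)^m ≤ exp (-p a m) = exp (-6 ℓ) = n^(-6)`, and
`(1 - 2 p q)^m ≤ exp (-2 p q m) ≤ exp (-3 ℓ)`.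
Let `N + 1 + s ≤ n`; we need `6 ℓ ≤ p m (q^N + (N-1) p q^(N-1))`. If `5 N ≤ n`: `p m q^N ≥ 2 ℓ q^N/q^b ≥ 2 ℓ exp (p (b-N)) ≥ 2 ℓ exp (λ/20) ≥ 6 ℓ`
(`b - N ≥ n/20 ≥ 0`). If `5 N > n`: `q^(N-1) ≥ q^(n-s)` (`N - 1 ≤ n - s`), so `p m q^(N-1) ≥ 300`, and `(N-1) p ≥ (n/5 - 1) p ≥ λ/6`, so the second term is at least
`300 λ/6 = 50 λ ≥ 6 ℓ`.
-/

set_option autoImplicit false

open Finset Pool.Agent.H15.RU

namespace Pool.Agent.H15.RV

theorem Xa_exp_log2 (n k : ℕ) (hn : 0 < n) :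
    Real.exp (-((k : ℝ) * Real.log n)) = 1 / (n : ℝ) ^ k := by
  have hn' : (0 : ℝ) < n := by exact_mod_cast hn
  rw [Real.exp_neg, one_div, Real.exp_nat_mul, Real.exp_log hn']

theorem zoneD_a2 :
    ∃ N₀ : ℕ, ∀ n ≥ N₀, ∀ (m b s : ℕ) (p : ℝ), Med n p → n ≤ 4 * b →
      2 * Real.log n ≤ p * m * (1 - p) ^ b → 300 ≤ p * m * (1 - p) ^ (n - s) →
      ∃ a : ℝ, 0 ≤ a ∧ a ≤ 1 ∧
        (∀ N : ℕ, N + 1 + s ≤ n →
          a ≤ (1 - p) ^ N + ((N - 1 : ℕ) : ℝ) * (p * (1 - p) ^ (N - 1))) ∧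
        (1 - p * a) ^ m ≤ 1 / (n : ℝ) ^ 6 ∧ (1 - 2 * p * (1 - p)) ^ m ≤ 1 / (n : ℝ) ^ 3 := by
  obtain ⟨N1, h1⟩ := med_all 100
  obtain ⟨N2, h2⟩ := A2_log 1
  refine ⟨max 30 (max N1 N2), ?_⟩
  intro n hn m b s p hR hb hpm hth
  have hn30 : 30 ≤ n := le_trans (le_max_left _ _) hn
  have hnr : max N1 N2 ≤ n := le_trans (le_max_right _ _) hn
  have hn1 : N1 ≤ n := le_trans (le_max_left _ _) hnr
  have hn2 : N2 ≤ n := le_trans (le_max_right _ _) hnr
  obtain ⟨hp0, hp16, hlam2, -, -⟩ := h1 n hn1 p hR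
  have hL := h2 n hn2
  have hm1 := hR.1
  have hp1 : p < 1 := by linarith
  have hq0 : 0 < 1 - p := by linarith
  have hnR : (30 : ℝ) ≤ n := by exact_mod_cast hn30
  have hbR : (n : ℝ) ≤ 4 * b := by exact_mod_cast hb
  set L := Real.log n with hLdef
  have hexp2 : (3 : ℝ) ≤ Real.exp 2 := by
    have := Real.add_one_le_exp (2 : ℝ)
    linarith
  have hpm0 : 0 ≤ p * m := by positivity
  -- `p m` is large
  have A1 : 2 * L * Real.exp (p * b) ≤ p * m := by
    have hq := pow_le_exp hp1.le b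
    have h4 : 2 * L ≤ p * m * Real.exp (-(p * b)) :=
      hpm.trans (mul_le_mul_of_nonneg_left hq hpm0)
    have h5 : 2 * L * Real.exp (p * b) ≤ p * m * Real.exp (-(p * b)) * Real.exp (p * b) :=
      mul_le_mul_of_nonneg_right h4 (Real.exp_pos _).le
    have h6 : p * m * Real.exp (-(p * b)) * Real.exp (p * b) = p * m := by
      rw [mul_assoc, ← Real.exp_add]
      simp
    linarith
  have A2 : 3 ≤ Real.exp (p * b) := by
    have h4 : 2 ≤ p * b := by nlinarith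
    exact hexp2.trans (Real.exp_le_exp.2 h4)
  have A4 : 6 * L ≤ p * m := by
    have : 2 * L * 3 ≤ 2 * L * Real.exp (p * b) :=
      mul_le_mul_of_nonneg_left A2 (by linarith)
    linarith
  have hpm1 : 0 < p * m := by linarith
  refine ⟨6 * L / (p * m), by positivity, (div_le_one hpm1).2 A4, ?_, ?_, ?_⟩
  · intro N hN
    rw [div_le_iff₀ hpm1]
    by_cases h5 : 5 * N ≤ n
    · have h5R : 5 * (N : ℝ) ≤ n := by exact_mod_cast h5
      have hNb : N ≤ b := by omega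
      have hsplit : (1 - p) ^ b = (1 - p) ^ (b - N) * (1 - p) ^ N := by
        rw [← pow_add, Nat.sub_add_cancel hNb]
      have hq := pow_le_exp hp1.le (b - N)
      rw [Nat.cast_sub hNb] at hq
      have hqN : 0 < (1 - p) ^ N := pow_pos hq0 N
      have B1 : 2 * L ≤ p * m * (1 - p) ^ N * Real.exp (-(p * (b - N))) := by
        calc 2 * L ≤ p * m * (1 - p) ^ b := hpm
          _ = p * m * (1 - p) ^ N * (1 - p) ^ (b - N) := by rw [hsplit]; ring
          _ ≤ _ := mul_le_mul_of_nonneg_left hq (by positivity)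
      have B2 : 2 * L * Real.exp (p * (b - N)) ≤ p * m * (1 - p) ^ N := by
        have h6 := mul_le_mul_of_nonneg_right B1 (Real.exp_pos (p * (b - N))).le
        have h7 : p * m * (1 - p) ^ N * Real.exp (-(p * (b - N))) * Real.exp (p * (b - N))
            = p * m * (1 - p) ^ N := by
          rw [mul_assoc, ← Real.exp_add]
          simp
        linarith
      have B3 : (3 : ℝ) ≤ Real.exp (p * (b - N)) := by
        refine hexp2.trans (Real.exp_le_exp.2 ?_)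
        have h8 : (n : ℝ) / 20 ≤ b - N := by linarith
        have h9 : p * (n / 20) ≤ p * (b - N) := mul_le_mul_of_nonneg_left h8 hp0.le
        have h10 : p * ((n : ℝ) / 20) = n * p / 20 := by ring
        linarith
      have B4 : 2 * L * 3 ≤ 2 * L * Real.exp (p * (b - N)) :=
        mul_le_mul_of_nonneg_left B3 (by linarith)
      have B5 : 0 ≤ ((N - 1 : ℕ) : ℝ) * (p * (1 - p) ^ (N - 1)) * (p * m) := by positivity
      have B6 : ((1 - p) ^ N + ((N - 1 : ℕ) : ℝ) * (p * (1 - p) ^ (N - 1))) * (p * m)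
          = p * m * (1 - p) ^ N + ((N - 1 : ℕ) : ℝ) * (p * (1 - p) ^ (N - 1)) * (p * m) := by
        ring
      rw [B6]
      linarith
    · push Not at h5
      have hN1 : 1 ≤ N := by omega
      have h5R : (n : ℝ) < 5 * N := by exact_mod_cast h5
      have hle : N - 1 ≤ n - s := by omega
      have hmono : (1 - p) ^ (n - s) ≤ (1 - p) ^ (N - 1) :=
        pow_le_pow_of_le_one hq0.le (by linarith) hle
      have C1 : 300 ≤ p * m * (1 - p) ^ (N - 1) :=
        hth.trans (mul_le_mul_of_nonneg_left hmono hpm0)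
      have C2 : n * p / 6 ≤ ((N - 1 : ℕ) : ℝ) * p := by
        rw [Nat.cast_sub hN1]
        push_cast
        have : (n : ℝ) / 6 ≤ N - 1 := by linarith
        have h9 : (n : ℝ) / 6 * p ≤ (N - 1) * p := mul_le_mul_of_nonneg_right this hp0.le
        have h10 : (n : ℝ) / 6 * p = n * p / 6 := by ring
        linarith
      have C3 : n * p / 6 * 300 ≤
          ((N - 1 : ℕ) : ℝ) * p * (p * m * (1 - p) ^ (N - 1)) :=
        mul_le_mul C2 C1 (by norm_num) (by positivity)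
      have C5 : 0 ≤ (1 - p) ^ N * (p * m) := by positivity
      have C6 : ((1 - p) ^ N + ((N - 1 : ℕ) : ℝ) * (p * (1 - p) ^ (N - 1))) * (p * m)
          = (1 - p) ^ N * (p * m) + ((N - 1 : ℕ) : ℝ) * p * (p * m * (1 - p) ^ (N - 1)) := by
        ring
      rw [C6]
      linarith
  · have hpa : p * (6 * L / (p * m)) ≤ 1 := by
      have h4 : 6 * L / (p * m) ≤ 1 := (div_le_one hpm1).2 A4
      have h5 : 0 ≤ 6 * L / (p * m) := by positivity
      nlinarith
    refine (pow_le_exp hpa m).trans (le_of_eq ?_)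
    have h6 : p * (6 * L / (p * m)) * m = ((6 : ℕ) : ℝ) * L := by
      have : p * (6 * L / (p * m)) * m = 6 * L * ((p * m) / (p * m)) := by ring
      rw [this, div_self hpm1.ne']
      norm_num
    rw [h6, hLdef]
    exact Xa_exp_log2 n 6 (by omega)
  · have hpq : 2 * p * (1 - p) ≤ 1 := by nlinarith [sq_nonneg (2 * p - 1)]
    refine (pow_le_exp hpq m).trans ?_
    rw [← Xa_exp_log2 n 3 (by omega)]
    refine Real.exp_le_exp.2 (neg_le_neg ?_)
    have h7 : 3 * L ≤ 2 * (p * m * (1 - p)) := by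
      have h9 : 6 * L * (1 / 2) ≤ p * m * (1 - p) :=
        mul_le_mul A4 (by linarith) (by norm_num) hpm0
      linarith
    have h8 : 2 * p * (1 - p) * m = 2 * (p * m * (1 - p)) := by ring
    rw [h8]
    push_cast
    linarith

end Pool.Agent.H15.RV
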