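import Pool.Agent.H15.RV.A2

/-!
# Row Xv: the critical window, members of middle size

Model: `RU/Xv.lean` (its lemmas `Xv_fin`, `Xv_T2` can be used directly). Notation `ℓ = log n`, `λ = n p`, `ℓ/8 ≤ λ ≤ ℓ^2`, `y0 = ℓ^(-1/2)/2`. Let `n` be large.
`ℓ ≤ 1/p` (med_all), `log ℓ ≥ 1`, so `(K+5) (ℓ + log ℓ/p) ≤ 2 (K+5) log ℓ/p`  (*). Take `k = ⌈log ℓ/(2p)⌉₊`: `k ≥ 1`, `p k ≥ log ℓ/2`, `k ≤ log ℓ/(2p) + 1`.
(1) First term `T1 = C(m,k) ρ^k`: if `k > m` it is 0. Otherwise `C(m,k) ≤ (exp 1 * m/k)^k` (`sum_choose_le`, `RU/Bn.lean`, one term), so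
`T1 ≤ (exp 1 * m ρ/k)^k ≤ (300 exp 1/(p k))^k ≤ (600 exp 1/log ℓ)^k ≤ exp (-(A k))` with `A = 4 (K+5)` once `log ℓ ≥ 600 exp (1 + A)` (`loglog_large`), and
`A k ≥ A log ℓ/(2p) = 2 (K+5) log ℓ/p ≥ (K+5) (ℓ + log ℓ/p)` by (*).
(2) Second term: `(1-p)^k ≥ exp (-(k (p + 2p^2))) ≥ exp (-(log ℓ/2 + p log ℓ + p + 2p^2)) ≥ y0` (one_sub_low2; `p log ℓ + p + 2 p^2 ≤ log 2` for large `n`: `p ℓ ≤ small`
by med_all). `m ρ ≤ 300/p = 300 n/λ ≤ 2400 n/ℓ ≤ (n/16) y0` for large `n` (`ℓ^(1/2) ≥ 76800`). So by `Xv_T2` (with `y = y0`) it is at most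
`exp (-(n/16 * y0))`, and `n y0/16 = n ℓ^(-1/2)/32 ≥ (K+5) (ℓ + 8 n log ℓ/ℓ) ≥ (K+5) (ℓ + log ℓ/p)` for large `n` (`1/p ≤ 8 n/ℓ`).
`Xv_fin` for both terms (`ε/2` each).
-/

set_option autoImplicit false

open Finset Pool.Agent.H15.RU

namespace Pool.Agent.H15.RV

theorem zoneD_V2 {ε : ℝ} (hε : 0 < ε) (K : ℝ) (hK : 0 ≤ K) :
    ∃ N : ℕ, ∀ n ≥ N, ∀ (m : ℕ) (p ρ : ℝ), Med n p → 0 ≤ ρ → p * m * ρ ≤ 300 →
      ∃ k : ℕ, 8 * (4 * (n : ℝ) + 1) * (n + 1) *
        (m.choose k * ρ ^ k + (1 - (1 - p) ^ k) ^ (n / 4) * (1 + ρ) ^ m) ≤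
        ε * Real.exp (-(K * (Real.log n + Real.log (Real.log n) / p))) := by
  set A : ℝ := 4 * (K + 5) with hA
  set B : ℝ := 2048 * (K + 5) + 76800 with hB
  have hB0 : 0 < B := by positivity
  obtain ⟨N1, hN1⟩ := A2_cube (64 * (K + 5))
  obtain ⟨N3, hN3⟩ := loglog_large (max 1 (max (600 * Real.exp (1 + A)) (4 * Real.log B)))
  obtain ⟨N4, hN4⟩ := A2_log (max 1 (-Real.log (ε / 2)))
  obtain ⟨N5, hN5⟩ := med_all 2
  refine ⟨N1 + N3 + N4 + N5 + 9, fun n hn m p ρ hmed hρ hm => ?_⟩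
  have e1 := hN1 n (by omega)
  have e3 := hN3 n (by omega)
  have e4 := hN4 n (by omega)
  obtain ⟨hp, hp16, -, hpl, -⟩ := hN5 n (by omega) p hmed
  have hLL1 : 1 ≤ Real.log (Real.log n) := (le_max_left _ _).trans e3
  have hLLA : 600 * Real.exp (1 + A) ≤ Real.log (Real.log n) :=
    (le_max_left _ _).trans ((le_max_right _ _).trans e3)
  have hLLB : 4 * Real.log B ≤ Real.log (Real.log n) :=
    (le_max_right _ _).trans ((le_max_right _ _).trans e3)
  have hn0 : (0 : ℝ) < n := by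
    have : 0 < n := by omega
    exact_mod_cast this
  have hl1 : 1 ≤ Real.log n := (le_max_left _ _).trans e4
  have hεn : Real.exp (-Real.log n) ≤ ε / 2 := by
    have h1 : -Real.log (ε / 2) ≤ Real.log n := (le_max_right _ _).trans e4
    calc Real.exp (-Real.log n) ≤ Real.exp (Real.log (ε / 2)) := Real.exp_le_exp.2 (by linarith)
      _ = ε / 2 := Real.exp_log (by linarith)
  obtain ⟨m1, -⟩ := hmed
  set l : ℝ := Real.log n with hl
  set G : ℝ := Real.log l with hG
  have hl0 : 0 < l := by linarith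
  have hG0 : 0 < G := by linarith
  have hGl : G ≤ l := by
    have := Real.log_le_sub_one_of_pos hl0
    linarith
  -- the number s with s ^ 4 = l
  set s : ℝ := Real.exp (G / 4) with hs
  have hs0 : 0 < s := Real.exp_pos _
  have hs4 : s ^ 4 = l := by
    rw [hs, ← Real.exp_nat_mul]
    have : ((4 : ℕ) : ℝ) * (G / 4) = G := by push_cast; ring
    rw [this, hG, Real.exp_log hl0]
  have hsG : G ≤ 4 * s := by
    have := Real.add_one_le_exp (G / 4)
    rw [← hs] at this
    linarith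
  have hsB : B ≤ s := by
    rw [hs, ← Real.log_le_iff_le_exp hB0]
    linarith
  have hs1 : 1 ≤ s := by
    have : (1 : ℝ) ≤ B := by rw [hB]; linarith
    linarith
  have h1p : 1 / p ≤ 8 * n / l := by
    rw [div_le_div_iff₀ hp hl0]
    linarith
  have hpG : p * G ≤ 1 / 2 := by
    have h2 : 2 * l * p ≤ 1 := by
      have := (le_div_iff₀ hp).1 hpl
      linarith
    have h3 : p * G ≤ p * l := mul_le_mul_of_nonneg_left hGl hp.le
    linarith
  refine ⟨⌈G / (2 * p)⌉₊, ?_⟩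
  have hk1 : G / (2 * p) ≤ (⌈G / (2 * p)⌉₊ : ℝ) := Nat.le_ceil _
  have hk2 : (⌈G / (2 * p)⌉₊ : ℝ) < G / (2 * p) + 1 := Nat.ceil_lt_add_one (by positivity)
  have hk3 : 1 ≤ ⌈G / (2 * p)⌉₊ := Nat.one_le_ceil_iff.2 (by positivity)
  generalize ⌈G / (2 * p)⌉₊ = k at *
  have hk0 : (0 : ℝ) ≤ k := Nat.cast_nonneg _
  -- first term
  have t1 : m.choose k * ρ ^ k ≤ Real.exp (-(A * (G / (2 * p)))) := by
    have h1 : m.choose k * ρ ^ k ≤ Real.exp (-A) ^ k := by
      refine Xv_T1 (p := p * (2 * Real.exp 1 / G)) hk3 hρ (Real.exp_pos _).le ?_ ?_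
      · have h2 : p * (2 * Real.exp 1 / G) * m * ρ = (p * m * ρ) * (2 * Real.exp 1 / G) := by ring
        rw [h2]
        have h3 : (0 : ℝ) ≤ 2 * Real.exp 1 / G := by positivity
        refine (mul_le_mul_of_nonneg_right hm h3).trans ?_
        have h4 : 300 * (2 * Real.exp 1 / G) = 600 * Real.exp 1 / G := by ring
        rw [h4, div_le_iff₀ hG0]
        have h5 : Real.exp (-A) * (600 * Real.exp (1 + A)) = 600 * Real.exp 1 := by
          have h6 : Real.exp (1 + A) = Real.exp 1 * Real.exp A := Real.exp_add _ _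
          have h7 : Real.exp (-A) * Real.exp A = 1 := by
            rw [← Real.exp_add, neg_add_cancel, Real.exp_zero]
          rw [h6]
          calc Real.exp (-A) * (600 * (Real.exp 1 * Real.exp A))
              = 600 * Real.exp 1 * (Real.exp (-A) * Real.exp A) := by ring
            _ = 600 * Real.exp 1 := by rw [h7, mul_one]
        rw [← h5]
        exact mul_le_mul_of_nonneg_left hLLA (Real.exp_pos _).le
      · have h2 : p * (2 * Real.exp 1 / G) * (G / (2 * p)) = Real.exp 1 := by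
          field_simp
        rw [← h2]
        refine le_trans (mul_le_mul_of_nonneg_left hk1 (by positivity)) (le_of_eq ?_)
        rw [h2]
    refine h1.trans ?_
    rw [← Real.exp_nat_mul]
    apply Real.exp_le_exp.2
    have hA0 : 0 ≤ A := by rw [hA]; positivity
    have := mul_le_mul_of_nonneg_left hk1 hA0
    linarith
  have x1 : (K + 5) * (l + G / p) ≤ A * (G / (2 * p)) := by
    have h1 : A * (G / (2 * p)) = (K + 5) * (G / p + G / p) := by
      rw [hA]; field_simp; ring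
    rw [h1]
    have h2 : l ≤ G / p := by
      have h3 : l ≤ 1 / p := by linarith
      have h4 : 1 / p ≤ G / p := div_le_div_of_nonneg_right hLL1 hp.le
      linarith
    exact mul_le_mul_of_nonneg_left (by linarith) (by linarith)
  have f1 := Xv_fin (K := K) (by omega : 9 ≤ n) hp hG0.le hεn t1 x1
  -- second term
  have hG2 : Real.exp (-(G / 2)) = 1 / s ^ 2 := by
    have h2 : s ^ 2 = Real.exp (G / 2) := by
      rw [hs, ← Real.exp_nat_mul]
      congr 1
      push_cast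
      ring
    rw [h2, Real.exp_neg, one_div]
  have hy : 1 / (2 * s ^ 2) ≤ (1 - p) ^ k := by
    refine le_trans ?_ (one_sub_low2 hp.le (by linarith) k)
    have h1 : 1 / (2 * s ^ 2) = Real.exp (-(G / 2) - Real.log 2) := by
      rw [Real.exp_sub, Real.exp_log (by norm_num : (0:ℝ) < 2), hG2]
      field_simp
    rw [h1]
    apply Real.exp_le_exp.2
    have h2 : (k : ℝ) * (p + 2 * p ^ 2) ≤ (G / (2 * p) + 1) * (p + 2 * p ^ 2) :=
      mul_le_mul_of_nonneg_right hk2.le (by positivity)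
    have h3 : (G / (2 * p) + 1) * (p + 2 * p ^ 2) = G / 2 + p * G + p + 2 * p ^ 2 := by
      field_simp
      ring
    have h4 := Real.log_two_gt_d9
    have h5 : p ^ 2 ≤ 1 / 16 * (1 / 16) := by
      rw [sq]
      exact mul_le_mul hp16 hp16 hp.le (by norm_num)
    linarith
  have hy0 : 0 ≤ 1 / (2 * s ^ 2) := by positivity
  have hmr : m * ρ ≤ n / 16 * (1 / (2 * s ^ 2)) := by
    have h1 : m * ρ ≤ 300 * (1 / p) := by
      rw [mul_one_div, le_div_iff₀ hp]
      linarith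
    have h2 : 300 * (1 / p) ≤ 2400 * n / s ^ 4 := by
      rw [hs4]
      have : 2400 * n / l = 300 * (8 * n / l) := by ring
      rw [this]
      exact mul_le_mul_of_nonneg_left h1p (by norm_num)
    have h3 : 2400 * n / s ^ 4 ≤ n / 16 * (1 / (2 * s ^ 2)) := by
      have h4 : n / 16 * (1 / (2 * s ^ 2)) = n / (32 * s ^ 2) := by field_simp; norm_num
      rw [h4, div_le_div_iff₀ (by positivity) (by positivity)]
      have h5 : (76800 : ℝ) ≤ s ^ 2 := by
        have h6 : (76800 : ℝ) ≤ s := by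
          have : (76800 : ℝ) ≤ B := by rw [hB]; linarith
          linarith
        nlinarith
      have h7 : 0 ≤ (n : ℝ) * s ^ 2 := by positivity
      nlinarith [mul_le_mul_of_nonneg_left h5 h7]
    linarith
  have t2 := Xv_T2 (by omega : 8 ≤ n) hp (by linarith) hρ hy hy0 hmr
  have x2 : (K + 5) * (l + G / p) ≤ n / 16 * (1 / (2 * s ^ 2)) := by
    have h4 : n / 16 * (1 / (2 * s ^ 2)) = n / (64 * s ^ 2) + n / (64 * s ^ 2) := by
      field_simp; norm_num
    rw [h4, mul_add]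
    apply add_le_add
    · rw [le_div_iff₀ (by positivity), ← hs4]
      have h5 : s ^ 6 ≤ l ^ 3 := by
        rw [← hs4, ← pow_mul]
        exact pow_le_pow_right₀ hs1 (by norm_num)
      have h6 : 64 * (K + 5) * s ^ 6 ≤ 64 * (K + 5) * l ^ 3 :=
        mul_le_mul_of_nonneg_left h5 (by positivity)
      calc (K + 5) * s ^ 4 * (64 * s ^ 2) = 64 * (K + 5) * s ^ 6 := by ring
        _ ≤ (n : ℝ) := h6.trans e1
    · have h5 : G / p ≤ 4 * s * (8 * n / l) := by
        rw [div_eq_mul_one_div]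
        exact mul_le_mul hsG h1p (by positivity) (by positivity)
      have h6 : 4 * s * (8 * n / l) = 32 * n / s ^ 3 := by
        rw [← hs4]
        field_simp
        norm_num
      rw [h6] at h5
      have h7 : (K + 5) * (32 * n / s ^ 3) ≤ n / (64 * s ^ 2) := by
        rw [← mul_div_assoc, div_le_div_iff₀ (by positivity) (by positivity)]
        have h8 : 2048 * (K + 5) ≤ s := by
          have : 2048 * (K + 5) ≤ B := by rw [hB]; linarith
          linarith
        have h9 : 0 ≤ (n : ℝ) * s ^ 2 := by positivity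
        nlinarith [mul_le_mul_of_nonneg_left h8 h9]
      exact (mul_le_mul_of_nonneg_left h5 (by linarith)).trans h7
  have f2 := Xv_fin (K := K) (by omega : 9 ≤ n) hp hG0.le hεn t2 x2
  rw [mul_add]
  linarith

end Pool.Agent.H15.RV
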