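import Pool.Agent.H15.RV.De
import Pool.Agent.H15.RV.Ed
import Pool.Agent.H15.RV.Xb
import Pool.Agent.H15.RV.Zb
import Pool.Agent.H15.RV.Zd

/-!
# P2: medium range (assembly)
-/

set_option autoImplicit false

open Finset Pool.Agent.H15.RU

namespace Pool.Agent.H15.RV

theorem part2 {ε : ℝ} (hε : 0 < ε) :
    ∃ N : ℕ, ∀ n ≥ N, ∀ (m : ℕ) (p : ℝ), Med n p →
      Pr p (fun M : Mat m n => ¬ Good (fam M)) ≤ ε := by
  obtain ⟨N1, h1⟩ := zoneP hε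
  obtain ⟨N2, h2⟩ := zoneE hε
  obtain ⟨N3, h3⟩ := exists_b2
  obtain ⟨N4, h4⟩ := zoneB2 hε
  obtain ⟨N5, h5⟩ := zoneD2 hε
  obtain ⟨N6, h6⟩ := med_all 1
  refine ⟨N1 + N2 + N3 + N4 + N5 + N6, ?_⟩
  intro n hn m p hmed
  obtain ⟨hp0, hp1, -, -, -⟩ := h6 n (by omega) p hmed
  rcases le_or_gt (p * m) 48 with c1 | c1
  · exact h1 n (by omega) m p hmed c1
  rcases le_or_gt (p * m) (Real.exp (n * p / 256)) with c2 | c2
  · exact h2 n (by omega) m p hmed c1.le c2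
  obtain ⟨b, hb1, hb2, hb3⟩ := h3 n (by omega) m p hmed c2
  have hp12 : p ≤ 1 - 1 / 2 := by linarith
  obtain ⟨k, hk1, hk2, hk3, hk4, hk5⟩ := exists_k (show (0 : ℝ) < 1 / 2 by norm_num) hp0 hp12
  by_cases hcase : 2 * b ≤ n ∧
      16 * ((n : ℝ) + 1) ^ 3 * (C1 (1 / 2) * Real.log n) ^ k ≤ (1 + 1 / 1100 : ℝ) ^ (n - 2 * b)
  · exact h4 n (by omega) m b k p hp0 (by linarith) hb1 hb2 hb3 hk1 hk2 hk3 hk4 hk5 hcase.1 hcase.2
  · exact h5 n (by omega) m b k p hmed hb1 hk5 hcase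

end Pool.Agent.H15.RV
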