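import Pool.Agent.H15.RV.Defs

/-!
# Row Sh: p close to 1, few rows

Proof. Let `c = (n + 4) / 5` (so `n ≤ 5 c`, `c ≥ 1`). Event `B`: some row has `5 (M i).card ≤ 4 n`. For one row the
probability is `∑ E with 5 E.card ≤ 4 n, wr p E`, and for these `E`: `n - E.card ≥ c`, `wr p E ≤ (1-p)^c`; there are at
most `2^n` sets `E`. So by `Pr_exists` (or `Ex_sum`; the probability that row `i` satisfies `Q` is `∑ E, wr p E * [Q E]`, by
`Pr_eq`, `Ex_prod`, `sum_wr`) the probability of `B` is at most `m 2^n (1-p)^c`. Now `(1-p)^c = (1-p) (1-p)^(c-1)`,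
`m (1-p) ≤ 2 n / p ≤ 3 n`, `(1-p)^(c-1) ≤ (1/64)^(c-1) = 64 (1/64)^c`, and `2^n ≤ 2^(5c) = 32^c`; the product is
at most `192 n (1/2)^c`.
Outside `B` the family is good: every nonempty member contains a row (nonempty? all rows satisfy `4 n < 5 card`), so
`4 n < 5 X.card` for every nonempty member `X`. If `(fam M).card ≥ 3`, then in `∑ X ∈ fam M, (2 X.card - n)` the empty set
contributes `-n` and at least two other members contribute at least `(3n+1)/5` each (`5 (2 X.card - n) ≥ 3 n + 2`), so the sum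
is positive (all terms with `X ≠ ∅` are positive) and `good_of_sum` applies. If `(fam M).card ≤ 2`: `∅ ∈ fam M`
(`empty_mem`), so `fam M = {∅}` or `{∅, X}`, and `PowerLike` holds with `D = ∅` or `D = {X}`.
-/

set_option autoImplicit false

open Finset Pool.Agent.H15.RU

namespace Pool.Agent.H15.RV

theorem Sh_row {m n : ℕ} {p : ℝ} (Q : Finset (Fin n) → Prop) [DecidablePred Q] (i : Fin m) :
    Pr p (fun M : Mat m n => Q (M i)) = ∑ E, wr p E * (if Q E then (1 : ℝ) else 0) := by
  classical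
  rw [Pr_eq]
  have h := Ex_prod (p := p) (m := m) (n := n)
    (fun j E => if j = i then (if Q E then (1 : ℝ) else 0) else 1)
  have e1 : (fun M : Mat m n => ∏ j, (if j = i then (if Q (M j) then (1 : ℝ) else 0) else 1)) =
      fun M : Mat m n => if Q (M i) then (1 : ℝ) else 0 := by
    funext M
    rw [Finset.prod_ite_eq', if_pos (Finset.mem_univ i)]
  rw [e1] at h
  rw [h]
  have e2 : ∀ j ∈ (univ : Finset (Fin m)), (∑ E : Finset (Fin n), wr p E *
      (if j = i then (if Q E then (1 : ℝ) else 0) else 1)) =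
      if j = i then (∑ E : Finset (Fin n), wr p E * (if Q E then (1 : ℝ) else 0)) else 1 := by
    intro j _
    by_cases hj : j = i
    · simp only [if_pos hj]
    · simp only [if_neg hj, mul_one]
      exact sum_wr
  rw [Finset.prod_congr rfl e2, Finset.prod_ite_eq', if_pos (Finset.mem_univ i)]

theorem Sh_good {m n : ℕ} (M : Mat m n) (h : ∀ i, 4 * n < 5 * (M i).card) :
    Good (fam M) := by
  classical
  have hX : ∀ X ∈ fam M, X ≠ ∅ → 4 * n < 5 * X.card := by
    intro X hX hne
    obtain ⟨x, hx⟩ := Finset.nonempty_iff_ne_empty.2 hne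
    obtain ⟨i, -, hi⟩ := mem_fam.1 hX x hx
    have := h i
    have := Finset.card_le_card hi
    omega
  have hcard : ((fam M).erase ∅).card + 1 = (fam M).card :=
    Finset.card_erase_add_one (empty_mem M)
  rcases lt_or_ge (fam M).card 3 with hc | hc
  · right
    rcases Nat.lt_or_ge ((fam M).erase ∅).card 1 with h1 | h1
    · have h2 : (fam M).erase ∅ = ∅ := Finset.card_eq_zero.1 (by omega)
      refine ⟨∅, by simp, ?_⟩
      rw [← Finset.insert_erase (empty_mem M), h2]
      simp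
    · have h2 : ((fam M).erase ∅).card = 1 := by omega
      obtain ⟨X, hX2⟩ := Finset.card_eq_one.1 h2
      refine ⟨{X}, by simp, ?_⟩
      rw [← Finset.insert_erase (empty_mem M), hX2]
      ext Y
      rw [Finset.mem_insert, Finset.mem_singleton, Finset.mem_image]
      constructor
      · rintro (rfl | rfl)
        · exact ⟨∅, Finset.mem_powerset.2 (Finset.empty_subset _), by simp⟩
        · exact ⟨{Y}, Finset.mem_powerset.2 (Finset.Subset.refl _), by simp⟩
      · rintro ⟨S, hS, rfl⟩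
        rcases Finset.subset_singleton_iff.1 (Finset.mem_powerset.1 hS) with rfl | rfl
        · left
          simp
        · right
          simp
  · left
    apply good_of_sum
    have h1 : ∑ X ∈ fam M, (2 * (X.card : ℤ) - n) =
        (∑ X ∈ (fam M).erase ∅, (2 * (X.card : ℤ) - n)) + (2 * (((∅ : Finset (Fin n)).card : ℕ) : ℤ) - n) :=
      (Finset.sum_erase_add _ _ (empty_mem M)).symm
    have h2 : ∀ X ∈ (fam M).erase ∅, (3 * (n : ℤ) + 2) ≤ 5 * (2 * (X.card : ℤ) - n) := by
      intro X hX2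
      have h3 := hX X (Finset.mem_of_mem_erase hX2) (Finset.ne_of_mem_erase hX2)
      omega
    have h3 : (((fam M).erase ∅).card : ℤ) * (3 * (n : ℤ) + 2) ≤
        5 * ∑ X ∈ (fam M).erase ∅, (2 * (X.card : ℤ) - n) := by
      rw [Finset.mul_sum]
      have := Finset.card_nsmul_le_sum ((fam M).erase ∅)
        (fun X : Finset (Fin n) => 5 * (2 * (X.card : ℤ) - n)) (3 * (n : ℤ) + 2) h2
      rwa [nsmul_eq_mul] at this
    have h4 : (2 : ℤ) ≤ (((fam M).erase ∅).card : ℤ) := by
      have : 2 ≤ ((fam M).erase ∅).card := by omega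
      exact_mod_cast this
    have h5 : 2 * (3 * (n : ℤ) + 2) ≤ (((fam M).erase ∅).card : ℤ) * (3 * (n : ℤ) + 2) :=
      mul_le_mul_of_nonneg_right h4 (by positivity)
    rw [h1, Finset.card_empty]
    push_cast
    have h6 : (0 : ℤ) ≤ n := Int.natCast_nonneg n
    linarith

theorem part3_few {m n : ℕ} {p : ℝ} (h0 : 63 / 64 ≤ p) (h1 : p ≤ 1) (hn : 1 ≤ n)
    (h : m * p * (1 - p) < 2 * n) :
    Pr p (fun M : Mat m n => ¬ Good (fam M)) ≤ 200 * n * (1 / 2) ^ ((n + 4) / 5) := by
  classical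
  have hp0 : (0 : ℝ) ≤ p := by linarith
  have hq0 : (0 : ℝ) ≤ 1 - p := by linarith
  have hq1 : (1 - p) ≤ 1 / 64 := by linarith
  obtain ⟨c, hc⟩ : ∃ c, (n + 4) / 5 = c + 1 := ⟨(n + 4) / 5 - 1, by omega⟩
  rw [hc]
  have s1 : Pr p (fun M : Mat m n => ¬ Good (fam M)) ≤
      Pr p (fun M : Mat m n => ∃ i ∈ (univ : Finset (Fin m)), 5 * (M i).card ≤ 4 * n) := by
    refine Pr_mono hp0 h1 fun M hM => ?_
    by_contra hno
    push Not at hno
    exact hM (Sh_good M fun i => hno i (Finset.mem_univ i))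
  have s2 := Pr_exists hp0 h1 (univ : Finset (Fin m))
    (fun (i : Fin m) (M : Mat m n) => 5 * (M i).card ≤ 4 * n)
  have s3 : ∀ i ∈ (univ : Finset (Fin m)),
      Pr p (fun M : Mat m n => 5 * (M i).card ≤ 4 * n) ≤ 2 ^ n * (1 - p) ^ (c + 1) := by
    intro i _
    rw [Sh_row (fun E : Finset (Fin n) => 5 * E.card ≤ 4 * n) i]
    have s4 : ∀ E ∈ (univ : Finset (Finset (Fin n))),
        wr p E * (if 5 * E.card ≤ 4 * n then (1 : ℝ) else 0) ≤ (1 - p) ^ (c + 1) := by
      intro E _
      by_cases hE : 5 * E.card ≤ 4 * n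
      · rw [if_pos hE, mul_one]
        unfold wr
        have a1 : p ^ E.card ≤ 1 := pow_le_one₀ hp0 h1
        have a2 : (1 - p) ^ (n - E.card) ≤ (1 - p) ^ (c + 1) :=
          pow_le_pow_of_le_one hq0 (by linarith) (by omega)
        have a3 : 0 ≤ (1 - p) ^ (n - E.card) := pow_nonneg hq0 _
        calc p ^ E.card * (1 - p) ^ (n - E.card) ≤ 1 * (1 - p) ^ (n - E.card) :=
              mul_le_mul_of_nonneg_right a1 a3
          _ ≤ (1 - p) ^ (c + 1) := by rw [one_mul]; exact a2
      · rw [if_neg hE, mul_zero]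
        exact pow_nonneg hq0 _
    refine (Finset.sum_le_sum s4).trans ?_
    rw [Finset.sum_const, Finset.card_univ, Fintype.card_finset, Fintype.card_fin, nsmul_eq_mul]
    push_cast
    exact le_refl _
  have s5 : Pr p (fun M : Mat m n => ¬ Good (fam M)) ≤ m * (2 ^ n * (1 - p) ^ (c + 1)) := by
    refine s1.trans (s2.trans ((Finset.sum_le_sum s3).trans ?_))
    rw [Finset.sum_const, Finset.card_univ, Fintype.card_fin, nsmul_eq_mul]
  refine s5.trans ?_
  have hn0 : (0 : ℝ) ≤ n := Nat.cast_nonneg n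
  have b1 : (m : ℝ) * (1 - p) ≤ 3 * n := by
    have hm0 : (0 : ℝ) ≤ m * (1 - p) := mul_nonneg (Nat.cast_nonneg m) hq0
    have : (m : ℝ) * (1 - p) * (63 / 64) ≤ m * (1 - p) * p := mul_le_mul_of_nonneg_left h0 hm0
    nlinarith
  have b2 : (1 - p) ^ c ≤ (1 / 64) ^ c := pow_le_pow_left₀ hq0 hq1 c
  have b3 : (2 : ℝ) ^ n ≤ 32 ^ (c + 1) := by
    have : (32 : ℝ) ^ (c + 1) = 2 ^ (5 * (c + 1)) := by
      rw [pow_mul]
      norm_num
    rw [this]
    exact pow_le_pow_right₀ (by norm_num) (by omega)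
  calc (m : ℝ) * (2 ^ n * (1 - p) ^ (c + 1)) = (m * (1 - p)) * (2 ^ n * (1 - p) ^ c) := by ring
    _ ≤ (3 * n) * (32 ^ (c + 1) * (1 / 64) ^ c) := by
        refine mul_le_mul b1 (mul_le_mul b3 b2 (pow_nonneg hq0 _) (by positivity)) ?_ (by positivity)
        exact mul_nonneg (by positivity) (pow_nonneg hq0 _)
    _ = 192 * n * (1 / 2) ^ (c + 1) := by
        have e : (32 : ℝ) ^ c * (1 / 64) ^ c = (1 / 2) ^ c := by
          rw [← mul_pow]
          norm_num
        calc (3 * (n : ℝ)) * (32 ^ (c + 1) * (1 / 64) ^ c) =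
            96 * n * (32 ^ c * (1 / 64) ^ c) := by ring
          _ = 192 * n * (1 / 2) ^ (c + 1) := by rw [e]; ring
    _ ≤ 200 * n * (1 / 2) ^ (c + 1) := by
        refine mul_le_mul_of_nonneg_right ?_ (by positivity)
        linarith

end Pool.Agent.H15.RV
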