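import Pool.Agent.H15.RV.Defs

/-!
# Row Tn: a tail estimate (Mathlib only)

Put `h = n / 2` (natural), `h' = n - h`, so `C(n,h) = C(n,h')` is the largest binomial coefficient
(`Nat.choose_le_middle`), and `u = t - h'` (`t > n / 2`, so `t ≥ h'`).
(1) `C(2k,k)^2 (2k+1) ≤ 16^k` by induction on `k` (`Nat.succ_mul_centralBinom_succ`:
`(k+1) C(2k+2,k+1) = 2 (2k+1) C(2k,k)`; `(2(2k+1))^2 (2k+3) ≤ 16 (k+1)^2 (2k+1)`). Hence `C(n,h) * sqrt n ≤ 2 * 2^n`
(for odd `n` use `C(n,h) = C(n+1,h+1)/2`).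
(2) `∑ s ∈ Icc h' n, C(n,s) ≥ 2^n / 2` (symmetry) so by the hypothesis `∑ s ∈ Ico h' t, C(n,s) ≥ 2^n / 10`, and every
term is at most `C(n,h) ≤ 2 * 2^n / sqrt n`: `u ≥ sqrt n / 20`.
(3) For `2 s < n`: `s ≤ h' - 1`, `(n - 2 s) ≤ n`, `C(n,s) ≤ C(n,h)`, and
`∑ s ≤ h' - 1, (1/64)^(t-1-s) ≤ 2 (1/64)^u` (geometric series, `t - 1 - s ≥ u`). So the left hand side is at most
`24 n^2 C(n,h) (1/64)^u`.
(4) If `10 t ≤ 7 n`: for `h' ≤ k < t`, `C(n,k+1) = C(n,k) (n-k)/(k+1) ≥ C(n,k)/4` (`4 (n - k) ≥ k + 1`), so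
`C(n,t) ≥ C(n,h) 4^(-u)`, and `24 n^2 (1/16)^u ≤ ε t` for large `n` since `u ≥ sqrt n / 20`, `t ≥ 1`.
If `10 t > 7 n`: `u ≥ n/5 - 1`, `C(n,h) ≤ 2^n`, `C(n,t) ≥ 1` (`t ≤ n`), and
`24 n^2 2^n (1/64)^u ≤ 24 n^2 * 64 * 2^n * 2^(-6n/5) ≤ ε` for large `n`.
(You may write the two decays with `Real.rpow`/`Real.exp` or with tendsto lemmas for `x^k * r^x`.)
-/

set_option autoImplicit false

open Finset Pool.Agent.H15.RU

namespace Pool.Agent.H15.RV

theorem Tn_cb (k : ℕ) : (Nat.centralBinom k) ^ 2 * (2 * k + 1) ≤ 16 ^ k := by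
  induction k with
  | zero => simp
  | succ k ih =>
    have h := Nat.succ_mul_centralBinom_succ k
    have hpos : 0 < (k + 1) ^ 2 := by positivity
    refine Nat.le_of_mul_le_mul_left ?_ hpos
    calc (k + 1) ^ 2 * (Nat.centralBinom (k + 1) ^ 2 * (2 * (k + 1) + 1))
        = ((k + 1) * Nat.centralBinom (k + 1)) ^ 2 * (2 * k + 3) := by ring
      _ = (2 * (2 * k + 1) * Nat.centralBinom k) ^ 2 * (2 * k + 3) := by rw [h]
      _ = 4 * (2 * k + 1) * (2 * k + 3) * (Nat.centralBinom k ^ 2 * (2 * k + 1)) := by ring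
      _ ≤ 4 * (2 * k + 1) * (2 * k + 3) * 16 ^ k := Nat.mul_le_mul_left _ ih
      _ ≤ 16 * (k + 1) ^ 2 * 16 ^ k := Nat.mul_le_mul_right _ (by nlinarith)
      _ = (k + 1) ^ 2 * 16 ^ (k + 1) := by ring

theorem Tn_mid (n : ℕ) : (n.choose (n / 2)) ^ 2 * n ≤ 4 ^ n := by
  rcases Nat.even_or_odd' n with ⟨k, rfl | rfl⟩
  · rw [Nat.mul_div_cancel_left k two_pos, ← Nat.centralBinom_eq_two_mul_choose]
    calc Nat.centralBinom k ^ 2 * (2 * k) ≤ Nat.centralBinom k ^ 2 * (2 * k + 1) :=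
          Nat.mul_le_mul_left _ (by omega)
      _ ≤ 16 ^ k := Tn_cb k
      _ = 4 ^ (2 * k) := by rw [pow_mul]; norm_num
  · have hd : (2 * k + 1) / 2 = k := by omega
    have h := Tn_cb (k + 1)
    have h2 : Nat.centralBinom (k + 1) = 2 * (2 * k + 1).choose k := by
      rw [Nat.centralBinom_eq_two_mul_choose, show 2 * (k + 1) = (2 * k + 1) + 1 by ring,
        Nat.choose_succ_succ, Nat.succ_eq_add_one, Nat.choose_symm_half]
      ring
    rw [h2] at h
    rw [hd]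
    have h3 : 4 * (((2 * k + 1).choose k) ^ 2 * (2 * k + 1)) ≤ 4 * 4 ^ (2 * k + 1) := by
      calc 4 * (((2 * k + 1).choose k) ^ 2 * (2 * k + 1))
          ≤ (2 * (2 * k + 1).choose k) ^ 2 * (2 * (k + 1) + 1) := by
            have := Nat.zero_le (((2 * k + 1).choose k) ^ 2)
            nlinarith
        _ ≤ 16 ^ (k + 1) := h
        _ = 4 * 4 ^ (2 * k + 1) := by
            rw [show (16 : ℕ) = 4 ^ 2 by norm_num, ← pow_mul]
            ring
    exact Nat.le_of_mul_le_mul_left h3 (by norm_num)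

theorem Tn_ratio {n t : ℕ} (h : 10 * t ≤ 7 * n) {a : ℕ} :
    ∀ k, a ≤ k → k ≤ t → n.choose a ≤ 4 ^ (k - a) * n.choose k := by
  intro k hk
  induction k, hk using Nat.le_induction with
  | base => intro _; simp
  | succ k hk ih =>
    intro hkt
    have h1 := ih (by omega)
    have h2 := Nat.choose_succ_right_eq n k
    have h3 : n.choose k ≤ 4 * n.choose (k + 1) := by
      refine Nat.le_of_mul_le_mul_right (c := k + 1) ?_ (by omega)
      calc n.choose k * (k + 1) ≤ n.choose k * (4 * (n - k)) := Nat.mul_le_mul_left _ (by omega)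
        _ = 4 * (n.choose k * (n - k)) := by ring
        _ = 4 * (n.choose (k + 1) * (k + 1)) := by rw [h2]
        _ = 4 * n.choose (k + 1) * (k + 1) := by ring
    calc n.choose a ≤ 4 ^ (k - a) * n.choose k := h1
      _ ≤ 4 ^ (k - a) * (4 * n.choose (k + 1)) := Nat.mul_le_mul_left _ h3
      _ = 4 ^ (k + 1 - a) * n.choose (k + 1) := by
        rw [Nat.succ_sub hk, pow_succ]
        ring

theorem Tn_u {n t : ℕ} (h1 : n < 2 * t) (h2 : t < n)
    (h3 : 5 * ∑ s ∈ Icc t n, (n.choose s : ℝ) < 2 * 2 ^ n) :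
    (n : ℝ) ≤ 100 * ((t - (n - n / 2) : ℕ) : ℝ) ^ 2 := by
  set h := n - n / 2 with hh
  have hI : Icc t n = Ico t (n + 1) := by
    ext s
    simp
  rw [hI] at h3
  have htot : ∑ s ∈ Ico 0 (n + 1), (n.choose s : ℝ) = 2 ^ n := by
    rw [← Finset.range_eq_Ico]
    exact_mod_cast Nat.sum_range_choose n
  have e1 := Finset.sum_Ico_consecutive (fun s => (n.choose s : ℝ)) (Nat.zero_le h)
    (show h ≤ n + 1 by omega)
  have e2 := Finset.sum_Ico_consecutive (fun s => (n.choose s : ℝ)) (show h ≤ t by omega)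
    (show t ≤ n + 1 by omega)
  have e3 : ∑ s ∈ Ico 0 h, (n.choose s : ℝ) ≤ ∑ s ∈ Ico h (n + 1), (n.choose s : ℝ) := by
    calc ∑ s ∈ Ico 0 h, (n.choose s : ℝ) = ∑ s ∈ Ico 0 h, (n.choose (n - s) : ℝ) := by
          refine Finset.sum_congr rfl fun s hs => ?_
          rw [Finset.mem_Ico] at hs
          rw [Nat.choose_symm (by omega)]
      _ = ∑ s ∈ Ico (n + 1 - h) (n + 1 - 0), (n.choose s : ℝ) :=
          Finset.sum_Ico_reflect (fun s => (n.choose s : ℝ)) 0 (by omega)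
      _ ≤ ∑ s ∈ Ico h (n + 1), (n.choose s : ℝ) := by
          refine Finset.sum_le_sum_of_subset_of_nonneg ?_ fun _ _ _ => Nat.cast_nonneg _
          exact Finset.Ico_subset_Ico (by omega) (by omega)
  have e4 : ∑ s ∈ Ico h t, (n.choose s : ℝ) ≤ ((t - h : ℕ) : ℝ) * (n.choose (n / 2) : ℝ) := by
    have := Finset.sum_le_card_nsmul (Ico h t) (fun s => (n.choose s : ℝ))
      (n.choose (n / 2) : ℝ) (fun s _ => by exact_mod_cast Nat.choose_le_middle s n)
    rwa [Nat.card_Ico, nsmul_eq_mul] at this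
  have hC : (n.choose (n / 2) : ℝ) ^ 2 * n ≤ 4 ^ n := by exact_mod_cast Tn_mid n
  set u : ℝ := ((t - h : ℕ) : ℝ) with hu
  set C : ℝ := (n.choose (n / 2) : ℝ) with hCdef
  have hu0 : 0 ≤ u := Nat.cast_nonneg _
  have hC0 : 0 ≤ C := Nat.cast_nonneg _
  have hP : (0 : ℝ) < 2 ^ n := by positivity
  have h4 : 2 ^ n ≤ 10 * (u * C) := by
    linarith
  have h5 : (4 : ℝ) ^ n ≤ 100 * (u ^ 2 * C ^ 2) := by
    have h6 : ((2 : ℝ) ^ n) ^ 2 ≤ (10 * (u * C)) ^ 2 := pow_le_pow_left₀ hP.le h4 2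
    have h7 : ((2 : ℝ) ^ n) ^ 2 = 4 ^ n := by
      rw [← pow_mul, mul_comm, pow_mul]
      norm_num
    rw [h7] at h6
    linarith [h6, show (10 * (u * C)) ^ 2 = 100 * (u ^ 2 * C ^ 2) by ring]
  have hP4 : (0 : ℝ) < 4 ^ n := by positivity
  have h8 : (n : ℝ) * 4 ^ n ≤ (100 * u ^ 2) * 4 ^ n := by
    calc (n : ℝ) * 4 ^ n ≤ n * (100 * (u ^ 2 * C ^ 2)) :=
          mul_le_mul_of_nonneg_left h5 (Nat.cast_nonneg _)
      _ = (100 * u ^ 2) * (C ^ 2 * n) := by ring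
      _ ≤ (100 * u ^ 2) * 4 ^ n := mul_le_mul_of_nonneg_left hC (by positivity)
  exact le_of_mul_le_mul_right h8 hP4

theorem Tn_lhs {n t : ℕ} (h1 : n < 2 * t) :
    12 * (n : ℝ) * ∑ s ∈ (range n).filter (fun s => 2 * s < n),
        ((n : ℝ) - 2 * s) * n.choose s * (1 / 64) ^ (t - 1 - s) ≤
      24 * (n : ℝ) ^ 2 * (n.choose (n / 2) : ℝ) * (1 / 64) ^ (t - (n - n / 2)) := by
  set h := n - n / 2 with hh
  set C : ℝ := (n.choose (n / 2) : ℝ) with hCdef
  have hC0 : 0 ≤ C := Nat.cast_nonneg _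
  have hn0 : (0 : ℝ) ≤ n := Nat.cast_nonneg _
  have e1 : ∑ s ∈ (range n).filter (fun s => 2 * s < n),
      ((n : ℝ) - 2 * s) * n.choose s * (1 / 64) ^ (t - 1 - s) ≤
      ∑ s ∈ range h, (n * C * (1 / 64) ^ (t - h)) * (1 / 64 : ℝ) ^ (h - 1 - s) := by
    refine le_trans (Finset.sum_le_sum (g := fun s =>
      (n * C * (1 / 64) ^ (t - h)) * (1 / 64 : ℝ) ^ (h - 1 - s)) ?_)
      (Finset.sum_le_sum_of_subset_of_nonneg ?_ fun _ _ _ => by positivity)
    · intro s hs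
      rw [Finset.mem_filter, Finset.mem_range] at hs
      have e2 : t - 1 - s = (t - h) + (h - 1 - s) := by omega
      rw [e2, pow_add, ← mul_assoc]
      refine mul_le_mul_of_nonneg_right (mul_le_mul_of_nonneg_right ?_ (by positivity))
        (by positivity)
      refine mul_le_mul ?_ (Nat.cast_le.2 (Nat.choose_le_middle s n)) (Nat.cast_nonneg _) hn0
      have : (0 : ℝ) ≤ s := Nat.cast_nonneg _
      linarith
    · intro s hs
      rw [Finset.mem_filter, Finset.mem_range] at hs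
      rw [Finset.mem_range]
      omega
  have e3 : ∑ s ∈ range h, (1 / 64 : ℝ) ^ (h - 1 - s) ≤ 2 := by
    rw [Finset.sum_range_reflect (fun s => (1 / 64 : ℝ) ^ s)]
    refine le_trans (Finset.sum_le_sum fun i _ => ?_) (sum_geometric_two_le h)
    exact pow_le_pow_left₀ (by norm_num) (by norm_num) i
  rw [← Finset.mul_sum] at e1
  have e4 := e1.trans (mul_le_mul_of_nonneg_left e3 (by positivity))
  calc _ ≤ 12 * (n : ℝ) * ((n * C * (1 / 64) ^ (t - h)) * 2) :=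
        mul_le_mul_of_nonneg_left e4 (by positivity)
    _ = _ := by ring

theorem tail_num {ε : ℝ} (hε : 0 < ε) :
    ∃ N : ℕ, ∀ n ≥ N, ∀ t : ℕ, n < 2 * t → t < n →
      5 * ∑ s ∈ Icc t n, (n.choose s : ℝ) < 2 * 2 ^ n →
      12 * (n : ℝ) * ∑ s ∈ (range n).filter (fun s => 2 * s < n),
        ((n : ℝ) - 2 * s) * n.choose s * (1 / 64) ^ (t - 1 - s) ≤ ε * (t * n.choose t) := by
  have T1 : Filter.Tendsto (fun u : ℕ => (u : ℝ) ^ 4 * (1 / 16 : ℝ) ^ u) Filter.atTop (nhds 0) :=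
    tendsto_pow_const_mul_const_pow_of_lt_one 4 (by norm_num) (by norm_num)
  have T2 : Filter.Tendsto (fun u : ℕ => (u : ℝ) ^ 2 * (1 / 2 : ℝ) ^ u) Filter.atTop (nhds 0) :=
    tendsto_pow_const_mul_const_pow_of_lt_one 2 (by norm_num) (by norm_num)
  obtain ⟨U1, hU1⟩ := Filter.eventually_atTop.1
    (T1.eventually (gt_mem_nhds (show (0 : ℝ) < ε / 240000 by positivity)))
  obtain ⟨U2, hU2⟩ := Filter.eventually_atTop.1
    (T2.eventually (gt_mem_nhds (show (0 : ℝ) < ε / 4704 by positivity)))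
  refine ⟨100 * U1 ^ 2 + 5 * U2 + 10, ?_⟩
  intro n hn t h1 h2 h3
  have hu := Tn_u h1 h2 h3
  refine (Tn_lhs h1).trans ?_
  have ht1 : (1 : ℝ) ≤ t := by
    have : 1 ≤ t := by omega
    exact_mod_cast this
  set u := t - (n - n / 2) with hudef
  by_cases hc : 10 * t ≤ 7 * n
  · have hU : U1 ≤ u := by
      by_contra hlt
      push Not at hlt
      have e1 : (u : ℝ) ^ 2 ≤ (U1 : ℝ) ^ 2 :=
        pow_le_pow_left₀ (Nat.cast_nonneg _) (by exact_mod_cast hlt.le) 2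
      have e2 : (n : ℝ) ≤ 100 * (U1 : ℝ) ^ 2 := by linarith
      have e3 : n ≤ 100 * U1 ^ 2 := by exact_mod_cast e2
      omega
    have hr := Tn_ratio hc (a := n - n / 2) t (by omega) le_rfl
    rw [Nat.choose_symm (Nat.div_le_self n 2), ← hudef] at hr
    have hr' : (n.choose (n / 2) : ℝ) ≤ 4 ^ u * n.choose t := by exact_mod_cast hr
    have hC0 : (0 : ℝ) ≤ n.choose t := Nat.cast_nonneg _
    have hn2 : (n : ℝ) ^ 2 ≤ (100 * (u : ℝ) ^ 2) ^ 2 :=
      pow_le_pow_left₀ (Nat.cast_nonneg _) hu 2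
    have key : 240000 * ((u : ℝ) ^ 4 * (1 / 16 : ℝ) ^ u) ≤ ε := by
      have := hU1 u hU
      rw [lt_div_iff₀ (by norm_num)] at this
      linarith
    calc 24 * (n : ℝ) ^ 2 * (n.choose (n / 2) : ℝ) * (1 / 64) ^ u
        ≤ 24 * (100 * (u : ℝ) ^ 2) ^ 2 * (4 ^ u * n.choose t) * (1 / 64) ^ u := by
          refine mul_le_mul_of_nonneg_right ?_ (by positivity)
          exact mul_le_mul (mul_le_mul_of_nonneg_left hn2 (by norm_num)) hr'
            (Nat.cast_nonneg _) (by positivity)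
      _ = 240000 * ((u : ℝ) ^ 4 * (4 ^ u * (1 / 64) ^ u)) * n.choose t := by ring
      _ = 240000 * ((u : ℝ) ^ 4 * (1 / 16 : ℝ) ^ u) * n.choose t := by
          rw [← mul_pow]
          norm_num
      _ ≤ ε * n.choose t := mul_le_mul_of_nonneg_right key hC0
      _ ≤ ε * (t * n.choose t) := by
          refine mul_le_mul_of_nonneg_left ?_ hε.le
          nlinarith
  · push Not at hc
    have hnu : n ≤ 5 * u + 2 := by omega
    have hu1 : 1 ≤ u := by omega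
    have hU : U2 ≤ u := by omega
    have hC0 : (1 : ℝ) ≤ n.choose t := by
      have : 0 < n.choose t := Nat.choose_pos h2.le
      exact_mod_cast this
    have hCm : (n.choose (n / 2) : ℝ) ≤ 2 ^ n := by
      exact_mod_cast Nat.choose_le_two_pow n (n / 2)
    have h2n : (2 : ℝ) ^ n ≤ 4 * 32 ^ u := by
      calc (2 : ℝ) ^ n ≤ 2 ^ (5 * u + 2) := pow_le_pow_right₀ (by norm_num) hnu
        _ = 4 * 32 ^ u := by
          rw [pow_add, pow_mul]
          norm_num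
          ring
    have hn7 : (n : ℝ) ≤ 7 * u := by
      have : n ≤ 7 * u := by omega
      exact_mod_cast this
    have hn2 : (n : ℝ) ^ 2 ≤ (7 * (u : ℝ)) ^ 2 :=
      pow_le_pow_left₀ (Nat.cast_nonneg _) hn7 2
    have key : 4704 * ((u : ℝ) ^ 2 * (1 / 2 : ℝ) ^ u) ≤ ε := by
      have := hU2 u hU
      rw [lt_div_iff₀ (by norm_num)] at this
      linarith
    calc 24 * (n : ℝ) ^ 2 * (n.choose (n / 2) : ℝ) * (1 / 64) ^ u
        ≤ 24 * (7 * (u : ℝ)) ^ 2 * (4 * 32 ^ u) * (1 / 64) ^ u := by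
          refine mul_le_mul_of_nonneg_right ?_ (by positivity)
          exact mul_le_mul (mul_le_mul_of_nonneg_left hn2 (by norm_num)) (hCm.trans h2n)
            (Nat.cast_nonneg _) (by positivity)
      _ = 4704 * ((u : ℝ) ^ 2 * (32 ^ u * (1 / 64) ^ u)) := by ring
      _ = 4704 * ((u : ℝ) ^ 2 * (1 / 2 : ℝ) ^ u) := by
          rw [← mul_pow]
          norm_num
      _ ≤ ε := key
      _ ≤ ε * (t * n.choose t) := by
          have : (1 : ℝ) ≤ t * n.choose t := by nlinarith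
          nlinarith

end Pool.Agent.H15.RV
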