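import Pool.Agent.H15.RV.Defs

/-!
# Row Tp: families that contain all large sets

Proofs. `top_sum`: downward induction on `t` from `t = n` (`n * 1`): for `t < n`,
`t C(n,t) = (2 t - n) C(n,t) + (t + 1) C(n,t+1)` because `(t + 1) C(n,t+1) = (n - t) C(n,t)`
(`Nat.choose_succ_right_eq`).
`good_top`: `n.choose t > 0` (otherwise hS is false), so `t ≤ n`. By `good_of_sum` it is enough that
`0 < ∑ X ∈ fam M, (2 X.card - n)`. Split `fam M` into: the sets with `t ≤ X.card` (all of them, by hup): by
`card_powersetCard` and `top_sum` they contribute `t C(n,t)`; `∅` contributes `-n`; the nonempty `X` with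
`2 X.card < n` contribute `-lowS M`; the others contribute at least `0`. (`n < 2 t` makes the classes disjoint.)
`good_up`: `(fam M).card ≥ ∑ s ∈ Icc t n, C(n,s)`, so `good_of_dense` (`RU/Tw.lean`) applies once there are no twins: for
`x ≠ y` the set `univ.erase x` has `n - 1 ≥ t` elements, so it is a member, and `y` lies in a row `M i ⊆ univ.erase x`.
-/

set_option autoImplicit false

open Finset Pool.Agent.H15.RU

namespace Pool.Agent.H15.RV

private theorem Tp_sum {n k : ℕ} (hk : k ≤ n) :
    ∑ s ∈ Icc (n - k) n, (2 * (s : ℤ) - n) * (n.choose s : ℤ) =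
      ((n - k : ℕ) : ℤ) * (n.choose (n - k) : ℤ) := by
  induction k with
  | zero =>
    rw [Nat.sub_zero, Finset.Icc_self, Finset.sum_singleton]
    ring
  | succ k ih =>
    have h1 : n - k = (n - (k + 1)) + 1 := by omega
    have h2 : Icc (n - (k + 1)) n = insert (n - (k + 1)) (Icc (n - k) n) := by
      ext s
      rw [Finset.mem_insert, Finset.mem_Icc, Finset.mem_Icc]
      omega
    have h3 : n - (k + 1) ∉ Icc (n - k) n := by
      rw [Finset.mem_Icc]
      omega
    rw [h2, Finset.sum_insert h3, ih (by omega)]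
    have h4 := Nat.choose_succ_right_eq n (n - (k + 1))
    rw [← h1] at h4
    have h5 : ((n.choose (n - k) : ℕ) : ℤ) * ((n - k : ℕ) : ℤ) =
        ((n.choose (n - (k + 1)) : ℕ) : ℤ) * ((n : ℤ) - ((n - (k + 1) : ℕ) : ℤ)) := by
      have h6 : ((n - (n - (k + 1)) : ℕ) : ℤ) = (n : ℤ) - ((n - (k + 1) : ℕ) : ℤ) :=
        Nat.cast_sub (Nat.sub_le _ _)
      rw [← h6]
      exact_mod_cast h4
    linear_combination h5

theorem top_sum {n t : ℕ} (ht : t ≤ n) :
    ∑ s ∈ Icc t n, (2 * (s : ℤ) - n) * (n.choose s : ℤ) = t * (n.choose t : ℤ) := by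
  have h := Tp_sum (n := n) (k := n - t) (Nat.sub_le _ _)
  rwa [Nat.sub_sub_self ht] at h

private theorem Tp_card {n t : ℕ} (f : ℕ → ℤ) :
    ∑ X ∈ (univ : Finset (Finset (Fin n))).filter (fun X => t ≤ X.card), f X.card =
      ∑ s ∈ Icc t n, f s * (n.choose s : ℤ) := by
  have h := Finset.sum_powerset_apply_card (x := (univ : Finset (Fin n)))
    (fun s => if t ≤ s then f s else 0)
  rw [Finset.powerset_univ, Finset.card_univ, Fintype.card_fin] at h
  rw [Finset.sum_filter, h]
  have h2 : Icc t n = (range (n + 1)).filter (fun s => t ≤ s) := by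
    ext s
    rw [Finset.mem_Icc, Finset.mem_filter, Finset.mem_range]
    omega
  rw [h2, Finset.sum_filter]
  refine Finset.sum_congr rfl fun s _ => ?_
  rw [nsmul_eq_mul]
  split_ifs <;> ring

theorem good_top {m n t : ℕ} {M : Mat m n} (ht : n < 2 * t)
    (hup : ∀ X : Finset (Fin n), t ≤ X.card → X ∈ fam M)
    (hS : n + lowS M < t * n.choose t) : ∃ x, (fam M).card < 2 * freq (fam M) x := by
  have htn : t ≤ n := by
    by_contra hc
    rw [Nat.choose_eq_zero_of_lt (not_le.1 hc), mul_zero] at hS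
    omega
  apply good_of_sum
  have h1 : (fam M).filter (fun X => t ≤ X.card) =
      (univ : Finset (Finset (Fin n))).filter (fun X => t ≤ X.card) := by
    ext X
    rw [Finset.mem_filter, Finset.mem_filter]
    exact ⟨fun h => ⟨Finset.mem_univ _, h.2⟩, fun h => ⟨hup X h.2, h.2⟩⟩
  rw [← Finset.sum_filter_add_sum_filter_not (fam M) (fun X => t ≤ X.card), h1,
    Tp_card (fun s => 2 * (s : ℤ) - n), top_sum htn]
  have h2 : ∑ X ∈ (fam M).filter (fun X => ¬ t ≤ X.card),
      (-(if X = ∅ then (n : ℤ) else 0) -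
        (if X.Nonempty ∧ 2 * X.card < n then ((n - 2 * X.card : ℕ) : ℤ) else 0)) ≤
      ∑ X ∈ (fam M).filter (fun X => ¬ t ≤ X.card), (2 * (X.card : ℤ) - n) := by
    refine Finset.sum_le_sum fun X _ => ?_
    by_cases h0 : X = ∅
    · subst h0
      simp
    · rw [if_neg h0]
      have h3 : X.Nonempty := Finset.nonempty_iff_ne_empty.2 h0
      by_cases h4 : 2 * X.card < n
      · rw [if_pos ⟨h3, h4⟩]
        omega
      · rw [if_neg (fun h => h4 h.2)]
        omega
  have h3 : ∑ X ∈ (fam M).filter (fun X => ¬ t ≤ X.card), (if X = ∅ then (n : ℤ) else 0) ≤ n := by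
    calc ∑ X ∈ (fam M).filter (fun X => ¬ t ≤ X.card), (if X = ∅ then (n : ℤ) else 0)
        ≤ ∑ X : Finset (Fin n), (if X = ∅ then (n : ℤ) else 0) := by
          refine Finset.sum_le_sum_of_subset_of_nonneg (Finset.subset_univ _) fun X _ _ => ?_
          split_ifs
          · exact Int.natCast_nonneg _
          · exact le_refl _
      _ = n := by
          rw [Finset.sum_ite_eq' univ (∅ : Finset (Fin n)) (fun _ => (n : ℤ)),
            if_pos (Finset.mem_univ _)]
  have h4 : ∑ X ∈ (fam M).filter (fun X => ¬ t ≤ X.card),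
      (if X.Nonempty ∧ 2 * X.card < n then ((n - 2 * X.card : ℕ) : ℤ) else 0) ≤ (lowS M : ℤ) := by
    have e : (lowS M : ℤ) = ∑ X ∈ fam M,
        (if X.Nonempty ∧ 2 * X.card < n then ((n - 2 * X.card : ℕ) : ℤ) else 0) := by
      unfold lowS
      rw [Nat.cast_sum, Finset.sum_filter]
    rw [e]
    refine Finset.sum_le_sum_of_subset_of_nonneg (Finset.filter_subset _ _) fun X _ _ => ?_
    split_ifs
    · exact Int.natCast_nonneg _
    · exact le_refl _
  rw [Finset.sum_sub_distrib, Finset.sum_neg_distrib] at h2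
  have h5 : (n : ℤ) + lowS M < t * (n.choose t : ℤ) := by exact_mod_cast hS
  linarith

theorem good_up {m n t : ℕ} {M : Mat m n} (ht : t < n)
    (hup : ∀ X : Finset (Fin n), t ≤ X.card → X ∈ fam M)
    (hS : 2 * 2 ^ n ≤ 5 * ∑ s ∈ Icc t n, n.choose s) : Good (fam M) := by
  have h1 : ∑ s ∈ Icc t n, n.choose s =
      ((univ : Finset (Finset (Fin n))).filter (fun X => t ≤ X.card)).card := by
    have h := Tp_card (n := n) (t := t) (fun _ => 1)
    rw [Finset.sum_const, nsmul_eq_mul, mul_one] at h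
    have h2 : ∑ s ∈ Icc t n, (1 : ℤ) * (n.choose s : ℤ) =
        ((∑ s ∈ Icc t n, n.choose s : ℕ) : ℤ) := by
      rw [Nat.cast_sum]
      refine Finset.sum_congr rfl fun s _ => ?_
      rw [one_mul]
    rw [h2] at h
    exact_mod_cast h.symm
  have h2 : ((univ : Finset (Finset (Fin n))).filter (fun X => t ≤ X.card)).card ≤
      (fam M).card :=
    Finset.card_le_card fun X hX => hup X (Finset.mem_filter.1 hX).2
  refine good_of_dense (le_trans hS ?_) fun x y hxy => ?_
  · rw [h1]
    exact Nat.mul_le_mul_left 5 h2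
  · have h3 : (univ.erase x : Finset (Fin n)) ∈ fam M := by
      apply hup
      rw [Finset.card_erase_of_mem (Finset.mem_univ x), Finset.card_univ, Fintype.card_fin]
      omega
    obtain ⟨i, hi1, hi2⟩ := mem_fam.1 h3 y (Finset.mem_erase.2 ⟨hxy.symm, Finset.mem_univ y⟩)
    refine ⟨i, fun h => ?_⟩
    exact absurd rfl (Finset.mem_erase.1 (hi2 (h.2 hi1))).1

end Pool.Agent.H15.RV
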