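import Pool.Agent.H15.RV.Up
import Pool.Agent.H15.RV.Lw
import Pool.Agent.H15.RV.Tp
import Pool.Agent.H15.RV.Tn
import Pool.Agent.H15.RV.Sh

/-!
# Row P3: p close to 1 (assembly)

Proof. `q = 1 - p ≤ 1/64`. If `m p q < 2 n`: `part3_few` and `200 n (1/2)^((n+4)/5) ≤ ε` for large `n`. Otherwise let `t` be the least natural number with
`2 n ≤ m p q^(n-t)` (`Nat.find`; `t = n - 1` works), so `t < n`. `Pr_up`: outside an event of probability at most `n 2^n exp (-(2n)) ≤ ε/2` (large `n`: `2 exp (-2) < 1/2`)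
all `X` with `t ≤ X.card` are members. If `2 * 2^n ≤ 5 ∑ s ∈ Icc t n, C(n,s)`: `good_up`. Otherwise `n < 2 t`: if `2 t ≤ n` then `Icc t n` contains `Icc ⌈n/2⌉ n`, and
`∑ ≥ 2^n/2` (symmetry), a contradiction. `t ≥ 1`, and by minimality `m p q^(n-(t-1)) < 2 n`, so for `2 s < n` (`s ≤ t - 1`): `m q^(n-s) = m q^(n-t+1) q^(t-1-s) ≤ (2n/p) (1/64)^(t-1-s) ≤
3 n (1/64)^(t-1-s)`. By `Ex_low`, `tail_num` (with `ε/2`): `4 Ex (lowS M) ≤ 12 n ∑ .. ≤ (ε/2) t C(n,t)`, so by `markov` (with `c = t C(n,t)/4`) the probability of `t C(n,t) ≤ 4 lowS M` is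
at most `ε/2`. Outside both events `n + lowS M < t C(n,t)`, as `4 lowS M < t C(n,t)` and `2 n ≤ t C(n,t)` (`t > n/2`, `C(n,t) ≥ n` for `1 ≤ t < n`, `n ≥ 4`): `good_top`.
-/

set_option autoImplicit false

open Finset Pool.Agent.H15.RU

namespace Pool.Agent.H15.RV

theorem P3_choose : ∀ {n t : ℕ}, 1 ≤ t → t < n → n ≤ n.choose t := by
  intro n
  induction n with
  | zero => intro t h1 h2; omega
  | succ n ih =>
    intro t h1 h2
    obtain ⟨s, rfl⟩ : ∃ s, t = s + 1 := ⟨t - 1, by omega⟩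
    rw [Nat.choose_succ_succ']
    rcases Nat.eq_zero_or_pos s with h | h
    · subst h
      simp
    · rcases Nat.lt_or_ge (s + 1) n with h3 | h3
      · have := ih h (by omega : s < n)
        have := ih (by omega : 1 ≤ s + 1) h3
        omega
      · have h4 : s + 1 = n := by omega
        subst h4
        rw [Nat.choose_self]
        have := ih h (by omega : s < s + 1)
        omega

theorem P3_half {n t : ℕ} (h : 2 * t ≤ n) : 2 ^ n ≤ 2 * ∑ s ∈ Icc t n, n.choose s := by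
  have h1 : ∑ s ∈ range (n + 1), n.choose s = 2 ^ n := Nat.sum_range_choose n
  have h2 : ∑ s ∈ range t, n.choose s ≤ ∑ s ∈ Icc t n, n.choose s := by
    calc ∑ s ∈ range t, n.choose s = ∑ s ∈ range t, n.choose (n - s) := by
          refine Finset.sum_congr rfl fun s hs => ?_
          rw [Finset.mem_range] at hs
          rw [Nat.choose_symm (by omega)]
      _ = ∑ s ∈ (range t).image (fun s => n - s), n.choose s := by
          rw [Finset.sum_image]
          intro a ha b hb hab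
          have ha' := Finset.mem_range.1 (Finset.mem_coe.1 ha)
          have hb' := Finset.mem_range.1 (Finset.mem_coe.1 hb)
          have hab' : n - a = n - b := hab
          omega
      _ ≤ ∑ s ∈ Icc t n, n.choose s := by
          apply Finset.sum_le_sum_of_subset
          intro a ha
          obtain ⟨b, hb, rfl⟩ := Finset.mem_image.1 ha
          rw [Finset.mem_range] at hb
          rw [Finset.mem_Icc]
          omega
  have h3 : range (n + 1) = range t ∪ Icc t n := by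
    ext a
    rw [Finset.mem_union, Finset.mem_range, Finset.mem_range, Finset.mem_Icc]
    omega
  have h4 : Disjoint (range t) (Icc t n) := by
    rw [Finset.disjoint_left]
    intro a ha hb
    rw [Finset.mem_range] at ha
    rw [Finset.mem_Icc] at hb
    omega
  rw [← h1, h3, Finset.sum_union h4]
  omega

theorem P3_a {ε : ℝ} (hε : 0 < ε) : ∃ N : ℕ, ∀ n ≥ N, 200 * (n : ℝ) * (1 / 2) ^ ((n + 4) / 5) ≤ ε := by
  have h := tendsto_self_mul_const_pow_of_lt_one (r := (1 / 2 : ℝ)) (by norm_num) (by norm_num)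
  have h2 : ∀ᶠ c : ℕ in Filter.atTop, (c : ℝ) * (1 / 2) ^ c < ε / 1000 :=
    h.eventually (gt_mem_nhds (by positivity))
  obtain ⟨C, hC⟩ := Filter.eventually_atTop.1 h2
  refine ⟨5 * C, fun n hn => ?_⟩
  have h3 := hC ((n + 4) / 5) (by omega)
  have h4 : (n : ℝ) ≤ 5 * (((n + 4) / 5 : ℕ) : ℝ) := by
    have : n ≤ 5 * ((n + 4) / 5) := by omega
    exact_mod_cast this
  have h5 : (0 : ℝ) < (1 / 2) ^ ((n + 4) / 5) := by positivity
  calc 200 * (n : ℝ) * (1 / 2) ^ ((n + 4) / 5) ≤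
        200 * (5 * (((n + 4) / 5 : ℕ) : ℝ)) * (1 / 2) ^ ((n + 4) / 5) := by
          apply mul_le_mul_of_nonneg_right _ h5.le
          linarith
    _ = 1000 * ((((n + 4) / 5 : ℕ) : ℝ) * (1 / 2) ^ ((n + 4) / 5)) := by ring
    _ ≤ 1000 * (ε / 1000) := by
          apply mul_le_mul_of_nonneg_left h3.le
          norm_num
    _ = ε := by ring

theorem P3_b {ε : ℝ} (hε : 0 < ε) :
    ∃ N : ℕ, ∀ n ≥ N, (n : ℝ) * 2 ^ n * Real.exp (-(2 * n)) ≤ ε := by
  have he : 2 * Real.exp (-2) < 1 := by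
    have h1 : (3 : ℝ) ≤ Real.exp 2 := by
      have := Real.add_one_le_exp (2 : ℝ)
      linarith
    rw [Real.exp_neg]
    have h2 : (Real.exp 2)⁻¹ ≤ (3 : ℝ)⁻¹ := by
      apply inv_anti₀ (by norm_num) h1
    have h3 : (3 : ℝ)⁻¹ < 1 / 2 := by norm_num
    linarith
  have h := tendsto_self_mul_const_pow_of_lt_one (r := 2 * Real.exp (-2)) (by positivity) he
  have h2 : ∀ᶠ c : ℕ in Filter.atTop, (c : ℝ) * (2 * Real.exp (-2)) ^ c < ε :=
    h.eventually (gt_mem_nhds hε)
  obtain ⟨C, hC⟩ := Filter.eventually_atTop.1 h2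
  refine ⟨C, fun n hn => ?_⟩
  have h3 := hC n hn
  have h4 : Real.exp (-(2 * (n : ℝ))) = Real.exp (-2) ^ n := by
    rw [← Real.exp_nat_mul]
    congr 1
    ring
  rw [h4, mul_assoc, ← mul_pow]
  exact h3.le

theorem P3_ex {m n t : ℕ} {p : ℝ} (h0 : 63 / 64 ≤ p) (h1 : p ≤ 1) (ht : n < 2 * t)
    (htn : t < n) (hm : (m : ℝ) * p * (1 - p) ^ (n - (t - 1)) < 2 * n) :
    4 * Ex p (fun M : Mat m n => (lowS M : ℝ)) ≤
      12 * (n : ℝ) * ∑ s ∈ (range n).filter (fun s => 2 * s < n),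
        ((n : ℝ) - 2 * s) * n.choose s * (1 / 64) ^ (t - 1 - s) := by
  have hE := Ex_low (m := m) (n := n) (p := p) (by linarith) h1
  have hq0 : 0 ≤ 1 - p := by linarith
  have hq1 : 1 - p ≤ 1 / 64 := by linarith
  have hA : (m : ℝ) * (1 - p) ^ (n - (t - 1)) ≤ 3 * n := by
    have hx : 0 ≤ (m : ℝ) * (1 - p) ^ (n - (t - 1)) := by positivity
    have h2 : p * ((m : ℝ) * (1 - p) ^ (n - (t - 1))) < 2 * n := by
      calc p * ((m : ℝ) * (1 - p) ^ (n - (t - 1))) = (m : ℝ) * p * (1 - p) ^ (n - (t - 1)) := by ring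
        _ < 2 * n := hm
    have h3 : 63 / 64 * ((m : ℝ) * (1 - p) ^ (n - (t - 1))) ≤
        p * ((m : ℝ) * (1 - p) ^ (n - (t - 1))) := mul_le_mul_of_nonneg_right h0 hx
    have hn0 : (0 : ℝ) ≤ n := Nat.cast_nonneg n
    linarith
  have hsum : ∑ s ∈ (range n).filter (fun s => 2 * s < n),
        ((n : ℝ) - 2 * s) * n.choose s * (m * (1 - p) ^ (n - s)) ≤
      3 * (n : ℝ) * ∑ s ∈ (range n).filter (fun s => 2 * s < n),
        ((n : ℝ) - 2 * s) * n.choose s * (1 / 64) ^ (t - 1 - s) := by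
    rw [Finset.mul_sum]
    refine Finset.sum_le_sum fun s hs => ?_
    rw [Finset.mem_filter, Finset.mem_range] at hs
    obtain ⟨hs1, hs2⟩ := hs
    have hs3 : (0 : ℝ) ≤ (n : ℝ) - 2 * s := by
      have : ((2 * s : ℕ) : ℝ) ≤ (n : ℝ) := by exact_mod_cast hs2.le
      push_cast at this
      linarith
    have hs4 : n - s = (n - (t - 1)) + (t - 1 - s) := by omega
    have hs5 : (m : ℝ) * (1 - p) ^ (n - s) ≤ 3 * n * (1 / 64) ^ (t - 1 - s) := by
      rw [hs4, pow_add, ← mul_assoc]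
      exact mul_le_mul hA (pow_le_pow_left₀ hq0 hq1 _) (by positivity) (by positivity)
    calc ((n : ℝ) - 2 * s) * n.choose s * (m * (1 - p) ^ (n - s)) ≤
          ((n : ℝ) - 2 * s) * n.choose s * (3 * n * (1 / 64) ^ (t - 1 - s)) := by
            apply mul_le_mul_of_nonneg_left hs5
            positivity
      _ = 3 * (n : ℝ) * (((n : ℝ) - 2 * s) * n.choose s * (1 / 64) ^ (t - 1 - s)) := by ring
  calc 4 * Ex p (fun M : Mat m n => (lowS M : ℝ)) ≤
        4 * (3 * (n : ℝ) * ∑ s ∈ (range n).filter (fun s => 2 * s < n),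
        ((n : ℝ) - 2 * s) * n.choose s * (1 / 64) ^ (t - 1 - s)) :=
          mul_le_mul_of_nonneg_left (hE.trans hsum) (by norm_num)
    _ = _ := by ring

theorem part3 {ε : ℝ} (hε : 0 < ε) :
    ∃ N : ℕ, ∀ n ≥ N, ∀ (m : ℕ) (p : ℝ), 63 / 64 ≤ p → p ≤ 1 →
      Pr p (fun M : Mat m n => ¬ Good (fam M)) ≤ ε := by
  obtain ⟨N1, hN1⟩ := P3_a hε
  obtain ⟨N2, hN2⟩ := P3_b (half_pos hε)
  obtain ⟨N3, hN3⟩ := tail_num (half_pos hε)
  refine ⟨N1 + N2 + N3 + 4, fun n hn m p hp0 hp1 => ?_⟩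
  have hn1 := hN1 n (by omega)
  have hn2 := hN2 n (by omega)
  have hn3 := hN3 n (by omega)
  have hn4 : 4 ≤ n := by omega
  have h0 : 0 ≤ p := by linarith
  by_cases hA : (m : ℝ) * p * (1 - p) < 2 * n
  · exact (part3_few hp0 hp1 (by omega) hA).trans hn1
  rw [not_lt] at hA
  classical
  have hex : ∃ t : ℕ, 2 * (n : ℝ) ≤ m * p * (1 - p) ^ (n - t) := by
    refine ⟨n - 1, ?_⟩
    have : n - (n - 1) = 1 := by omega
    rw [this, pow_one]
    exact hA
  have hmin : Nat.find hex ≤ n - 1 := by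
    apply Nat.find_min'
    have : n - (n - 1) = 1 := by omega
    rw [this, pow_one]
    exact hA
  have hspec := Nat.find_spec hex
  have hlow : ∀ k, k < Nat.find hex → ¬ (2 * (n : ℝ) ≤ m * p * (1 - p) ^ (n - k)) :=
    fun k hk => Nat.find_min hex hk
  generalize Nat.find hex = t at hmin hspec hlow
  have htn : t < n := by omega
  have hup := (Pr_up h0 hp1 htn.le hspec).trans hn2
  by_cases hS : 2 * 2 ^ n ≤ 5 * ∑ s ∈ Icc t n, n.choose s
  · refine le_trans (Pr_mono h0 hp1 (fun M hM hup' => hM (good_up htn hup' hS))) (hup.trans ?_)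
    linarith
  rw [not_le] at hS
  have hnt : n < 2 * t := by
    by_contra hcon
    have := P3_half (n := n) (t := t) (by omega)
    omega
  have hSr : 5 * ∑ s ∈ Icc t n, (n.choose s : ℝ) < 2 * 2 ^ n := by
    have : ((5 * ∑ s ∈ Icc t n, n.choose s : ℕ) : ℝ) < ((2 * 2 ^ n : ℕ) : ℝ) := by
      exact_mod_cast hS
    push_cast at this
    exact this
  have htail := hn3 t hnt htn hSr
  have hl := hlow (t - 1) (by omega)
  rw [not_le] at hl
  have hE := P3_ex hp0 hp1 hnt htn hl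
  have hch := P3_choose (by omega : 1 ≤ t) htn
  have hbig : 2 * n ≤ t * n.choose t := by
    have h5 : 4 * n ≤ (2 * t) * n := Nat.mul_le_mul_right n (by omega)
    have h6 : (2 * t) * n ≤ (2 * t) * n.choose t := Nat.mul_le_mul_left _ hch
    have h7 : (2 * t) * n.choose t = 2 * (t * n.choose t) := by ring
    omega
  have hc : (0 : ℝ) < (t : ℝ) * n.choose t / 4 := by
    have : 0 < t * n.choose t := by omega
    have h8 : (0 : ℝ) < ((t * n.choose t : ℕ) : ℝ) := by exact_mod_cast this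
    push_cast at h8
    linarith
  have hmk : Pr p (fun M : Mat m n => (t : ℝ) * n.choose t / 4 ≤ (lowS M : ℝ)) ≤ ε / 2 := by
    refine (markov h0 hp1 (fun M => Nat.cast_nonneg _) hc).trans ?_
    rw [div_le_iff₀ hc]
    have := hE.trans htail
    linarith
  have hor := (Pr_or h0 hp1 (fun M : Mat m n => ¬ ∀ X : Finset (Fin n), t ≤ X.card → X ∈ fam M)
    (fun M : Mat m n => (t : ℝ) * n.choose t / 4 ≤ (lowS M : ℝ))).trans (add_le_add hup hmk)
  refine (Pr_mono h0 hp1 (fun M hM => ?_)).trans (hor.trans (by linarith))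
  by_contra hcon
  rw [not_or, not_not, not_le] at hcon
  obtain ⟨hc1, hc2⟩ := hcon
  apply hM
  left
  refine good_top hnt hc1 ?_
  have h9 : 4 * lowS M < t * n.choose t := by
    have : (4 : ℝ) * (lowS M : ℝ) < (t : ℝ) * n.choose t := by linarith
    exact_mod_cast this
  omega

end Pool.Agent.H15.RV
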