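import Pool.Agent.H15.RV.P1
import Pool.Agent.H15.RV.P2
import Pool.Agent.H15.RV.P3

/-!
# The theorem: all p, all m
-/

set_option autoImplicit false

open Finset Pool.Agent.H15.RU

namespace Pool.Agent.H15.RV

theorem main_all {ε : ℝ} (hε : 0 < ε) :
    ∃ N : ℕ, ∀ n ≥ N, ∀ (m : ℕ) (p : ℝ), 0 ≤ p → p ≤ 1 →
      1 - ε ≤ Pr p (fun M : Mat m n => Good (fam M)) := by
  obtain ⟨N1, h1⟩ := part1 hε
  obtain ⟨N2, h2⟩ := part2 hε
  obtain ⟨N3, h3⟩ := part3 hε
  obtain ⟨N4, h4⟩ := main_bound (show (0 : ℝ) < 1 / 64 by norm_num) hε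
  obtain ⟨N5, h5⟩ := log_large 1
  refine ⟨N1 + N2 + N3 + N4 + N5, ?_⟩
  intro n hn m p hp0 hp1
  have key : Pr p (fun M : Mat m n => ¬ Good (fam M)) ≤ ε := by
    rcases le_or_gt (63 / 64) p with c | c
    · exact h3 n (by omega) m p c hp1
    rcases le_or_gt (n * p) (Real.log n / 8) with c1 | c1
    · exact h1 n (by omega) m p hp0 c1
    rcases le_or_gt (n * p) (Real.log n ^ 2) with c2 | c2
    · exact h2 n (by omega) m p ⟨c1.le, c2⟩
    refine h4 n (by omega) m p ⟨?_, by linarith⟩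
    have hl : 1 ≤ Real.log n := h5 n (by omega)
    have h6 : Real.log n ^ (1 + 1 / 64 : ℝ) ≤ Real.log n ^ (2 : ℝ) :=
      Real.rpow_le_rpow_of_exponent_le hl (by norm_num)
    rw [Real.rpow_two] at h6
    linarith
  rw [Pr_compl] at key
  linarith

end Pool.Agent.H15.RV
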