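import Pool.Agent.H15.RV.Defs

/-!
# Row N0: elementary bounds for n p <= (log n)/8

Proof. `ℓ = log n`, `λ = n p ≤ ℓ/8`, so `p ≤ ℓ/(8n)`, as small as we want (`Real.log_le_sub_one`.. or `ℓ / n → 0`,
`ℓ^2 / n → 0`; see `log_large` and `RU/An.lean` for the style). `α = al n p = p (1-p)^(n-1)`: `0 < α ≤ p`;
`(1-p)^(n-1) ≥ (1-p)^n ≥ exp (-(λ/(1-p))) ≥ exp (-λ - 2 λ p) ≥ exp (-λ)/2` because `1 - p ≥ exp (-(p/(1-p)))`
(`Real.one_sub_inv_le_log_of_pos` / `Real.add_one_le_exp`), `1/(1-p) ≤ 1 + 2p` for `p ≤ 1/2` and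
`2 λ p ≤ ℓ^2/(32 n) ≤ 1/2 ≤ log 2`.
`β = be n p = p^2 (1-p)^(n-2)`: `p α = p^2 (1-p)^(n-1) ≤ β`; `n^2 β = λ^2 (1-p)^(n-2) ≤ λ^2 exp (-(p (n-2))) =
λ^2 exp (-λ) exp (2p) ≤ 1`, as `λ^2 exp (-λ) ≤ 4 exp (-2) ≤ 0.55` (for `y ≥ 0`: `y ≤ exp (y/2) * (2/e)`; or
`exp λ ≥ 1 + λ + λ^2/2 + λ^3/6 ≥ 1.2 λ^2` ) and `exp (2p) ≤ 1.15`. `ℓ α ≤ ℓ p ≤ ℓ^2/(8n) ≤ 1/2`.
-/

set_option autoImplicit false

open Finset Pool.Agent.H15.RU

namespace Pool.Agent.H15.RV

theorem N0_ev : ∃ N : ℕ, ∀ n ≥ N, 3 ≤ n ∧ 2 ≤ Real.log n ∧ Real.log n ^ 2 ≤ n := by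
  have h1 : ∀ᶠ n : ℕ in Filter.atTop, Real.log n ^ 2 ≤ n := by
    have h := (Real.isLittleO_pow_log_id_atTop (n := 2)).bound (c := 1) one_pos
    have h2 := tendsto_natCast_atTop_atTop (R := ℝ) |>.eventually h
    filter_upwards [h2] with n hn
    rw [one_mul, id, Real.norm_of_nonneg (sq_nonneg _), Real.norm_of_nonneg (Nat.cast_nonneg n)] at hn
    exact hn
  obtain ⟨N1, hN1⟩ := Filter.eventually_atTop.1 h1
  obtain ⟨N2, hN2⟩ := log_large 2
  refine ⟨max 3 (max N1 N2), fun n hn => ⟨?_, ?_, ?_⟩⟩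
  · exact (le_max_left _ _).trans hn
  · exact hN2 n (((le_max_right _ _).trans (le_max_right _ _)).trans hn)
  · exact hN1 n (((le_max_left _ _).trans (le_max_right _ _)).trans hn)

theorem N0_low {p : ℝ} {n : ℕ} (h0 : 0 < p) (h1 : p ≤ 1 / 16) (h2 : (n : ℝ) * p * p ≤ 1 / 4) :
    Real.exp (-(n * p)) ≤ 2 * (1 - p) ^ n := by
  have hq : 0 < 1 - p := by linarith
  have h3 : Real.exp (-(p / (1 - p))) ≤ 1 - p := by
    have h4 := Real.add_one_le_exp (p / (1 - p))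
    have h5 : p / (1 - p) + 1 = (1 - p)⁻¹ := by
      field_simp
      ring
    rw [h5] at h4
    rw [Real.exp_neg]
    exact inv_le_of_inv_le₀ hq h4
  have h6 : Real.exp (-(p / (1 - p))) ^ n ≤ (1 - p) ^ n :=
    pow_le_pow_left₀ (Real.exp_pos _).le h3 n
  rw [← Real.exp_nat_mul] at h6
  have h7 : (n : ℝ) * -(p / (1 - p)) = -(n * p) + -(n * p * p / (1 - p)) := by
    field_simp
    ring
  rw [h7, Real.exp_add] at h6
  have h8 : n * p * p / (1 - p) ≤ 1 / 2 := by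
    rw [div_le_iff₀ hq]
    linarith
  have h9 : 1 / 2 ≤ Real.exp (-(n * p * p / (1 - p))) := by
    have h10 := Real.add_one_le_exp (-(n * p * p / (1 - p)))
    linarith
  have h11 := Real.exp_pos (-(n * p))
  nlinarith

theorem N0_sq {x q : ℝ} (hx : 0 ≤ x) (hq0 : 0 ≤ q) (hq : q ≤ 1 / 16) :
    x ^ 2 * Real.exp (-(x - 2 * q)) ≤ 1 := by
  have h1 : 1 + x + x ^ 2 / 2 + x ^ 3 / 6 ≤ Real.exp x := by
    have h := Real.sum_le_exp_of_nonneg hx 4
    simp [Finset.sum_range_succ, Nat.factorial] at h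
    linarith
  have h2 : 7 / 8 ≤ Real.exp (-(2 * q)) := by
    have h := Real.add_one_le_exp (-(2 * q))
    linarith
  have h3 : Real.exp (-(x - 2 * q)) * (Real.exp x * Real.exp (-(2 * q))) = 1 := by
    rw [← Real.exp_add, ← Real.exp_add, show -(x - 2 * q) + (x + -(2 * q)) = 0 by ring,
      Real.exp_zero]
  have h4 : x ^ 2 ≤ Real.exp x * Real.exp (-(2 * q)) := by
    have h5 : Real.exp x * (7 / 8) ≤ Real.exp x * Real.exp (-(2 * q)) :=
      mul_le_mul_of_nonneg_left h2 (Real.exp_pos x).le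
    have h6 : 0 ≤ x * (1 - 9 / 14 * x + x ^ 2 / 6) := by
      apply mul_nonneg hx
      nlinarith [sq_nonneg (x - 27 / 14)]
    nlinarith
  have h7 := Real.exp_pos (-(x - 2 * q))
  calc x ^ 2 * Real.exp (-(x - 2 * q)) ≤
      (Real.exp x * Real.exp (-(2 * q))) * Real.exp (-(x - 2 * q)) :=
        mul_le_mul_of_nonneg_right h4 h7.le
    _ = 1 := by rw [mul_comm]; exact h3

theorem basic_num : ∃ N : ℕ, ∀ n ≥ N, ∀ p : ℝ, 0 < p → n * p ≤ Real.log n / 8 →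
    p ≤ 1 / 16 ∧ 0 < al n p ∧ al n p ≤ p ∧ p * Real.exp (-(n * p)) ≤ 2 * al n p ∧
      0 < be n p ∧ p * al n p ≤ be n p ∧ (n : ℝ) ^ 2 * be n p ≤ 1 ∧
      Real.log n * al n p ≤ 1 / 2 := by
  obtain ⟨N, hN⟩ := N0_ev
  refine ⟨N, fun n hn p h0 hp => ?_⟩
  obtain ⟨hn3, hl, hl2⟩ := hN n hn
  set l := Real.log n with hldef
  have hn3' : (3 : ℝ) ≤ n := by exact_mod_cast hn3
  have hnpos : (0 : ℝ) < n := by linarith
  have hlp : l * p ≤ 1 / 8 := by
    have h1 : n * (l * p) ≤ n * (1 / 8) := by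
      calc n * (l * p) = l * (n * p) := by ring
        _ ≤ l * (l / 8) := mul_le_mul_of_nonneg_left hp (by linarith)
        _ = l ^ 2 / 8 := by ring
        _ ≤ n * (1 / 8) := by linarith
    exact le_of_mul_le_mul_left h1 hnpos
  have hp16 : p ≤ 1 / 16 := by nlinarith
  have hq : 0 < 1 - p := by linarith
  have hq1 : 1 - p ≤ 1 := by linarith
  have hal : 0 < al n p := by
    unfold al
    positivity
  have halp : al n p ≤ p := by
    unfold al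
    have h1 : (1 - p) ^ (n - 1) ≤ 1 := pow_le_one₀ hq.le hq1
    nlinarith
  have hbe : 0 < be n p := by
    unfold be
    positivity
  refine ⟨hp16, hal, halp, ?_, hbe, ?_, ?_, ?_⟩
  · have h1 : (n : ℝ) * p * p ≤ 1 / 4 := by
      have h2 : (n : ℝ) * p * p ≤ l / 8 * p := mul_le_mul_of_nonneg_right hp h0.le
      nlinarith
    have h3 := N0_low h0 hp16 h1
    have h4 : (1 - p) ^ n ≤ (1 - p) ^ (n - 1) := pow_le_pow_of_le_one hq.le hq1 (by omega)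
    unfold al
    have h5 : Real.exp (-(n * p)) ≤ 2 * (1 - p) ^ (n - 1) := by linarith
    have h6 := mul_le_mul_of_nonneg_left h5 h0.le
    linarith
  · unfold al be
    have h4 : (1 - p) ^ (n - 1) ≤ (1 - p) ^ (n - 2) := pow_le_pow_of_le_one hq.le hq1 (by omega)
    have h6 := mul_le_mul_of_nonneg_left h4 (sq_nonneg p)
    linarith
  · unfold be
    have h1 := pow_le_exp (p := p) (by linarith) (n - 2)
    have h2 : ((n - 2 : ℕ) : ℝ) = n - 2 := by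
      rw [Nat.cast_sub (by omega)]
      norm_num
    rw [h2] at h1
    have h3 : -(p * ((n : ℝ) - 2)) = -(n * p - 2 * p) := by ring
    rw [h3] at h1
    have h4 := N0_sq (x := n * p) (q := p) (by positivity) h0.le hp16
    calc (n : ℝ) ^ 2 * (p ^ 2 * (1 - p) ^ (n - 2)) = (n * p) ^ 2 * (1 - p) ^ (n - 2) := by ring
      _ ≤ (n * p) ^ 2 * Real.exp (-(n * p - 2 * p)) :=
        mul_le_mul_of_nonneg_left h1 (sq_nonneg _)
      _ ≤ 1 := h4
  · have h1 : l * al n p ≤ l * p := mul_le_mul_of_nonneg_left halp (by linarith)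
    linarith

end Pool.Agent.H15.RV
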