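import Pool.Agent.H15.RV.Defs

/-!
# Row N1: numbers, small x (real variables: λ = lam, d = m p, x = m α)

Proof. Let `ℓ = log n`, `G = n λ d^2`. From `ε < 5 d^3 (n λ)`: `G^3 = (n λ) (n λ d^3)^2 > (n λ) (ε/5)^2`  (*).
Case `λ ≤ 1`: `d ≤ 2 x exp 1 ≤ 6` (`x ≤ 1`), so `ε < 36 n λ^2`, `(n λ)^2 = n (n λ^2) > n ε/36`. With (*): `G^6 > (n λ)^2 (ε/5)^4 > n (ε/36) (ε/5)^4`,
so `G` is as large as we want for large `n`; `x ≥ d/6` gives `n λ x^2 ≥ G/36`.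
Case `1 ≤ λ ≤ ℓ/8`: by (*) `G^3 > n (ε/5)^2`; `x ≥ d exp (-λ)/2`, so `n λ x^2 ≥ G exp (-2λ)/4`, and
`(G exp (-2λ))^3 > n (ε/5)^2 exp (-6 λ) ≥ n (ε/5)^2 exp (-(3/4) ℓ) = n^(1/4) (ε/5)^2`.
Hence `n λ x^2 ≥ max K 0` for large `n`. Finally `(n x)^2 λ = n (n λ x^2)`; apply the first part with `K' = max K 1`:
`(n x)^2 ≥ n K'/λ ≥ 8 n/ℓ ≥ K'^2` for large `n`, if `λ ≤ ℓ/8`; so `n x ≥ K'`.
-/

set_option autoImplicit false

open Finset Pool.Agent.H15.RU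

namespace Pool.Agent.H15.RV

theorem N1_G3 {ε n lam d : ℝ} (hε : 0 < ε) (hnl : 0 < n * lam)
    (h1 : ε < 5 * d ^ 3 * (n * lam)) : n * lam * (ε / 5) ^ 2 ≤ (n * lam * d ^ 2) ^ 3 := by
  have h3 : ε / 5 ≤ n * lam * d ^ 3 := by nlinarith
  have h4 : (ε / 5) ^ 2 ≤ (n * lam * d ^ 3) ^ 2 := pow_le_pow_left₀ (by positivity) h3 2
  calc n * lam * (ε / 5) ^ 2 ≤ n * lam * (n * lam * d ^ 3) ^ 2 :=
        mul_le_mul_of_nonneg_left h4 hnl.le
    _ = (n * lam * d ^ 2) ^ 3 := by ring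

theorem N1_caseA {ε n lam d x : ℝ} (hε : 0 < ε) (hn : 1 ≤ n) (hl : 0 < lam) (hl1 : lam ≤ 1)
    (hd : 0 < d) (hx : 0 < x) (hdx : d ≤ 2 * x * Real.exp lam) (hx1 : x ≤ 1)
    (h1 : ε < 5 * d ^ 3 * (n * lam)) (h2 : ε < d ^ 2 * (n * lam ^ 2)) :
    n * (ε / 36 * (ε / 5) ^ 4) ≤ (36 * (n * lam * x ^ 2)) ^ 6 := by
  have hn0 : 0 < n := by linarith
  have hnl : 0 < n * lam := mul_pos hn0 hl
  have he : Real.exp lam ≤ 3 := by
    have h5 := Real.exp_le_exp.2 hl1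
    have h6 := Real.exp_one_lt_d9
    linarith
  have hd6 : d ≤ 6 * x := by
    have := mul_le_mul_of_nonneg_left he (by positivity : (0 : ℝ) ≤ 2 * x)
    linarith
  have hdd : d ^ 2 ≤ 36 * x ^ 2 := by
    have := pow_le_pow_left₀ hd.le hd6 2
    nlinarith
  have hG : n * lam * d ^ 2 ≤ 36 * (n * lam * x ^ 2) := by
    have := mul_le_mul_of_nonneg_left hdd hnl.le
    linarith
  have hG0 : 0 < n * lam * d ^ 2 := by positivity
  have hG3 := N1_G3 hε hnl h1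
  have hd36 : d ^ 2 ≤ 36 := by
    have : x ^ 2 ≤ 1 := by nlinarith
    linarith
  have hq : n * (ε / 36) ≤ (n * lam) ^ 2 := by
    have h7 : d ^ 2 * (n * lam ^ 2) ≤ 36 * (n * lam ^ 2) :=
      mul_le_mul_of_nonneg_right hd36 (by positivity)
    have h8 : ε / 36 ≤ n * lam ^ 2 := by linarith
    have h9 := mul_le_mul_of_nonneg_left h8 hn0.le
    calc n * (ε / 36) ≤ n * (n * lam ^ 2) := h9
      _ = (n * lam) ^ 2 := by ring
  calc n * (ε / 36 * (ε / 5) ^ 4) = n * (ε / 36) * (ε / 5) ^ 4 := by ring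
    _ ≤ (n * lam) ^ 2 * (ε / 5) ^ 4 := mul_le_mul_of_nonneg_right hq (by positivity)
    _ = (n * lam * (ε / 5) ^ 2) ^ 2 := by ring
    _ ≤ ((n * lam * d ^ 2) ^ 3) ^ 2 := pow_le_pow_left₀ (by positivity) hG3 2
    _ = (n * lam * d ^ 2) ^ 6 := by ring
    _ ≤ (36 * (n * lam * x ^ 2)) ^ 6 := pow_le_pow_left₀ hG0.le hG 6

theorem N1_caseB {ε n lam d x : ℝ} (hε : 0 < ε) (hn : 1 ≤ n) (hl1 : 1 ≤ lam)
    (hl8 : lam ≤ Real.log n / 8) (hd : 0 < d) (hx : 0 < x) (hdx : d ≤ 2 * x * Real.exp lam)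
    (h1 : ε < 5 * d ^ 3 * (n * lam)) :
    Real.exp (Real.log n / 4) * (ε / 5) ^ 2 ≤ (4 * (n * lam * x ^ 2)) ^ 3 := by
  have hn0 : 0 < n := by linarith
  have hl : 0 < lam := by linarith
  have hnl : 0 < n * lam := mul_pos hn0 hl
  have hG3 := N1_G3 hε hnl h1
  have hdd : d ^ 2 ≤ 4 * x ^ 2 * Real.exp lam ^ 2 := by
    have := pow_le_pow_left₀ hd.le hdx 2
    nlinarith
  have hG : n * lam * d ^ 2 ≤ 4 * (n * lam * x ^ 2) * Real.exp lam ^ 2 := by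
    have := mul_le_mul_of_nonneg_left hdd hnl.le
    linarith
  have hG0 : 0 < n * lam * d ^ 2 := by positivity
  have h5 : n * (ε / 5) ^ 2 ≤ n * lam * (ε / 5) ^ 2 := by
    refine mul_le_mul_of_nonneg_right ?_ (by positivity)
    nlinarith
  have h6 : n * (ε / 5) ^ 2 ≤ (4 * (n * lam * x ^ 2)) ^ 3 * Real.exp lam ^ 6 := by
    calc n * (ε / 5) ^ 2 ≤ (n * lam * d ^ 2) ^ 3 := h5.trans hG3
      _ ≤ (4 * (n * lam * x ^ 2) * Real.exp lam ^ 2) ^ 3 := pow_le_pow_left₀ hG0.le hG 3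
      _ = (4 * (n * lam * x ^ 2)) ^ 3 * Real.exp lam ^ 6 := by ring
  have h7 : Real.exp lam ^ 6 ≤ Real.exp (3 / 4 * Real.log n) := by
    rw [← Real.exp_nat_mul]
    apply Real.exp_le_exp.2
    push_cast
    linarith
  have h8 : n = Real.exp (Real.log n / 4) * Real.exp (3 / 4 * Real.log n) := by
    rw [← Real.exp_add]
    have : Real.log n / 4 + 3 / 4 * Real.log n = Real.log n := by ring
    rw [this, Real.exp_log hn0]
  have h9 : Real.exp (Real.log n / 4) * (ε / 5) ^ 2 * Real.exp (3 / 4 * Real.log n) ≤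
      (4 * (n * lam * x ^ 2)) ^ 3 * Real.exp (3 / 4 * Real.log n) := by
    calc Real.exp (Real.log n / 4) * (ε / 5) ^ 2 * Real.exp (3 / 4 * Real.log n)
        = (Real.exp (Real.log n / 4) * Real.exp (3 / 4 * Real.log n)) * (ε / 5) ^ 2 := by ring
      _ = n * (ε / 5) ^ 2 := by rw [← h8]
      _ ≤ (4 * (n * lam * x ^ 2)) ^ 3 * Real.exp lam ^ 6 := h6
      _ ≤ (4 * (n * lam * x ^ 2)) ^ 3 * Real.exp (3 / 4 * Real.log n) :=
          mul_le_mul_of_nonneg_left h7 (by positivity)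
  exact le_of_mul_le_mul_right h9 (Real.exp_pos _)

theorem num_small {ε K : ℝ} (hε : 0 < ε) :
    ∃ N : ℕ, ∀ n : ℕ, N ≤ n → ∀ lam d x : ℝ, 0 < lam → lam ≤ Real.log n / 8 → 0 < d → 0 < x →
      d ≤ 2 * x * Real.exp lam → x ≤ 1 → ε < 5 * d ^ 3 * (n * lam) → ε < d ^ 2 * (n * lam ^ 2) →
      K ≤ n * lam * x ^ 2 ∧ K ≤ n * x := by
  obtain ⟨L, hL1, hKL⟩ : ∃ L : ℝ, 1 ≤ L ∧ K ≤ L := ⟨max K 1, le_max_right _ _, le_max_left _ _⟩
  have hc1 : 0 < ε / 36 * (ε / 5) ^ 4 := by positivity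
  have hc2 : 0 < (ε / 5) ^ 2 := by positivity
  have t1 := tendsto_natCast_atTop_atTop (R := ℝ)
  have t2 := Real.tendsto_log_atTop.comp t1
  obtain ⟨N, hN⟩ := Filter.eventually_atTop.1
    ((t1.eventually_ge_atTop ((36 * L) ^ 6 / (ε / 36 * (ε / 5) ^ 4))).and
      ((t2.eventually_ge_atTop (4 * ((4 * L) ^ 3 / (ε / 5) ^ 2))).and
        ((t2.eventually_ge_atTop (L / 4)).and (t1.eventually_ge_atTop 1))))
  refine ⟨N, fun n hn lam d x hl hl8 hd hx hdx hx1 h1 h2 => ?_⟩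
  obtain ⟨a1, a2, a3, a4⟩ := hN n hn
  simp only [Function.comp] at a2 a3
  have hn0 : (0 : ℝ) < n := by linarith
  have hy : L ≤ n * lam * x ^ 2 := by
    by_contra hcon
    push Not at hcon
    have hy0 : 0 ≤ (n : ℝ) * lam * x ^ 2 := by positivity
    rcases le_total lam 1 with hl1 | hl1
    · have h3 := N1_caseA hε a4 hl hl1 hd hx hdx hx1 h1 h2
      have h4 : (36 * ((n : ℝ) * lam * x ^ 2)) ^ 6 < (36 * L) ^ 6 :=
        pow_lt_pow_left₀ (by linarith) (by linarith) (by norm_num)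
      rw [div_le_iff₀ hc1] at a1
      linarith
    · have h3 := N1_caseB hε a4 hl1 hl8 hd hx hdx h1
      have h4 : (4 * ((n : ℝ) * lam * x ^ 2)) ^ 3 < (4 * L) ^ 3 :=
        pow_lt_pow_left₀ (by linarith) (by linarith) (by norm_num)
      have h5 : (4 * L) ^ 3 / (ε / 5) ^ 2 ≤ Real.exp (Real.log n / 4) := by
        have := Real.add_one_le_exp (Real.log n / 4)
        linarith
      rw [div_le_iff₀ hc2] at h5
      linarith
  refine ⟨hKL.trans hy, hKL.trans ?_⟩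
  by_contra hcon
  push Not at hcon
  have h3 : ((n : ℝ) * x) ^ 2 ≤ L ^ 2 := pow_le_pow_left₀ (by positivity) hcon.le 2
  have h4 : (n : ℝ) * L ≤ ((n : ℝ) * x) ^ 2 * lam := by
    have := mul_le_mul_of_nonneg_left hy hn0.le
    nlinarith
  have h5 : ((n : ℝ) * x) ^ 2 * lam ≤ L ^ 2 * (Real.log n / 8) :=
    mul_le_mul h3 hl8 hl.le (by positivity)
  have h6 : (n : ℝ) ≤ L * (Real.log n / 8) := by
    have h7 : (n : ℝ) * L ≤ L * (Real.log n / 8) * L := by nlinarith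
    exact le_of_mul_le_mul_right h7 (by linarith)
  have h8 := Real.quadratic_le_exp_of_nonneg (x := Real.log n) (by linarith)
  rw [Real.exp_log hn0] at h8
  nlinarith

end Pool.Agent.H15.RV
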