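import Pool.Agent.H15.RV.Defs

/-!
# Row N2: numbers, large x (real variables: λ = lam, d = m p, x = m α)

Proofs. `ℓ = log n`.
`num_x`: `ε < 3 d (n λ) exp (-2x) ≤ 6 x exp λ (n λ) exp (-2x)`. If `x > ℓ` then `x exp (-x/2) ≤ 1` (`x/2 ≤ exp (x/2)/e`), so
`x exp (-2x) ≤ exp (-3x/2) ≤ exp (-3ℓ/2)`, and the right hand side is at most
`6 exp (ℓ/8) (n ℓ/8) exp (-3ℓ/2) = (6/8) ℓ n^(1 + 1/8 - 3/2) = (3/4) ℓ exp (-(3/8) ℓ)`, which is below `ε` for large `n`: contradiction.
`num_large`: from (C) `ε < 3 d (n λ) exp (-2x)` and `d ≤ 2 x exp λ`: `n λ exp (-x) > ε exp (x - λ)/(6 x)` (**).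
Case `λ ≤ 1`: choose `X0 ≥ 1` (depending on `ε, K`) such that `ε exp (x - 1)/(6 x) ≥ K` for `x ≥ X0`. If `x ≥ X0`: (**) gives
`n λ exp (-x) ≥ K`. If `x < X0`: `d ≤ 2 X0 exp 1 ≤ 6 X0`, so by (B) `ε < 36 X0^2 n λ^2`, `(n λ)^2 > n ε/(36 X0^2)`, and
`n λ exp (-x) ≥ exp (-X0) sqrt (n ε)/(6 X0) ≥ K` for large `n`. And `n exp (-x) ≥ n λ exp (-x)` if `λ ≤ 1` (K may be negative: replace K by max K 0).
Case `λ ≥ 1`: if `x ≤ ℓ/2`: `n exp (-x) ≥ exp (ℓ/2) ≥ K` and `n λ exp (-x) ≥ n exp (-x)`. If `x > ℓ/2` (`x ≤ ℓ`): by (**)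
`n λ exp (-x) ≥ ε exp (ℓ/2 - ℓ/8)/(6 ℓ)`, large; and `n exp (-x) = n λ exp (-x)/λ ≥ (8/ℓ) ε exp ((3/8) ℓ)/(6 ℓ)`, large.
-/

set_option autoImplicit false

open Finset Pool.Agent.H15.RU

namespace Pool.Agent.H15.RV

private theorem N2_log (A : ℝ) : ∃ N : ℕ, ∀ n : ℕ, N ≤ n → A ≤ Real.log n ∧ 1 ≤ n := by
  refine ⟨⌈Real.exp A⌉₊ + 1, fun n hn => ?_⟩
  have h1 : Real.exp A ≤ n := by
    have h2 := Nat.le_ceil (Real.exp A)
    have h3 : ((⌈Real.exp A⌉₊ + 1 : ℕ) : ℝ) ≤ n := by exact_mod_cast hn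
    push_cast at h3
    linarith
  have hn1 : 1 ≤ n := by omega
  have hn0 : (0 : ℝ) < n := by exact_mod_cast hn1
  exact ⟨(Real.le_log_iff_exp_le hn0).2 h1, hn1⟩

private theorem N2_half {x : ℝ} (hx : 0 ≤ x) : x ≤ Real.exp (x / 2) := by
  have h := Real.quadratic_le_exp_of_nonneg (show 0 ≤ x / 2 by linarith)
  nlinarith [sq_nonneg (x - 2)]

private theorem N2_cube {t : ℝ} (ht : 0 ≤ t) : t ^ 3 / 6 ≤ Real.exp t := by
  have h := Real.pow_div_factorial_le_exp t ht 3
  have h2 : ((Nat.factorial 3 : ℕ) : ℝ) = 6 := by norm_num [Nat.factorial]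
  rwa [h2] at h

/-- The basic consequence of (C). -/
private theorem N2_C {ε lam d x : ℝ} {n : ℕ} (hlam : 0 < lam)
    (hd : d ≤ 2 * x * Real.exp lam)
    (h : ε < 3 * d * (n * lam) * Real.exp (-(2 * x))) :
    ε < 6 * x * Real.exp (lam - x) * (n * lam * Real.exp (-x)) := by
  have h1 : 3 * d * (n * lam) * Real.exp (-(2 * x)) ≤
      3 * (2 * x * Real.exp lam) * (n * lam) * Real.exp (-(2 * x)) := by
    have : 0 ≤ (n : ℝ) * lam := mul_nonneg (Nat.cast_nonneg n) hlam.le
    gcongr
  have h2 : 3 * (2 * x * Real.exp lam) * (n * lam) * Real.exp (-(2 * x)) =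
      6 * x * Real.exp (lam - x) * (n * lam * Real.exp (-x)) := by
    have e1 : Real.exp (-(2 * x)) = Real.exp (-x) * Real.exp (-x) := by
      rw [← Real.exp_add]; ring_nf
    have e2 : Real.exp (lam - x) = Real.exp lam * Real.exp (-x) := by
      rw [← Real.exp_add]; ring_nf
    rw [e1, e2]
    ring
  linarith

theorem num_x {ε : ℝ} (hε : 0 < ε) :
    ∃ N : ℕ, ∀ n : ℕ, N ≤ n → ∀ lam d x : ℝ, 0 < lam → lam ≤ Real.log n / 8 → 0 < d → 0 < x →
      d ≤ 2 * x * Real.exp lam → ε < 3 * d * (n * lam) * Real.exp (-(2 * x)) →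
      x ≤ Real.log n := by
  obtain ⟨N, hN⟩ := N2_log (max 0 (4 * Real.log (6 / ε)))
  refine ⟨N, fun n hn lam d x hlam hlam2 _hd hx hdx hC => ?_⟩
  obtain ⟨hl, hn1⟩ := hN n hn
  have hl0 : 0 ≤ Real.log n := le_trans (le_max_left _ _) hl
  have hl1 : 4 * Real.log (6 / ε) ≤ Real.log n := le_trans (le_max_right _ _) hl
  have hn0 : (0 : ℝ) < n := by exact_mod_cast hn1
  by_contra hcon
  push Not at hcon
  have h1 := N2_C hlam hdx hC
  obtain ⟨L, hL⟩ : ∃ L : ℝ, L = Real.log n := ⟨_, rfl⟩
  rw [← hL] at hl0 hl1 hcon hlam2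
  have hnL : (n : ℝ) = Real.exp L := by rw [hL, Real.exp_log hn0]
  -- the right hand side is small
  have h2 : 6 * x * Real.exp (lam - x) * (n * lam * Real.exp (-x)) ≤
      6 * Real.exp (-(L / 4)) := by
    have a1 : x ≤ Real.exp (x / 2) := N2_half hx.le
    have a2 : lam ≤ Real.exp (L / 8) := by
      have := Real.add_one_le_exp (L / 8)
      linarith
    have a3 : Real.exp lam ≤ Real.exp (L / 8) := Real.exp_le_exp.2 hlam2
    calc 6 * x * Real.exp (lam - x) * (n * lam * Real.exp (-x))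
        = 6 * (x * (Real.exp lam * lam) * (n * Real.exp (-(2 * x)))) := by
          have e1 : Real.exp (-(2 * x)) = Real.exp (-x) * Real.exp (-x) := by
            rw [← Real.exp_add]; ring_nf
          have e2 : Real.exp (lam - x) = Real.exp lam * Real.exp (-x) := by
            rw [← Real.exp_add]; ring_nf
          rw [e1, e2]
          ring
      _ ≤ 6 * (Real.exp (x / 2) * (Real.exp (L / 8) * Real.exp (L / 8)) *
            (Real.exp L * Real.exp (-(2 * x)))) := by
          rw [hnL]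
          have b1 : Real.exp lam * lam ≤ Real.exp (L / 8) * Real.exp (L / 8) :=
            mul_le_mul a3 a2 hlam.le (Real.exp_pos _).le
          have b2 : 0 ≤ Real.exp lam * lam := by positivity
          gcongr
      _ = 6 * Real.exp (x / 2 + L / 8 + L / 8 + L - 2 * x) := by
          rw [show x / 2 + L / 8 + L / 8 + L - 2 * x =
            x / 2 + (L / 8 + L / 8) + (L + -(2 * x)) by ring]
          rw [Real.exp_add, Real.exp_add, Real.exp_add, Real.exp_add]
      _ ≤ 6 * Real.exp (-(L / 4)) := by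
          have : x / 2 + L / 8 + L / 8 + L - 2 * x ≤ -(L / 4) := by linarith
          have := Real.exp_le_exp.2 this
          linarith
  have h3 : Real.exp (-(L / 4)) ≤ ε / 6 := by
    have h4 : Real.log (6 / ε) ≤ L / 4 := by linarith
    have h5 : -(L / 4) ≤ Real.log (ε / 6) := by
      have : Real.log (ε / 6) = -Real.log (6 / ε) := by
        rw [← Real.log_inv]; congr 1; field_simp
      rw [this]; linarith
    calc Real.exp (-(L / 4)) ≤ Real.exp (Real.log (ε / 6)) := Real.exp_le_exp.2 h5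
      _ = ε / 6 := Real.exp_log (by positivity)
  linarith

theorem num_large {ε K : ℝ} (hε : 0 < ε) :
    ∃ N : ℕ, ∀ n : ℕ, N ≤ n → ∀ lam d x : ℝ, 0 < lam → lam ≤ Real.log n / 8 → 0 < d → 1 ≤ x →
      x ≤ Real.log n → d ≤ 2 * x * Real.exp lam → ε < d ^ 2 * (n * lam ^ 2) →
      ε < 3 * d * (n * lam) * Real.exp (-(2 * x)) →
      K ≤ n * Real.exp (-x) ∧ K ≤ n * lam * Real.exp (-x) := by
  obtain ⟨k, hk⟩ : ∃ k : ℝ, k = max K 1 := ⟨_, rfl⟩
  have hkK : K ≤ k := by rw [hk]; exact le_max_left _ _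
  have hk1 : 1 ≤ k := by rw [hk]; exact le_max_right _ _
  obtain ⟨X0, hX0⟩ : ∃ X0 : ℝ, X0 = max 1 (36 * k / ε) := ⟨_, rfl⟩
  have hX01 : 1 ≤ X0 := by rw [hX0]; exact le_max_left _ _
  have hX02 : 36 * k / ε ≤ X0 := by rw [hX0]; exact le_max_right _ _
  obtain ⟨A, hA⟩ : ∃ A : ℝ, A = max (2 * k) (max (100 * k / ε)
    (Real.log (k ^ 2 * (36 * X0 ^ 2) * Real.exp (2 * X0) / ε))) := ⟨_, rfl⟩
  obtain ⟨N, hN⟩ := N2_log A
  refine ⟨N, fun n hn lam d x hlam hlam2 hd hx hxl hdx hB hC => ?_⟩
  obtain ⟨hl, hn1⟩ := hN n hn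
  have hn0 : (0 : ℝ) < n := by exact_mod_cast hn1
  have h1 := N2_C hlam hdx hC
  have hlog : Real.log (k ^ 2 * (36 * X0 ^ 2) * Real.exp (2 * X0) / ε) ≤ Real.log n := by
    refine le_trans ?_ hl
    rw [hA]
    exact le_trans (le_max_right _ _) (le_max_right _ _)
  have hbig : k ^ 2 * (36 * X0 ^ 2) * Real.exp (2 * X0) / ε ≤ n := by
    have hpos : 0 < k ^ 2 * (36 * X0 ^ 2) * Real.exp (2 * X0) / ε := by positivity
    exact (Real.log_le_log_iff hpos hn0).1 hlog
  have hl2 : 2 * k ≤ Real.log n := by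
    refine le_trans ?_ hl
    rw [hA]
    exact le_max_left _ _
  have hl3 : 100 * k / ε ≤ Real.log n := by
    refine le_trans ?_ hl
    rw [hA]
    exact le_trans (le_max_left _ _) (le_max_right _ _)
  obtain ⟨L, hL⟩ : ∃ L : ℝ, L = Real.log n := ⟨_, rfl⟩
  rw [← hL] at hl2 hl3 hlam2 hxl
  have hnL : (n : ℝ) = Real.exp L := by rw [hL, Real.exp_log hn0]
  have hLpos : 0 < L := by linarith
  have hx0 : 0 < x := by linarith
  obtain ⟨Y, hY⟩ : ∃ Y : ℝ, Y = n * lam * Real.exp (-x) := ⟨_, rfl⟩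
  rw [← hY] at h1
  have hYpos : 0 < Y := by rw [hY]; positivity
  rw [← hY]
  rcases le_total lam 1 with h | h
  · -- lam <= 1
    have hkY : k ≤ Y := by
      rcases le_total X0 x with hx2 | hx2
      · -- x large
        have e1 : ε * Real.exp (x - lam) < 6 * x * Y := by
          have e2 : Real.exp (lam - x) * Real.exp (x - lam) = 1 := by
            rw [← Real.exp_add]; simp
          have e3 : 0 < Real.exp (x - lam) := Real.exp_pos _
          have e4 := mul_lt_mul_of_pos_right h1 e3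
          have e5 : 6 * x * Real.exp (lam - x) * Y * Real.exp (x - lam) = 6 * x * Y := by
            rw [show 6 * x * Real.exp (lam - x) * Y * Real.exp (x - lam) =
              6 * x * Y * (Real.exp (lam - x) * Real.exp (x - lam)) by ring, e2, mul_one]
          rw [e5] at e4
          exact e4
        have e6 : (x ^ 2 / 2) / 3 ≤ Real.exp (x - lam) := by
          have q1 := Real.quadratic_le_exp_of_nonneg hx0.le
          have q2 : Real.exp (x - 1) ≤ Real.exp (x - lam) := Real.exp_le_exp.2 (by linarith)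
          have q3 : Real.exp x = Real.exp (x - 1) * Real.exp 1 := by
            rw [← Real.exp_add]; ring_nf
          have q4 : Real.exp 1 ≤ 3 := by
            have := Real.exp_one_lt_d9
            linarith
          have q5 : Real.exp x ≤ Real.exp (x - 1) * 3 := by
            rw [q3]
            exact mul_le_mul_of_nonneg_left q4 (Real.exp_pos _).le
          nlinarith
        have e7 : 36 * k ≤ ε * x := by
          have : 36 * k / ε ≤ x := le_trans hX02 hx2
          rw [div_le_iff₀ hε] at this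
          linarith
        have e8 : ε * ((x ^ 2 / 2) / 3) < 6 * x * Y :=
          lt_of_le_of_lt (mul_le_mul_of_nonneg_left e6 hε.le) e1
        have e9 : x * (ε * x) < x * (36 * Y) := by nlinarith
        have e10 : ε * x < 36 * Y := lt_of_mul_lt_mul_left e9 hx0.le
        linarith
      · -- x small
        have e1 : d ≤ 6 * X0 := by
          have q4 : Real.exp 1 ≤ 3 := by
            have := Real.exp_one_lt_d9
            linarith
          have q5 : Real.exp lam ≤ 3 := le_trans (Real.exp_le_exp.2 h) q4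
          calc d ≤ 2 * x * Real.exp lam := hdx
            _ ≤ 2 * X0 * 3 := by
              have := Real.exp_pos lam
              gcongr
            _ = 6 * X0 := by ring
        have e2 : ε < (6 * X0) ^ 2 * (n * lam ^ 2) := by
          refine lt_of_lt_of_le hB ?_
          have : 0 ≤ (n : ℝ) * lam ^ 2 := by positivity
          gcongr
        have e3 : Real.exp (-X0) ≤ Real.exp (-x) := Real.exp_le_exp.2 (by linarith)
        have e4 : n * lam * Real.exp (-X0) ≤ Y := by
          rw [hY]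
          exact mul_le_mul_of_nonneg_left e3 (by positivity)
        have e5 : k ^ 2 ≤ (n * lam * Real.exp (-X0)) ^ 2 := by
          rw [div_le_iff₀ hε] at hbig
          have e6 : Real.exp (2 * X0) * Real.exp (-X0) ^ 2 = 1 := by
            rw [← Real.exp_nat_mul, ← Real.exp_add]
            norm_num
          have e7 : 0 < Real.exp (-X0) ^ 2 := by positivity
          have e8 : k ^ 2 * (36 * X0 ^ 2) ≤ n * ε * Real.exp (-X0) ^ 2 := by
            have := mul_le_mul_of_nonneg_right hbig e7.le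
            calc k ^ 2 * (36 * X0 ^ 2) =
                k ^ 2 * (36 * X0 ^ 2) * (Real.exp (2 * X0) * Real.exp (-X0) ^ 2) := by
                  rw [e6, mul_one]
              _ = k ^ 2 * (36 * X0 ^ 2) * Real.exp (2 * X0) * Real.exp (-X0) ^ 2 := by ring
              _ ≤ n * ε * Real.exp (-X0) ^ 2 := this
          have e9 : n * ε * Real.exp (-X0) ^ 2 ≤
              n * ((6 * X0) ^ 2 * (n * lam ^ 2)) * Real.exp (-X0) ^ 2 := by
            gcongr
          have e10 : k ^ 2 * (36 * X0 ^ 2) ≤ (n * lam * Real.exp (-X0)) ^ 2 * (36 * X0 ^ 2) := by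
            calc k ^ 2 * (36 * X0 ^ 2) ≤ n * ε * Real.exp (-X0) ^ 2 := e8
              _ ≤ n * ((6 * X0) ^ 2 * (n * lam ^ 2)) * Real.exp (-X0) ^ 2 := e9
              _ = (n * lam * Real.exp (-X0)) ^ 2 * (36 * X0 ^ 2) := by ring
          exact le_of_mul_le_mul_right e10 (by positivity)
        have e11 : k ≤ n * lam * Real.exp (-X0) :=
          by
          exact (pow_le_pow_iff_left₀ (by linarith) (by positivity) (by norm_num)).1 e5
        linarith
    refine ⟨?_, by linarith⟩
    have : Y ≤ n * Real.exp (-x) := by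
      rw [hY]
      have : n * lam * Real.exp (-x) ≤ n * 1 * Real.exp (-x) := by
        gcongr
      linarith
    linarith
  · -- lam >= 1
    have hZ : k ≤ n * Real.exp (-x) := by
      rcases le_total x (L / 2) with hx2 | hx2
      · have e1 : Real.exp (L / 2) ≤ n * Real.exp (-x) := by
          rw [hnL, ← Real.exp_add]
          exact Real.exp_le_exp.2 (by linarith)
        have e2 := Real.add_one_le_exp (L / 2)
        linarith
      · obtain ⟨Z, hZ⟩ : ∃ Z : ℝ, Z = n * Real.exp (-x) := ⟨_, rfl⟩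
        rw [← hZ]
        have hYZ : Y = lam * Z := by rw [hY, hZ]; ring
        have hZ0 : 0 < Z := by rw [hZ]; positivity
        have e1 : ε * Real.exp (x - lam) < 6 * x * Y := by
          have e2 : Real.exp (lam - x) * Real.exp (x - lam) = 1 := by
            rw [← Real.exp_add]; simp
          have e3 : 0 < Real.exp (x - lam) := Real.exp_pos _
          have e4 := mul_lt_mul_of_pos_right h1 e3
          have e5 : 6 * x * Real.exp (lam - x) * Y * Real.exp (x - lam) = 6 * x * Y := by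
            rw [show 6 * x * Real.exp (lam - x) * Y * Real.exp (x - lam) =
              6 * x * Y * (Real.exp (lam - x) * Real.exp (x - lam)) by ring, e2, mul_one]
          rw [e5] at e4
          exact e4
        have e2 : (3 * L / 8) ^ 3 / 6 ≤ Real.exp (x - lam) := by
          refine le_trans (N2_cube (by positivity)) (Real.exp_le_exp.2 ?_)
          linarith
        have e3 : 6 * x * Y ≤ 6 * L * (L / 8 * Z) := by
          rw [hYZ]
          have : lam * Z ≤ L / 8 * Z := mul_le_mul_of_nonneg_right hlam2 hZ0.le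
          have h6 : 0 ≤ lam * Z := by positivity
          gcongr
        have e4 : ε * ((3 * L / 8) ^ 3 / 6) < 6 * L * (L / 8 * Z) :=
          lt_of_le_of_lt (mul_le_mul_of_nonneg_left e2 hε.le) (lt_of_lt_of_le e1 e3)
        have e5 : L ^ 2 * (ε * L * (27 / 3072)) < L ^ 2 * (6 / 8 * Z) := by
          have : ε * ((3 * L / 8) ^ 3 / 6) = L ^ 2 * (ε * L * (27 / 3072)) := by ring
          have h7 : 6 * L * (L / 8 * Z) = L ^ 2 * (6 / 8 * Z) := by ring
          rw [this, h7] at e4
          exact e4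
        have e6 : ε * L * (27 / 3072) < 6 / 8 * Z := lt_of_mul_lt_mul_left e5 (by positivity)
        have e7 : 100 * k ≤ ε * L := by
          rw [div_le_iff₀ hε] at hl3
          linarith
        linarith
    refine ⟨by linarith, ?_⟩
    have : n * Real.exp (-x) ≤ Y := by
      rw [hY]
      have : n * 1 * Real.exp (-x) ≤ n * lam * Real.exp (-x) := by
        gcongr
      linarith
    linarith

end Pool.Agent.H15.RV
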