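import Pool.Agent.H15.RV.N0

/-!
# Row N3: choice of the size of the second group

Notation `α = al n p`, `β = be n p`, `x = m α`, `w = exp (-x) min 1 x` (in `(0, 1]`; `x > 0` because `1 ≤ K ≤ n min 1 x`), `W0 = n^2 w/8`.
Constants: `Kc ≥ 1` with `exp (-(Kc/4)) ≤ ε/4`; `K = max of 1, 64/ε, 64 Kc, 4096 Kc^2/ε`. `N` from `basic_num` (and `n ≥ 2`).
Choice: `m2 = ⌈Kc/(β W0)⌉₊`, `m1 = m - m2`, `u = (1-α)^m1`.
`β W0 ≤ 1/8 ≤ Kc` (`n^2 β ≤ 1`, `w ≤ 1`), so `1 ≤ Kc/(β W0)` and `m2 ≤ 2 Kc/(β W0) ≤ 2 Kc/(p α W0) = 16 Kc/(p α n^2 w)` (`p α ≤ β`). Hence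
`α m2 ≤ 16 Kc/(n (n p) w) ≤ 16 Kc/K ≤ 1/4`, and `2 m2 ≤ m` because `m p α n^2 w = x p n^2 w = n (n p) w x ≥ K ≥ 32 Kc`.
Bounds for `u`: `u ≥ (1-α)^m ≥ exp (-x - x α) ≥ exp (-x)/2` (`log (1-α) ≥ -α - α^2` for `α ≤ 1/2`; `x α ≤ ℓ α ≤ 1/2 ≤ log 2`);
`u ≤ exp (-(α m1)) = exp (-x + α m2) ≤ 2 exp (-x)`; `u ≤ exp (-(α m1)) ≤ exp (-x/2)` (`m1 ≥ m/2`), and
`1 - exp (-y) ≥ y/(1+y)` for `y = x/2 ≥ 0` gives `1 - u ≥ min 1 x/4 > 0`; `1 - u ≤ m1 α ≤ x` (Bernoulli `one_add_mul_le_pow`) and `1 - u ≤ 1`.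
So `w/8 ≤ u (1-u) ≤ 2 w`: `W0 ≤ n^2 u (1-u) ≤ 16 W0`.
The four terms: `4/(n u) ≤ 8/(n exp (-x)) ≤ 8/K ≤ ε/4`; `4/(n (1-u)) ≤ 16/(n min 1 x) ≤ 16/K ≤ ε/4`; the exponent is at least
`m2 β W0/4 ≥ Kc/4`: `≤ ε/4`; the last one is at most `2 m2^2 α β 16 W0 = 32 (α m2) (m2 β W0) ≤ 32 (16 Kc/K) (2 Kc) = 1024 Kc^2/K ≤ ε/4`
(`m2 β W0 ≤ 2 Kc`).
-/

set_option autoImplicit false

open Finset Pool.Agent.H15.RU

namespace Pool.Agent.H15.RV

theorem N3_exp {y : ℝ} (hy : 0 < y) : Real.exp (-y) ≤ 1 / y := by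
  rw [Real.exp_neg, ← one_div]
  apply one_div_le_one_div_of_le hy
  have := Real.add_one_le_exp y
  linarith

theorem N3_low {a : ℝ} {m : ℕ} (h0 : 0 < a) (h1 : a ≤ 1 / 16) (h2 : (m : ℝ) * a * a ≤ 1 / 2) :
    Real.exp (-(m * a)) ≤ 2 * (1 - a) ^ m := by
  have hq : 0 < 1 - a := by linarith
  have h3 : Real.exp (-(a / (1 - a))) ≤ 1 - a := by
    have h4 := Real.add_one_le_exp (a / (1 - a))
    have h5 : a / (1 - a) + 1 = (1 - a)⁻¹ := by
      field_simp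
      ring
    rw [h5] at h4
    rw [Real.exp_neg]
    exact inv_le_of_inv_le₀ hq h4
  have h6 : Real.exp (-(a / (1 - a))) ^ m ≤ (1 - a) ^ m :=
    pow_le_pow_left₀ (Real.exp_pos _).le h3 m
  rw [← Real.exp_nat_mul] at h6
  have h7 : (m : ℝ) * -(a / (1 - a)) = -(m * a) + -(m * a * a / (1 - a)) := by
    field_simp
    ring
  rw [h7, Real.exp_add] at h6
  have h8 : m * a * a / (1 - a) ≤ 8 / 15 := by
    rw [div_le_iff₀ hq]
    linarith
  have h9 : 1 / 2 ≤ Real.exp (-(m * a * a / (1 - a))) := by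
    have h10 : Real.exp (-Real.log 2) ≤ Real.exp (-(m * a * a / (1 - a))) := by
      apply Real.exp_le_exp.2
      have := Real.log_two_gt_d9
      linarith
    rw [Real.exp_neg, Real.exp_log (by norm_num)] at h10
    linarith
  have h11 := Real.exp_pos (-(m * a))
  nlinarith

/-- The numerical part, with real parameters. -/
theorem N3_core {ε Kc K n a b p w mn e u m2 : ℝ} (hε : 0 < ε) (hKc : 1 ≤ Kc)
    (hKce : Real.exp (-(Kc / 4)) ≤ ε / 4) (hK1 : 64 / ε ≤ K) (hK2 : 64 * Kc ≤ K)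
    (hK3 : 4096 * Kc ^ 2 / ε ≤ K) (hn : 0 < n) (ha : 0 < a) (hb : 0 < b)
    (hp : 0 < p) (hpa : p * a ≤ b) (he : 0 < e) (hmn : 0 < mn) (hw : w = e * mn)
    (h1 : K ≤ n * e) (h2 : K ≤ n * mn) (h3 : K ≤ n * (n * p) * w)
    (hm2 : Kc / (b * (n ^ 2 * w / 8)) ≤ m2) (hm2' : m2 ≤ 2 * (Kc / (b * (n ^ 2 * w / 8))))
    (hu1 : e ≤ 2 * u) (hu2 : u ≤ 2 * e) (hv1 : mn ≤ 4 * (1 - u)) (hv2 : 1 - u ≤ mn) :
    4 / (n * u) + 4 / (n * (1 - u)) + Real.exp (-(m2 * (b * (n ^ 2 * (u * (1 - u)) / 4)))) +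
      2 * m2 ^ 2 * (a * b) * (n ^ 2 * (u * (1 - u))) ≤ ε := by
  have hw0 : 0 < w := by rw [hw]; positivity
  have hK0 : 0 < K := by linarith
  have hu0 : 0 < u := by linarith
  have hv0 : 0 < 1 - u := by linarith
  obtain ⟨W, hW⟩ : ∃ W, W = n ^ 2 * w / 8 := ⟨_, rfl⟩
  have hW0 : 0 < W := by rw [hW]; positivity
  rw [← hW] at hm2 hm2'
  have hbW : 0 < b * W := by positivity
  have hm0 : 0 < m2 := lt_of_lt_of_le (by positivity) hm2
  have hR1 : Kc ≤ m2 * (b * W) := by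
    rwa [div_le_iff₀ hbW] at hm2
  have hR2 : m2 * (b * W) ≤ 2 * Kc := by
    have h := mul_le_mul_of_nonneg_right hm2' hbW.le
    have e1 : 2 * (Kc / (b * W)) * (b * W) = 2 * Kc := by field_simp
    linarith
  -- `a m2 K ≤ 16 Kc`
  have hA : a * m2 * K ≤ 16 * Kc := by
    have h4 : K ≤ 8 * p * W := by
      have e1 : n * (n * p) * w = 8 * p * W := by rw [hW]; ring
      linarith
    calc a * m2 * K ≤ a * m2 * (8 * p * W) := mul_le_mul_of_nonneg_left h4 (by positivity)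
      _ = 8 * (m2 * (p * a * W)) := by ring
      _ ≤ 8 * (m2 * (b * W)) := by
        apply mul_le_mul_of_nonneg_left _ (by norm_num)
        apply mul_le_mul_of_nonneg_left _ hm0.le
        exact mul_le_mul_of_nonneg_right hpa hW0.le
      _ ≤ 16 * Kc := by linarith
  have hq1 : w / 8 ≤ u * (1 - u) := by
    rw [hw]
    have h5 : e / 2 * (mn / 4) ≤ u * (1 - u) :=
      mul_le_mul (by linarith) (by linarith) (by positivity) hu0.le
    linarith
  have hq2 : u * (1 - u) ≤ 2 * w := by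
    rw [hw]
    have h5 : u * (1 - u) ≤ 2 * e * mn := mul_le_mul hu2 hv2 hv0.le (by positivity)
    linarith
  have T1 : 4 / (n * u) ≤ ε / 4 := by
    rw [div_le_iff₀ (by positivity)]
    have h5 : 64 ≤ K * ε := by rwa [div_le_iff₀ hε] at hK1
    have h6 : K * ε ≤ n * e * ε := mul_le_mul_of_nonneg_right h1 hε.le
    have h7 : n * e * ε ≤ n * (2 * u) * ε :=
      mul_le_mul_of_nonneg_right (mul_le_mul_of_nonneg_left hu1 hn.le) hε.le
    nlinarith
  have T2 : 4 / (n * (1 - u)) ≤ ε / 4 := by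
    rw [div_le_iff₀ (by positivity)]
    have h5 : 64 ≤ K * ε := by rwa [div_le_iff₀ hε] at hK1
    have h6 : K * ε ≤ n * mn * ε := mul_le_mul_of_nonneg_right h2 hε.le
    have h7 : n * mn * ε ≤ n * (4 * (1 - u)) * ε :=
      mul_le_mul_of_nonneg_right (mul_le_mul_of_nonneg_left hv1 hn.le) hε.le
    nlinarith
  have T3 : Real.exp (-(m2 * (b * (n ^ 2 * (u * (1 - u)) / 4)))) ≤ ε / 4 := by
    refine le_trans (Real.exp_le_exp.2 ?_) hKce
    apply neg_le_neg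
    have h5 : m2 * (b * (n ^ 2 * (w / 8) / 4)) ≤ m2 * (b * (n ^ 2 * (u * (1 - u)) / 4)) := by
      apply mul_le_mul_of_nonneg_left _ hm0.le
      apply mul_le_mul_of_nonneg_left _ hb.le
      apply div_le_div_of_nonneg_right _ (by norm_num)
      exact mul_le_mul_of_nonneg_left hq1 (by positivity)
    have h6 : m2 * (b * (n ^ 2 * (w / 8) / 4)) = m2 * (b * W) / 4 := by rw [hW]; ring
    linarith
  have T4 : 2 * m2 ^ 2 * (a * b) * (n ^ 2 * (u * (1 - u))) ≤ ε / 4 := by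
    have h5 : 2 * m2 ^ 2 * (a * b) * (n ^ 2 * (u * (1 - u))) ≤
        2 * m2 ^ 2 * (a * b) * (n ^ 2 * (2 * w)) := by
      apply mul_le_mul_of_nonneg_left _ (by positivity)
      exact mul_le_mul_of_nonneg_left hq2 (by positivity)
    have h6 : 2 * m2 ^ 2 * (a * b) * (n ^ 2 * (2 * w)) = 32 * (a * m2) * (m2 * (b * W)) := by
      rw [hW]; ring
    have h7 : 32 * (a * m2) * (m2 * (b * W)) ≤ 32 * (a * m2) * (2 * Kc) :=
      mul_le_mul_of_nonneg_left hR2 (by positivity)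
    have h8 : 4096 * Kc ^ 2 ≤ K * ε := by rwa [div_le_iff₀ hε] at hK3
    -- `64 a m2 Kc ≤ 1024 Kc^2 / K ≤ ε / 4`
    have h9 : 32 * (a * m2) * (2 * Kc) * K ≤ ε / 4 * K := by
      have h10 : 64 * Kc * (a * m2 * K) ≤ 64 * Kc * (16 * Kc) :=
        mul_le_mul_of_nonneg_left hA (by positivity)
      nlinarith
    have h11 := le_of_mul_le_mul_right h9 hK0
    linarith
  linarith

theorem choose_m2 {ε : ℝ} (hε : 0 < ε) :
    ∃ (K : ℝ) (N : ℕ), 1 ≤ K ∧ ∀ n ≥ N, ∀ (m : ℕ) (p x : ℝ), 0 < p → n * p ≤ Real.log n / 8 →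
      x = m * al n p → x ≤ Real.log n → K ≤ n * Real.exp (-x) → K ≤ n * min 1 x →
      K ≤ n * (n * p) * (Real.exp (-x) * min 1 x) →
      K ≤ n * (n * p) * (Real.exp (-x) * min 1 x) * x →
      ∃ (m1 m2 : ℕ) (u : ℝ), m1 + m2 = m ∧ u = (1 - al n p) ^ m1 ∧ u < 1 ∧
        4 / (n * u) + 4 / (n * (1 - u)) +
          Real.exp (-(m2 * (be n p * ((n : ℝ) ^ 2 * (u * (1 - u)) / 4)))) +
          2 * (m2 : ℝ) ^ 2 * (al n p * be n p) * ((n : ℝ) ^ 2 * (u * (1 - u))) ≤ ε := by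
  obtain ⟨N, hN⟩ := basic_num
  obtain ⟨Kc, hKcd⟩ : ∃ Kc, Kc = max 1 (16 / ε) := ⟨_, rfl⟩
  have hKc1 : 1 ≤ Kc := by rw [hKcd]; exact le_max_left _ _
  have hKc2 : 16 / ε ≤ Kc := by rw [hKcd]; exact le_max_right _ _
  have hKce : Real.exp (-(Kc / 4)) ≤ ε / 4 := by
    refine (N3_exp (by linarith)).trans ?_
    rw [div_le_iff₀ hε] at hKc2
    rw [div_le_iff₀ (by linarith)]
    nlinarith
  obtain ⟨K, hKd⟩ : ∃ K, K = max (max 1 (64 / ε)) (max (64 * Kc) (4096 * Kc ^ 2 / ε)) :=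
    ⟨_, rfl⟩
  have hKa : 1 ≤ K := by rw [hKd]; exact (le_max_left _ _).trans (le_max_left _ _)
  have hKb : 64 / ε ≤ K := by rw [hKd]; exact (le_max_right _ _).trans (le_max_left _ _)
  have hKc : 64 * Kc ≤ K := by rw [hKd]; exact (le_max_left _ _).trans (le_max_right _ _)
  have hKe : 4096 * Kc ^ 2 / ε ≤ K := by rw [hKd]; exact (le_max_right _ _).trans (le_max_right _ _)
  refine ⟨K, max N 1, hKa, fun n hn m p x hp hnp hx hxl h1 h2 h3 h4 => ?_⟩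
  have hn1 : 1 ≤ n := (le_max_right _ _).trans hn
  have hnR : (0 : ℝ) < n := by exact_mod_cast hn1
  obtain ⟨hp16, ha, hap, -, hb, hpa, hb1, hla⟩ := hN n ((le_max_left _ _).trans hn) p hp hnp
  obtain ⟨a, had⟩ : ∃ a, a = al n p := ⟨_, rfl⟩
  obtain ⟨b, hbd⟩ : ∃ b, b = be n p := ⟨_, rfl⟩
  rw [← had] at ha hap hpa hla hx
  rw [← hbd] at hb hpa hb1
  rw [← had, ← hbd]
  obtain ⟨e, hed⟩ : ∃ e, e = Real.exp (-x) := ⟨_, rfl⟩
  obtain ⟨mn, hmnd⟩ : ∃ mn, mn = min 1 x := ⟨_, rfl⟩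
  rw [← hed] at h1 h3 h4
  rw [← hmnd] at h2 h3 h4
  have hmn : 0 < mn := by
    by_contra hc
    push Not at hc
    have := mul_nonpos_of_nonneg_of_nonpos hnR.le hc
    linarith
  have hmn1 : mn ≤ 1 := by rw [hmnd]; exact min_le_left _ _
  have hmnx : mn ≤ x := by rw [hmnd]; exact min_le_right _ _
  have hx0 : 0 < x := by linarith
  have he0 : 0 < e := by rw [hed]; exact Real.exp_pos _
  have he1 : e ≤ 1 := by
    rw [hed, ← Real.exp_zero]
    apply Real.exp_le_exp.2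
    linarith
  obtain ⟨w, hw⟩ : ∃ w, w = e * mn := ⟨_, rfl⟩
  rw [← hw] at h3 h4
  have hw0 : 0 < w := by rw [hw]; positivity
  have hw1 : w ≤ 1 := by
    rw [hw]
    exact mul_le_one₀ he1 hmn.le hmn1
  obtain ⟨W, hW⟩ : ∃ W : ℝ, W = (n : ℝ) ^ 2 * w / 8 := ⟨_, rfl⟩
  have hW0 : 0 < W := by rw [hW]; positivity
  have hbW : 0 < b * W := by positivity
  have hbW1 : b * W ≤ 1 / 8 := by
    have h5 : (n : ℝ) ^ 2 * b * w ≤ 1 * 1 := mul_le_mul hb1 hw1 hw0.le (by norm_num)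
    have e1 : b * W = (n : ℝ) ^ 2 * b * w / 8 := by rw [hW]; ring
    linarith
  obtain ⟨R, hR⟩ : ∃ R, R = Kc / (b * W) := ⟨_, rfl⟩
  have hR1 : 1 ≤ R := by
    rw [hR, le_div_iff₀ hbW]
    linarith
  obtain ⟨m2, hm2⟩ : ∃ m2 : ℕ, m2 = ⌈R⌉₊ := ⟨_, rfl⟩
  have hm2a : R ≤ m2 := by rw [hm2]; exact Nat.le_ceil R
  have hm2b : (m2 : ℝ) ≤ 2 * R := by
    have h5 := Nat.ceil_lt_add_one (show 0 ≤ R by linarith)
    rw [← hm2] at h5
    linarith
  have hRb : R * (b * W) = Kc := by rw [hR]; field_simp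
  -- `2 m2 ≤ m`
  have hm : 2 * (m2 : ℝ) ≤ m := by
    have e1 : (n : ℝ) * (n * p) * w = 8 * p * W := by rw [hW]; ring
    have h5 : 4 * R * (p * a * W) ≤ 4 * Kc := by
      have h6 : 4 * R * (p * a * W) ≤ 4 * R * (b * W) :=
        mul_le_mul_of_nonneg_left (mul_le_mul_of_nonneg_right hpa hW0.le) (by linarith)
      have e2 : 4 * R * (b * W) = 4 * (R * (b * W)) := by ring
      linarith
    have h7 : 8 * Kc ≤ (m : ℝ) * (p * a * W) := by
      rw [e1, hx] at h4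
      have e3 : 8 * p * W * (m * a) = 8 * (m * (p * a * W)) := by ring
      linarith
    have h8 : 2 * (m2 : ℝ) * (p * a * W) ≤ m * (p * a * W) := by
      have h9 : 2 * (m2 : ℝ) * (p * a * W) ≤ 4 * R * (p * a * W) :=
        mul_le_mul_of_nonneg_right (by linarith) (by positivity)
      linarith
    exact le_of_mul_le_mul_right h8 (by positivity)
  have hmle : m2 ≤ m := by
    have h5 : (m2 : ℝ) ≤ m := by
      have : (0 : ℝ) ≤ m2 := Nat.cast_nonneg _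
      linarith
    exact_mod_cast h5
  obtain ⟨m1, hm1⟩ : ∃ m1 : ℕ, m1 = m - m2 := ⟨_, rfl⟩
  have hm1R : (m1 : ℝ) = m - m2 := by
    rw [hm1, Nat.cast_sub hmle]
  -- `a m2 ≤ 1 / 4`
  have hA : a * m2 ≤ 1 / 4 := by
    have e1 : (n : ℝ) * (n * p) * w = 8 * p * W := by rw [hW]; ring
    rw [e1] at h3
    have h5 : a * m2 * K ≤ 16 * Kc := by
      calc a * m2 * K ≤ a * m2 * (8 * p * W) := mul_le_mul_of_nonneg_left h3 (by positivity)
        _ = 8 * (m2 * (p * a * W)) := by ring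
        _ ≤ 8 * (2 * R * (b * W)) := by
          apply mul_le_mul_of_nonneg_left _ (by norm_num)
          exact mul_le_mul hm2b (mul_le_mul_of_nonneg_right hpa hW0.le) (by positivity)
            (by linarith)
        _ = 16 * (R * (b * W)) := by ring
        _ = 16 * Kc := by rw [hRb]
    have h6 : a * m2 * K ≤ 1 / 4 * K := by linarith
    exact le_of_mul_le_mul_right h6 (by linarith)
  obtain ⟨u, hu⟩ : ∃ u, u = (1 - a) ^ m1 := ⟨_, rfl⟩
  have ha16 : a ≤ 1 / 16 := by linarith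
  have ha1 : 0 ≤ 1 - a := by linarith
  have hxa : (m : ℝ) * a * a ≤ 1 / 2 := by
    rw [← hx]
    have : x * a ≤ Real.log n * a := mul_le_mul_of_nonneg_right hxl ha.le
    linarith
  have hu1 : e ≤ 2 * u := by
    have h5 := N3_low ha ha16 hxa
    rw [← hx, ← hed] at h5
    have h6 : (1 - a) ^ m ≤ (1 - a) ^ m1 :=
      pow_le_pow_of_le_one ha1 (by linarith) (by omega)
    rw [← hu] at h6
    linarith
  have hux : u ≤ Real.exp (-(a * m1)) := by
    rw [hu]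
    exact pow_le_exp (by linarith) m1
  have hu2 : u ≤ 2 * e := by
    refine hux.trans ?_
    have e1 : -(a * m1) = -x + a * m2 := by rw [hx, hm1R]; ring
    rw [e1, Real.exp_add, ← hed]
    have h5 : Real.exp (a * m2) ≤ 2 := by
      have h6 : Real.exp (a * m2) ≤ Real.exp (Real.log 2) := by
        apply Real.exp_le_exp.2
        have := Real.log_two_gt_d9
        linarith
      rwa [Real.exp_log (by norm_num)] at h6
    nlinarith
  have hv1 : mn ≤ 4 * (1 - u) := by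
    have h5 : u ≤ Real.exp (-(x / 2)) := by
      refine hux.trans (Real.exp_le_exp.2 ?_)
      apply neg_le_neg
      rw [hx, hm1R]
      nlinarith
    have h6 : Real.exp (-(x / 2)) ≤ 1 / (1 + x / 2) := by
      rw [Real.exp_neg, ← one_div]
      apply one_div_le_one_div_of_le (by linarith)
      have := Real.add_one_le_exp (x / 2)
      linarith
    have h7 : 1 / (1 + x / 2) ≤ 1 - mn / 4 := by
      rw [div_le_iff₀ (by linarith)]
      nlinarith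
    linarith
  have hv2 : 1 - u ≤ mn := by
    rw [hmnd]
    apply le_min
    · have : 0 ≤ u := by rw [hu]; positivity
      linarith
    · have h5 := one_add_mul_le_pow (show (-2 : ℝ) ≤ -a by linarith) m1
      have e1 : 1 + -a = 1 - a := by ring
      rw [e1, ← hu] at h5
      have h6 : (m1 : ℝ) * a ≤ x := by
        rw [hx]
        apply mul_le_mul_of_nonneg_right _ ha.le
        rw [hm1R]
        have : (0 : ℝ) ≤ m2 := Nat.cast_nonneg _
        linarith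
      linarith
  refine ⟨m1, m2, u, by omega, hu, by linarith, ?_⟩
  rw [hR, hW] at hm2a hm2b
  exact N3_core hε hKc1 hKce hKb hKc hKe hnR ha hb hp hpa he0 hmn hw h1 h2 h3 hm2a hm2b
    hu1 hu2 hv1 hv2

end Pool.Agent.H15.RV
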