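import Pool.Agent.H15.RV.Sb

/-!
# Row Qa: first moment for triples of rows

Proof. If `fam M` is not good then by `good_of_pairs` there are `i, j, k` with `M i, M j, M k` pairwise different,
`M i ∩ M j ≠ ∅` and `M k` meets `M i` or `M j`; by symmetry (exchange `i` and `j`) `M k ∩ M i ≠ ∅`, so for some ordered triple of
different indices `i, j, k` with pairwise different rows: `x ∈ M i ∩ M j`, `y ∈ M k ∩ M i`. If `x ≠ y`: the event
`x ∈ M i, x ∈ M j, y ∈ M k, y ∈ M i` has probability `p^4`. If `x = y` then `x` is in all three rows; as `M i ≠ M j` there is `w` in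
exactly one of `M i, M j`, so `w ≠ x` and `w ∈ M i` or `w ∈ M j`: the event `x ∈ M i, M j, M k`, `w ∈ M i` (or `w ∈ M j`) has probability
`p^4`. Number of events: at most `m^3 n^2` of each of the three kinds. So the probability is at most `3 m^3 n^2 p^4` (we only need
5). `Pr_exists` over `(Fin m × Fin m × Fin m) × (Fin n × Fin n)`.
The probability of a conjunction of four conditions `x_a ∈ M i_a` with four different pairs `(i_a, x_a)`: write the indicator as
`∏ x, ∏ i` or as a product over the rows of indicators `[T i ⊆ M i]` (`Ex_prod`), with `∑ E, wr p E * [T ⊆ E] = p ^ T.card`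
(`sum_wr_prod` with `a = 1`, `b = 0` on `T` and 1 elsewhere), `∑ i, (T i).card = 4`.
-/

set_option autoImplicit false

open Finset Pool.Agent.H15.RU

namespace Pool.Agent.H15.RV

theorem Qa_one {n : ℕ} {p : ℝ} (T : Finset (Fin n)) :
    ∑ E : Finset (Fin n), wr p E * (if T ⊆ E then (1 : ℝ) else 0) = p ^ T.card := by
  have h := sum_wr_prod (p := p) (fun _ : Fin n => (1 : ℝ)) (fun x => if x ∈ T then 0 else 1)
  have e1 : ∀ E : Finset (Fin n), (∏ x, (if x ∈ E then (1 : ℝ) else if x ∈ T then 0 else 1)) =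
      if T ⊆ E then 1 else 0 := by
    intro E
    by_cases hTE : T ⊆ E
    · rw [if_pos hTE]
      refine Finset.prod_eq_one fun x _ => ?_
      by_cases hx : x ∈ E
      · rw [if_pos hx]
      · rw [if_neg hx, if_neg fun h => hx (hTE h)]
    · rw [if_neg hTE]
      rw [Finset.not_subset] at hTE
      obtain ⟨x, hxT, hxE⟩ := hTE
      refine Finset.prod_eq_zero (Finset.mem_univ x) ?_
      rw [if_neg hxE, if_pos hxT]
  have e2 : ∏ x : Fin n, (p * 1 + (1 - p) * (if x ∈ T then (0 : ℝ) else 1)) = p ^ T.card := by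
    have h3 : ∀ x : Fin n, (p * 1 + (1 - p) * (if x ∈ T then (0 : ℝ) else 1)) =
        if x ∈ T then p else 1 := by
      intro x
      split_ifs <;> ring
    rw [Finset.prod_congr rfl fun x _ => h3 x, Finset.prod_ite, Finset.prod_const_one, mul_one,
      Finset.prod_const]
    congr 2
    ext x
    simp
  rw [e2] at h
  rw [← h]
  exact Finset.sum_congr rfl fun E _ => by rw [e1]

theorem Qa_sub {m n : ℕ} {p : ℝ} (T : Fin m → Finset (Fin n)) :
    Pr p (fun M : Mat m n => ∀ i, T i ⊆ M i) = p ^ ∑ i, (T i).card := by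
  classical
  rw [Pr_eq]
  have e : (fun M : Mat m n => if ∀ i, T i ⊆ M i then (1 : ℝ) else 0) =
      fun M : Mat m n => ∏ i, (if T i ⊆ M i then (1 : ℝ) else 0) := by
    funext M
    by_cases h : ∀ i, T i ⊆ M i
    · rw [if_pos h]
      exact (Finset.prod_eq_one fun i _ => by rw [if_pos (h i)]).symm
    · rw [if_neg h]
      push Not at h
      obtain ⟨i, hi⟩ := h
      exact (Finset.prod_eq_zero (Finset.mem_univ i) (by rw [if_neg hi])).symm
  rw [e, Ex_prod (fun i E => if T i ⊆ E then (1 : ℝ) else 0), Finset.prod_congr rfl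
    (fun i _ => Qa_one (p := p) (T i)), Finset.prod_pow_eq_pow_sum]

theorem Qa_prob {m n : ℕ} {p : ℝ} {i j k : Fin m} (hij : i ≠ j) (hik : i ≠ k) (hjk : j ≠ k)
    {x y : Fin n} (hxy : x ≠ y) (z : Fin n) :
    Pr p (fun M : Mat m n => x ∈ M i ∧ y ∈ M i ∧ x ∈ M j ∧ z ∈ M k) = p ^ 4 := by
  classical
  let T : Fin m → Finset (Fin n) := fun l =>
    if l = i then {x, y} else if l = j then {x} else if l = k then {z} else ∅
  have hTi : T i = {x, y} := if_pos rfl
  have hTj : T j = {x} := by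
    change (if j = i then _ else if j = j then _ else _) = _
    rw [if_neg hij.symm, if_pos rfl]
  have hTk : T k = {z} := by
    change (if k = i then _ else if k = j then _ else if k = k then _ else _) = _
    rw [if_neg hik.symm, if_neg hjk.symm, if_pos rfl]
  have hsum : ∑ l, (T l).card = 4 := by
    have h1 : ∀ l, (T l).card = (if l = i then 2 else 0) + (if l = j then 1 else 0) +
        (if l = k then 1 else 0) := by
      intro l
      by_cases h1 : l = i
      · subst h1
        rw [hTi, Finset.card_pair hxy, if_pos rfl, if_neg hij, if_neg hik]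
      · by_cases h2 : l = j
        · subst h2
          rw [hTj, Finset.card_singleton, if_neg h1, if_pos rfl, if_neg hjk]
        · by_cases h3 : l = k
          · subst h3
            rw [hTk, Finset.card_singleton, if_neg h1, if_neg h2, if_pos rfl]
          · change (if l = i then _ else if l = j then _ else if l = k then _ else
              (∅ : Finset (Fin n))).card = _
            rw [if_neg h1, if_neg h2, if_neg h3, if_neg h1, if_neg h2, if_neg h3]
            rfl
    rw [Finset.sum_congr rfl fun l _ => h1 l, Finset.sum_add_distrib, Finset.sum_add_distrib,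
      Finset.sum_ite_eq', Finset.sum_ite_eq', Finset.sum_ite_eq', if_pos (Finset.mem_univ _),
      if_pos (Finset.mem_univ _), if_pos (Finset.mem_univ _)]
  have e : (fun M : Mat m n => x ∈ M i ∧ y ∈ M i ∧ x ∈ M j ∧ z ∈ M k) =
      fun M : Mat m n => ∀ l, T l ⊆ M l := by
    funext M
    apply propext
    constructor
    · rintro ⟨h1, h2, h3, h4⟩ l
      by_cases hi : l = i
      · subst hi
        rw [hTi, Finset.insert_subset_iff, Finset.singleton_subset_iff]
        exact ⟨h1, h2⟩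
      · by_cases hj : l = j
        · subst hj
          rw [hTj, Finset.singleton_subset_iff]
          exact h3
        · by_cases hk : l = k
          · subst hk
            rw [hTk, Finset.singleton_subset_iff]
            exact h4
          · change (if l = i then _ else if l = j then _ else if l = k then _ else
              (∅ : Finset (Fin n))) ⊆ _
            rw [if_neg hi, if_neg hj, if_neg hk]
            exact Finset.empty_subset _
    · intro h
      have h1 := h i
      have h2 := h j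
      have h3 := h k
      rw [hTi, Finset.insert_subset_iff, Finset.singleton_subset_iff] at h1
      rw [hTj, Finset.singleton_subset_iff] at h2
      rw [hTk, Finset.singleton_subset_iff] at h3
      exact ⟨h1.1, h1.2, h2, h3⟩
  rw [e, Qa_sub, hsum]

/-- the deterministic part: three rows and two points -/
theorem Qa_det {m n : ℕ} {M : Mat m n} (h : ¬ Good (fam M)) :
    ∃ (i j k : Fin m) (x y : Fin n), i ≠ j ∧ i ≠ k ∧ j ≠ k ∧ x ≠ y ∧
      ((x ∈ M i ∧ y ∈ M i ∧ x ∈ M j ∧ y ∈ M k) ∨ (x ∈ M i ∧ y ∈ M i ∧ x ∈ M j ∧ x ∈ M k)) := by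
  have h1 : ∃ i j k, M i ≠ M j ∧ ¬ Disjoint (M i) (M j) ∧ M k ≠ M i ∧ M k ≠ M j ∧
      ¬ Disjoint (M k) (M i) := by
    by_contra hc
    apply h
    apply good_of_pairs
    intro i j k hij hd hki hkj
    by_contra hn
    rw [not_and_or] at hn
    rcases hn with hn | hn
    · exact hc ⟨i, j, k, hij, hd, hki, hkj, hn⟩
    · exact hc ⟨j, i, k, hij.symm, fun h' => hd h'.symm, hkj, hki, hn⟩
  obtain ⟨i, j, k, hij, hd, hki, hkj, hn⟩ := h1
  have nij : i ≠ j := fun e => hij (by rw [e])
  have nik : i ≠ k := fun e => hki (by rw [e])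
  have njk : j ≠ k := fun e => hkj (by rw [e])
  obtain ⟨x, hxi, hxj⟩ := Finset.not_disjoint_iff.mp hd
  obtain ⟨y, hyk, hyi⟩ := Finset.not_disjoint_iff.mp hn
  by_cases hxy : x = y
  · subst hxy
    -- a point in exactly one of the two rows
    have hw : ∃ w, ¬ (w ∈ M i ↔ w ∈ M j) := by
      by_contra hc
      push Not at hc
      exact hij (Finset.ext hc)
    obtain ⟨w, hw⟩ := hw
    have hwx : x ≠ w := by
      rintro rfl
      exact hw ⟨fun _ => hxj, fun _ => hxi⟩
    by_cases hwi : w ∈ M i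
    · exact ⟨i, j, k, x, w, nij, nik, njk, hwx, Or.inr ⟨hxi, hwi, hxj, hyk⟩⟩
    · have hwj : w ∈ M j := by
        by_contra hwj
        exact hw ⟨fun h' => absurd h' hwi, fun h' => absurd h' hwj⟩
      exact ⟨j, i, k, x, w, nij.symm, njk, nik, hwx, Or.inr ⟨hxj, hwj, hxi, hyk⟩⟩
  · exact ⟨i, j, k, x, y, nij, nik, njk, hxy, Or.inl ⟨hxi, hyi, hxj, hyk⟩⟩

theorem Pr_Qa {m n : ℕ} {p : ℝ} (h0 : 0 ≤ p) (h1 : p ≤ 1) :
    Pr p (fun M : Mat m n => ¬ Good (fam M)) ≤ 5 * ((m : ℝ) ^ 3 * (n : ℝ) ^ 2 * p ^ 4) := by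
  classical
  let s : Finset ((Fin m × Fin m × Fin m) × (Fin n × Fin n)) :=
    univ.filter fun q => q.1.1 ≠ q.1.2.1 ∧ q.1.1 ≠ q.1.2.2 ∧ q.1.2.1 ≠ q.1.2.2 ∧ q.2.1 ≠ q.2.2
  let P : ((Fin m × Fin m × Fin m) × (Fin n × Fin n)) → Mat m n → Prop := fun q M =>
    (q.2.1 ∈ M q.1.1 ∧ q.2.2 ∈ M q.1.1 ∧ q.2.1 ∈ M q.1.2.1 ∧ q.2.2 ∈ M q.1.2.2) ∨
      (q.2.1 ∈ M q.1.1 ∧ q.2.2 ∈ M q.1.1 ∧ q.2.1 ∈ M q.1.2.1 ∧ q.2.1 ∈ M q.1.2.2)
  have hle : ∀ q ∈ s, Pr p (P q) ≤ 2 * p ^ 4 := by
    intro q hq
    obtain ⟨-, h2, h3, h4, h5⟩ := Finset.mem_filter.mp hq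
    refine (Pr_or h0 h1 _ _).trans ?_
    rw [Qa_prob h2 h3 h4 h5, Qa_prob h2 h3 h4 h5]
    linarith
  have hcard : (s.card : ℝ) ≤ (m : ℝ) ^ 3 * (n : ℝ) ^ 2 := by
    have h2 : s.card ≤ m ^ 3 * n ^ 2 := by
      refine (Finset.card_filter_le _ _).trans (le_of_eq ?_)
      rw [Finset.card_univ, Fintype.card_prod, Fintype.card_prod, Fintype.card_prod,
        Fintype.card_prod, Fintype.card_fin, Fintype.card_fin]
      ring
    exact_mod_cast h2
  have hp4 : 0 ≤ p ^ 4 := pow_nonneg h0 4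
  calc Pr p (fun M : Mat m n => ¬ Good (fam M))
      ≤ Pr p (fun M : Mat m n => ∃ q ∈ s, P q M) := by
        refine Pr_mono h0 h1 fun M hM => ?_
        obtain ⟨i, j, k, x, y, h2, h3, h4, h5, h6⟩ := Qa_det hM
        exact ⟨((i, j, k), (x, y)), Finset.mem_filter.mpr ⟨Finset.mem_univ _, h2, h3, h4, h5⟩, h6⟩
    _ ≤ ∑ q ∈ s, Pr p (P q) := Pr_exists h0 h1 s P
    _ ≤ ∑ _q ∈ s, 2 * p ^ 4 := Finset.sum_le_sum hle
    _ = (s.card : ℝ) * (2 * p ^ 4) := by rw [Finset.sum_const, nsmul_eq_mul]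
    _ ≤ ((m : ℝ) ^ 3 * (n : ℝ) ^ 2) * (2 * p ^ 4) := mul_le_mul_of_nonneg_right hcard (by positivity)
    _ ≤ 5 * ((m : ℝ) ^ 3 * (n : ℝ) ^ 2 * p ^ 4) := by
        have : 0 ≤ (m : ℝ) ^ 3 * (n : ℝ) ^ 2 * p ^ 4 := by positivity
        linarith

end Pool.Agent.H15.RV
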