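import Pool.Agent.H15.RV.Sa
import Pool.Agent.H15.RV.Qa

/-!
# Row Qb: first moment for pairs of rows with at least two points

Proof. If `fam M` is not good then by `good_of_sg` there are `i, j` with `M i`, `M j` disjoint from `sg M`, `M i ≠ M j` and
`x ∈ M i ∩ M j`. A row with exactly one point is not disjoint from `sg M`, so both rows have at least two points: there are
`y ∈ M i`, `y ≠ x` and `z ∈ M j`, `z ≠ x`. For `i ≠ j`, `y ≠ x`, `z ≠ x` the event `x ∈ M i, y ∈ M i, x ∈ M j, z ∈ M j` has
probability `p^4` (`Qa_sub` with `T i = {x, y}`, `T j = {x, z}`, `T = ∅` elsewhere), and there are at most `m^2 n^3` of them (`Pr_exists`).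
-/

set_option autoImplicit false

open Finset Pool.Agent.H15.RU

namespace Pool.Agent.H15.RV

theorem Pr_Qb {m n : ℕ} {p : ℝ} (h0 : 0 ≤ p) (h1 : p ≤ 1) :
    Pr p (fun M : Mat m n => ¬ Good (fam M)) ≤ (m : ℝ) ^ 2 * (n : ℝ) ^ 3 * p ^ 4 := by
  classical
  let Q : (Fin m × Fin m) × (Fin n × Fin n × Fin n) → Mat m n → Prop := fun a M =>
    (a.1.1 ≠ a.1.2 ∧ a.2.2.1 ≠ a.2.1 ∧ a.2.2.2 ≠ a.2.1) ∧
      (a.2.1 ∈ M a.1.1 ∧ a.2.2.1 ∈ M a.1.1) ∧ a.2.1 ∈ M a.1.2 ∧ a.2.2.2 ∈ M a.1.2
  have h2 : Pr p (fun M : Mat m n => ¬ Good (fam M)) ≤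
      Pr p (fun M : Mat m n => ∃ a ∈ (Finset.univ : Finset ((Fin m × Fin m) × (Fin n × Fin n × Fin n))),
        Q a M) := by
    refine Pr_mono h0 h1 fun M hM => ?_
    by_contra hcon
    push Not at hcon
    apply hM
    apply good_of_sg
    intro i j hi hj
    by_contra hij
    push Not at hij
    obtain ⟨hne, hnd⟩ := hij
    obtain ⟨x, hxi, hxj⟩ := Finset.not_disjoint_iff.1 hnd
    have key : ∀ k, Disjoint (M k) (sg M) → x ∈ M k → ∃ y ∈ M k, y ≠ x := by
      intro k hk hx
      by_contra hc
      push Not at hc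
      have h3 : M k = {x} := by
        apply Finset.eq_singleton_iff_unique_mem.2
        exact ⟨hx, hc⟩
      have h4 : x ∈ sg M := by
        unfold sg
        exact Finset.mem_filter.2 ⟨Finset.mem_univ _, k, h3⟩
      exact Finset.disjoint_left.1 hk hx h4
    obtain ⟨y, hy, hyx⟩ := key i hi hxi
    obtain ⟨z, hz, hzx⟩ := key j hj hxj
    exact hcon ((i, j), (x, y, z)) (Finset.mem_univ _)
      ⟨⟨fun h => hne (congrArg M (show i = j from h)), hyx, hzx⟩, ⟨hxi, hy⟩, hxj, hz⟩
  have h3 : ∀ a, Pr p (Q a) ≤ p ^ 4 := by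
    rintro ⟨⟨i, j⟩, ⟨x, y, z⟩⟩
    by_cases hc : i ≠ j ∧ y ≠ x ∧ z ≠ x
    · obtain ⟨hij, hyx, hzx⟩ := hc
      let T : Fin m → Finset (Fin n) := fun l => if l = i then {x, y} else if l = j then {x, z} else ∅
      have hT : ∑ l, (T l).card = 4 := by
        have e : ∀ l, (T l).card = (if l = i then 2 else 0) + (if l = j then 2 else 0) := by
          intro l
          by_cases hl : l = i
          · subst hl
            simp only [T, if_true, if_neg hij]
            rw [Finset.card_pair (Ne.symm hyx)]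
          · by_cases hl2 : l = j
            · subst hl2
              simp only [T, if_neg hl, if_true]
              rw [Finset.card_pair (Ne.symm hzx)]
            · simp [T, hl, hl2]
        simp only [e, Finset.sum_add_distrib, Finset.sum_ite_eq', Finset.mem_univ, if_true]
      have h4 := Qa_sub (p := p) T
      rw [hT] at h4
      rw [← h4]
      refine Pr_mono h0 h1 fun M hM => ?_
      obtain ⟨-, ⟨hx1, hy1⟩, hx2, hz2⟩ := hM
      intro l
      simp only [T]
      split_ifs with hl hl2
      · subst hl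
        intro w hw
        rcases Finset.mem_insert.1 hw with h | h
        · rw [h]; exact hx1
        · rw [Finset.mem_singleton.1 h]; exact hy1
      · subst hl2
        intro w hw
        rcases Finset.mem_insert.1 hw with h | h
        · rw [h]; exact hx2
        · rw [Finset.mem_singleton.1 h]; exact hz2
      · exact Finset.empty_subset _
    · have h5 : Pr p (Q ((i, j), (x, y, z))) ≤ Pr p (fun _ : Mat m n => False) :=
        Pr_mono h0 h1 fun M hM => hc hM.1
      have h6 : Pr p (fun _ : Mat m n => False) = 0 := by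
        rw [Pr_eq]
        simp [Ex]
      rw [h6] at h5
      exact h5.trans (pow_nonneg h0 4)
  refine h2.trans ((Pr_exists h0 h1 _ _).trans ?_)
  refine (Finset.sum_le_sum fun a _ => h3 a).trans ?_
  rw [Finset.sum_const, nsmul_eq_mul, Finset.card_univ]
  simp only [Fintype.card_prod, Fintype.card_fin]
  push_cast
  apply le_of_eq
  ring

end Pool.Agent.H15.RV
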