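import Pool.Agent.H15.RV.Sa

/-!
# Row Qc: rows with two points outside sg M

Proof. Suppose that every row has at most one point outside `sg M`. Then a row disjoint from `sg M` has at most one point, and if it had
exactly one point `z` then `z ∈ sg M`; so it is empty, and `good_of_sg` applies (`∅ = ∅`). Hence if `fam M` is not good, there are
`i` and `y ≠ y'` in `M i`, both not in `sg M`, i.e. no row is `{y}` or `{y'}`. For fixed `i, y ≠ y'` the indicator of this event is at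
most `∏ k, g k (M k)` with `g i E = [y ∈ E ∧ y' ∈ E]`, and for `k ≠ i` `g k E = [E ≠ {y} ∧ E ≠ {y'}]`. By `Ex_prod` the expectation is
`p^2 * (1 - 2 al)^(m-1)`: `∑ E, wr p E * [y ∈ E ∧ y' ∈ E] = p^2` (`sum_wr_prod`), and
`∑ E, wr p E * [E ≠ {y} ∧ E ≠ {y'}] = 1 - wr p {y} - wr p {y'} = 1 - 2 p (1-p)^(n-1)`
(`sum_wr`, `wr p {y} = p^1 (1-p)^(n-1) = al n p`). `Pr_exists` over `Fin m × Fin n × Fin n`.
-/

set_option autoImplicit false

open Finset Pool.Agent.H15.RU

namespace Pool.Agent.H15.RV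

theorem Qc_det {m n : ℕ} {M : Mat m n}
    (h : ∀ i y y', y ∈ M i → y' ∈ M i → y ∉ sg M → y' ∉ sg M → y = y') : Good (fam M) := by
  have he : ∀ i, Disjoint (M i) (sg M) → M i = ∅ := by
    intro i hi
    by_contra hne
    obtain ⟨x, hx⟩ := Finset.nonempty_iff_ne_empty.2 hne
    have hxs : x ∉ sg M := fun hs => (Finset.disjoint_left.1 hi) hx hs
    apply hxs
    unfold sg
    rw [Finset.mem_filter]
    refine ⟨Finset.mem_univ _, i, ?_⟩
    ext z
    rw [Finset.mem_singleton]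
    constructor
    · intro hz
      exact h i z x hz hx (fun hs => (Finset.disjoint_left.1 hi) hz hs) hxs
    · rintro rfl
      exact hx
  refine good_of_sg fun i j hi hj => Or.inl ?_
  rw [he i hi, he j hj]

theorem Qc_sum1 {n : ℕ} {p : ℝ} {y y' : Fin n} (hy : y ≠ y') :
    ∑ E : Finset (Fin n), wr p E * (if y ∈ E ∧ y' ∈ E then (1 : ℝ) else 0) = p ^ 2 := by
  have h := sum_wr_prod (p := p) (fun _ : Fin n => (1 : ℝ))
    (fun x => if x ∈ ({y, y'} : Finset (Fin n)) then 0 else 1)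
  have h1 : ∀ E : Finset (Fin n), ∏ x, (if x ∈ E then (1 : ℝ) else
      if x ∈ ({y, y'} : Finset (Fin n)) then 0 else 1) =
      if y ∈ E ∧ y' ∈ E then (1 : ℝ) else 0 := by
    intro E
    by_cases hE : y ∈ E ∧ y' ∈ E
    · rw [if_pos hE]
      refine Finset.prod_eq_one fun x _ => ?_
      by_cases hx : x ∈ E
      · rw [if_pos hx]
      · rw [if_neg hx, if_neg]
        intro hx2
        rw [Finset.mem_insert, Finset.mem_singleton] at hx2
        rcases hx2 with rfl | rfl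
        · exact hx hE.1
        · exact hx hE.2
    · rw [if_neg hE, not_and_or] at *
      rcases hE with hE | hE
      · refine Finset.prod_eq_zero (Finset.mem_univ y) ?_
        rw [if_neg hE, if_pos (Finset.mem_insert_self _ _)]
      · refine Finset.prod_eq_zero (Finset.mem_univ y') ?_
        rw [if_neg hE, if_pos (Finset.mem_insert_of_mem (Finset.mem_singleton_self _))]
  have h2 : ∏ x : Fin n, (p * 1 + (1 - p) *
      (if x ∈ ({y, y'} : Finset (Fin n)) then (0 : ℝ) else 1)) = p ^ 2 := by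
    have h3 : ∀ x ∈ (Finset.univ : Finset (Fin n)), (p * 1 + (1 - p) *
        (if x ∈ ({y, y'} : Finset (Fin n)) then (0 : ℝ) else 1)) =
        if x ∈ ({y, y'} : Finset (Fin n)) then p else 1 := by
      intro x _
      split_ifs <;> ring
    rw [Finset.prod_congr rfl h3, Finset.prod_ite_mem, Finset.univ_inter, Finset.prod_const,
      Finset.card_pair hy]
  rw [h2] at h
  rw [← h]
  refine Finset.sum_congr rfl fun E _ => ?_
  rw [← h1 E]

theorem Qc_wr {n : ℕ} {p : ℝ} (y : Fin n) : wr p ({y} : Finset (Fin n)) = al n p := by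
  unfold wr al
  rw [Finset.card_singleton, pow_one]

theorem Qc_sum2 {n : ℕ} {p : ℝ} {y y' : Fin n} (hy : y ≠ y') :
    ∑ E : Finset (Fin n), wr p E * (if E ≠ {y} ∧ E ≠ {y'} then (1 : ℝ) else 0) =
      1 - 2 * al n p := by
  have h1 : ∀ E ∈ (Finset.univ : Finset (Finset (Fin n))),
      wr p E * (if E ≠ {y} ∧ E ≠ {y'} then (1 : ℝ) else 0) =
      wr p E - (if E = {y} then wr p E else 0) - (if E = {y'} then wr p E else 0) := by
    intro E _
    by_cases h : E = {y}
    · have h' : E ≠ {y'} := by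
        rw [h]
        intro hs
        exact hy (Finset.singleton_injective hs)
      rw [if_neg (fun hc => hc.1 h), if_pos h, if_neg h']
      ring
    · by_cases h' : E = {y'}
      · rw [if_neg (fun hc => hc.2 h'), if_neg h, if_pos h']
        ring
      · rw [if_pos ⟨h, h'⟩, if_neg h, if_neg h']
        ring
  rw [Finset.sum_congr rfl h1, Finset.sum_sub_distrib, Finset.sum_sub_distrib, sum_wr,
    Finset.sum_ite_eq', Finset.sum_ite_eq', if_pos (Finset.mem_univ _), if_pos (Finset.mem_univ _),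
    Qc_wr, Qc_wr]
  ring

theorem Qc_one {m n : ℕ} {p : ℝ} (h0 : 0 ≤ p) (h1 : p ≤ 1) (i : Fin m) {y y' : Fin n}
    (hy : y ≠ y') :
    Pr p (fun M : Mat m n => y ∈ M i ∧ y' ∈ M i ∧ y ∉ sg M ∧ y' ∉ sg M) ≤
      p ^ 2 * (1 - 2 * al n p) ^ (m - 1) := by
  classical
  obtain ⟨g, hg⟩ : ∃ g : Fin m → Finset (Fin n) → ℝ, g = fun k E =>
    if k = i then (if y ∈ E ∧ y' ∈ E then (1 : ℝ) else 0)
    else (if E ≠ {y} ∧ E ≠ {y'} then (1 : ℝ) else 0) := ⟨_, rfl⟩
  have hg0 : ∀ k E, 0 ≤ g k E := by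
    intro k E
    rw [hg]
    simp only
    split_ifs <;> norm_num
  have h2 : Pr p (fun M : Mat m n => y ∈ M i ∧ y' ∈ M i ∧ y ∉ sg M ∧ y' ∉ sg M) ≤
      Ex p (fun M : Mat m n => ∏ k, g k (M k)) := by
    rw [Pr_eq]
    refine Ex_mono h0 h1 fun M => ?_
    by_cases h : y ∈ M i ∧ y' ∈ M i ∧ y ∉ sg M ∧ y' ∉ sg M
    · rw [if_pos h]
      obtain ⟨a1, a2, a3, a4⟩ := h
      refine (Finset.prod_eq_one fun k _ => ?_).ge
      rw [hg]
      simp only
      by_cases hk : k = i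
      · rw [if_pos hk, if_pos]
        rw [hk]
        exact ⟨a1, a2⟩
      · rw [if_neg hk, if_pos]
        unfold sg at a3 a4
        rw [Finset.mem_filter] at a3 a4
        exact ⟨fun hs => a3 ⟨Finset.mem_univ _, k, hs⟩, fun hs => a4 ⟨Finset.mem_univ _, k, hs⟩⟩
    · rw [if_neg h]
      exact Finset.prod_nonneg fun k _ => hg0 k _
  refine h2.trans (le_of_eq ?_)
  rw [Ex_prod, ← Finset.mul_prod_erase Finset.univ _ (Finset.mem_univ i)]
  have h3 : ∑ E : Finset (Fin n), wr p E * g i E = p ^ 2 := by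
    rw [← Qc_sum1 (p := p) hy]
    refine Finset.sum_congr rfl fun E _ => ?_
    rw [hg]
    show wr p E * (if i = i then _ else _) = _
    rw [if_pos rfl]
  have h4 : ∀ k ∈ Finset.univ.erase i, ∑ E : Finset (Fin n), wr p E * g k E =
      1 - 2 * al n p := by
    intro k hk
    rw [← Qc_sum2 (p := p) hy]
    refine Finset.sum_congr rfl fun E _ => ?_
    rw [hg]
    simp only
    rw [if_neg (Finset.ne_of_mem_erase hk)]
  rw [h3, Finset.prod_congr rfl h4, Finset.prod_const, Finset.card_erase_of_mem (Finset.mem_univ i),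
    Finset.card_univ, Fintype.card_fin]

theorem Qc_al {n : ℕ} {p : ℝ} (h0 : 0 ≤ p) (h1 : p ≤ 1) (hn : 2 ≤ n) : 0 ≤ 1 - 2 * al n p := by
  have h2 : (1 - p) ^ (n - 1) ≤ 1 - p := pow_le_of_le_one (by linarith) (by linarith) (by omega)
  have h3 : al n p ≤ p * (1 - p) := mul_le_mul_of_nonneg_left h2 h0
  nlinarith [sq_nonneg (2 * p - 1)]

theorem Pr_Qc {m n : ℕ} {p : ℝ} (h0 : 0 ≤ p) (h1 : p ≤ 1) (hn : 2 ≤ n) :
    Pr p (fun M : Mat m n => ¬ Good (fam M)) ≤
      m * (n : ℝ) ^ 2 * p ^ 2 * (1 - 2 * al n p) ^ (m - 1) := by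
  classical
  have hB : 0 ≤ p ^ 2 * (1 - 2 * al n p) ^ (m - 1) :=
    mul_nonneg (sq_nonneg _) (pow_nonneg (Qc_al h0 h1 hn) _)
  obtain ⟨Q, hQ⟩ : ∃ Q : Fin m × Fin n × Fin n → Mat m n → Prop, Q = fun t M =>
    t.2.1 ≠ t.2.2 ∧ (t.2.1 ∈ M t.1 ∧ t.2.2 ∈ M t.1 ∧ t.2.1 ∉ sg M ∧ t.2.2 ∉ sg M) := ⟨_, rfl⟩
  have h2 : Pr p (fun M : Mat m n => ¬ Good (fam M)) ≤
      Pr p (fun M : Mat m n => ∃ t ∈ (Finset.univ : Finset (Fin m × Fin n × Fin n)), Q t M) := by
    refine Pr_mono h0 h1 fun M hM => ?_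
    by_contra hcon
    apply hM
    refine Qc_det fun i y y' a1 a2 a3 a4 => ?_
    by_contra hne
    apply hcon
    refine ⟨(i, y, y'), Finset.mem_univ _, ?_⟩
    rw [hQ]
    exact ⟨hne, a1, a2, a3, a4⟩
  have h3 : ∀ t ∈ (Finset.univ : Finset (Fin m × Fin n × Fin n)),
      Pr p (Q t) ≤ p ^ 2 * (1 - 2 * al n p) ^ (m - 1) := by
    intro t _
    by_cases ht : t.2.1 = t.2.2
    · refine le_trans (le_of_eq ?_) hB
      rw [Pr_eq]
      unfold Ex
      refine Finset.sum_eq_zero fun M _ => ?_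
      show wt p M * (if Q t M then 1 else 0) = 0
      rw [if_neg, mul_zero]
      rw [hQ]
      exact fun hc => hc.1 ht
    · refine le_trans (Pr_mono h0 h1 fun M hM => ?_) (Qc_one h0 h1 t.1 ht)
      rw [hQ] at hM
      exact hM.2
  refine (h2.trans (Pr_exists h0 h1 _ Q)).trans ((Finset.sum_le_sum h3).trans (le_of_eq ?_))
  rw [Finset.sum_const, Finset.card_univ, Fintype.card_prod, Fintype.card_prod, Fintype.card_fin,
    Fintype.card_fin, nsmul_eq_mul]
  push_cast
  ring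

end Pool.Agent.H15.RV
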