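import Pool.Agent.H15.RV.Sa

/-!
# Row Qd: the second group of rows for a fixed first group

`Z` is a fixed set of points (later `sg` of the first group), `Y = Zᶜ`. Proofs. `qd_none`: the indicator of no row of `M` is `{y, z}` with
`y ∉ Z`, `z ∈ Z` is `∏ i, [M i is not such a pair]`; by `Ex_prod`, `sum_wr` its expectation is `(1 - β |Z| |Y|)^m`, because the
`|Z| |Y|` sets `{y, z}` are pairwise different and have weight `wr p {y, z} = p^2 (1-p)^(n-2) = be n p = β` each
(`(y, z) ↦ {y, z}` is injective on `Zᶜ ×ˢ Z`). Then `(1 - x)^m ≤ exp (-(m x))` (`pow_le_exp`).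
`qd_both`: union bound (`Pr_exists`) over `(i, k)`, `i ≠ k`, and `(y, z) ∈ Zᶜ ×ˢ Z`: `M i = {y, z}` and `M k = {y}` has probability
`β α` (`Ex_prod`). At most `m^2 |Z| |Y|` events.
-/

set_option autoImplicit false

open Finset Pool.Agent.H15.RU

namespace Pool.Agent.H15.RV

private theorem Qd_inj {n : ℕ} (Z : Finset (Fin n)) :
    Set.InjOn (fun yz : Fin n × Fin n => ({yz.1, yz.2} : Finset (Fin n)))
      ((Zᶜ ×ˢ Z : Finset (Fin n × Fin n)) : Set (Fin n × Fin n)) := by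
  rintro ⟨y, z⟩ h1 ⟨y', z'⟩ h2 h
  rw [mem_coe, mem_product, mem_compl] at h1 h2
  simp only at h1 h2 h
  have hy : y ∈ ({y', z'} : Finset (Fin n)) := by
    rw [← h]
    simp
  have hz : z ∈ ({y', z'} : Finset (Fin n)) := by
    rw [← h]
    simp
  rw [mem_insert, mem_singleton] at hy hz
  have e1 : y = y' := hy.resolve_right fun h3 => h1.1 (by rw [h3]; exact h2.2)
  have e2 : z = z' := hz.resolve_left fun h3 => h2.1 (by rw [← h3]; exact h1.2)
  rw [e1, e2]

private theorem Qd_wr2 {n : ℕ} {p : ℝ} {y z : Fin n} (h : y ≠ z) :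
    wr p ({y, z} : Finset (Fin n)) = be n p := by
  unfold wr be
  rw [card_pair h]

private theorem Qd_wr1 {n : ℕ} {p : ℝ} (y : Fin n) :
    wr p ({y} : Finset (Fin n)) = al n p := by
  unfold wr al
  rw [card_singleton, pow_one]

/-- Two rows have given values. -/
private theorem Qd_two {m n : ℕ} {p : ℝ} {i k : Fin m} (hik : i ≠ k) (A B : Finset (Fin n)) :
    Pr p (fun M : Mat m n => M i = A ∧ M k = B) = wr p A * wr p B := by
  classical
  let g : Fin m → Finset (Fin n) → ℝ := fun l E =>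
    if l = i then (if E = A then 1 else 0) else if l = k then (if E = B then 1 else 0) else 1
  have hgi : ∀ E, g i E = if E = A then 1 else 0 := fun E => if_pos rfl
  have hgk : ∀ E, g k E = if E = B then 1 else 0 := fun E => by
    show (if k = i then _ else _) = _
    rw [if_neg (Ne.symm hik), if_pos rfl]
  have hg1 : ∀ l, l ≠ i ∧ l ≠ k → ∀ E, g l E = 1 := fun l hl E => by
    show (if l = i then _ else _) = _
    rw [if_neg hl.1, if_neg hl.2]
  have h1 : (fun M : Mat m n => if M i = A ∧ M k = B then (1 : ℝ) else 0) =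
      fun M => ∏ l, g l (M l) := by
    funext M
    rw [prod_eq_mul i k hik (fun l _ hl => hg1 l hl _) (fun h => absurd (mem_univ _) h)
      (fun h => absurd (mem_univ _) h), hgi, hgk]
    by_cases h1 : M i = A <;> by_cases h2 : M k = B <;> simp [h1, h2]
  rw [Pr_eq, h1, Ex_prod, prod_eq_mul i k hik (fun l _ hl => ?_) (fun h => absurd (mem_univ _) h)
      (fun h => absurd (mem_univ _) h)]
  · congr 1
    · simp only [hgi, mul_ite, mul_one, mul_zero, sum_ite_eq', mem_univ, if_true]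
    · simp only [hgk, mul_ite, mul_one, mul_zero, sum_ite_eq', mem_univ, if_true]
  · simp only [hg1 l hl, mul_one]
    exact sum_wr

/-- No row is in a given set. -/
private theorem Qd_no {m n : ℕ} {p : ℝ} (S : Finset (Finset (Fin n))) :
    Pr p (fun M : Mat m n => ¬ ∃ i, M i ∈ S) = (1 - ∑ E ∈ S, wr p E) ^ m := by
  classical
  have h1 : (fun M : Mat m n => if ¬ ∃ i, M i ∈ S then (1 : ℝ) else 0) =
      fun M => ∏ i, (if M i ∈ S then (0 : ℝ) else 1) := by
    funext M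
    by_cases h : ∃ i, M i ∈ S
    · rw [if_neg (not_not.2 h)]
      obtain ⟨i, hi⟩ := h
      have h2 : (if M i ∈ S then (0 : ℝ) else 1) = 0 := if_pos hi
      exact (Finset.prod_eq_zero (mem_univ i) h2).symm
    · rw [if_pos h]
      symm
      refine prod_eq_one fun i _ => ?_
      rw [if_neg]
      intro h2
      exact h ⟨i, h2⟩
  rw [Pr_eq, h1, Ex_prod (fun _ E => if E ∈ S then (0 : ℝ) else 1)]
  rw [prod_const, card_univ, Fintype.card_fin]
  congr 1
  have h2 : ∑ E : Finset (Fin n), wr p E * (if E ∈ S then (0 : ℝ) else 1) =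
      ∑ E : Finset (Fin n), (wr p E - if E ∈ S then wr p E else 0) := by
    refine sum_congr rfl fun E _ => ?_
    split_ifs <;> ring
  rw [h2, sum_sub_distrib, sum_wr, sum_ite_mem, univ_inter]

theorem qd_none {m n : ℕ} {p : ℝ} (h0 : 0 ≤ p) (h1 : p ≤ 1) (Z : Finset (Fin n)) :
    Pr p (fun M : Mat m n => ¬ ∃ i, ∃ y z, y ∉ Z ∧ z ∈ Z ∧ M i = {y, z}) ≤
      Real.exp (-(m * (be n p * ((Z.card : ℝ) * (Zᶜ.card : ℝ))))) := by
  classical
  set S : Finset (Finset (Fin n)) :=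
    (Zᶜ ×ˢ Z).image (fun yz : Fin n × Fin n => ({yz.1, yz.2} : Finset (Fin n))) with hS
  have hsum : ∑ E ∈ S, wr p E = be n p * ((Z.card : ℝ) * (Zᶜ.card : ℝ)) := by
    rw [hS, sum_image (Qd_inj Z)]
    have h2 : ∀ yz ∈ Zᶜ ×ˢ Z, wr p ({yz.1, yz.2} : Finset (Fin n)) = be n p := by
      intro yz hyz
      rw [mem_product, mem_compl] at hyz
      exact Qd_wr2 fun h3 => hyz.1 (by rw [h3]; exact hyz.2)
    rw [sum_congr rfl h2, sum_const, card_product, nsmul_eq_mul]
    push_cast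
    ring
  have hle : ∑ E ∈ S, wr p E ≤ 1 := by
    rw [← sum_wr (p := p) (n := n)]
    exact sum_le_sum_of_subset_of_nonneg (subset_univ _) fun E _ _ => wr_nonneg h0 h1 E
  have h2 : Pr p (fun M : Mat m n => ¬ ∃ i, ∃ y z, y ∉ Z ∧ z ∈ Z ∧ M i = {y, z}) ≤
      Pr p (fun M : Mat m n => ¬ ∃ i, M i ∈ S) := by
    refine Pr_mono h0 h1 fun M hM hcon => hM ?_
    obtain ⟨i, hi⟩ := hcon
    rw [hS, mem_image] at hi
    obtain ⟨⟨y, z⟩, hyz, he⟩ := hi
    rw [mem_product, mem_compl] at hyz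
    exact ⟨i, y, z, hyz.1, hyz.2, he.symm⟩
  refine h2.trans ?_
  rw [Qd_no]
  refine (pow_le_exp hle m).trans (le_of_eq ?_)
  rw [hsum, mul_comm (m : ℝ)]

theorem qd_both {m n : ℕ} {p : ℝ} (h0 : 0 ≤ p) (h1 : p ≤ 1) (Z : Finset (Fin n)) :
    Pr p (fun M : Mat m n => ∃ i k, ∃ y z, y ∉ Z ∧ z ∈ Z ∧ M i = {y, z} ∧ M k = {y}) ≤
      (m : ℝ) ^ 2 * (al n p * be n p * ((Z.card : ℝ) * (Zᶜ.card : ℝ))) := by
  classical
  have hal : 0 ≤ al n p := by
    unfold al
    exact mul_nonneg h0 (pow_nonneg (by linarith) _)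
  have hbe : 0 ≤ be n p := by
    unfold be
    exact mul_nonneg (pow_nonneg h0 _) (pow_nonneg (by linarith) _)
  have h2 : Pr p (fun M : Mat m n => ∃ i k, ∃ y z, y ∉ Z ∧ z ∈ Z ∧ M i = {y, z} ∧ M k = {y}) ≤
      Pr p (fun M : Mat m n => ∃ j ∈ ((univ : Finset (Fin m × Fin m)) ×ˢ (Zᶜ ×ˢ Z)),
        M j.1.1 = {j.2.1, j.2.2} ∧ M j.1.2 = {j.2.1}) := by
    refine Pr_mono h0 h1 fun M hM => ?_
    obtain ⟨i, k, y, z, hy, hz, e1, e2⟩ := hM
    refine ⟨((i, k), (y, z)), ?_, e1, e2⟩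
    rw [mem_product, mem_product, mem_compl]
    exact ⟨mem_univ _, hy, hz⟩
  refine h2.trans ((Pr_exists h0 h1 _ _).trans ?_)
  have h3 : ∀ j ∈ ((univ : Finset (Fin m × Fin m)) ×ˢ (Zᶜ ×ˢ Z)),
      Pr p (fun M : Mat m n => M j.1.1 = {j.2.1, j.2.2} ∧ M j.1.2 = {j.2.1}) ≤
        al n p * be n p := by
    intro j hj
    rw [mem_product, mem_product, mem_compl] at hj
    have hne : j.2.1 ≠ j.2.2 := fun h4 => hj.2.1 (by rw [h4]; exact hj.2.2)
    by_cases hik : j.1.1 = j.1.2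
    · have h4 : Pr p (fun M : Mat m n => M j.1.1 = {j.2.1, j.2.2} ∧ M j.1.2 = {j.2.1}) = 0 := by
        unfold Pr
        refine sum_eq_zero fun M _ => ?_
        rw [if_neg]
        rintro ⟨e1, e2⟩
        rw [hik, e2] at e1
        have h5 : j.2.2 ∈ ({j.2.1} : Finset (Fin n)) := by
          rw [e1]
          simp
        exact hne (mem_singleton.1 h5).symm
      rw [h4]
      exact mul_nonneg hal hbe
    · rw [Qd_two hik, Qd_wr2 hne, Qd_wr1, mul_comm]
  refine (sum_le_sum h3).trans (le_of_eq ?_)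
  rw [sum_const, card_product, card_product, card_univ, Fintype.card_prod, Fintype.card_fin,
    nsmul_eq_mul]
  push_cast
  ring

end Pool.Agent.H15.RV
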