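import Pool.Agent.H15.RV.Defs

/-!
# Row Sa: certificates (deterministic)

Proofs. `good_cert`: let `A = fam M`; `U ↦ insert z U` maps the members without `z` injectively into the members with `z`
(`insert z U = U ∪ M j`, `union_mem`, `row_mem`). `M i` is not in the image: if `insert z U = M i`, `z ∉ U`, then
`U = (M i).erase z ∋ y`, and by `mem_fam` there is a row `k` with `y ∈ M k ⊆ U`, excluded. So
`#(members without z) < #(members with z) = freq A z`, and the sum of the two numbers is `A.card`.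
`good_of_sg`: if there are `i, j, y, z` as in `good_cert`, it applies. Otherwise: (*) whenever `z ∈ sg M`, `z ∈ M i`, `y ∈ M i`,
`y ≠ z`, there is `k` with `y ∈ M k ⊆ (M i).erase z`. Show `PowerLike` with
`D = (sg M).image (fun z => {z}) ∪ (univ.filter fun i => Disjoint (M i) (sg M)).image M`. Pairwise disjoint: two singletons; a
singleton `{z}`, `z ∈ sg M`, and a row disjoint from `sg M`; two rows disjoint from `sg M` (equal or disjoint by h).
`fam M ⊆ unions of subfamilies of D`: it is enough (mem_fam) that for every row `i` and `y ∈ M i` there is `E ∈ D` with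
`y ∈ E ⊆ M i` (then `X = (D.filter (· ⊆ X)).sup id`): strong induction on `(M i).card`. If `M i` is disjoint from `sg M` take
`E = M i`. Otherwise let `z ∈ sg M ∩ M i`. If `y ∈ sg M` take `E = {y}`. If `y ∉ sg M` then `y ≠ z`, (*) gives `k` with
`y ∈ M k ⊆ (M i).erase z`, which has fewer elements; use the induction hypothesis. Conversely every element of `D` is a row, so the
unions of subfamilies of `D` are members (`union_mem`/`mem_fam`).
-/

set_option autoImplicit false

open Finset Pool.Agent.H15.RU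

namespace Pool.Agent.H15.RV

theorem good_cert {m n : ℕ} {M : Mat m n} {i j : Fin m} {y z : Fin n} (hj : M j = {z})
    (hz : z ∈ M i) (hy : y ∈ M i) (hyz : y ≠ z)
    (h : ∀ k, ¬ (y ∈ M k ∧ M k ⊆ (M i).erase z)) :
    ∃ x, (fam M).card < 2 * freq (fam M) x := by
  classical
  refine ⟨z, ?_⟩
  have h1 : (fam M).card = freq (fam M) z + ((fam M).filter fun X => ¬ z ∈ X).card :=
    (card_filter_add_card_filter_not _).symm
  have h2 : ((fam M).filter fun X => ¬ z ∈ X).card < freq (fam M) z := by
    rw [← card_image_of_injOn (s := (fam M).filter fun X => ¬ z ∈ X) (f := fun U => insert z U)]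
    · refine card_lt_card ?_
      rw [ssubset_iff_of_subset]
      · refine ⟨M i, mem_filter.2 ⟨row_mem M i, hz⟩, ?_⟩
        intro hmem
        obtain ⟨U, hU, hUi⟩ := mem_image.1 hmem
        obtain ⟨hU1, hU2⟩ := mem_filter.1 hU
        have e : U = (M i).erase z := by
          rw [← hUi]
          exact (erase_insert hU2).symm
        have hyU : y ∈ U := by
          rw [e]
          exact mem_erase.2 ⟨hyz, hy⟩
        obtain ⟨k, hk1, hk2⟩ := mem_fam.1 hU1 y hyU
        exact h k ⟨hk1, e ▸ hk2⟩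
      · intro X hX
        obtain ⟨U, hU, rfl⟩ := mem_image.1 hX
        obtain ⟨hU1, hU2⟩ := mem_filter.1 hU
        refine mem_filter.2 ⟨?_, mem_insert_self _ _⟩
        have h3 := union_mem (row_mem M j) hU1
        rw [hj] at h3
        exact h3
    · intro U hU V hV hUV
      have hU2 := (mem_filter.1 (mem_coe.1 hU)).2
      have hV2 := (mem_filter.1 (mem_coe.1 hV)).2
      have h3 := congrArg (fun W => erase W z) hUV
      simpa [erase_insert hU2, erase_insert hV2] using h3
  omega

theorem good_of_sg {m n : ℕ} {M : Mat m n}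
    (h : ∀ i j, Disjoint (M i) (sg M) → Disjoint (M j) (sg M) →
      M i = M j ∨ Disjoint (M i) (M j)) : Good (fam M) := by
  classical
  by_cases hc : ∃ (i j : Fin m) (y z : Fin n), M j = {z} ∧ z ∈ M i ∧ y ∈ M i ∧ y ≠ z ∧
      ∀ k, ¬ (y ∈ M k ∧ M k ⊆ (M i).erase z)
  · obtain ⟨i, j, y, z, h1, h2, h3, h4, h5⟩ := hc
    exact Or.inl (good_cert h1 h2 h3 h4 h5)
  have star : ∀ z ∈ sg M, ∀ i, z ∈ M i → ∀ y ∈ M i, y ≠ z →
      ∃ k, y ∈ M k ∧ M k ⊆ (M i).erase z := by
    intro z hz i hzi y hyi hyz
    obtain ⟨j, hj⟩ := (mem_filter.1 hz).2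
    by_contra hcon
    exact hc ⟨i, j, y, z, hj, hzi, hyi, hyz, fun k hk => hcon ⟨k, hk⟩⟩
  set D : Finset (Finset (Fin n)) := (sg M).image (fun z => {z}) ∪
    (univ.filter fun i => Disjoint (M i) (sg M)).image M with hD
  have memD : ∀ E, E ∈ D ↔ (∃ z ∈ sg M, {z} = E) ∨ ∃ i, Disjoint (M i) (sg M) ∧ M i = E := by
    intro E
    rw [hD, mem_union, mem_image, mem_image]
    simp only [mem_filter, mem_univ, true_and]
  have rowD : ∀ E ∈ D, ∃ i, M i = E := by
    intro E hE
    rcases (memD E).1 hE with ⟨z, hz, rfl⟩ | ⟨i, _, rfl⟩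
    · exact (mem_filter.1 hz).2
    · exact ⟨i, rfl⟩
  have hcov : ∀ (c : ℕ) (i : Fin m), (M i).card = c → ∀ y ∈ M i, ∃ E ∈ D, y ∈ E ∧ E ⊆ M i := by
    intro c
    induction c using Nat.strong_induction_on with
    | _ c ih =>
      intro i hic y hy
      by_cases hd : Disjoint (M i) (sg M)
      · exact ⟨M i, (memD _).2 (Or.inr ⟨i, hd, rfl⟩), hy, Subset.refl _⟩
      · obtain ⟨z, hz1, hz2⟩ := not_disjoint_iff.1 hd
        by_cases hys : y ∈ sg M
        · exact ⟨{y}, (memD _).2 (Or.inl ⟨y, hys, rfl⟩), mem_singleton_self y,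
            singleton_subset_iff.2 hy⟩
        · have hyz : y ≠ z := fun he => hys (he ▸ hz2)
          obtain ⟨k, hk1, hk2⟩ := star z hz2 i hz1 y hy hyz
          have hlt : (M k).card < c := by
            rw [← hic]
            exact (card_le_card hk2).trans_lt (card_erase_lt_of_mem hz1)
          obtain ⟨E, hE, hyE, hEk⟩ := ih _ hlt k rfl y hk1
          exact ⟨E, hE, hyE, hEk.trans (hk2.trans (erase_subset _ _))⟩
  refine Or.inr ⟨D, ?_, ?_⟩
  · intro E hE F hF hEF
    change Disjoint E F
    rcases (memD E).1 (mem_coe.1 hE) with ⟨z, hz, rfl⟩ | ⟨i, hi, rfl⟩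
    · rcases (memD F).1 (mem_coe.1 hF) with ⟨z', hz', rfl⟩ | ⟨j, hj, rfl⟩
      · rw [disjoint_singleton]
        exact fun he => hEF (by rw [he])
      · rw [disjoint_singleton_left]
        exact fun hzj => disjoint_left.1 hj hzj hz
    · rcases (memD F).1 (mem_coe.1 hF) with ⟨z', hz', rfl⟩ | ⟨j, hj, rfl⟩
      · rw [disjoint_singleton_right]
        exact fun hzi => disjoint_left.1 hi hzi hz'
      · rcases h i j hi hj with h1 | h1
        · exact absurd h1 hEF
        · exact h1
  · ext X
    rw [mem_image]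
    constructor
    · intro hX
      refine ⟨D.filter (fun E => E ⊆ X), mem_powerset.2 (filter_subset _ _), ?_⟩
      apply Subset.antisymm
      · intro x hx
        obtain ⟨E, hE, hxE⟩ := mem_sup.1 hx
        exact (mem_filter.1 hE).2 hxE
      · intro x hx
        obtain ⟨i, hi1, hi2⟩ := mem_fam.1 hX x hx
        obtain ⟨E, hE, hxE, hEi⟩ := hcov _ i rfl x hi1
        exact mem_sup.2 ⟨E, mem_filter.2 ⟨hE, hEi.trans hi2⟩, hxE⟩
    · rintro ⟨S, hS, rfl⟩
      rw [mem_powerset] at hS
      rw [mem_fam]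
      intro x hx
      obtain ⟨E, hE, hxE⟩ := mem_sup.1 hx
      obtain ⟨i, hi⟩ := rowD E (hS hE)
      refine ⟨i, by rw [hi]; exact hxE, ?_⟩
      intro w hw
      exact mem_sup.2 ⟨E, hE, by rw [hi] at hw; exact hw⟩

end Pool.Agent.H15.RV
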