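import Pool.Agent.H15.RV.Fu
import Pool.Agent.H15.RV.Ch
import Pool.Agent.H15.RV.Qd
import Pool.Agent.H15.RV.Sa

/-!
# Row Qe: certificates with a row {y, z} of the second group

Notation `α = al n p`, `β = be n p`, `Z = sg (fst M)`, `Y = Zᶜ`, `T = n^2 u (1-u) / 4`. Proof. Suppose `2 |Y| ≥ n u`, `2 |Z| ≥ n (1-u)` (so
`|Z| |Y| ≥ T`), some row `i` of `snd M` is `{y, z}` with `y ∉ Z`, `z ∈ Z`, and there are no rows `i, k` of `snd M` with
`snd M i = {y, z}`, `snd M k = {y}`, `y ∉ Z`, `z ∈ Z`. Then `fam M` is good: some row `j` of the first group is `{z}`; `good_cert` with the row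
`{y, z}`: a row `k` with `y ∈ M k ⊆ {y, z}.erase z = {y}` would be `{y}`; it is not in the first group (`y ∉ Z = sg (fst M)`) and not in the
second one. So `¬ Good` implies one of: (a) `2 |Y| < n u`; (b) `2 |Z| < n (1-u)`; (c) `T ≤ |Z| |Y|` and the event of `qd_none` for `snd M`, `Z`;
(d) the event of `qd_both` for `snd M`, `Z`. Probabilities (`Pr_mono`, `Pr_or`, `Pr_eq`, `Ex_split`): (a), (b) depend only on the first group
(inner expectation of a constant: `Ex_one`): `ch_Y`, `ch_Z`. (c) for fixed first group the inner probability is at most `exp (-(m2 β T))` if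
`T ≤ |Z| |Y|` and 0 otherwise. (d) the inner probability is at most `m2^2 α β |Z| |Y|`; take the expectation with `ch_ZY`.
-/

set_option autoImplicit false

open Finset Pool.Agent.H15.RU

namespace Pool.Agent.H15.RV

private theorem Qe_al {n : ℕ} {p : ℝ} (h0 : 0 ≤ p) (h1 : p ≤ 1) : 0 ≤ al n p := by
  unfold al
  exact mul_nonneg h0 (pow_nonneg (by linarith) _)

private theorem Qe_be {n : ℕ} {p : ℝ} (h1 : p ≤ 1) : 0 ≤ be n p := by
  unfold be
  exact mul_nonneg (sq_nonneg p) (pow_nonneg (by linarith) _)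

private theorem Qe_const {m n : ℕ} {p : ℝ} (c : ℝ) : Ex p (fun _ : Mat m n => c) = c := by
  have h := Ex_const_mul (p := p) (m := m) (n := n) c (fun _ => 1)
  simp only [mul_one] at h
  rw [h, Ex_one, mul_one]

private theorem Qe_fst {m1 m2 n : ℕ} {p : ℝ} (P : Mat m1 n → Prop) :
    Pr p (fun M : Mat (m1 + m2) n => P (fst M)) = Pr p P := by
  classical
  rw [Pr_eq, Pr_eq]
  have h := Ex_split (m1 := m1) (m2 := m2) (n := n) (p := p)
    (fun M1 _ => if P M1 then (1 : ℝ) else 0)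
  rw [h]
  congr 1
  funext M1
  exact Qe_const _

private theorem Qe_split {m1 m2 n : ℕ} {p : ℝ} (P : Mat m1 n → Mat m2 n → Prop) :
    Pr p (fun M : Mat (m1 + m2) n => P (fst M) (snd M)) =
      Ex p (fun M1 : Mat m1 n => Pr p (fun M2 : Mat m2 n => P M1 M2)) := by
  classical
  rw [Pr_eq]
  have h := Ex_split (m1 := m1) (m2 := m2) (n := n) (p := p)
    (fun M1 M2 => if P M1 M2 then (1 : ℝ) else 0)
  rw [h]
  congr 1
  funext M1
  exact (Pr_eq (fun M2 : Mat m2 n => P M1 M2)).symm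

private theorem Qe_good {m1 m2 n : ℕ} (M : Mat (m1 + m2) n) {i : Fin m2} {y z : Fin n}
    (hy : y ∉ sg (fst M)) (hz : z ∈ sg (fst M)) (hi : snd M i = {y, z})
    (hno : ¬ ∃ i k, ∃ y z, y ∉ sg (fst M) ∧ z ∈ sg (fst M) ∧ snd M i = {y, z} ∧ snd M k = {y}) :
    Good (fam M) := by
  have hz' := hz
  unfold sg at hz'
  rw [mem_filter] at hz'
  obtain ⟨_, j, hj⟩ := hz'
  have hyz : y ≠ z := fun h => hy (h ▸ hz)
  refine Or.inl (good_cert (i := Fin.natAdd m1 i) (j := Fin.castAdd m2 j) (y := y) (z := z) hj ?_ ?_ hyz ?_)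
  · have : M (Fin.natAdd m1 i) = {y, z} := hi
    rw [this]
    simp
  · have : M (Fin.natAdd m1 i) = {y, z} := hi
    rw [this]
    simp
  · rintro k ⟨hk1, hk2⟩
    have h1 : M (Fin.natAdd m1 i) = {y, z} := hi
    have h2 : M k = {y} := by
      rw [h1] at hk2
      apply Finset.eq_singleton_iff_unique_mem.2
      refine ⟨hk1, fun x hx => ?_⟩
      have h3 := hk2 hx
      rw [mem_erase, mem_insert, mem_singleton] at h3
      rcases h3.2 with h4 | h4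
      · exact h4
      · exact absurd h4 h3.1
    revert h2
    refine Fin.addCases (fun k1 => ?_) (fun k2 => ?_) k
    · intro h2
      apply hy
      unfold sg
      rw [mem_filter]
      exact ⟨mem_univ _, k1, h2⟩
    · intro h2
      exact hno ⟨i, k2, y, z, hy, hz, hi, h2⟩

theorem Pr_Qe {m1 m2 n : ℕ} {p u : ℝ} (h0 : 0 ≤ p) (h1 : p ≤ 1) (ha : al n p ≤ 1 / 3)
    (hn : 1 ≤ n) (hu : u = (1 - al n p) ^ m1) (hu1 : u < 1) :
    Pr p (fun M : Mat (m1 + m2) n => ¬ Good (fam M)) ≤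
      4 / (n * u) + 4 / (n * (1 - u)) +
        Real.exp (-(m2 * (be n p * ((n : ℝ) ^ 2 * (u * (1 - u)) / 4)))) +
        2 * (m2 : ℝ) ^ 2 * (al n p * be n p) * ((n : ℝ) ^ 2 * (u * (1 - u))) := by
  classical
  have hal := Qe_al (n := n) h0 h1
  have hbe := Qe_be (n := n) (p := p) h1
  have hn0 : (0 : ℝ) < n := by exact_mod_cast (by omega : 0 < n)
  have hu0 : 0 < u := by
    rw [hu]
    exact pow_pos (by linarith) _
  have hu2 : 0 < 1 - u := by linarith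
  set T : ℝ := (n : ℝ) ^ 2 * (u * (1 - u)) / 4 with hT
  -- the four events
  have key : Pr p (fun M : Mat (m1 + m2) n => ¬ Good (fam M)) ≤
      Pr p (fun M : Mat (m1 + m2) n =>
        ((2 * (((sg (fst M))ᶜ.card : ℕ) : ℝ) < n * u) ∨
          (2 * (((sg (fst M)).card : ℕ) : ℝ) < n * (1 - u))) ∨
        ((T ≤ (((sg (fst M)).card : ℕ) : ℝ) * (((sg (fst M))ᶜ.card : ℕ) : ℝ) ∧
          ¬ ∃ i, ∃ y z, y ∉ sg (fst M) ∧ z ∈ sg (fst M) ∧ snd M i = {y, z}) ∨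
        (∃ i k, ∃ y z, y ∉ sg (fst M) ∧ z ∈ sg (fst M) ∧ snd M i = {y, z} ∧ snd M k = {y}))) := by
    refine Pr_mono h0 h1 fun M hM => ?_
    by_contra hcon
    push Not at hcon
    obtain ⟨⟨hA, hB⟩, hC, hD⟩ := hcon
    have hTle : T ≤ (((sg (fst M)).card : ℕ) : ℝ) * (((sg (fst M))ᶜ.card : ℕ) : ℝ) := by
      have h2 : (n * (1 - u)) * (n * u) ≤ (2 * (((sg (fst M)).card : ℕ) : ℝ)) * (2 * (((sg (fst M))ᶜ.card : ℕ) : ℝ)) :=
        mul_le_mul hB hA (by positivity) (by positivity)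
      rw [hT]
      nlinarith
    obtain ⟨i, y, z, hy, hz, hi⟩ := hC hTle
    refine hM (Qe_good M hy hz hi ?_)
    rintro ⟨i, k, y, z, hy, hz, hi, hk⟩
    exact hD i k y z hy hz hi hk
  refine key.trans ((Pr_or h0 h1 _ _).trans ?_)
  have hAB := Pr_or h0 h1 (fun M : Mat (m1 + m2) n => 2 * (((sg (fst M))ᶜ.card : ℕ) : ℝ) < n * u)
    (fun M : Mat (m1 + m2) n => 2 * (((sg (fst M)).card : ℕ) : ℝ) < n * (1 - u))
  have hCD := Pr_or h0 h1 (fun M : Mat (m1 + m2) n =>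
      (T ≤ (((sg (fst M)).card : ℕ) : ℝ) * (((sg (fst M))ᶜ.card : ℕ) : ℝ) ∧
          ¬ ∃ i, ∃ y z, y ∉ sg (fst M) ∧ z ∈ sg (fst M) ∧ snd M i = {y, z}))
    (fun M : Mat (m1 + m2) n =>
      ∃ i k, ∃ y z, y ∉ sg (fst M) ∧ z ∈ sg (fst M) ∧ snd M i = {y, z} ∧ snd M k = {y})
  have hA : Pr p (fun M : Mat (m1 + m2) n => 2 * (((sg (fst M))ᶜ.card : ℕ) : ℝ) < n * u) ≤
      4 / (n * u) := by
    have h2 := Qe_fst (m1 := m1) (m2 := m2) (n := n) (p := p)
      (fun M1 => 2 * (((sg M1)ᶜ.card : ℕ) : ℝ) < n * u)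
    rw [h2]
    exact ch_Y h0 h1 ha hn hu
  have hB : Pr p (fun M : Mat (m1 + m2) n => 2 * (((sg (fst M)).card : ℕ) : ℝ) < n * (1 - u)) ≤
      4 / (n * (1 - u)) := by
    have h2 := Qe_fst (m1 := m1) (m2 := m2) (n := n) (p := p)
      (fun M1 => 2 * (((sg M1).card : ℕ) : ℝ) < n * (1 - u))
    rw [h2]
    exact ch_Z h0 h1 ha hn hu hu1
  have hC : Pr p (fun M : Mat (m1 + m2) n =>
      (T ≤ (((sg (fst M)).card : ℕ) : ℝ) * (((sg (fst M))ᶜ.card : ℕ) : ℝ) ∧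
          ¬ ∃ i, ∃ y z, y ∉ sg (fst M) ∧ z ∈ sg (fst M) ∧ snd M i = {y, z})) ≤
      Real.exp (-(m2 * (be n p * T))) := by
    have h2 := Qe_split (m1 := m1) (m2 := m2) (n := n) (p := p)
      (fun M1 M2 => T ≤ (((sg M1).card : ℕ) : ℝ) * (((sg M1)ᶜ.card : ℕ) : ℝ) ∧
          ¬ ∃ i, ∃ y z, y ∉ sg M1 ∧ z ∈ sg M1 ∧ M2 i = {y, z})
    rw [h2]
    refine (Ex_mono h0 h1 (g := fun _ => Real.exp (-(m2 * (be n p * T)))) fun M1 => ?_).trans
      (le_of_eq (Qe_const _))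
    by_cases hle : T ≤ (((sg M1).card : ℕ) : ℝ) * (((sg M1)ᶜ.card : ℕ) : ℝ)
    · refine (Pr_mono h0 h1 fun M2 h => h.2).trans ((qd_none h0 h1 (sg M1)).trans ?_)
      apply Real.exp_le_exp.2
      apply neg_le_neg
      exact mul_le_mul_of_nonneg_left (mul_le_mul_of_nonneg_left hle hbe) (Nat.cast_nonneg _)
    · have h3 : Pr p (fun M2 : Mat m2 n => T ≤ (((sg M1).card : ℕ) : ℝ) * (((sg M1)ᶜ.card : ℕ) : ℝ) ∧
          ¬ ∃ i, ∃ y z, y ∉ sg M1 ∧ z ∈ sg M1 ∧ M2 i = {y, z}) = 0 := by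
        unfold Pr
        refine sum_eq_zero fun M2 _ => ?_
        rw [if_neg (fun h => hle h.1)]
      rw [h3]
      exact (Real.exp_pos _).le
  have hD : Pr p (fun M : Mat (m1 + m2) n =>
      ∃ i k, ∃ y z, y ∉ sg (fst M) ∧ z ∈ sg (fst M) ∧ snd M i = {y, z} ∧ snd M k = {y}) ≤
      2 * (m2 : ℝ) ^ 2 * (al n p * be n p) * ((n : ℝ) ^ 2 * (u * (1 - u))) := by
    have h2 := Qe_split (m1 := m1) (m2 := m2) (n := n) (p := p)
      (fun M1 M2 => ∃ i k, ∃ y z, y ∉ sg M1 ∧ z ∈ sg M1 ∧ M2 i = {y, z} ∧ M2 k = {y})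
    rw [h2]
    have h3 : Ex p (fun M1 : Mat m1 n => Pr p (fun M2 : Mat m2 n =>
        ∃ i k, ∃ y z, y ∉ sg M1 ∧ z ∈ sg M1 ∧ M2 i = {y, z} ∧ M2 k = {y})) ≤
        Ex p (fun M1 : Mat m1 n => ((m2 : ℝ) ^ 2 * (al n p * be n p)) *
          ((((sg M1).card : ℕ) : ℝ) * (((sg M1)ᶜ.card : ℕ) : ℝ))) := by
      refine Ex_mono h0 h1 fun M1 => ?_
      refine (qd_both h0 h1 (sg M1)).trans (le_of_eq ?_)
      ring
    refine h3.trans ?_
    rw [Ex_const_mul]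
    refine (mul_le_mul_of_nonneg_left (ch_ZY h0 h1 ha hu) (by positivity)).trans (le_of_eq ?_)
    ring
  have e : (m2 : ℝ) * (be n p * ((n : ℝ) ^ 2 * (u * (1 - u)) / 4)) = m2 * (be n p * T) := by
    rw [hT]
  linarith

end Pool.Agent.H15.RV
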