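import Pool.Agent.H15.RV.Qa
import Pool.Agent.H15.RV.Qb
import Pool.Agent.H15.RV.Qc
import Pool.Agent.H15.RV.Qe
import Pool.Agent.H15.RV.N1
import Pool.Agent.H15.RV.N2
import Pool.Agent.H15.RV.N3

/-!
# Row P1: small p (assembly)

Proof. Let `K` be as in `choose_m2` for `ε`. If one of the bounds of `Pr_Qa`, `Pr_Qb`, `Pr_Qc` is `≤ ε` we are done (this includes `p = 0` and
`m = 0`). Otherwise, with `λ = n p > 0`, `d = m p > 0`, `x = m α > 0` (`α = al n p`, `m ≥ 1`):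
(A) `ε < 5 m^3 n^2 p^4 = 5 d^3 (n λ)`; (B) `ε < m^2 n^3 p^4 = d^2 (n λ^2)`; (C) `ε < m n^2 p^2 (1 - 2α)^(m-1) = d (n λ) (1-2α)^(m-1)` and
`(1-2α)^(m-1) ≤ exp (-2α(m-1)) = exp (-2x) exp (2α) ≤ 3 exp (-2x)` (`α ≤ p ≤ 1/16`), so `ε < 3 d (n λ) exp (-2x)`.
(D) `d ≤ 2 x exp λ` from `p exp (-λ) ≤ 2 α` (`basic_num`). `x ≤ log n` by `num_x`.
Case `x ≤ 1`: `num_small` with `3 K`: `3 K ≤ n λ x^2`, `3 K ≤ n x`; `exp (-x) ≥ 1/3`, `min 1 x = x`: the four conditions of `choose_m2` hold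
(`n exp (-x) ≥ n/3 ≥ K` for large `n`; `n λ exp (-x) x ≥ n λ exp (-x) x x ≥ n λ x^2/3 ≥ K`).
Case `x ≥ 1`: `num_large` with `K`, `min 1 x = 1`.
Then `choose_m2` and `Pr_Qe` (`subst m = m1 + m2`; `α ≤ 1/3`).
-/

set_option autoImplicit false

open Finset Pool.Agent.H15.RU

namespace Pool.Agent.H15.RV

theorem part1 {ε : ℝ} (hε : 0 < ε) :
    ∃ N : ℕ, ∀ n ≥ N, ∀ (m : ℕ) (p : ℝ), 0 ≤ p → n * p ≤ Real.log n / 8 →
      Pr p (fun M : Mat m n => ¬ Good (fam M)) ≤ ε := by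
  obtain ⟨K, N3, hK1, h3⟩ := choose_m2 hε
  obtain ⟨N0, h0⟩ := basic_num
  obtain ⟨Ns, hs⟩ := num_small (K := 3 * K) hε
  obtain ⟨Nx, hx⟩ := num_x hε
  obtain ⟨Nl, hl⟩ := num_large (K := K) hε
  obtain ⟨Nk, hNk⟩ := exists_nat_ge (3 * K)
  refine ⟨2 + N3 + N0 + Ns + Nx + Nl + Nk, fun n hn m p hp hnp => ?_⟩
  have hn2 : 2 ≤ n := by omega
  have hnK : 3 * K ≤ (n : ℝ) := hNk.trans (by exact_mod_cast (by omega : Nk ≤ n))
  have hnpos : (0 : ℝ) < n := by exact_mod_cast (by omega : 0 < n)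
  by_contra hcon
  push Not at hcon
  have hpne : p ≠ 0 := by
    rintro rfl
    have h := Pr_Qa (m := m) (n := n) (p := 0) le_rfl zero_le_one
    norm_num at h
    linarith
  have hppos : 0 < p := lt_of_le_of_ne hp (Ne.symm hpne)
  obtain ⟨hp16, ha0, hap, hape, hb0, -, -, -⟩ := h0 n (by omega) p hppos hnp
  have hp1 : p ≤ 1 := by linarith
  have hA := lt_of_lt_of_le hcon (Pr_Qa (m := m) (n := n) hp hp1)
  have hB := lt_of_lt_of_le hcon (Pr_Qb (m := m) (n := n) hp hp1)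
  have hC := lt_of_lt_of_le hcon (Pr_Qc (m := m) (n := n) hp hp1 hn2)
  have hm : m ≠ 0 := by
    rintro rfl
    norm_num at hA
    linarith
  have hmpos : (0 : ℝ) < m := by exact_mod_cast Nat.pos_of_ne_zero hm
  obtain ⟨lam, hlam⟩ : ∃ lam : ℝ, lam = n * p := ⟨_, rfl⟩
  obtain ⟨d, hd⟩ : ∃ d : ℝ, d = m * p := ⟨_, rfl⟩
  obtain ⟨x, hxd⟩ : ∃ x : ℝ, x = m * al n p := ⟨_, rfl⟩
  have hlam0 : 0 < lam := by rw [hlam]; positivity
  have hd0 : 0 < d := by rw [hd]; positivity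
  have hx0 : 0 < x := by rw [hxd]; positivity
  have hlamle : lam ≤ Real.log n / 8 := by rw [hlam]; exact hnp
  have hA' : ε < 5 * d ^ 3 * (n * lam) := by
    refine lt_of_lt_of_eq hA ?_
    rw [hd, hlam]; ring
  have hB' : ε < d ^ 2 * (n * lam ^ 2) := by
    refine lt_of_lt_of_eq hB ?_
    rw [hd, hlam]; ring
  have hC' : ε < 3 * d * (n * lam) * Real.exp (-(2 * x)) := by
    have e1 : 1 - 2 * al n p ≤ Real.exp (-(2 * al n p)) := Real.one_sub_le_exp_neg _
    have e2 : (1 - 2 * al n p) ^ (m - 1) ≤ Real.exp (-(2 * al n p)) ^ (m - 1) :=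
      pow_le_pow_left₀ (by linarith) e1 _
    have e3 : Real.exp (-(2 * al n p)) ^ (m - 1) = Real.exp (-(2 * x)) * Real.exp (2 * al n p) := by
      rw [← Real.exp_nat_mul, ← Real.exp_add, Nat.cast_sub (by omega : 1 ≤ m)]
      congr 1
      rw [hxd]
      push_cast
      ring
    have e4 : Real.exp (2 * al n p) ≤ 3 := by
      have h1 : Real.exp (2 * al n p) ≤ Real.exp 1 := Real.exp_le_exp.2 (by linarith)
      have h2 := Real.exp_one_lt_d9
      linarith
    have e5 : (1 - 2 * al n p) ^ (m - 1) ≤ 3 * Real.exp (-(2 * x)) := by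
      refine e2.trans ?_
      rw [e3, mul_comm]
      exact mul_le_mul_of_nonneg_right e4 (Real.exp_pos _).le
    refine lt_of_lt_of_le hC ?_
    have e6 : (m : ℝ) * (n : ℝ) ^ 2 * p ^ 2 = d * (n * lam) := by rw [hd, hlam]; ring
    rw [e6]
    calc d * (n * lam) * (1 - 2 * al n p) ^ (m - 1)
        ≤ d * (n * lam) * (3 * Real.exp (-(2 * x))) :=
          mul_le_mul_of_nonneg_left e5 (by positivity)
      _ = 3 * d * (n * lam) * Real.exp (-(2 * x)) := by ring
  have hD : d ≤ 2 * x * Real.exp lam := by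
    have e1 : p ≤ 2 * al n p * Real.exp lam := by
      have h1 : p * Real.exp (-(n * p)) * Real.exp lam = p := by
        rw [mul_assoc, ← Real.exp_add, hlam, neg_add_cancel, Real.exp_zero, mul_one]
      calc p = p * Real.exp (-(n * p)) * Real.exp lam := h1.symm
        _ ≤ 2 * al n p * Real.exp lam := mul_le_mul_of_nonneg_right hape (Real.exp_pos _).le
    calc d = m * p := hd
      _ ≤ m * (2 * al n p * Real.exp lam) := mul_le_mul_of_nonneg_left e1 hmpos.le
      _ = 2 * x * Real.exp lam := by rw [hxd]; ring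
  have hxlog : x ≤ Real.log n := hx n (by omega) lam d x hlam0 hlamle hd0 hx0 hD hC'
  have hK0 : 0 < K := by linarith
  have main : K ≤ n * Real.exp (-x) ∧ K ≤ n * min 1 x ∧
      K ≤ n * lam * (Real.exp (-x) * min 1 x) ∧
      K ≤ n * lam * (Real.exp (-x) * min 1 x) * x := by
    rcases le_total x 1 with hx1 | hx1
    · obtain ⟨g1, g2⟩ := hs n (by omega) lam d x hlam0 hlamle hd0 hx0 hD hx1 hA' hB'
      have e1 : 1 / 3 ≤ Real.exp (-x) := by
        have h1 : Real.exp (-1) ≤ Real.exp (-x) := Real.exp_le_exp.2 (by linarith)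
        have h2 : 1 / 3 ≤ Real.exp (-1) := by
          rw [Real.exp_neg, ← one_div]
          exact one_div_le_one_div_of_le (Real.exp_pos _) (by have := Real.exp_one_lt_d9; linarith)
        linarith
      rw [min_eq_right hx1]
      have e2 : n * lam * x ^ 2 / 3 ≤ n * lam * (Real.exp (-x) * x) * x := by
        have h1 : n * lam * x ^ 2 * (1 / 3) ≤ n * lam * x ^ 2 * Real.exp (-x) :=
          mul_le_mul_of_nonneg_left e1 (by positivity)
        calc n * lam * x ^ 2 / 3 = n * lam * x ^ 2 * (1 / 3) := by ring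
          _ ≤ n * lam * x ^ 2 * Real.exp (-x) := h1
          _ = n * lam * (Real.exp (-x) * x) * x := by ring
      have e3 : n * lam * (Real.exp (-x) * x) * x ≤ n * lam * (Real.exp (-x) * x) :=
        mul_le_of_le_one_right (by positivity) hx1
      refine ⟨?_, by linarith, by linarith, by linarith⟩
      have h1 : n * (1 / 3) ≤ n * Real.exp (-x) := mul_le_mul_of_nonneg_left e1 hnpos.le
      linarith
    · obtain ⟨g1, g2⟩ := hl n (by omega) lam d x hlam0 hlamle hd0 hx1 hxlog hD hB' hC'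
      rw [min_eq_left hx1]
      refine ⟨g1, by linarith, by rw [mul_one]; exact g2, ?_⟩
      rw [mul_one]
      exact g2.trans (le_mul_of_one_le_right (by positivity) hx1)
  obtain ⟨c1, c2, c3, c4⟩ := main
  rw [hlam] at c3 c4
  obtain ⟨m1, m2, u, hm12, hu, hu1, hle⟩ :=
    h3 n (by omega) m p x hppos hnp hxd hxlog c1 c2 c3 c4
  subst hm12
  have hE := Pr_Qe (m1 := m1) (m2 := m2) (n := n) (p := p) (u := u) hp hp1 (by linarith)
    (by omega) hu hu1
  linarith

end Pool.Agent.H15.RV
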