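import Pool.Agent.H15.RV.Defs

/-!
# Row Sb: only pairs of different rows intersect (deterministic)

Proof. Case 1: any two rows are equal or disjoint. Then `PowerLike` with `D = univ.image M` (pairwise disjoint; `un M S` is the
union of the subfamily `S.image M`, see `Pv_sup`, `Pv_pow` in `RU/Pv.lean` for the similar case; conversely a subfamily `T` of `D` is
the image of `{i | M i ∈ T}`).
Case 2: `M i ≠ M j`, not disjoint, `x ∈ M i ∩ M j`. Let `A = fam M`, `A0` the members without `x`. A row that is neither `M i` nor `M j`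
is disjoint from both; so if `U ∈ A0`, all rows inside `U` are different from `M i`, `M j` (they do not contain `x`), hence
`U` (a union of such rows) is disjoint from `M i ∪ M j`. The maps `U ↦ U ∪ M i`, `U ↦ U ∪ M j` from `A0` to `A \ A0` are injective
(`U = (U ∪ M i) \ (M i ∪ M j)`), and their images are disjoint (`(U ∪ M i) ∩ (M i ∪ M j) = M i ≠ M j`). So
`freq A x ≥ 2 #A0`, `#A0 ≥ 1` (`∅`), and `A.card = freq A x + #A0 < 2 freq A x`.
-/

set_option autoImplicit false

open Finset Pool.Agent.H15.RU

namespace Pool.Agent.H15.RV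

theorem Sb_pow {m n : ℕ} {M : Mat m n} (h : ∀ i j, M i ≠ M j → Disjoint (M i) (M j)) :
    PowerLike (fam M) := by
  refine ⟨univ.image M, ?_, ?_⟩
  · intro a ha b hb hab
    rw [coe_image] at ha hb
    obtain ⟨i, _, rfl⟩ := ha
    obtain ⟨j, _, rfl⟩ := hb
    exact h i j hab
  · ext X
    rw [fam, mem_image, mem_image]
    constructor
    · rintro ⟨S, _, rfl⟩
      refine ⟨S.image M, ?_, Pv_sup M S⟩
      exact mem_powerset.2 (image_subset_image (subset_univ S))
    · rintro ⟨T, hT, rfl⟩
      rw [mem_powerset] at hT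
      obtain ⟨S, hS⟩ : ∃ S : Finset (Fin m), S.image M = T := by
        refine ⟨univ.filter fun i => M i ∈ T, ?_⟩
        ext Y
        rw [mem_image]
        constructor
        · rintro ⟨i, hi, rfl⟩
          exact (mem_filter.1 hi).2
        · intro hY
          obtain ⟨i, _, hi⟩ := mem_image.1 (hT hY)
          exact ⟨i, mem_filter.2 ⟨mem_univ _, hi.symm ▸ hY⟩, hi⟩
      exact ⟨S, mem_univ _, by rw [← hS, Pv_sup]⟩

theorem good_of_pairs {m n : ℕ} {M : Mat m n}
    (h : ∀ i j k, M i ≠ M j → ¬ Disjoint (M i) (M j) → M k ≠ M i → M k ≠ M j →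
      Disjoint (M k) (M i) ∧ Disjoint (M k) (M j)) : Good (fam M) := by
  classical
  by_cases h1 : ∀ i j, M i ≠ M j → Disjoint (M i) (M j)
  · exact Or.inr (Sb_pow h1)
  push Not at h1
  obtain ⟨i, j, hij, hd⟩ := h1
  obtain ⟨x, hxi, hxj⟩ := not_disjoint_iff.1 hd
  refine Or.inl ⟨x, ?_⟩
  set A0 := (fam M).filter fun X => ¬ x ∈ X with hA0
  have key : ∀ U ∈ A0, ∀ y ∈ U, y ∉ M i ∧ y ∉ M j := by
    intro U hU y hy
    rw [hA0, mem_filter] at hU
    obtain ⟨k, hyk, hkU⟩ := mem_fam.1 hU.1 y hy
    have hxk : x ∉ M k := fun hx => hU.2 (hkU hx)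
    obtain ⟨h2, h3⟩ := h i j k hij hd (fun e => hxk (e ▸ hxi)) (fun e => hxk (e ▸ hxj))
    exact ⟨disjoint_left.1 h2 hyk, disjoint_left.1 h3 hyk⟩
  have inj : ∀ l, (l = i ∨ l = j) → Set.InjOn (fun U => U ∪ M l) (A0 : Set (Finset (Fin n))) := by
    intro l hl U hU V hV hUV
    have hl' : ∀ W ∈ A0, ∀ y ∈ W, y ∉ M l := by
      intro W hW y hy
      rcases hl with rfl | rfl
      · exact (key W hW y hy).1
      · exact (key W hW y hy).2
    ext y
    constructor
    · intro hy
      have h4 : y ∈ V ∪ M l := by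
        have : U ∪ M l = V ∪ M l := hUV
        rw [← this]
        exact mem_union_left _ hy
      exact (mem_union.1 h4).resolve_right (hl' U hU y hy)
    · intro hy
      have h4 : y ∈ U ∪ M l := by
        have : U ∪ M l = V ∪ M l := hUV
        rw [this]
        exact mem_union_left _ hy
      exact (mem_union.1 h4).resolve_right (hl' V hV y hy)
  have hdis : Disjoint (A0.image fun U => U ∪ M i) (A0.image fun U => U ∪ M j) := by
    rw [disjoint_left]
    intro X hX1 hX2
    obtain ⟨U, hU, rfl⟩ := mem_image.1 hX1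
    obtain ⟨V, hV, hUV⟩ := mem_image.1 hX2
    have hUV' : V ∪ M j = U ∪ M i := hUV
    apply hij
    ext y
    constructor
    · intro hy
      have h4 : y ∈ V ∪ M j := by
        rw [hUV']
        exact mem_union_right _ hy
      rcases mem_union.1 h4 with h5 | h5
      · exact absurd hy (key V hV y h5).1
      · exact h5
    · intro hy
      have h4 : y ∈ U ∪ M i := by
        rw [← hUV']
        exact mem_union_right _ hy
      rcases mem_union.1 h4 with h5 | h5
      · exact absurd hy (key U hU y h5).2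
      · exact h5
  have hsub : (A0.image fun U => U ∪ M i) ∪ (A0.image fun U => U ∪ M j) ⊆
      (fam M).filter fun X => x ∈ X := by
    intro X hX
    rw [mem_filter]
    rcases mem_union.1 hX with hX | hX
    · obtain ⟨U, hU, rfl⟩ := mem_image.1 hX
      exact ⟨union_mem (mem_filter.1 hU).1 (row_mem M i), mem_union_right _ hxi⟩
    · obtain ⟨U, hU, rfl⟩ := mem_image.1 hX
      exact ⟨union_mem (mem_filter.1 hU).1 (row_mem M j), mem_union_right _ hxj⟩
  have hcard := card_le_card hsub
  rw [card_union_of_disjoint hdis, card_image_of_injOn (inj i (Or.inl rfl)),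
    card_image_of_injOn (inj j (Or.inr rfl))] at hcard
  have h2 : (fam M).card = freq (fam M) x + A0.card :=
    (card_filter_add_card_filter_not _).symm
  have h3 : 0 < A0.card := card_pos.2 ⟨∅, mem_filter.2 ⟨empty_mem M, notMem_empty x⟩⟩
  have h4 : A0.card + A0.card ≤ freq (fam M) x := hcard
  omega

end Pool.Agent.H15.RV
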