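import Pool.Agent.H15.RV.Defs

/-!
# Row Up: all large sets are members (p close to 1)

Proof. `unc M b` (`RU/Uc.lean`) is the set of pairs `(X, x)`, `X.card = n - b`, `x ∈ X`, with no row `i` such that
`x ∈ M i ⊆ X`. If some `X` with `t ≤ X.card` is not in `fam M`, then `exists_unc` gives `x`, and
`(X, x) ∈ unc M b` for `b = n - X.card ≤ n - t`, so `1 ≤ (unc M b).card`. By `Pr_mono`, `Pr_exists` over
`b ∈ range (n - t + 1)`, `markov` with `c = 1` and `Ex_unc` the probability is at most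
`∑ b ∈ range (n - t + 1), n.choose b * n * (1 - p (1 - p)^b)^m`. For `b ≤ n - t`:
`p (1-p)^b ≥ p (1-p)^(n-t)`, so `(1 - p (1-p)^b)^m ≤ exp (-(m p (1-p)^(n-t))) ≤ exp (-2 n)`
(`1 - x ≤ exp (-x)`; `pow_le_exp` in `RU/An.lean`). Finally `∑ b ∈ range (n - t + 1), n.choose b ≤ 2 ^ n`
(`Nat.sum_range_choose`, subset of `range (n + 1)`).
-/

set_option autoImplicit false

open Finset Pool.Agent.H15.RU

namespace Pool.Agent.H15.RV

theorem Pr_up {m n t : ℕ} {p : ℝ} (h0 : 0 ≤ p) (h1 : p ≤ 1) (ht : t ≤ n)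
    (h : 2 * (n : ℝ) ≤ m * p * (1 - p) ^ (n - t)) :
    Pr p (fun M : Mat m n => ¬ ∀ X : Finset (Fin n), t ≤ X.card → X ∈ fam M) ≤
      n * 2 ^ n * Real.exp (-(2 * n)) := by
  have hX : ∀ M : Mat m n, (¬ ∀ X : Finset (Fin n), t ≤ X.card → X ∈ fam M) →
      ∃ b ∈ range (n - t + 1), (1 : ℝ) ≤ ((unc M b).card : ℝ) := by
    intro M hM
    push Not at hM
    obtain ⟨X, hXt, hXf⟩ := hM
    obtain ⟨x, hx, hxi⟩ := exists_unc hXf
    have hc : X.card ≤ n := by simpa using Finset.card_le_univ X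
    refine ⟨n - X.card, by rw [mem_range]; omega, ?_⟩
    have hpos : 0 < (unc M (n - X.card)).card := by
      rw [Finset.card_pos]
      refine ⟨(X, x), ?_⟩
      unfold unc
      rw [Finset.mem_filter]
      refine ⟨Finset.mem_univ _, ?_, hx, hxi⟩
      show X.card = n - (n - X.card)
      omega
    have h1' : 1 ≤ (unc M (n - X.card)).card := hpos
    exact_mod_cast h1'
  refine (Pr_mono h0 h1 hX).trans ?_
  refine (Pr_exists h0 h1 _ _).trans ?_
  have hb : ∀ b ∈ range (n - t + 1), Pr p (fun M : Mat m n => (1 : ℝ) ≤ ((unc M b).card : ℝ)) ≤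
      n * Real.exp (-(2 * n)) * n.choose b := by
    intro b hb
    rw [mem_range] at hb
    have hbn : b ≤ n := by omega
    refine (markov h0 h1 (fun M => Nat.cast_nonneg _) one_pos).trans ?_
    rw [div_one]
    refine (Ex_unc h0 h1 hbn).trans ?_
    have hq0 : 0 ≤ 1 - p := by linarith
    have hpw : (1 - p) ^ (n - t) ≤ (1 - p) ^ b :=
      pow_le_pow_of_le_one hq0 (by linarith) (by omega)
    have h5 : p * (1 - p) ^ b ≤ 1 := by
      have h6 : (1 - p) ^ b ≤ 1 := pow_le_one₀ hq0 (by linarith)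
      have h7 : p * (1 - p) ^ b ≤ 1 * 1 := mul_le_mul h1 h6 (pow_nonneg hq0 b) zero_le_one
      linarith
    have h2 := pow_le_exp h5 m
    have h3 : Real.exp (-(p * (1 - p) ^ b * m)) ≤ Real.exp (-(2 * n)) := by
      apply Real.exp_le_exp.2
      have hmp : (0 : ℝ) ≤ (m : ℝ) * p := mul_nonneg (Nat.cast_nonneg _) h0
      have h8 : (m : ℝ) * p * (1 - p) ^ (n - t) ≤ m * p * (1 - p) ^ b :=
        mul_le_mul_of_nonneg_left hpw hmp
      have h9 : (m : ℝ) * p * (1 - p) ^ b = p * (1 - p) ^ b * m := by ring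
      linarith
    have h4 : (0 : ℝ) ≤ (n.choose b : ℝ) * n := by positivity
    have h10 := mul_le_mul_of_nonneg_left (h2.trans h3) h4
    refine h10.trans (le_of_eq ?_)
    ring
  refine (Finset.sum_le_sum hb).trans ?_
  rw [← Finset.mul_sum]
  have hs : (∑ b ∈ range (n - t + 1), (n.choose b : ℝ)) ≤ 2 ^ n := by
    have h11 : ∑ b ∈ range (n - t + 1), n.choose b ≤ ∑ b ∈ range (n + 1), n.choose b := by
      apply Finset.sum_le_sum_of_subset
      intro b hb
      rw [mem_range] at hb ⊢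
      omega
    rw [Nat.sum_range_choose] at h11
    exact_mod_cast h11
  have h12 : (0 : ℝ) ≤ (n : ℝ) * Real.exp (-(2 * n)) :=
    mul_nonneg (Nat.cast_nonneg _) (Real.exp_pos _).le
  refine (mul_le_mul_of_nonneg_left hs h12).trans (le_of_eq ?_)
  ring

end Pool.Agent.H15.RV
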