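import Pool.Agent.H15.RV.A2

/-!
# Row Xd: the critical window, lower bound and small sets

This is `zoneD_low`, `zoneD_T` of `RU/Xd.lean` with `δ = 1/2`, `bet δ` replaced by `1/1100`, `Reg` by `Med`, and `an_root` replaced by `an_root2` (file A2): copy the proofs.
`zoneD_low2`: let `b' = min b (n / 2)`, `d = n - 2 b'`. If `2 b ≤ n` then `b' = b` and `(1 + 1/1100)^d < 16 (n+1)^3 (C1 (1/2) ℓ)^k`; otherwise `d ≤ 1` and the same
inequality holds for large `n`. Logarithms: `d log (1 + 1/1100) ≤ 9 ℓ + 2 k log ℓ ≤ 9 ℓ + 6 log ℓ/p` (`k ≤ 3/p`, `log ℓ ≥ log (C1 (1/2))`, `log ℓ ≥ 0`). So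
`d log 2 ≤ K (ℓ + log ℓ/p)`, `K = 9 log 2/log (1 + 1/1100)`, and `2^(n-d) = 4^b' ≤ (2b'+1) C(n,b') ≤ (n+1) C(n,b')` (`choose_low` with `β = 0`). `n ≤ 4 b'`: `2 d ≤ n` for
large `n` by `an_root2` (constant `2 K/log 2`).
`zoneD_T2`: `Xd_small` of `RU/Xd.lean`: `(4/3)^n 3^(n/4) ≤ (176/100)^n`; by `an_root2` with the constant `100 K`: `K (ℓ + log ℓ/p) ≤ n/100`; and
`16 (4n+1) (n+1) (1.76 exp (1/100))^n ≤ 2^n` for large `n`.
-/

set_option autoImplicit false

open Finset Pool.Agent.H15.RU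

namespace Pool.Agent.H15.RV

theorem zoneD_low2 :
    ∃ (K : ℝ) (N : ℕ), 0 ≤ K ∧ ∀ n ≥ N, ∀ (b k : ℕ) (p : ℝ), Med n p → p * k ≤ 3 →
      ¬ (2 * b ≤ n ∧
        16 * ((n : ℝ) + 1) ^ 3 * (C1 (1 / 2) * Real.log n) ^ k ≤
          (1 + 1 / 1100 : ℝ) ^ (n - 2 * b)) →
      n ≤ 4 * min b (n / 2) ∧
      (2 : ℝ) ^ n * Real.exp (-(K * (Real.log n + Real.log (Real.log n) / p))) ≤
        (n + 1) * n.choose (min b (n / 2)) := by
  have hlβ : 0 < Real.log (1 + 1 / 1100) := Real.log_pos (by norm_num)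
  have hl2 : 0 < Real.log 2 := Real.log_pos (by norm_num)
  set K : ℝ := 9 * Real.log 2 / Real.log (1 + 1 / 1100) with hK
  have hK0 : 0 ≤ K := by positivity
  have hC1 : 0 < C1 (1 / 2) := by unfold C1; positivity
  obtain ⟨N1, hN1⟩ := log_large (max 1 (1 / C1 (1 / 2)))
  obtain ⟨N2, hN2⟩ := loglog_large (max 1 (Real.log (C1 (1 / 2))))
  obtain ⟨N3, hN3⟩ := an_root2 (2 * K / Real.log 2)
  obtain ⟨N4, hN4⟩ := med_all 1
  refine ⟨K, max (max N1 N2) (max N3 (max N4 3)), hK0, ?_⟩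
  intro n hn b k p hR hpk hno
  have hn1 : N1 ≤ n := le_trans (le_trans (le_max_left _ _) (le_max_left _ _)) hn
  have hn2 : N2 ≤ n := le_trans (le_trans (le_max_right _ _) (le_max_left _ _)) hn
  have hn3 : N3 ≤ n := le_trans (le_trans (le_max_left _ _) (le_max_right _ _)) hn
  have hn34 : max N4 3 ≤ n := le_trans (le_trans (le_max_right _ _) (le_max_right _ _)) hn
  have hn4 : 3 ≤ n := le_trans (le_max_right _ _) hn34
  have hn5 : N4 ≤ n := le_trans (le_max_left _ _) hn34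
  have hℓ1 : 1 ≤ Real.log n := (le_max_left _ _).trans (hN1 n hn1)
  have hℓC : 1 / C1 (1 / 2) ≤ Real.log n := (le_max_right _ _).trans (hN1 n hn1)
  have hℓℓ1 : 1 ≤ Real.log (Real.log n) := (le_max_left _ _).trans (hN2 n hn2)
  have hℓℓC : Real.log (C1 (1 / 2)) ≤ Real.log (Real.log n) := (le_max_right _ _).trans (hN2 n hn2)
  have hp0 : 0 < p := (hN4 n hn5 p hR).1
  have hC1ℓ : 1 ≤ C1 (1 / 2) * Real.log n := by
    have := mul_le_mul_of_nonneg_left hℓC hC1.le
    rwa [mul_one_div_cancel hC1.ne'] at this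
  have hnR : (3 : ℝ) ≤ n := by exact_mod_cast hn4
  set b' := min b (n / 2) with hb'
  have hb2 : 2 * b' ≤ n := by
    have : b' ≤ n / 2 := min_le_right _ _
    omega
  have hmain : (1 + 1 / 1100 : ℝ) ^ (n - 2 * b') ≤
      16 * ((n : ℝ) + 1) ^ 3 * (C1 (1 / 2) * Real.log n) ^ k := by
    by_cases h2b : 2 * b ≤ n
    · have : b' = b := min_eq_left (by omega)
      rw [this]
      by_contra hlt
      exact hno ⟨h2b, (not_le.1 hlt).le⟩
    · have hd : n - 2 * b' ≤ 1 := by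
        have : b' = n / 2 := min_eq_right (by omega)
        omega
      have h1 : (1 + 1 / 1100 : ℝ) ^ (n - 2 * b') ≤ (1 + 1 / 1100) ^ 1 :=
        pow_le_pow_right₀ (by norm_num) hd
      have h2 : (1 : ℝ) ≤ (C1 (1 / 2) * Real.log n) ^ k := one_le_pow₀ hC1ℓ
      have h3 : (1 : ℝ) ≤ ((n : ℝ) + 1) ^ 3 := one_le_pow₀ (by linarith)
      nlinarith
  have hlog : ((n - 2 * b' : ℕ) : ℝ) * Real.log (1 + 1 / 1100) ≤
      9 * (Real.log n + Real.log (Real.log n) / p) := by
    have h1 := Real.log_le_log (by positivity) hmain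
    rw [Real.log_pow, Real.log_mul (by positivity) (by positivity),
      Real.log_mul (by norm_num) (by positivity), Real.log_pow, Real.log_pow,
      Real.log_mul hC1.ne' (by positivity)] at h1
    have h2 : Real.log 16 ≤ 3 * Real.log n := by
      have h21 : Real.log 16 = 4 * Real.log 2 := by
        rw [show (16 : ℝ) = 2 ^ 4 by norm_num, Real.log_pow]; norm_num
      have := Real.log_two_lt_d9
      rw [h21]
      linarith
    have h3 : Real.log ((n : ℝ) + 1) ≤ 2 * Real.log n := by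
      have h31 : (n : ℝ) + 1 ≤ (n : ℝ) ^ 2 := by nlinarith
      have h32 := Real.log_le_log (by positivity) h31
      rw [Real.log_pow] at h32
      exact_mod_cast h32
    have h4 : (k : ℝ) ≤ 3 / p := by
      rw [le_div_iff₀ hp0]; linarith
    have h5 : (k : ℝ) * (Real.log (C1 (1 / 2)) + Real.log (Real.log n)) ≤
        3 / p * (2 * Real.log (Real.log n)) := by
      have h51 : (k : ℝ) * (Real.log (C1 (1 / 2)) + Real.log (Real.log n)) ≤
          k * (2 * Real.log (Real.log n)) :=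
        mul_le_mul_of_nonneg_left (by linarith) (Nat.cast_nonneg _)
      exact h51.trans (mul_le_mul_of_nonneg_right h4 (by linarith))
    have h6 : 0 ≤ Real.log (Real.log n) / p := div_nonneg (by linarith) hp0.le
    have h7 : 3 / p * (2 * Real.log (Real.log n)) = 6 * (Real.log (Real.log n) / p) := by ring
    rw [h7] at h5
    push_cast at h1 h5 ⊢
    linarith
  have hdK : ((n - 2 * b' : ℕ) : ℝ) * Real.log 2 ≤
      K * (Real.log n + Real.log (Real.log n) / p) := by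
    have h1 : ((n - 2 * b' : ℕ) : ℝ) ≤
        9 * (Real.log n + Real.log (Real.log n) / p) / Real.log (1 + 1 / 1100) := by
      rw [le_div_iff₀ hlβ]; exact hlog
    calc ((n - 2 * b' : ℕ) : ℝ) * Real.log 2
        ≤ 9 * (Real.log n + Real.log (Real.log n) / p) / Real.log (1 + 1 / 1100) * Real.log 2 :=
          mul_le_mul_of_nonneg_right h1 hl2.le
      _ = K * (Real.log n + Real.log (Real.log n) / p) := by
          rw [hK]; ring
  constructor
  · have h1 := hN3 n hn3 p hR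
    have h2 : (2 : ℝ) * ((n - 2 * b' : ℕ) : ℝ) ≤ n := by
      have h3 : ((n - 2 * b' : ℕ) : ℝ) ≤
          K * (Real.log n + Real.log (Real.log n) / p) / Real.log 2 := by
        rw [le_div_iff₀ hl2]; exact hdK
      have h4 : 2 * K / Real.log 2 * (Real.log n + Real.log (Real.log n) / p) =
          2 * (K * (Real.log n + Real.log (Real.log n) / p) / Real.log 2) := by ring
      rw [h4] at h1
      linarith
    have h5 : 2 * (n - 2 * b') ≤ n := by exact_mod_cast h2
    omega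
  · have h1 : Real.exp (-(K * (Real.log n + Real.log (Real.log n) / p))) ≤
        Real.exp (-(((n - 2 * b' : ℕ) : ℝ) * Real.log 2)) := Real.exp_le_exp.2 (by linarith)
    have h2 : Real.exp (-(((n - 2 * b' : ℕ) : ℝ) * Real.log 2)) = ((2 : ℝ) ^ (n - 2 * b'))⁻¹ := by
      rw [Real.exp_neg, ← Real.exp_log (show (0 : ℝ) < 2 ^ (n - 2 * b') by positivity),
        Real.log_pow]
    have h3 : (2 : ℝ) ^ n * ((2 : ℝ) ^ (n - 2 * b'))⁻¹ = 4 ^ b' := by
      rw [show (4 : ℝ) = 2 ^ 2 by norm_num, ← pow_mul]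
      have : (2 : ℝ) ^ n = 2 ^ (2 * b') * 2 ^ (n - 2 * b') := by
        rw [← pow_add]; congr 1; omega
      rw [this, mul_assoc, mul_inv_cancel₀ (by positivity), mul_one]
    have h4 := choose_low (n := n) (b := b') (β := 0) hb2 le_rfl (by simp)
    rw [add_zero, one_pow, mul_one] at h4
    have h5 : (2 * (b' : ℝ) + 1) ≤ n + 1 := by
      have : ((2 * b' : ℕ) : ℝ) ≤ n := by exact_mod_cast hb2
      push_cast at this
      linarith
    calc (2 : ℝ) ^ n * Real.exp (-(K * (Real.log n + Real.log (Real.log n) / p)))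
        ≤ 2 ^ n * ((2 : ℝ) ^ (n - 2 * b'))⁻¹ := by
          rw [← h2]; exact mul_le_mul_of_nonneg_left h1 (by positivity)
      _ = 4 ^ b' := h3
      _ ≤ (2 * b' + 1) * n.choose b' := h4
      _ ≤ (n + 1) * n.choose b' := mul_le_mul_of_nonneg_right h5 (Nat.cast_nonneg _)

theorem zoneD_T2 (K : ℝ) (hK : 0 ≤ K) :
    ∃ N : ℕ, ∀ n ≥ N, ∀ p : ℝ, Med n p →
      16 * (4 * (n : ℝ) + 1) * ((4 / 3) ^ n * 3 ^ (n / 4)) * (n + 1) ≤
        (2 : ℝ) ^ n * Real.exp (-(K * (Real.log n + Real.log (Real.log n) / p))) := by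
  obtain ⟨N3, hN3⟩ := an_root2 (100 * K)
  have ht := tendsto_pow_const_div_const_pow_of_one_lt 2 (show (1 : ℝ) < 1125 / 1000 by norm_num)
  have hev : ∀ᶠ n : ℕ in Filter.atTop, (n : ℝ) ^ 2 / (1125 / 1000) ^ n < 1 / 160 :=
    ht.eventually (gt_mem_nhds (by norm_num))
  obtain ⟨N2, hN2⟩ := Filter.eventually_atTop.1 hev
  refine ⟨max N2 (max N3 3), ?_⟩
  intro n hn p hR
  have hn2 : N2 ≤ n := le_trans (le_max_left _ _) hn
  have hn3 : N3 ≤ n := le_trans (le_trans (le_max_left _ _) (le_max_right _ _)) hn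
  have hn4 : 3 ≤ n := le_trans (le_trans (le_max_right _ _) (le_max_right _ _)) hn
  have h1 := hN3 n hn3 p hR
  have hnR : (3 : ℝ) ≤ n := by exact_mod_cast hn4
  have h2 : K * (Real.log n + Real.log (Real.log n) / p) ≤ n * (1 / 100) := by
    have : 100 * K * (Real.log n + Real.log (Real.log n) / p) =
      100 * (K * (Real.log n + Real.log (Real.log n) / p)) := by ring
    rw [this] at h1
    linarith
  have h3 : (99 / 100 : ℝ) ^ n ≤
      Real.exp (-(K * (Real.log n + Real.log (Real.log n) / p))) := by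
    have h31 : (99 / 100 : ℝ) ≤ Real.exp (-(1 / 100)) := by
      have := Real.add_one_le_exp (-(1 / 100) : ℝ)
      linarith
    calc (99 / 100 : ℝ) ^ n ≤ Real.exp (-(1 / 100)) ^ n :=
          pow_le_pow_left₀ (by norm_num) h31 _
      _ = Real.exp (n * (-(1 / 100))) := by rw [Real.exp_nat_mul]
      _ ≤ _ := Real.exp_le_exp.2 (by linarith)
  have h4 := hN2 n hn2
  have h5 : 160 * (n : ℝ) ^ 2 ≤ (1125 / 1000) ^ n := by
    rw [div_lt_iff₀ (by positivity)] at h4
    linarith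
  have h6 : 16 * (4 * (n : ℝ) + 1) * (n + 1) ≤ 160 * (n : ℝ) ^ 2 := by nlinarith
  have h7 : (1125 / 1000 : ℝ) ^ n * (176 / 100) ^ n = 2 ^ n * (99 / 100) ^ n := by
    rw [← mul_pow, ← mul_pow]; norm_num
  calc 16 * (4 * (n : ℝ) + 1) * ((4 / 3) ^ n * 3 ^ (n / 4)) * (n + 1)
      = 16 * (4 * (n : ℝ) + 1) * (n + 1) * ((4 / 3) ^ n * 3 ^ (n / 4)) := by ring
    _ ≤ (1125 / 1000) ^ n * (176 / 100) ^ n :=
        mul_le_mul (h6.trans h5) (Xd_small n) (by positivity) (by positivity)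
    _ = 2 ^ n * (99 / 100) ^ n := h7
    _ ≤ _ := mul_le_mul_of_nonneg_left h3 (by positivity)

end Pool.Agent.H15.RV
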